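import Pool.Agent.Lib.MP_305fdd_al.F2.PF.DefsB

/-!
# MP_305fdd_al, `C_m * Z`, section CZ/P (paths and the bottom in dimension two): definitions

The general part of section PF of the `F_2` project is reused: `Br`, `SG`, `AtInf`, `Le`, `Pr`, `Dv`, `Flag`, `Eqv`, `PT`, `BT`,
`CL`, `Line`, `DR`, `DL`, `DV`, `DesR`, `DesL`, `RFl`, `LFl`, `sh`, `rsh`.  `K` has `p`-degree two; there are no elliptic elements.
`R = ord_R` is not a point of `PZ`.  `ι` is the semilinear symmetry, `s0 ∈ B` restricts to the coordinate `s` of the reducible locus.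
`B ∩ {0 < R}` is the ideal `I`.
-/

set_option autoImplicit false

namespace Pool.Agent.CZP

open MvPolynomial Pool.Agent.F2Ch Pool.Agent.F2PF

section
variable (k : Type) (p : ℕ) {K : Type} [Field k] [Field K] [Algebra k K] {n : ℕ} (φ : K → K)
  (g : Fin n → K)

/-- The frame: `K` has `p`-degree `2`. -/
structure Base2 (b0 : Fin (p ^ 2) → K) (ρ0 : Fin (p ^ 2) → K → K) : Prop where
  gen : FracGen k g
  pb : IsPB p b0 ρ0
  pinv : IsPinv p φ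
  one : φ 1 = 1

/-- THE LOCAL FACTS and the four contradictions (for an exotic group). -/
structure LocZ (R : K → ℝ) (ι : K ≃+* K) (s0 : K) : Prop where
  Rinz : InZ k p φ R
  Rdv : Dv R
  Rnn : ∀ f ∈ Br k g, f ≠ 0 → 0 ≤ R f
  Rpos : ∃ j, 0 < R (g j)
  R9 : ∀ v : K → ℝ, InZ k p φ v → (∃ f, v f ≠ 0) → (∀ f ∈ Br k g, f ≠ 0 → 0 ≤ v f) → Pr R v
  sB : s0 ∈ Br k g ∧ s0 ≠ 0 ∧ R s0 = 0
  sne : ∀ V, Flag k p φ R V → c2 V s0 ≠ 0
  sun : ∀ V V', Flag k p φ R V → Flag k p φ R V' → (0 < c2 V s0 ↔ 0 < c2 V' s0) → Eqv V V'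
  sex : ∃ V, Flag k p φ R V ∧ 0 < c2 V s0
  sio : ∀ V, Flag k p φ R V → (0 < c2 V s0 ↔ c2 V (ι s0) < 0)
  ld : ∀ (Γ : Type) [AddCommGroup Γ] [LinearOrder Γ] [IsOrderedAddMonoid Γ] (V : K → Γ)
    (x : Fin 2 → K) (ex : K → Fin 2 → ℤ), InZ k p φ V → IsVB V x ex →
    ∃ u : ℝ × ℝ, u ≠ 0 ∧ ∀ f ∈ Br k g, f ≠ 0 → u.1 * (ex f 0 : ℝ) + u.2 * (ex f 1 : ℝ) ≤ 0
  l2 : ∀ w : K → ℝ, InZ k p φ w → Dv w → AtInf (Br k g) w → ∀ V, Flag k p φ w V →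
    ∃ V', Flag k p φ w V' ∧ ¬ Eqv V V'
  l3 : ∀ w : K → ℝ, InZ k p φ w → Dv w → AtInf (Br k g) w → ¬ SG (Br k g) w → ∀ V V',
    Flag k p φ w V → PT (Br k g) w V → Flag k p φ w V' → PT (Br k g) w V' → Eqv V V'
  l6 : ∀ w : K → ℝ, InZ k p φ w → Dv w → AtInf (Br k g) w → ¬ SG (Br k g) w → ∀ V V',
    Flag k p φ w V → PT (Br k g) w V → Flag k p φ w V' → BT (Br k g) w V' →
    ∃ ρ : ℝ, 0 < ρ ∧ ∀ h ∈ Br k g, h ≠ 0 → w h = 0 → c2 V h + ρ * c2 V' h ≤ 0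
  ik : ∀ c : k, ι (algebraMap k K c) = algebraMap k K (c ^ p)
  iB : ∀ f, f ∈ Br k g ↔ ι f ∈ Br k g
  iφ : ∀ f, ι (φ f) = φ (ι f)
  iR : ∀ f, R (ι f) = R f
  iper : ∀ f, ∃ N : ℕ, 0 < N ∧ ι^[N] f = f
  ineg : ∀ v : K → ℝ, InZ k p φ v → AtInf (Br k g) v → ∃ z ∈ Br k g, z ≠ 0 ∧ ι z = z ∧ v z < 0
  iinz : ∀ (Γ : Type) [AddCommGroup Γ] [LinearOrder Γ] [IsOrderedAddMonoid Γ] (V : K → Γ),
    InZ k p φ V → InZ k p φ (fun f => V (ι f))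
  icl : ∀ (s1 s2 : ℝ) (y : ℝ → K → ℝ) (M : K → Finset (ℝ × ℝ)), CL k p φ g s1 s2 y M →
    CL k p φ g s1 s2 (fun t f => y t (ι f)) (fun f => M (ι f))
  E1 : ∀ (s1 s2 : ℝ) (y : ℝ → K → ℝ) (M : K → Finset (ℝ × ℝ)), CL k p φ g s1 s2 y M →
    ¬ ∀ t, s1 < t → t < s2 → SG (Br k g) (y t)
  E2 : ∀ w : K → ℝ, InZ k p φ w → Dv w → AtInf (Br k g) w → ¬ SG (Br k g) w →
    (∀ f, w (ι f) = w f) → ∀ V V', Flag k p φ w V → BT (Br k g) w V → Flag k p φ w V' →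
    PT (Br k g) w V' → False
  E3 : ∀ w : K → ℝ, InZ k p φ w → Dv w → AtInf (Br k g) w → (∀ f, w (ι f) = w f) →
    ∀ V, Flag k p φ w V → (∀ V', Flag k p φ w V' → Eqv V V' ∨ Eqv (fun f => V (ι f)) V') →
    (∀ f ∈ Br k g, f ≠ 0 → w f = 0 → 0 ≤ c2 V f) → False
  E4 : ∀ w : K → ℝ, InZ k p φ w → Dv w → AtInf (Br k g) w → SG (Br k g) w →
    (∀ f, w (ι f) = w f) → (∀ f ∈ Br k g, f ≠ 0 → 0 < R f → w f < 0) → False

/-- the standing assumptions -/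
def CtxZ (R : K → ℝ) (ι : K ≃+* K) (s0 : K) : Prop :=
  (∃ (b0 : Fin (p ^ 2) → K) (ρ0 : Fin (p ^ 2) → K → K), Base2 k p φ g b0 ρ0) ∧
    LocZ k p φ g R ι s0

/-- The points: compatible, not semi-good, at infinity; a divisorial point has a flag. -/
def PZ (x : K → ℝ) : Prop :=
  InZ k p φ x ∧ ¬ SG (Br k g) x ∧ AtInf (Br k g) x ∧ (Dv x → ∃ V, Flag k p φ x V)

/-- `y`, `M` is a line on `[0, s]` of points which are not semi-good and at infinity, and it descends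
(to the right). -/
structure DnL (s : ℝ) (y : ℝ → K → ℝ) (M : K → Finset (ℝ × ℝ)) : Prop where
  cl : CL k p φ g 0 s y M
  ns : ∀ t, 0 ≤ t → t ≤ s → ¬ SG (Br k g) (y t)
  ai : ∀ t, 0 ≤ t → t ≤ s → AtInf (Br k g) (y t)
  des : DesR (Br k g) M 0

/-- `x'` is the bottom of a straight descending segment with top `x`, or proportional to `x`. -/
def Dn (x x' : K → ℝ) : Prop :=
  (PZ k p φ g x ∧ Pr x x') ∨
  ∃ (s : ℝ) (y : ℝ → K → ℝ) (M : K → Finset (ℝ × ℝ)), DnL k p φ g s y M ∧ Pr x (y 0) ∧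
    Pr (y s) x'

/-- `x'` is reached from `x` by finitely many straight descending segments -/
def Rch (x x' : K → ℝ) : Prop := Relation.ReflTransGen (Dn k p φ g) x x'

end

end Pool.Agent.CZP
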