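import Pool.Agent.Lib.MP_305fdd_al.CZ.P.Defs
import Pool.Agent.Lib.MP_305fdd_al.CZ.W.Defs
import Pool.Agent.Lib.MP_305fdd_al.CZ.E.Ifc

/-!
# MP_305fdd_al, `C_m * Z`, section CZ/P: from the core data, the local facts of section W and E1 .. E4 to the context `CtxZ`
-/

set_option autoImplicit false

namespace Pool.Agent.CZP

open MvPolynomial Pool.Agent.F2Ch Pool.Agent.F2PF Pool.Agent.CZ

private theorem br_neg {K Γ : Type} [Field K] [AddCommGroup Γ] [LinearOrder Γ]
    [IsOrderedAddMonoid Γ] {V : K → Γ} (hV : IsV V) (h1 : V 1 = 0) : V (-1) = 0 := by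
  have hne : (-1 : K) ≠ 0 := neg_ne_zero.2 one_ne_zero
  have h := hV.mul (-1) (-1) hne hne
  rw [neg_one_mul, neg_neg, h1] at h
  rcases lt_trichotomy (V (-1)) 0 with h2 | h2 | h2
  · exact absurd h (add_neg h2 h2).ne'
  · exact h2
  · exact absurd h (add_pos h2 h2).ne

private theorem br_one {K Γ : Type} [Field K] [AddCommGroup Γ] [LinearOrder Γ]
    [IsOrderedAddMonoid Γ] {V : K → Γ} (hV : IsV V) (h1 : V 1 = 0) (i : K)
    (hi : i = 0 ∨ 0 < V i) : V (1 + i) = 0 ∧ 1 + i ≠ 0 := by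
  have hm1 := br_neg hV h1
  rcases hi with rfl | hi
  · rw [add_zero]; exact ⟨h1, one_ne_zero⟩
  · have hi0 : i ≠ 0 := by
      rintro rfl
      rw [hV.zero] at hi
      exact lt_irrefl _ hi
    have hne : 1 + i ≠ 0 := by
      intro h
      have : i = -1 := by linear_combination h
      rw [this, hm1] at hi
      exact lt_irrefl _ hi
    refine ⟨?_, hne⟩
    have h2 := hV.add 1 i one_ne_zero hi0 hne
    rw [h1, min_eq_left hi.le] at h2
    rcases h2.lt_or_eq with h3 | h3
    · exfalso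
      have hmi : V (-i) = V i := by
        have := hV.mul (-1) i (neg_ne_zero.2 one_ne_zero) hi0
        rw [neg_one_mul, hm1, zero_add] at this
        exact this
      have h4 := hV.add (1 + i) (-i) hne (neg_ne_zero.2 hi0) (by
        rw [add_neg_cancel_right]; exact one_ne_zero)
      rw [add_neg_cancel_right, h1, hmi] at h4
      exact absurd h4 (not_le.2 (lt_min h3 hi))
    · exact h3.symm

section
variable {p m : ℕ} [Fact p.Prime] {k K G : Type} [Field k] [CharP k p] [IsAlgClosed k]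
  [Field K] [Algebra k K] [Group G] (C : Core p m k K G)

private theorem br_fst {V : K → ℝ ×ₗ ℝ} (hV : Flag k p C.φ C.RR V) {f : K} (hf : C.RR f = 0) :
    (0 < V f ↔ 0 < c2 V f) ∧ (V f < 0 ↔ c2 V f < 0) ∧ (V f = 0 ↔ c2 V f = 0) := by
  have h1 : (ofLex (V f)).1 = 0 := by rw [hV.fst f, hf]
  refine ⟨?_, ?_, ?_⟩
  · rw [Prod.Lex.lt_iff]
    constructor
    · rintro (h | ⟨h, h'⟩)
      · exact absurd h (by rw [h1]; exact lt_irrefl _)
      · exact h'
    · intro h
      exact Or.inr ⟨h1.symm, h⟩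
  · rw [Prod.Lex.lt_iff]
    constructor
    · rintro (h | ⟨h, h'⟩)
      · exact absurd h (by rw [h1]; exact lt_irrefl _)
      · exact h'
    · intro h
      exact Or.inr ⟨h1, h⟩
  · constructor
    · intro h
      rw [c2, h]; rfl
    · intro h
      have : ofLex (V f) = 0 := Prod.ext h1 h
      exact this

theorem ctxOf (hW : CZW.Loc C) (h1 : I_E1) (h2 : I_E2) (h3 : I_E3) (h4 : I_E4)
    (hno : ¬ Onto m G C.c) : ∃ s0, CtxZ k p C.φ C.t C.RR C.ι s0 := by
  obtain ⟨s0, hs0⟩ := C.res_surj (AddMonoidAlgebra.single (1 : ℤ) (1 : k))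
  have hne : (s0 : K) ≠ 0 := by
    intro h
    have h' : s0 = 0 := Subtype.ext h
    rw [h', map_zero] at hs0
    have := congrArg (fun a : Ls k => a.coeff 1) hs0
    simp at this
  have hR0 : C.RR (s0 : K) = 0 := by
    have h5 : ¬ 0 < C.R (s0 : K) := by
      rw [C.R_pos s0 hne, hs0]
      intro h
      have := congrArg (fun a : Ls k => a.coeff 1) h
      simp at this
    have h6 := C.R_nn s0
    have : C.R (s0 : K) = 0 := by omega
    simp [Core.RR, this]
  have hiR : ∀ f, C.RR (C.ι f) = C.RR f := fun f => congrFun hW.i_R f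
  -- the values of s0 and ι s0 are opposite
  have hopp : ∀ V, Flag k p C.φ C.RR V → c2 V (C.ι s0) = -c2 V s0 := by
    intro V hV
    have hιne : C.ι (s0 : K) ≠ 0 := by
      rw [Ne, map_eq_zero_iff C.ι C.ι.injective]; exact hne
    obtain ⟨f', hf', hco⟩ := hW.i_res s0
    have hV1 : V 1 = 0 := by
      have := hV.inz.triv 1
      rwa [map_one] at this
    have hres : C.res (s0 * f' - 1) = 0 := by
      have hf1 : C.res f' = AddMonoidAlgebra.single (-1 : ℤ) (1 : k) := by
        ext n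
        rw [hco n, hs0]
        simp only [AddMonoidAlgebra.coeff_single]
        rcases eq_or_ne n (-1) with rfl | hn
        · simp
        · have : (1 : ℤ) ≠ -n := fun h => hn (by omega)
          rw [Finsupp.single_eq_of_ne this.symm, Finsupp.single_eq_of_ne hn, zero_pow]
          exact (Fact.out : p.Prime).ne_zero
      rw [map_sub, map_mul, map_one, hs0, hf1, AddMonoidAlgebra.single_mul_single,
        AddMonoidAlgebra.one_def, mul_one, sub_eq_zero]
      rfl
    have hi : ((s0 * f' - 1 : C.B) : K) = 0 ∨ 0 < V ((s0 * f' - 1 : C.B) : K) := by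
      by_cases h0 : ((s0 * f' - 1 : C.B) : K) = 0
      · exact Or.inl h0
      · right
        have h5 := (C.R_pos _ h0).2 hres
        rw [Prod.Lex.lt_iff]
        left
        have h6 : (ofLex (V ((s0 * f' - 1 : C.B) : K))).1 = (C.R ((s0 * f' - 1 : C.B) : K) : ℝ) :=
          hV.fst _
        rw [h6]
        show (0 : ℝ) < _
        exact_mod_cast h5
    have h7 := (br_one hV.inz.isv hV1 _ hi).1
    have h8 : (1 : K) + ((s0 * f' - 1 : C.B) : K) = (s0 : K) * C.ι s0 := by
      rw [← hf']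
      push_cast
      ring
    rw [h8, hV.inz.isv.mul _ _ hne hιne] at h7
    have h9 : c2 V s0 + c2 V (C.ι s0) = 0 := by
      have := congrArg (fun a : ℝ ×ₗ ℝ => (ofLex a).2) h7
      simpa [c2] using this
    linarith
  refine ⟨(s0 : K), ⟨C.b0, C.ρ0, ⟨C.fracgen, C.pb, C.pinv, C.one⟩⟩, ?_⟩
  have hmemI : ∀ f ∈ C.I, f ∈ Br k C.t ∧ f ≠ 0 ∧ 0 < C.RR f := by
    intro f hf
    have hb : f ∈ Br k C.t := (hW.mem f).2 hf.2.1
    exact ⟨hb, hf.1, (hW.rI f hb hf.1).2 hf⟩
  exact
  { Rinz := hW.rinz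
    Rdv := hW.rdv
    Rnn := hW.rnn
    Rpos := ⟨C.j0, by
      rw [C.κ0_t]
      simp [Core.RR, C.R_κ0]⟩
    R9 := hW.r9
    sB := ⟨(hW.mem _).2 s0.2, hne, hR0⟩
    sne := fun V hV h => hW.fR1 V hV s0 hs0 ((br_fst C hV hR0).2.2.2 h)
    sun := fun V V' hV hV' h => hW.fR2 V V' hV hV' s0 hs0 (by
      rw [(br_fst C hV hR0).1, (br_fst C hV' hR0).1]; exact h)
    sex := by
      obtain ⟨V, hV, -, hV2⟩ := hW.fR0
      exact ⟨V, hV, ((br_fst C hV hR0).1).1 (hV2 s0 hs0).1⟩
    sio := fun V hV => by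
      rw [hopp V hV]
      constructor <;> intro h <;> linarith
    ld := hW.ld
    l2 := fun w hw hd ha V hV => by
      obtain ⟨f, hf, hf0, hfn⟩ := ha
      exact hW.l2 w hw hd ⟨f, hfn.ne⟩ V hV
    l3 := hW.l3
    l6 := fun w hw hd ha hn V V' hV hP hV' _ => hW.l6 w hw hd ha hn V V' hV hP hV'
    ik := C.ι_k
    iB := fun f => (hW.i_B f).symm
    iφ := C.ι_φ
    iR := hiR
    iper := hW.i_N
    ineg := fun v hv ha => by
      obtain ⟨⟨l, hl⟩, -⟩ := hW.inf v hv ha
      refine ⟨C.T l, (hW.mem _).2 (C.T_mem l), ?_, C.ι_T l, hl⟩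
      intro h
      rw [h, hv.isv.zero] at hl
      exact lt_irrefl _ hl
    iinz := hW.i_inz
    icl := hW.i_cl
    E1 := fun s1 s2 y M hcl hall => h1 p m k K G C hno s1 s2 y M hcl hall
    E2 := fun w hw hd ha _ hf V V' hV hB hV' hP => h2 p m k K G C hno w hw hd ha hf V V' hV hB hV' hP
    E3 := fun w hw hd ha hf V hV hall hnn => h3 p m k K G C hno w hw hd ha hf V hV hnn
      (fun V' hV' => (hall V' hV').imp (fun h g => (h g).symm) (fun h g => (h g).symm))
    E4 := fun w hw hd ha hs hf hI => h4 p m k K G C hno w hw hd hs ha hf (fun f hf' =>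
      hI f (hmemI f hf').1 (hmemI f hf').2.1 (hmemI f hf').2.2) }

end

end Pool.Agent.CZP
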