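import Pool.Agent.Lib.MP_305fdd_al.CZ.P.StmB
import Pool.Agent.Lib.MP_305fdd_al.F2.PF.StmB

/-!
# MP_305fdd_al, `C_m * Z`, piece [CZP afin]
-/

set_option autoImplicit false

namespace Pool.Agent.CZP

open MvPolynomial Pool.Agent.F2Ch Pool.Agent.F2PF

theorem p_afin (hatop : S_atop) (hafix : S_afix) (hafl : S_afl) (hfpb : S_fpb)
    (hline : F2PF.S_line) (hlfl : F2PF.S_lfl) : S_afin := by
  intro p _ k K _ _ _ _ _ n g φ R ι s0 hC σ x hx hx'
  obtain ⟨s, y, M, hT⟩ := hatop p k K n g φ R ι s0 hC σ x hx hx'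
  obtain ⟨hfix, hDv⟩ := hafix p k K n g φ R ι s0 hC σ s y M hT
  have hL : LocZ k p φ g R ι s0 := hC.2
  obtain ⟨b0, ρ0, hB⟩ := hC.1
  have hs : 0 < s := hT.dn.cl.1
  have hns := hT.dn.ns s hs.le le_rfl
  have hai := hT.dn.ai s hs.le le_rfl
  have hin : InZ k p φ (y s) :=
    (((hline p k K n g φ).2 0 s y M hT.dn.cl).2.1 s hs.le le_rfl).1
  obtain ⟨V0, hV0⟩ := (hlfl p k K n g φ hB.gen 0 s y M hT.dn.cl s hs le_rfl).1
  obtain ⟨hF0, hBT0, hcl⟩ := hafl p k K n g φ R ι s0 hC σ s y M hT V0 hV0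
  by_cases hex : ∃ V', Flag k p φ (y s) V' ∧ PT (Br k g) (y s) V'
  · obtain ⟨V', hF', hP'⟩ := hex
    exact hL.E2 (y s) hin hDv hai hns hfix V0 V' hF0 hBT0 hF' hP'
  · refine hL.E3 (y s) hin hDv hai hfix V0 hF0 ?_ ?_
    · intro V' hF'
      obtain ⟨s', y', M', -, -, -, -, h⟩ :=
        hfpb p k K n g φ R ι s0 hC (y s) V' hF' hns hai
      rcases h with ⟨hP', -⟩ | ⟨hB', -⟩
      · exact absurd ⟨V', hF', hP'⟩ hex
      · exact hcl V' hF' hB'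
    · intro f hf hf0 hw
      obtain ⟨μ, hμ⟩ := hBT0
      have h := hμ f hf hf0
      simp only [dot] at h
      rw [hw] at h
      linarith

end Pool.Agent.CZP
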