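import Pool.Agent.Lib.MP_305fdd_al.CZ.P.StmB

/-!
# MP_305fdd_al, `C_m * Z`, piece [CZP afix]
-/

set_option autoImplicit false

namespace Pool.Agent.CZP

open MvPolynomial Pool.Agent.F2Ch Pool.Agent.F2PF

theorem p_afix (hinp : S_inp) (hrch : S_rch) (hile : S_ile) (hifix : S_ifix) : S_afix := by
  intro p _ k K _ _ _ _ _ n g φ R ι s0 hC σ s y M hT
  have hI := hinp p k K n g φ R ι s0 hC
  have hs : 0 < s := hT.dn.cl.1
  have hPZ : PZ k p φ g (y s) := (hI σ (y s)).1 hT.hi.1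
  have h1 : InP k p φ g R s0 (-σ) (fun f => y s (ι f)) := (hI σ (y s)).2.2.2.1 hT.hi.1
  have h2 : InP k p φ g R s0 σ (fun f => y s (ι f)) := by
    have h := (hI (-σ) (y s)).2.2.2.1 hT.hi.2
    rwa [neg_neg] at h
  have h3 := hT.top _ h2 h1
  have h4 := ((hrch p k K n g φ R ι s0 hC).2 (y s) _ hPZ h3).2.1
  have hfix : ∀ f, y s (ι f) = y s f :=
    (hile p k K n g φ R ι s0 hC (y s) hPZ.1 hPZ.2.2.1).1 hPZ.2.1 h4
  refine ⟨hfix, ?_⟩
  by_contra hnd
  obtain ⟨δ, hδ, h5⟩ := hifix p k K n g φ R ι s0 hC 0 s y M hT.dn.cl s hs.le le_rfl hnd hfix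
  have ht1 : s / 2 ≤ max (s / 2) (s - δ / 2) := le_max_left _ _
  have ht2 : s - δ / 2 ≤ max (s / 2) (s - δ / 2) := le_max_right _ _
  have ht3 : max (s / 2) (s - δ / 2) < s := max_lt (by linarith) (by linarith)
  have h6 := h5 (max (s / 2) (s - δ / 2)) (by linarith) ht3.le
    (by rw [abs_lt]; constructor <;> linarith)
  obtain ⟨h7, h8⟩ := hT.lo (max (s / 2) (s - δ / 2)) (by linarith) ht3
  have h9 := (hI σ (y (max (s / 2) (s - δ / 2)))).2.2.2.1 h7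
  have h10 : (fun f => y (max (s / 2) (s - δ / 2)) (ι f)) = y (max (s / 2) (s - δ / 2)) :=
    funext h6
  rw [h10] at h9
  exact h8 h9

end Pool.Agent.CZP
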