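import Pool.Agent.Lib.MP_305fdd_al.CZ.P.Stm
import Pool.Agent.Lib.MP_305fdd_al.F2.PF.StmB

/-!
# MP_305fdd_al, `C_m * Z`, piece [CZP anti]
-/

set_option autoImplicit false

namespace Pool.Agent.CZP

open MvPolynomial Pool.Agent.F2Ch Pool.Agent.F2PF

/-- [CZP anti] -/
theorem p_anti (h1 : F2PF.S_strict) (h2 : F2PF.S_line) (h3 : F2PF.S_pr) : S_anti := by
  intro p _ k K _ _ _ _ _ n g φ R ι s0 hC
  obtain ⟨⟨b0, ρ0, hbase⟩, hL⟩ := hC
  obtain ⟨hBs', hline⟩ := h2 p k K n g φ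
  have hBs : Bs (Br k g) := hBs' hbase.gen
  obtain ⟨hpr, -, -⟩ := h3 p k K n g φ
  have hzero : ∀ v : K → ℝ, IsV v → (∀ f ∈ Br k g, f ≠ 0 → v f = 0) → ∀ f, v f = 0 := by
    intro v hv h f
    by_cases hf : f = 0
    · rw [hf, hv.zero]
    · obtain ⟨a, ha, b, hb, hb0, hab⟩ := hBs.frac f
      have ha0 : a ≠ 0 := by
        rw [← hab]
        exact mul_ne_zero hf hb0
      have e := hv.mul f b hf hb0
      rw [hab, h a ha ha0, h b hb hb0] at e
      linarith
  refine ⟨?_, ?_, ?_, ?_, ?_⟩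
  · intro v v' hv hv' hsg hle' hle
    by_cases hinf : AtInf (Br k g) v
    · exact h1.1 K (Br k g) hBs v v' hv.isv hv'.isv hinf hsg hle' hle
    · have hnn : ∀ f ∈ Br k g, f ≠ 0 → 0 ≤ v f := by
        intro f hf hf0
        by_contra hcon
        exact hinf ⟨f, hf, hf0, not_le.1 hcon⟩
      have hex : ∃ f ∈ Br k g, f ≠ 0 ∧ 0 < v f := by
        by_contra hcon
        push Not at hcon
        exact hsg fun f hf hf0 => hcon f hf hf0
      obtain ⟨f, hf, hf0, hvf⟩ := hex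
      have hR : Pr R v := hL.R9 v hv ⟨f, hvf.ne'⟩ hnn
      obtain ⟨c, hc, hle⟩ := hle
      have hnn' : ∀ f ∈ Br k g, f ≠ 0 → 0 ≤ v' f := by
        intro f hf hf0
        have h4 := (hnn f hf hf0).trans (hle f hf hf0)
        exact nonneg_of_mul_nonneg_right h4 hc
      have hv'f : v' f ≠ 0 := by
        intro h0
        have h4 := hle f hf hf0
        rw [h0, mul_zero] at h4
        exact absurd hvf (not_lt.2 h4)
      have hR' : Pr R v' := hL.R9 v' hv' ⟨f, hv'f⟩ hnn'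
      exact (hpr v R v').2.2 ((hpr R v v).2.1 hR) hR'
  · intro s1 s2 y M hCL t t' ht1 ht2 ht1' ht2' hP
    exact h1.2 K (Br k g) hBs (Set.Icc s1 s2) y M (hline s1 s2 y M hCL).1 t ⟨ht1, ht2⟩ t'
      ⟨ht1', ht2'⟩ hP
  · intro v hv hnt hsg
    by_contra hinf
    obtain ⟨f, hf⟩ := hnt
    apply hf
    apply hzero v hv.isv
    intro f hf hf0
    apply le_antisymm (hsg f hf hf0)
    by_contra hcon
    exact hinf ⟨f, hf, hf0, not_le.1 hcon⟩
  · intro v hv hnt
    constructor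
    · rintro ⟨f, hf, hf0, hlt⟩ ⟨c, hc, h⟩
      have h4 := mul_nonneg hc.le (hL.Rnn f hf hf0)
      rw [← h f] at h4
      exact absurd hlt (not_lt.2 h4)
    · intro hP
      by_contra hinf
      apply hP
      apply hL.R9 v hv hnt
      intro f hf hf0
      by_contra hcon
      exact hinf ⟨f, hf, hf0, not_le.1 hcon⟩
  · intro hsg
    obtain ⟨j, hj⟩ := hL.Rpos
    have hmem : g j ∈ Br k g := ⟨X j, by simp⟩
    have hne : g j ≠ 0 := by
      intro h0
      rw [h0, hL.Rinz.isv.zero] at hj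
      exact lt_irrefl _ hj
    exact absurd hj (not_lt.2 (hsg (g j) hmem hne))

end Pool.Agent.CZP
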