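import Pool.Agent.Lib.MP_305fdd_al.CZ.P.Stm
import Pool.Agent.Lib.MP_305fdd_al.F2.PF.Main

/-!
# MP_305fdd_al, C_m * Z, section CZ/P: [CZP asc] (ascent)
-/

set_option autoImplicit false

namespace Pool.Agent.CZP

open MvPolynomial Pool.Agent.F2Ch Pool.Agent.F2PF

section
variable {K : Type} [Field K]

private theorem asc_refl (v : K → ℝ) : Pr v v := ⟨1, one_pos, fun _ => (one_mul _).symm⟩

private theorem asc_sh0 (M : K → Finset (ℝ × ℝ)) : sh 0 M = M := by
  funext f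
  unfold sh
  have h : (fun m : ℝ × ℝ => (m.1 + 0 * m.2, m.2)) = id := by
    funext m
    simp
  rw [h, Finset.image_id]

private theorem asc_pt {B : Set K} {w : K → ℝ} {V : K → ℝ ×ₗ ℝ} {a b : ℝ} (hb : 0 < b)
    (h : (a, b) ∈ DV B w (c2 V)) : PT B w V := by
  refine ⟨a / b, fun f hf hf0 => ?_⟩
  have h1 := h f hf hf0
  unfold dot at h1 ⊢
  simp only at h1 ⊢
  have h2 : a / b * w f + 1 * c2 V f = (a * w f + b * c2 V f) / b := by
    field_simp
  rw [h2]
  exact div_nonpos_of_nonpos_of_nonneg h1 hb.le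

end

section
variable {k : Type} {p : ℕ} {K : Type} [Field k] [Field K] [Algebra k K] {n : ℕ} {φ : K → K}
  {g : Fin n → K}

private theorem asc_end [Fact p.Prime] [CharP k p] [PerfectRing k p] (hdnl : S_dnl)
    {R : K → ℝ} {ι : K ≃+* K} {s0 : K} (hC : CtxZ k p φ g R ι s0) {σ : ℝ} {Y : ℝ → K → ℝ}
    {N : K → Finset (ℝ × ℝ)} (h : DnL k p φ g σ Y N) {v m : K → ℝ} (h0 : Y 0 = v)
    (h1 : Y σ = m) (hn : ¬ Pr v m) :
    ∃ v, PZ k p φ g v ∧ Dn k p φ g v m ∧ ¬ Pr v m := by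
  have hσ : 0 ≤ σ := h.cl.1.le
  refine ⟨v, ?_, Or.inr ⟨σ, Y, N, h, ?_, ?_⟩, hn⟩
  · rw [← h0]
    exact (hdnl p k K n g φ R ι s0 hC σ Y N h).1 0 le_rfl hσ
  · rw [h0]; exact asc_refl v
  · rw [h1]; exact asc_refl m

/-- one-sided shrinking -/
private theorem asc_shr [Fact p.Prime] [CharP k p] [PerfectRing k p]
    (hg : FracGen k g) {s : ℝ} {y : ℝ → K → ℝ} {M : K → Finset (ℝ × ℝ)}
    (h : CL k p φ g 0 s y M) (hns : ¬ SG (Br k g) (y 0)) (hai : AtInf (Br k g) (y 0)) :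
    ∃ s', 0 < s' ∧ s' ≤ s ∧ CL k p φ g 0 s' y M ∧
      ∀ t, 0 ≤ t → t ≤ s' → ¬ SG (Br k g) (y t) ∧ AtInf (Br k g) (y t) := by
  have hs : 0 < s := h.1
  obtain ⟨δ1, hδ1, hd1⟩ := (t_dense p k K n g φ hg 0 s y M h).2.2.1 0 le_rfl hs.le hns
  obtain ⟨δ2, hδ2, hd2⟩ := (t_dense p k K n g φ hg 0 s y M h).2.2.2 0 le_rfl hs.le hai
  have hδ : 0 < min δ1 δ2 := lt_min hδ1 hδ2
  have hpos : 0 < min s (min δ1 δ2 / 2) := lt_min hs (half_pos hδ)
  refine ⟨min s (min δ1 δ2 / 2), hpos, min_le_left _ _, ?_, ?_⟩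
  · exact ((t_line p k K n g φ).2 0 s y M h).2.2 0 _ le_rfl hpos (min_le_left _ _)
  · intro t h0 h1
    have h2 : |t - 0| < min δ1 δ2 := by
      rw [sub_zero, abs_of_nonneg h0]
      exact lt_of_le_of_lt (h1.trans (min_le_right _ _)) (half_lt_self hδ)
    exact ⟨hd1 t h0 (h1.trans (min_le_left _ _)) (lt_of_lt_of_le h2 (min_le_left _ _)),
      hd2 t h0 (h1.trans (min_le_left _ _)) (lt_of_lt_of_le h2 (min_le_right _ _))⟩

/-- two-sided shrinking -/
private theorem asc_shr2 [Fact p.Prime] [CharP k p] [PerfectRing k p]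
    (hg : FracGen k g) {s : ℝ} {y : ℝ → K → ℝ} {M : K → Finset (ℝ × ℝ)}
    (hs : 0 < s) (h : CL k p φ g (-s) s y M) (hns : ¬ SG (Br k g) (y 0))
    (hai : AtInf (Br k g) (y 0)) :
    ∃ s', 0 < s' ∧ s' ≤ s ∧ CL k p φ g (-s') s' y M ∧
      ∀ t, -s' ≤ t → t ≤ s' → ¬ SG (Br k g) (y t) ∧ AtInf (Br k g) (y t) := by
  obtain ⟨δ1, hδ1, hd1⟩ := (t_dense p k K n g φ hg (-s) s y M h).2.2.1 0 (by linarith) hs.le hns
  obtain ⟨δ2, hδ2, hd2⟩ := (t_dense p k K n g φ hg (-s) s y M h).2.2.2 0 (by linarith) hs.le hai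
  have hδ : 0 < min δ1 δ2 := lt_min hδ1 hδ2
  have hpos : 0 < min s (min δ1 δ2 / 2) := lt_min hs (half_pos hδ)
  refine ⟨min s (min δ1 δ2 / 2), hpos, min_le_left _ _, ?_, ?_⟩
  · exact ((t_line p k K n g φ).2 (-s) s y M h).2.2 _ _ (neg_le_neg (min_le_left _ _))
      (by linarith) (min_le_left _ _)
  · intro t h0 h1
    have h2 : -s ≤ t := le_trans (neg_le_neg (min_le_left _ _)) h0
    have h4 : |t - 0| < min δ1 δ2 := by
      rw [sub_zero, abs_lt]
      have h3 : min s (min δ1 δ2 / 2) ≤ min δ1 δ2 / 2 := min_le_right _ _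
      constructor <;> linarith
    exact ⟨hd1 t h2 (h1.trans (min_le_left _ _)) (lt_of_lt_of_le h4 (min_le_left _ _)),
      hd2 t h2 (h1.trans (min_le_left _ _)) (lt_of_lt_of_le h4 (min_le_right _ _))⟩

end

theorem p_asc (hanti : S_anti) (hcflag : S_cflag) (hcirr : S_cirr)
    (hmono : S_mono) (hsegd : S_segd) (hsegl : S_segl) (hdnl : S_dnl) :
    S_asc := by
  intro p _ k K _ _ _ _ _ n g φ R ι s0 hC m hm
  obtain ⟨⟨b0, ρ0, hbase⟩, hL⟩ := id hC
  obtain ⟨hmz, hns, hinf, hflag⟩ := hm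
  obtain ⟨a1, a2, a3, a4, a5⟩ := hanti p k K n g φ R ι s0 hC
  have hnt : ∃ f, m f ≠ 0 := by
    obtain ⟨f, -, -, hf⟩ := hinf
    exact ⟨f, ne_of_lt hf⟩
  have hg := hbase.gen
  by_cases hDv : Dv m
  · -- divisorial
    obtain ⟨V0, hV0⟩ := hflag hDv
    obtain ⟨V1, hV1, hneq⟩ := hL.l2 m hmz hDv hinf V0 hV0
    -- one flag: the conclusion or pole type
    have key : ∀ V : K → ℝ ×ₗ ℝ, Flag k p φ m V →
        (∃ v, PZ k p φ g v ∧ Dn k p φ g v m ∧ ¬ Pr v m) ∨ PT (Br k g) m V := by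
      intro V hV
      obtain ⟨s, y, M, hcl, hy0, hrf⟩ := hcflag p k K n g φ R ι s0 hC m V hnt hV
      obtain ⟨s', hs', hss, hcl', hns'⟩ := asc_shr hg hcl (by rw [hy0]; exact hns)
        (by rw [hy0]; exact hinf)
      have hdir := hmono p k K n g φ R ι s0 hC 0 s' y M hcl'
        (fun t h1 h2 => hns' t h1.le h2.le)
      rcases hdir with hdir | hdir
      · right
        have h1 := hsegd p k K n g φ R ι s0 hC 0 s' y M hcl' hns'
          (fun t h1 h2 => (hdir t h1 h2).1) 0 s' le_rfl hs' le_rfl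
        obtain ⟨u, hu, hsu⟩ := h1.des
        rw [asc_sh0] at hu
        have h2 := (hrf.dr u).1 hu
        rw [hy0] at h2
        exact asc_pt hsu h2
      · left
        have h1 := hsegl p k K n g φ R ι s0 hC 0 s' y M hcl' hns'
          (fun t h1 h2 => (hdir t h1 h2).1) 0 s' le_rfl hs' le_rfl
        refine asc_end hdnl hC h1 (v := y s') (m := m) ?_ ?_ ?_
        · show y (s' - 0) = y s'
          rw [sub_zero]
        · show y (s' - (s' - 0)) = m
          rw [sub_zero, sub_self, hy0]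
        · intro hp
          rw [← hy0] at hp
          have := a2 0 s' y M hcl' s' 0 hs'.le le_rfl le_rfl hs'.le hp
          exact hs'.ne' this
    rcases key V0 hV0 with h | h
    · exact h
    rcases key V1 hV1 with h' | h'
    · exact h'
    exact absurd (hL.l3 m hmz hDv hinf hns V0 V1 hV0 h hV1 h') hneq
  · -- irrational
    obtain ⟨s, y, M, hs, hcl, hy0⟩ := hcirr p k K n g φ R ι s0 hC m hmz hDv
    obtain ⟨s', hs', hss, hcl', hns'⟩ := asc_shr2 hg hs hcl (by rw [hy0]; exact hns)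
      (by rw [hy0]; exact hinf)
    have hdir := hmono p k K n g φ R ι s0 hC (-s') s' y M hcl'
      (fun t h1 h2 => hns' t h1.le h2.le)
    rcases hdir with hdir | hdir
    · have h1 := hsegd p k K n g φ R ι s0 hC (-s') s' y M hcl' hns'
        (fun t h1 h2 => (hdir t h1 h2).1) (-s') 0 le_rfl (by linarith) hs'.le
      refine asc_end hdnl hC h1 (v := y (-s')) (m := m) ?_ ?_ ?_
      · show y (-s' + 0) = y (-s')
        rw [add_zero]
      · show y (-s' + (0 - -s')) = m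
        rw [← hy0]
        congr 1
        ring
      · intro hp
        rw [← hy0] at hp
        have := a2 (-s') s' y M hcl' (-s') 0 le_rfl (by linarith) (by linarith) hs'.le hp
        linarith
    · have h1 := hsegl p k K n g φ R ι s0 hC (-s') s' y M hcl' hns'
        (fun t h1 h2 => (hdir t h1 h2).1) 0 s' (by linarith) hs' le_rfl
      refine asc_end hdnl hC h1 (v := y s') (m := m) ?_ ?_ ?_
      · show y (s' - 0) = y s'
        rw [sub_zero]
      · show y (s' - (s' - 0)) = m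
        rw [sub_zero, sub_self, hy0]
      · intro hp
        rw [← hy0] at hp
        have := a2 (-s') s' y M hcl' s' 0 (by linarith) le_rfl (by linarith) hs'.le hp
        linarith

end Pool.Agent.CZP
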