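import Pool.Agent.Lib.MP_305fdd_al.CZ.P.StmB
import Pool.Agent.Lib.MP_305fdd_al.F2.PF.StmB

/-!
# MP_305fdd_al, `C_m * Z`, piece [CZP asd]: a line which starts at a semi-good point
-/

set_option autoImplicit false

namespace Pool.Agent.CZP

open MvPolynomial Pool.Agent.F2Ch Pool.Agent.F2PF

theorem p_asd (hline : F2PF.S_line) (hdense : F2PF.S_dense) (hnsn : S_nsn) (hpal : S_pal)
    (hup : S_up) (hsegl : S_segl) (hdnl : S_dnl) (hinp : S_inp) (hanti : S_anti) : S_asd := by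
  intro p _ k K _ _ _ _ _ n g φ R ι s0 hC s y M hCL hSG σ hσ
  obtain ⟨b0, ρ0, hbase⟩ := hC.1
  have hF : FracGen k g := hbase.gen
  obtain ⟨-, -, hA3, -, -⟩ := hanti p k K n g φ R ι s0 hC
  have hs : 0 < s := hCL.1
  obtain ⟨-, hInz, hrestr⟩ := (hline p k K n g φ).2 0 s y M hCL
  obtain ⟨hi1, hi2⟩ := hInz 0 le_rfl hs.le
  have hAt0 : AtInf (Br k g) (y 0) := hA3 (y 0) hi1 hi2 hSG
  obtain ⟨δ, hδ, hAI⟩ := (hdense p k K n g φ hF 0 s y M hCL).2.2.2 0 le_rfl hs.le hAt0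
  -- the interval `[0, r]` of points at infinity
  have hr0 : 0 < min s (δ / 2) := lt_min hs (by linarith)
  obtain ⟨r, hr⟩ : ∃ r, r = min s (δ / 2) := ⟨_, rfl⟩
  have hrp : 0 < r := by rw [hr]; exact hr0
  have hrs : r ≤ s := by rw [hr]; exact min_le_left _ _
  have hrd : r ≤ δ / 2 := by rw [hr]; exact min_le_right _ _
  have hAIr : ∀ t, 0 ≤ t → t ≤ r → AtInf (Br k g) (y t) := by
    intro t ht htr
    refine hAI t ht (htr.trans hrs) ?_
    rw [sub_zero, abs_of_nonneg ht]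
    linarith
  have hCLr : CL k p φ g 0 r y M := hrestr 0 r le_rfl hrp hrs
  obtain ⟨hNS, hDes⟩ := hnsn p k K n g φ R ι s0 hC r y M hCLr hAIr hSG
  have hr2 : r / 2 < r := by linarith
  have hr2p : 0 < r / 2 := by linarith
  have hNSA : ∀ t, 0 < t → t ≤ r / 2 → ¬ SG (Br k g) (y t) ∧ AtInf (Br k g) (y t) :=
    fun t ht htr => ⟨hNS t ht (by linarith), hAIr t ht.le (by linarith)⟩
  have hPZ : PZ k p φ g (y (r / 2)) :=
    (hpal p k K n g φ R ι s0 hC 0 r y M hCLr).2.2 (r / 2) hr2p.le hr2.le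
      (hNSA _ hr2p le_rfl).1 (hNSA _ hr2p le_rfl).2
  have hrch : ∀ t, 0 < t → t ≤ r / 2 → Rch k p φ g (y (r / 2)) (y t) := by
    intro t ht htr
    rcases htr.eq_or_lt with h | h
    · rw [h]
      exact Relation.ReflTransGen.refl
    · have hCLt : CL k p φ g t (r / 2) y M := hrestr t (r / 2) ht.le h (by linarith)
      have hD := hsegl p k K n g φ R ι s0 hC t (r / 2) y M hCLt
        (fun τ h1 h2 => hNSA τ (lt_of_lt_of_le ht h1) h2)
        (fun τ h1 h2 => hDes τ (ht.trans h1) (h2.trans hr2)) t (r / 2) le_rfl h le_rfl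
      have hE := (hdnl p k K n g φ R ι s0 hC _ _ _ hD).2.2.2.2 0 (r / 2 - t) le_rfl
        (by linarith) le_rfl
      have e1 : r / 2 - 0 = r / 2 := sub_zero _
      have e2 : r / 2 - (r / 2 - t) = t := by ring
      have hE2 : Dn k p φ g (y (r / 2 - 0)) (y (r / 2 - (r / 2 - t))) := hE
      rw [e1, e2] at hE2
      exact Relation.ReflTransGen.single hE2
  refine ⟨r / 2, hr2p, by linarith, fun t ht htr => hDes t ht (by linarith), ?_⟩
  rcases hup p k K n g φ R ι s0 hC σ hσ (y (r / 2)) hPZ with h | h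
  · exact Or.inl fun t ht htr =>
      (hinp p k K n g φ R ι s0 hC σ (y (r / 2))).2.1 h (y t) (hrch t ht htr)
  · exact Or.inr fun t ht htr =>
      (hinp p k K n g φ R ι s0 hC (-σ) (y (r / 2))).2.1 h (y t) (hrch t ht htr)

end Pool.Agent.CZP
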