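import Pool.Agent.Lib.MP_305fdd_al.CZ.P.StmB

/-!
# MP_305fdd_al, `C_m * Z`, section CZ/P: the top of the intersection
-/

set_option autoImplicit false

namespace Pool.Agent.CZP

open MvPolynomial Pool.Agent.F2Ch Pool.Agent.F2PF

private theorem atop_refl {K : Type} [Field K] (v : K → ℝ) : Pr v v :=
  ⟨1, one_pos, fun _ => (one_mul _).symm⟩

private theorem atop_symm {K : Type} [Field K] {v v' : K → ℝ} (h : Pr v v') : Pr v' v := by
  obtain ⟨c, hc, h⟩ := h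
  refine ⟨c⁻¹, inv_pos.2 hc, fun f => ?_⟩
  rw [h f, inv_mul_cancel_left₀ hc.ne']

private theorem atop_sh {K : Type} [Field K] (M : K → Finset (ℝ × ℝ)) : sh 0 M = M := by
  funext f
  unfold sh
  have e : (fun m : ℝ × ℝ => (m.1 + 0 * m.2, m.2)) = id := by
    funext m
    simp
  rw [e, Finset.image_id]

theorem p_atop (hsep : S_sep) (hinp : S_inp) (hclose : S_close) (hdnl : S_dnl) (hbtw : S_btw)
    (hrch : S_rch) : S_atop := by
  intro p _ k K _ _ _ _ _ n g φ R ι s0 hctx σ x hx hx'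
  have hi := hinp p k K n g φ R ι s0 hctx
  have ib : ∀ (τ : ℝ) (a : K → ℝ), InP k p φ g R s0 τ a → ∀ a', Rch k p φ g a a' →
      InP k p φ g R s0 τ a' := fun τ a => (hi τ a).2.1
  have ic : ∀ (τ : ℝ) (a : K → ℝ), InP k p φ g R s0 τ a → ∀ a', Pr a a' →
      InP k p φ g R s0 τ a' := fun τ a => (hi τ a).2.2.1
  have ig : ∀ (τ : ℝ) (a : K → ℝ), InP k p φ g R s0 τ a → ∀ a', InP k p φ g R s0 τ a' →
      Rch k p φ g a a' ∨ Rch k p φ g a' a := fun τ a => (hi τ a).2.2.2.2.2.2.1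
  have hd := hdnl p k K n g φ R ι s0 hctx
  -- a start `a ∈ P_σ`, `a ∉ P_(-σ)`
  obtain ⟨a, ha1, ha2, hax⟩ : ∃ a, InP k p φ g R s0 σ a ∧ ¬ InP k p φ g R s0 (-σ) a ∧
      Rch k p φ g a x := by
    obtain ⟨s1, Y, M1, e1, hG, -, -, -⟩ := id hx
    obtain ⟨e0, he0, he0s, h0⟩ := (hi σ x).2.2.2.2.2.1 hx s1 Y M1 hG
    obtain ⟨e0', he0', -, h0'⟩ := hsep p k K n g φ R ι s0 hctx σ s1 Y M1 hG
    have hm : 0 < min e0 e0' := lt_min he0 he0'
    refine ⟨Y (min e0 e0'), ?_, h0' _ hm (min_le_right _ _), h0 _ hm (min_le_left _ _)⟩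
    exact (hi σ x).2.2.2.2.2.2.2 s1 Y M1 hG _ hm ((min_le_left _ _).trans he0s)
  -- (1)
  obtain ⟨s1, y, M, hD, h0, h0n, h1⟩ : ∃ (s1 : ℝ) (y : ℝ → K → ℝ) (M : K → Finset (ℝ × ℝ)),
      DnL k p φ g s1 y M ∧ InP k p φ g R s0 σ (y 0) ∧ ¬ InP k p φ g R s0 (-σ) (y 0) ∧
      InP k p φ g R s0 (-σ) (y s1) := by
    have key : ∀ b, Rch k p φ g b x → InP k p φ g R s0 σ b → ¬ InP k p φ g R s0 (-σ) b →
        ∃ (s1 : ℝ) (y : ℝ → K → ℝ) (M : K → Finset (ℝ × ℝ)),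
        DnL k p φ g s1 y M ∧ InP k p φ g R s0 σ (y 0) ∧ ¬ InP k p φ g R s0 (-σ) (y 0) ∧
        InP k p φ g R s0 (-σ) (y s1) := by
      intro b hb
      induction hb using Relation.ReflTransGen.head_induction_on with
      | refl => intro _ h; exact absurd hx' h
      | @head b b' hbb hbx ih =>
        intro h1 h2
        by_cases h3 : InP k p φ g R s0 (-σ) b'
        · rcases id hbb with ⟨-, hpr⟩ | ⟨s, y, M, hD, e1, e2⟩
          · exact absurd (ic _ _ h3 _ (atop_symm hpr)) h2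
          · exact ⟨s, y, M, hD, ic _ _ h1 _ e1, fun h => h2 (ic _ _ h _ (atop_symm e1)),
              ic _ _ h3 _ (atop_symm e2)⟩
        · exact ih (ib _ _ h1 _ (Relation.ReflTransGen.single hbb)) h3
    exact key a hax ha1 ha2
  obtain ⟨d1, d2, d3, d4, d5⟩ := hd s1 y M hD
  have hs1 : 0 < s1 := hD.cl.1
  have hdn : ∀ t t', 0 ≤ t → t ≤ t' → t' ≤ s1 → Rch k p φ g (y t) (y t') := fun t t' a b c =>
    Relation.ReflTransGen.single (d5 t t' a b c)
  -- (2)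
  set S : Set ℝ := {t | 0 ≤ t ∧ t ≤ s1 ∧ InP k p φ g R s0 (-σ) (y t)} with hS
  have hne : S.Nonempty := ⟨s1, hs1.le, le_rfl, h1⟩
  have hbd : BddBelow S := ⟨0, fun t ht => ht.1⟩
  set s := sInf S with hs
  have hs0 : 0 ≤ s := le_csInf hne fun t ht => ht.1
  have hss : s ≤ s1 := csInf_le hbd ⟨hs1.le, le_rfl, h1⟩
  have habove : ∀ t, s < t → t ≤ s1 → InP k p φ g R s0 (-σ) (y t) := by
    intro t ht ht1
    obtain ⟨r, hr, hrt⟩ := exists_lt_of_csInf_lt hne ht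
    exact ib _ _ hr.2.2 _ (hdn r t hr.1 hrt.le ht1)
  have hys : InP k p φ g R s0 (-σ) (y s) := by
    rcases hss.eq_or_lt with he | hlt
    · rw [he]; exact h1
    · have h2 := hclose p k K n g φ R ι s0 hctx (-σ) (s1 - s) _ _
        (d4 s s1 hs0 hlt le_rfl).2
        (fun t a b => habove (s + t) (by linarith) (by linarith))
      simpa using h2
  have hspos : 0 < s := by
    rcases hs0.eq_or_lt with he | hlt
    · rw [← he] at hys; exact absurd hys h0n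
    · exact hlt
  have hDs : DnL k p φ g s y M := by
    have h2 := (d4 0 s le_rfl hspos hss).2
    rw [atop_sh, sub_zero] at h2
    have e : (fun τ => y (0 + τ)) = y := by
      funext τ; rw [zero_add]
    rw [e] at h2
    exact h2
  have hlo : ∀ t, 0 ≤ t → t < s → InP k p φ g R s0 σ (y t) ∧ ¬ InP k p φ g R s0 (-σ) (y t) := by
    intro t ht hts
    refine ⟨ib _ _ h0 _ (hdn 0 t le_rfl ht (hts.le.trans hss)), fun h => ?_⟩
    have : s ≤ t := csInf_le hbd ⟨ht, hts.le.trans hss, h⟩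
    linarith
  have hyσ : InP k p φ g R s0 σ (y s) := ib _ _ h0 _ (hdn 0 s le_rfl hs0 hss)
  refine ⟨s, y, M, hDs, hlo, ⟨hyσ, hys⟩, ?_⟩
  -- (4)
  intro x' hx1 hx2
  rcases ig σ (y s) hyσ x' hx1 with h | h
  · exact h
  · rcases ig σ (y 0) h0 x' hx1 with h' | h'
    · obtain ⟨t, ht0, hts, hpr⟩ := hbtw p k K n g φ R ι s0 hctx s y M hDs (y 0) x' (y s)
        (atop_refl _) (atop_refl _) h' h
      rcases hts.eq_or_lt with he | hlt
      · rw [he] at hpr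
        exact ((hrch p k K n g φ R ι s0 hctx).1 (y s) x' (d1 s hs0 hss) hpr).2
      · exact absurd (ic _ _ hx2 _ (atop_symm hpr)) (hlo t ht0 hlt).2
    · exact absurd (ib _ _ hx2 _ h') h0n

end Pool.Agent.CZP
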