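import Pool.Agent.Lib.MP_305fdd_al.CZ.P.StmB
import Pool.Agent.Lib.MP_305fdd_al.F2.PF.StmC

/-!
# MP_305fdd_al, `C_m * Z`, section CZ/P: the piece [CZP bai]

The limit of the bottom line is at infinity.
-/

set_option autoImplicit false

namespace Pool.Agent.CZP

open MvPolynomial Pool.Agent.F2Ch Pool.Agent.F2PF

theorem p_bai (h_anti : S_anti) (h_inp : S_inp) (h_segl : S_segl) (h_dnl : S_dnl)
    (h_line : F2PF.S_line) (h_pr : F2PF.S_pr) (h_dense : F2PF.S_dense) (h_lim : F2PF.S_lim) :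
    S_bai := by
  intro p _ k K _ _ _ _ _ n g φ R ι s0 hctx σ s y M hbot
  obtain ⟨⟨b0, ρ0, hB⟩, hL⟩ := id hctx
  have hgen := hB.gen
  obtain ⟨-, hline⟩ := h_line p k K n g φ
  have hcl := hbot.cl
  have hs : 0 < s := hcl.1
  obtain ⟨hLn, hinz, hsub⟩ := hline 0 s y M hcl
  obtain ⟨ha1, ha2, ha3, ha4, ha5⟩ := h_anti p k K n g φ R ι s0 hctx
  obtain ⟨hi0, hn0⟩ := hinz 0 le_rfl hs.le
  by_contra hna
  have hPr : Pr R (y 0) := by
    by_contra hcon
    exact hna ((ha4 (y 0) hi0 hn0).2 hcon)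
  obtain ⟨hp1, hp2, -⟩ := h_pr p k K n g φ
  have hns0 : ¬ SG (Br k g) (y 0) := fun hsg =>
    ha5 ((hp2 (y 0) R ((hp1 R (y 0) R).2.1 hPr)).2.1 hsg)
  have hpz : ∀ t, 0 < t → t ≤ s → PZ k p φ g (y t) := fun t h1 h2 =>
    (h_inp p k K n g φ R ι s0 hctx σ (y t)).1 (hbot.pa t h1 h2)
  -- the comparison
  have hle : ∀ t', 0 < t' → t' < s / 2 → Le (Br k g) (y t') (y (s / 2)) := by
    intro t' h1 h2
    have hcl' := hsub t' (s / 2) h1.le h2 (by linarith)
    have hD := h_segl p k K n g φ R ι s0 hctx t' (s / 2) y M hcl'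
      (fun t h3 h4 => ⟨(hpz t (by linarith) (by linarith)).2.1,
        (hpz t (by linarith) (by linarith)).2.2.1⟩)
      (fun t h3 h4 => hbot.des t (by linarith) (by linarith)) t' (s / 2) le_rfl h2 le_rfl
    have hE := ((h_dnl p k K n g φ R ι s0 hctx _ _ _ hD).2.2.2.1 0 (s / 2 - t') le_rfl
      (by linarith) le_rfl).1
    have e1 : s / 2 - (s / 2 - t') = t' := by ring
    have e2 : s / 2 - 0 = s / 2 := by ring
    simp only [e1, e2] at hE
    exact hE
  -- the limit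
  obtain ⟨-, hcont, -, -⟩ := h_dense p k K n g φ hgen 0 s y M hcl
  have hpos : ∀ j : ℕ, 0 < (s / 2) / ((j : ℝ) + 2) := fun j => by positivity
  have hlt : ∀ j : ℕ, (s / 2) / ((j : ℝ) + 2) < s / 2 := fun j => by
    apply div_lt_self (by linarith)
    have : (0 : ℝ) ≤ j := by positivity
    linarith
  have hseq : Filter.Tendsto (fun j : ℕ => (s / 2) / ((j : ℝ) + 2)) Filter.atTop
      (nhdsWithin 0 (Set.Icc 0 s)) := by
    rw [tendsto_nhdsWithin_iff]
    constructor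
    · have h1 : Filter.Tendsto (fun j : ℕ => (j : ℝ) + 2) Filter.atTop Filter.atTop :=
        Filter.tendsto_atTop_add_const_right _ _ tendsto_natCast_atTop_atTop
      exact h1.const_div_atTop (s / 2)
    · exact Filter.Eventually.of_forall fun j => ⟨(hpos j).le, by
        have := hlt j
        linarith⟩
  have hfin := (h_lim K (Br k g) ℕ Filter.atTop (fun j => y ((s / 2) / ((j : ℝ) + 2))) (y 0)
    (y (s / 2)) (fun f hf hf0 =>
      ((hcont f hf hf0) 0 ⟨le_rfl, hs.le⟩).tendsto.comp hseq)).2.1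
    (fun j => hle _ (hpos j) (hlt j)) (hpz (s / 2) (by linarith) (by linarith)).2.2.1 hns0
  obtain ⟨c, hc, hcf⟩ := hfin
  obtain ⟨f, hf, hf0, hneg⟩ := (hpz (s / 2) (by linarith) (by linarith)).2.2.1
  obtain ⟨c', hc', hcc⟩ := hPr
  have h1 := hcf f hf hf0
  have h2 := hL.Rnn f hf hf0
  have h3 : 0 ≤ y 0 f := by
    rw [hcc f]
    exact mul_nonneg hc'.le h2
  have h4 : c * y (s / 2) f < 0 := mul_neg_of_pos_of_neg hc hneg
  linarith

end Pool.Agent.CZP
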