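import Pool.Agent.Lib.MP_305fdd_al.CZ.P.StmB
import Pool.Agent.Lib.MP_305fdd_al.F2.PF.StmC

/-!
# MP_305fdd_al, `C_m * Z`, section CZ/P: [CZP bnd] an NS limit is a minimum of `P_σ`
-/

set_option autoImplicit false

namespace Pool.Agent.CZP

open MvPolynomial Pool.Agent.F2Ch Pool.Agent.F2PF

theorem p_bnd (hline : F2PF.S_line) (hbai : CZP.S_bai) (hsegl : CZP.S_segl)
    (hdnl : CZP.S_dnl) (hinp : CZP.S_inp) : CZP.S_bnd := by
  intro p _ k K _ _ _ _ _ n g φ R ι s0 hC σ s y M hB hns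
  have hs0 : 0 < s := hB.cl.1
  have hAt : AtInf (Br k g) (y 0) := hbai p k K n g φ R ι s0 hC σ s y M hB
  obtain ⟨-, -, hsub⟩ := (hline p k K n g φ).2 0 s y M hB.cl
  have hNS : ∀ r, 0 ≤ r → r ≤ s → ¬ SG (Br k g) (y r) ∧ AtInf (Br k g) (y r) := by
    intro r hr hrs
    rcases hr.eq_or_lt with h | h
    · rw [← h]
      exact ⟨hns, hAt⟩
    · have h1 := (hinp p k K n g φ R ι s0 hC σ (y r)).1 (hB.pa r h hrs)
      exact ⟨h1.2.1, h1.2.2.1⟩
  have hseg : ∀ t, 0 < t → t < s → Dn k p φ g (y t) (y 0) := by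
    intro t ht hts
    have hcl := hsub 0 t le_rfl ht hts.le
    have h1 := hsegl p k K n g φ R ι s0 hC 0 t y M hcl
      (fun r hr hrt => hNS r hr (hrt.trans hts.le))
      (fun r hr hrt => hB.des r hr (hrt.trans hts)) 0 t le_rfl ht le_rfl
    rw [sub_zero] at h1
    obtain ⟨-, -, -, -, h3⟩ := hdnl p k K n g φ R ι s0 hC t (fun τ => y (t - τ)) (rsh t M) h1
    have h5 := h3 0 t le_rfl ht.le le_rfl
    simp only [sub_self, sub_zero] at h5
    exact h5
  have hs2 : 0 < s / 2 := half_pos hs0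
  have hs2' : s / 2 < s := half_lt_self hs0
  refine ⟨y 0, ?_, ?_⟩
  · exact (hinp p k K n g φ R ι s0 hC σ (y (s / 2))).2.1 (hB.pa _ hs2 hs2'.le) (y 0)
      (Relation.ReflTransGen.single (hseg _ hs2 hs2'))
  · intro w hw
    obtain ⟨t, ht, hts, -, hr⟩ := hB.cof w hw s hs0
    exact Relation.ReflTransGen.tail hr (hseg t ht hts)

end Pool.Agent.CZP
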