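import Pool.Agent.Lib.MP_305fdd_al.CZ.P.StmB
import Pool.Agent.Lib.MP_305fdd_al.F2.PF.Main

/-!
# MP_305fdd_al, `C_m * Z`, section CZ/P: the bottom of `P_σ` ([CZP bot])
-/

set_option autoImplicit false

namespace Pool.Agent.CZP

open MvPolynomial Pool.Agent.F2Ch Pool.Agent.F2PF

private theorem bot_le_trans {K : Type} [Field K] {B : Set K} {u v w : K → ℝ} (h1 : Le B u v)
    (h2 : Le B v w) : Le B u w := by
  obtain ⟨c, hc, h1⟩ := h1
  obtain ⟨d, hd, h2⟩ := h2
  refine ⟨c * d, mul_pos hc hd, fun f hf hf0 => ?_⟩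
  calc u f ≤ c * v f := h1 f hf hf0
    _ ≤ c * (d * w f) := mul_le_mul_of_nonneg_left (h2 f hf hf0) hc.le
    _ = c * d * w f := by ring

theorem p_bot (hult : S_ult) (hinp : S_inp) (hgex : S_gex) (hrch : S_rch) (hsegb : S_segb)
    (hsegl : S_segl) (hanti : S_anti) : S_bot := by
  classical
  intro p _ k K _ _ _ _ _ n g φ R ι s0 hC σ hσ
  obtain ⟨hA1, hA2, hA3, hA4, hA5⟩ := hanti p k K n g φ R ι s0 hC
  obtain ⟨hR1, hR2⟩ := hrch p k K n g φ R ι s0 hC
  obtain ⟨hPr1, hPr2, -⟩ := t_pr p k K n g φ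
  have hI := hinp p k K n g φ R ι s0 hC σ
  have hrefl : ∀ v : K → ℝ, Pr v v := fun v => (hPr1 v v v).1
  have hsymm : ∀ {v v' : K → ℝ}, Pr v v' → Pr v' v := fun {v v'} h => (hPr1 v v' v).2.1 h
  have htrans : ∀ {v v' v'' : K → ℝ}, Pr v v' → Pr v' v'' → Pr v v'' :=
    fun {v v' v''} h h' => (hPr1 v v' v'').2.2 h h'
  have hPZ : ∀ w, InP k p φ g R s0 σ w → PZ k p φ g w := fun w hw => (hI w).1 hw
  have htot' : ∀ w w' : K → ℝ, InP k p φ g R s0 σ w → InP k p φ g R s0 σ w' →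
      Rch k p φ g w w' ∨ Rch k p φ g w' w := fun w w' hw hw' =>
    (hI w).2.2.2.2.2.2.1 hw w' hw'
  -- the index type and the ultrafilter
  let I : Type := {w : K → ℝ // InP k p φ g R s0 σ w}
  have hIne : Nonempty I := by
    obtain ⟨⟨s, y, M, hG⟩, -⟩ := hgex p k K n g φ R ι s0 hC σ hσ
    have hs : 0 < s := hG.cl.1
    exact ⟨⟨y s, (hI (y s)).2.2.2.2.2.2.2 s y M hG s hs le_rfl⟩⟩
  have hdir : Directed (· ≥ ·) (fun w : I => Filter.principal
      {v : I | Rch k p φ g w.1 v.1}) := by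
    intro w w'
    rcases htot' w.1 w'.1 w.2 w'.2 with h | h
    · refine ⟨w', ?_, le_rfl⟩
      change Filter.principal _ ≤ Filter.principal _
      rw [Filter.principal_mono]
      intro v hv
      exact Relation.ReflTransGen.trans h hv
    · refine ⟨w, le_rfl, ?_⟩
      change Filter.principal _ ≤ Filter.principal _
      rw [Filter.principal_mono]
      intro v hv
      exact Relation.ReflTransGen.trans h hv
  have hne : Filter.NeBot (⨅ w : I, Filter.principal {v : I | Rch k p φ g w.1 v.1}) := by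
    refine Filter.iInf_neBot_of_directed hdir fun w => ?_
    rw [Filter.principal_neBot_iff]
    exact ⟨w, Relation.ReflTransGen.refl⟩
  let U : Ultrafilter I := Ultrafilter.of
    (⨅ w : I, Filter.principal {v : I | Rch k p φ g w.1 v.1})
  have hU : ∀ w : I, ∀ᶠ v in (U : Filter I), Rch k p φ g w.1 v.1 := by
    intro w
    have h1 : (U : Filter I) ≤ Filter.principal {v : I | Rch k p φ g w.1 v.1} :=
      (Ultrafilter.of_le _).trans (iInf_le _ w)
    exact h1 (Filter.mem_principal_self _)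
  have hnt : ∀ w : K → ℝ, InP k p φ g R s0 σ w → ∃ f, w f ≠ 0 := by
    intro w hw
    by_contra h
    push Not at h
    exact (hPZ w hw).2.1 fun f _ _ => (h f).le
  rcases hult p k K n g φ R ι s0 hC I U (fun v => v.1)
    (fun v => ⟨(hPZ v.1 v.2).1, hnt v.1 v.2⟩) with ⟨m, hm⟩ | ⟨s, y, M, hCL, hy⟩
  · -- a minimum
    left
    refine ⟨m.1, m.2, fun w hw => ?_⟩
    obtain ⟨v, hv1, hv2⟩ := ((hU ⟨w, hw⟩).and hm).exists
    exact Relation.ReflTransGen.trans hv1 (hR1 v.1 m.1 (hPZ v.1 v.2) (hsymm hv2)).2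
  · -- a line
    right
    have hs : 0 < s := hCL.1
    obtain ⟨-, hnz, hrestr⟩ := (t_line p k K n g φ).2 0 s y M hCL
    -- all the points near `0` are at infinity
    obtain ⟨s', hs', hs's, hai⟩ : ∃ s', 0 < s' ∧ s' ≤ s ∧
        ∀ t, 0 < t → t ≤ s' → AtInf (Br k g) (y t) := by
      by_cases hex : ∃ t, 0 < t ∧ t ≤ s ∧ ¬ AtInf (Br k g) (y t)
      · obtain ⟨t0, ht0, ht0s, hnai⟩ := hex
        refine ⟨t0 / 2, by linarith, by linarith, fun t ht htt => ?_⟩
        by_contra hcon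
        have h1 := hnz t0 ht0.le ht0s
        have h2 := hnz t ht.le (by linarith)
        have p1 : Pr R (y t0) := by
          by_contra hp
          exact hnai ((hA4 (y t0) h1.1 h1.2).mpr hp)
        have p2 : Pr R (y t) := by
          by_contra hp
          exact hcon ((hA4 (y t) h2.1 h2.2).mpr hp)
        have h3 := hA2 0 s y M hCL t t0 ht.le (by linarith) ht0.le ht0s (htrans (hsymm p2) p1)
        linarith
      · push Not at hex
        exact ⟨s, hs, le_rfl, hex⟩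
    obtain ⟨v0, s1, hs1, hs1s', hs1s, hPv0⟩ := (hy s' hs').exists
    -- the basic claim
    have hQ : ∀ t1, 0 < t1 → t1 ≤ s1 → ∃ t', 0 < t' ∧ t' < t1 ∧
        CL k p φ g t' s1 y M ∧ (∀ t, t' ≤ t → t ≤ s1 → ¬ SG (Br k g) (y t)) ∧
        ∀ t, t' < t → t < s1 → DesL (Br k g) M t := by
      intro t1 ht1 ht1s
      obtain ⟨v, hv, t', ht', ht't1, ht's, hPt'⟩ := ((hU v0).and (hy t1 ht1)).exists
      obtain ⟨-, hLe, -⟩ := hR2 v0.1 v.1 (hPZ v0.1 v0.2) hv
      have hcl : CL k p φ g t' s1 y M := hrestr t' s1 ht'.le (ht't1.trans_le ht1s) hs1s.le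
      have hle : Le (Br k g) (y t') (y s1) :=
        bot_le_trans (hPr2 _ _ hPt').2.2.2.2.2.2.1
          (bot_le_trans hLe (hPr2 _ _ hPv0).2.2.2.2.2.2.2)
      have hns : ¬ SG (Br k g) (y t') := fun h => (hPZ v.1 v.2).2.1 ((hPr2 _ _ hPt').2.1 h)
      obtain ⟨h1, h2⟩ := hsegb p k K n g φ R ι s0 hC t' s1 y M hcl
        (fun t ht1 ht2 => hai t (ht'.trans_le ht1) (ht2.trans hs1s'.le)) hns hle
      exact ⟨t', ht', ht't1, hcl, h1, h2⟩
    have hys1 : InP k p φ g R s0 σ (y s1) := (hI v0.1).2.2.1 v0.2 (y s1) (hsymm hPv0)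
    refine ⟨s1, y, M, ⟨hrestr 0 s1 le_rfl hs1 hs1s.le, ?_, ?_, ?_⟩⟩
    · intro t ht hts
      rcases hts.eq_or_lt with rfl | htlt
      · exact hys1
      · obtain ⟨t', ht', ht't, hcl, h1, h2⟩ := hQ t ht hts
        have hdn := hsegl p k K n g φ R ι s0 hC t' s1 y M hcl
          (fun r hr hrs => ⟨h1 r hr hrs, hai r (ht'.trans_le hr) (hrs.trans hs1s'.le)⟩) h2 t s1
          ht't.le htlt le_rfl
        have hD : Dn k p φ g (y s1) (y t) := by
          right
          refine ⟨s1 - t, _, _, hdn, ?_, ?_⟩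
          · simpa only [sub_zero] using hrefl (y s1)
          · simpa only [sub_sub_cancel] using hrefl (y t)
        exact (hI (y s1)).2.1 hys1 (y t) (Relation.ReflTransGen.single hD)
    · intro t ht hts
      obtain ⟨t', ht', ht't, hcl, -, h2⟩ := hQ t ht hts.le
      exact h2 t ht't hts
    · intro w hw δ hδ
      obtain ⟨v, hv, t, ht, htδ, -, hPt⟩ := ((hU ⟨w, hw⟩).and (hy (min δ s1)
        (lt_min hδ hs1))).exists
      exact ⟨t, ht, htδ.trans_le (min_le_left _ _), (htδ.trans_le (min_le_right _ _)).le,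
        Relation.ReflTransGen.trans hv (hR1 v.1 (y t) (hPZ v.1 v.2) (hsymm hPt)).2⟩

end Pool.Agent.CZP
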