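import Pool.Agent.Lib.MP_305fdd_al.CZ.P.StmB
import Pool.Agent.Lib.MP_305fdd_al.F2.PF.StmC

/-!
# MP_305fdd_al, `C_m * Z`, section CZ/P: the piece [CZP bsd]

The limit of the bottom line is not a divisorial semi-good point.
-/

set_option autoImplicit false

namespace Pool.Agent.CZP

open MvPolynomial Pool.Agent.F2Ch Pool.Agent.F2PF

private theorem bsd_isL (h_in : F2PF.S_in) (S : Finset (ℝ × ℝ)) (t : ℝ) (hS : S.Nonempty) :
    ∃ m, IsL S t m := by
  obtain ⟨h1, -, -, h4, -⟩ := h_in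
  obtain ⟨m', hm'⟩ := h1 (S.image rf) (-t) (hS.image _)
  refine ⟨rf m', (h4 S t (rf m')).2 ?_⟩
  have : rf (rf m') = m' := by unfold rf; simp
  rw [this]
  exact hm'

theorem p_bsd (h_bsf : S_bsf) (h_zbot : S_zbot) (h_inp : S_inp) (h_anti : S_anti)
    (h_line : F2PF.S_line) (h_rfl : F2PF.S_rfl) (h_key : F2PF.S_key) (h_persL : F2PF.S_persL)
    (h_in : F2PF.S_in) : S_bsd := by
  intro p _ k K _ _ _ _ _ n g φ R ι s0 hctx σ s y M hbot hsg hdv
  obtain ⟨⟨b0, ρ0, hB⟩, hL⟩ := id hctx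
  have hgen := hB.gen
  obtain ⟨-, hline⟩ := h_line p k K n g φ
  have hcl := hbot.cl
  have hs : 0 < s := hcl.1
  obtain ⟨hLn, hinz, hsub⟩ := hline 0 s y M hcl
  obtain ⟨ha1, ha2, ha3, ha4, ha5⟩ := h_anti p k K n g φ R ι s0 hctx
  obtain ⟨hi0, hn0⟩ := hinz 0 le_rfl hs.le
  have hai := ha3 (y 0) hi0 hn0 hsg
  obtain ⟨V, hV⟩ := (h_rfl p k K n g φ hgen 0 s y M hcl 0 le_rfl hs).1
  obtain ⟨hio, hfl⟩ := h_bsf p k K n g φ R ι s0 hctx σ s y M hbot hsg hdv
  obtain ⟨hflag, hVV⟩ := hfl V hV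
  have hns : ∀ t, 0 < t → t ≤ s → ¬ SG (Br k g) (y t) := fun t h1 h2 =>
    ((h_inp p k K n g φ R ι s0 hctx σ (y t)).1 (hbot.pa t h1 h2)).2.1
  obtain ⟨t, ht⟩ : ∃ t, t = s / 2 := ⟨_, rfl⟩
  have ht0 : 0 < t := by rw [ht]; linarith
  have hts : t < s := by rw [ht]; linarith
  obtain ⟨u, hu, hsd, hstr⟩ := h_zbot p k K n g φ R ι s0 hctx σ s y M hcl hbot.pa hbot.des t
    ht0 hts
  have htI : t ∈ Set.Icc (0 : ℝ) s := ⟨ht0.le, hts.le⟩
  have h0I : (0 : ℝ) ∈ Set.Icc (0 : ℝ) s := ⟨le_rfl, hs.le⟩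
  have hsd' : u.2 - t * u.1 < 0 := hsd
  have hsd0 : sd 0 u = u.2 := by unfold sd; ring
  have hu2 : u.2 ≤ 0 := by
    by_contra hcon
    push Not at hcon
    have h1 : 0 < t * u.1 := by linarith
    have hu1 : 0 < u.1 := by
      by_contra h2
      push Not at h2
      have := mul_nonpos_of_nonneg_of_nonpos ht0.le h2
      linarith
    have hr0 : 0 < u.2 / u.1 := div_pos hcon hu1
    have hrt : u.2 / u.1 < t := by
      rw [div_lt_iff₀ hu1]; linarith
    have h3 := (h_key K (Br k g) (Set.Icc 0 s) y M hLn t htI u (Or.inr hu)).1 (u.2 / u.1)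
      ⟨hr0.le, by linarith⟩ u.1 hu1 (by
        ext
        · rfl
        · show u.2 = u.1 * (u.2 / u.1)
          field_simp)
    exact hns (u.2 / u.1) hr0 (by linarith) h3
  rcases hu2.lt_or_eq with hneg | hzero
  · -- (i)
    obtain ⟨-, -, hcmp⟩ := h_persL K (Br k g) (Set.Icc 0 s) y M hLn t htI 0 h0I ht0 u
      (Or.inr hu) hsd (by rw [hsd0]; exact hneg.le)
    have hc : 0 < sd 0 u / sd t u := by
      apply div_pos_of_neg_of_neg
      · rw [hsd0]; exact hneg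
      · exact hsd
    apply hL.E3 (y 0) hi0 hdv hai hio V hflag hVV
    intro f hf hf0 hf1
    have h1 : 0 ≤ y t f := by
      have h2 := hcmp f hf hf0
      rw [hf1] at h2
      by_contra h3
      push Not at h3
      have := mul_neg_of_pos_of_neg hc h3
      linarith
    obtain ⟨δ, hδ, hnear⟩ := hV.near f hf0
    obtain ⟨ε, hε⟩ : ∃ ε, ε = min (δ / 2) t := ⟨_, rfl⟩
    have hε0 : 0 < ε := by rw [hε]; exact lt_min (by linarith) ht0
    have hεδ : ε < δ := by
      have : ε ≤ δ / 2 := by rw [hε]; exact min_le_left _ _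
      linarith
    have hεt : ε ≤ t := by rw [hε]; exact min_le_right _ _
    have h4 := hnear ε hε0 hεδ
    rw [zero_add, hf1, zero_add] at h4
    obtain ⟨m, hm, hmy⟩ := hLn.ex f hf hf0 ε ⟨hε0.le, by linarith⟩
    have h5 := hLn.le f hf hf0 0 h0I m hm
    have h6 := hLn.le f hf hf0 t htI m hm
    rw [hf1] at h5
    have h7 : 0 ≤ y ε f := by
      rw [hmy]
      have e1 : t * (m.1 + ε * m.2) = (t - ε) * (m.1 + 0 * m.2) + ε * (m.1 + t * m.2) := by ring
      have e2 : 0 ≤ (t - ε) * (m.1 + 0 * m.2) := mul_nonneg (by linarith) h5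
      have e3 : 0 ≤ ε * (m.1 + t * m.2) := mul_nonneg hε0.le (by linarith)
      have e4 : 0 ≤ t * (m.1 + ε * m.2) := by rw [e1]; linarith
      exact nonneg_of_mul_nonneg_right e4 ht0
    rw [h4] at h7
    exact nonneg_of_mul_nonneg_right h7 hε0
  · -- (ii)
    have hu1 : 0 < u.1 := by
      rw [hzero] at hsd'
      by_contra h2
      push Not at h2
      have := mul_nonpos_of_nonneg_of_nonpos ht0.le h2
      linarith
    apply hL.E4 (y 0) hi0 hdv hai hsg hio
    intro f hf hf0 hf1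
    obtain ⟨m, hm⟩ := bsd_isL h_in (M f) t (hLn.ne f hf hf0)
    have h1 := hstr f hf hf0 hf1 m hm
    have h2 : u.1 * m.1 < 0 := by
      unfold dot at h1
      rw [hzero] at h1
      linarith
    have h3 : m.1 < 0 := by
      by_contra h4
      push Not at h4
      have := mul_nonneg hu1.le h4
      linarith
    have h5 := hLn.le f hf hf0 0 h0I m hm.mem
    linarith

end Pool.Agent.CZP
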