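import Pool.Agent.Lib.MP_305fdd_al.CZ.P.StmB
import Pool.Agent.Lib.MP_305fdd_al.F2.PF.Main

/-!
# MP_305fdd_al, [CZP bsf]: a divisorial semi-good limit of the bottom line is fixed by the symmetry,
its flags are `V` and `V ∘ ι`
-/

set_option autoImplicit false

namespace Pool.Agent.CZP

open MvPolynomial Pool.Agent.F2Ch Pool.Agent.F2PF

theorem p_bsf (h_asd : S_asd) (h_cflag : S_cflag) (h_pal : S_pal) (h_two : S_two) (h_tws : S_tws)
    (h_ile : S_ile) (h_inp : S_inp) (h_idn : S_idn) (h_anti : S_anti) : S_bsf := by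
  intro p _ k K _ _ _ _ _ n g φ R ι s0 hC σ s y M hB hsg hdv
  have hgen : FracGen k g := by
    obtain ⟨⟨b0, ρ0, hbase⟩, _⟩ := hC
    exact hbase.gen
  have hL := hC.2
  have hs : (0 : ℝ) < s := hB.cl.1
  -- the sign is not zero
  have hσ : σ ≠ 0 := by
    rintro rfl
    obtain ⟨s', Y', M', e, hG, he, hes, _⟩ := hB.pa s hs le_rfl
    have := hG.sg e he hes
    simp at this
  have hσ' : -σ ≠ 0 := neg_ne_zero.mpr hσ
  obtain ⟨hin0, hnt0⟩ := (t_line p k K n g φ).2 0 s y M hB.cl |>.2.1 0 le_rfl hs.le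
  obtain ⟨_, _, hc3, _, _⟩ := h_anti p k K n g φ R ι s0 hC
  have hai : AtInf (Br k g) (y 0) := hc3 (y 0) hin0 hnt0 hsg
  obtain ⟨hiR, hi1, hi2, hi3, hi4, hi5, hi6⟩ := h_idn p k K n g φ R ι s0 hC
  -- the line `y ∘ ι`
  have hcl' : CL k p φ g 0 s (fun t f => y t (ι f)) (fun f => M (ι f)) := hL.icl 0 s y M hB.cl
  have hsg' : SG (Br k g) (fun f => y 0 (ι f)) := (hi1 (y 0)).2.1.mpr hsg
  have hpa' : ∀ t, 0 < t → t ≤ s → InP k p φ g R s0 (-σ) (fun f => y t (ι f)) := by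
    intro t h0 h1
    exact (h_inp p k K n g φ R ι s0 hC σ (y t)).2.2.2.1 (hB.pa t h0 h1)
  have hdes' : ∀ t, 0 < t → t < s → DesL (Br k g) (fun f => M (ι f)) t := by
    intro t h0 h1
    obtain ⟨u, hu, hu'⟩ := hB.des t h0 h1
    exact ⟨u, by rw [(hi4 M t).2]; exact hu, hu'⟩
  -- the CLAIM
  have claim : ∀ V, RFl k p φ g y M 0 V → ∀ V1, Flag k p φ (y 0) V1 → ¬ Eqv V V1 →
      (∀ f, y 0 (ι f) = y 0 f) ∧ Eqv (fun f => V (ι f)) V1 := by
    intro V hV V1 hV1 hne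
    obtain ⟨s1', y1, M1, hcl1, hy1, hR1⟩ := h_cflag p k K n g φ R ι s0 hC (y 0) V1 hnt0 hV1
    have hsg1 : SG (Br k g) (y1 0) := by rw [hy1]; exact hsg
    obtain ⟨s1, hs1, hs1', hdes1, hor⟩ :=
      h_asd p k K n g φ R ι s0 hC s1' y1 M1 hcl1 hsg1 σ hσ
    have hcl1' : CL k p φ g 0 s1 y1 M1 :=
      ((t_line p k K n g φ).2 0 s1' y1 M1 hcl1).2.2 0 s1 le_rfl hs1 hs1'
    rcases hor with hin | hin
    · exfalso
      apply hne
      have hpr : Pr (y 0) (y1 0) := by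
        rw [hy1]
        exact ((t_pr p k K n g φ).1 (y 0) (y 0) (y 0)).1
      exact (h_two p k K n g φ R ι s0 hC σ s s1 y y1 M M1 hB.cl hcl1' hpr hai hB.pa hin
        hB.des hdes1).2 V V1 hV hR1
    · have hpr : Pr (y1 0) (fun f => y 0 (ι f)) :=
        h_tws p k K n g φ R ι s0 hC (-σ) s1 s y1 (fun t f => y t (ι f)) M1 (fun f => M (ι f))
          hcl1' hcl' hsg1 hsg' hin hpa' hdes1 hdes'
      rw [hy1] at hpr
      have hfix : ∀ f, y 0 (ι f) = y 0 f :=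
        (h_ile p k K n g φ R ι s0 hC (y 0) hin0 hai).2 hpr
      refine ⟨hfix, ?_⟩
      have hfe : (fun f => y 0 (ι f)) = y 0 := funext hfix
      have hpr2 : Pr ((fun t f => y t (ι f)) 0) (y1 0) := by
        show Pr (fun f => y 0 (ι f)) (y1 0)
        rw [hfe, hy1]
        exact ((t_pr p k K n g φ).1 (y 0) (y 0) (y 0)).1
      have hai' : AtInf (Br k g) ((fun t f => y t (ι f)) 0) := by
        show AtInf (Br k g) (fun f => y 0 (ι f))
        rw [hfe]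
        exact hai
      exact (h_two p k K n g φ R ι s0 hC (-σ) s s1 (fun t f => y t (ι f)) y1
        (fun f => M (ι f)) M1 hcl' hcl1' hpr2 hai' hpa' hin hdes' hdes1).2
        (fun f => V (ι f)) V1 (hi6 y M 0 V hV) hR1
  have hflag : ∀ V, RFl k p φ g y M 0 V → Flag k p φ (y 0) V := fun V hV =>
    (h_pal p k K n g φ R ι s0 hC 0 s y M hB.cl).1 0 le_rfl hs V hV hdv
  refine ⟨?_, ?_⟩
  · obtain ⟨V, hV⟩ := (t_rfl p k K n g φ hgen 0 s y M hB.cl 0 le_rfl hs).1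
    obtain ⟨V1, hV1, hne⟩ := hL.l2 (y 0) hin0 hdv hai V (hflag V hV)
    exact (claim V hV V1 hV1 hne).1
  · intro V hV
    refine ⟨hflag V hV, ?_⟩
    intro V' hV'
    by_cases he : Eqv V V'
    · exact Or.inl he
    · exact Or.inr (claim V hV V' hV' he).2

end Pool.Agent.CZP
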