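import Pool.Agent.Lib.MP_305fdd_al.CZ.P.StmB
import Pool.Agent.Lib.MP_305fdd_al.F2.PF.StmC

/-!
# MP_305fdd_al, `C_m * Z`, section CZ/P: the piece [CZP bsi]

The limit of the bottom line is not an irrational semi-good point.
-/

set_option autoImplicit false

namespace Pool.Agent.CZP

open MvPolynomial Pool.Agent.F2Ch Pool.Agent.F2PF

theorem p_bsi (h_afin : S_afin) (h_asd : S_asd) (h_two : S_two) (h_tws : S_tws)
    (h_ile : S_ile) (h_ifix : S_ifix) (h_inp : S_inp) (h_idn : S_idn) (h_anti : S_anti)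
    (h_line : F2PF.S_line) (h_pr : F2PF.S_pr) (h_irr : F2PF.S_irr) (h_rsh : F2PF.S_rsh) :
    S_bsi := by
  intro p _ k K _ _ _ _ _ n g φ R ι s0 hctx σ s y M hbot hsg hdv
  obtain ⟨⟨b0, ρ0, hB⟩, hL⟩ := id hctx
  have hgen := hB.gen
  obtain ⟨-, hline⟩ := h_line p k K n g φ
  have hcl := hbot.cl
  have hs : 0 < s := hcl.1
  obtain ⟨hLn, hinz, hsub⟩ := hline 0 s y M hcl
  obtain ⟨ha1, ha2, ha3, ha4, ha5⟩ := h_anti p k K n g φ R ι s0 hctx
  obtain ⟨hi0, hn0⟩ := hinz 0 le_rfl hs.le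
  have hai := ha3 (y 0) hi0 hn0 hsg
  obtain ⟨hp1, -, -⟩ := h_pr p k K n g φ
  have hinp := fun σ x => h_inp p k K n g φ R ι s0 hctx σ x
  -- `σ ≠ 0`
  have hσ : σ ≠ 0 := by
    obtain ⟨s1, Y, M1, e, hG, he, hes, -⟩ := hbot.pa s hs le_rfl
    intro h0
    have := hG.sg e he hes
    rw [h0, zero_mul] at this
    exact lt_irrefl _ this
  -- the extended line
  obtain ⟨δ, y', hδ, hyy, hcl'⟩ := (h_irr p k K n g φ hgen 0 s y M hcl).2 hdv
  obtain ⟨hLn', hinz', hsub'⟩ := hline (0 - δ) s y' M hcl'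
  have hy0 : y' 0 = y 0 := hyy 0 le_rfl hs.le
  have hclp : CL k p φ g 0 s y' M := hsub' 0 s (by linarith) hs le_rfl
  have hpa : ∀ t, 0 < t → t ≤ s → InP k p φ g R s0 σ (y' t) := by
    intro t h1 h2
    rw [hyy t h1.le h2]
    exact hbot.pa t h1 h2
  -- the other side
  obtain ⟨hr1, -, hr3⟩ := h_rsh p k K n g φ hgen (0 - δ) s y' M hcl'
  have hY : CL k p φ g 0 δ (fun τ => y' (0 - τ)) (rsh 0 M) := by
    have h1 := (hr1 (0 - δ) 0 le_rfl (by linarith) hs.le).2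
    have e1 : (0 : ℝ) - (0 - δ) = δ := by ring
    rw [e1] at h1
    exact h1
  have hY0 : y' (0 - 0) = y 0 := by
    rw [sub_zero, hy0]
  obtain ⟨s1, hs1, hs1δ, hdes1, hcase⟩ := h_asd p k K n g φ R ι s0 hctx δ
    (fun τ => y' (0 - τ)) (rsh 0 M) hY (by rw [hY0]; exact hsg) σ hσ
  have hY1 : CL k p φ g 0 s1 (fun τ => y' (0 - τ)) (rsh 0 M) :=
    (hline 0 δ _ _ hY).2.2 0 s1 le_rfl hs1 hs1δ
  rcases hcase with hP | hP
  · -- the same sign
    obtain ⟨⟨ε0, hε0, htwo⟩, -⟩ := h_two p k K n g φ R ι s0 hctx σ s s1 y'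
      (fun τ => y' (0 - τ)) M (rsh 0 M) hclp hY1
      (by rw [hY0, hy0]; exact (hp1 (y 0) (y 0) (y 0)).1) (by rw [hy0]; exact hai) hpa hP
      hbot.des hdes1
    obtain ⟨ε, hε⟩ : ∃ ε, ε = min (ε0 / 2) s1 := ⟨_, rfl⟩
    have hεp : 0 < ε := by rw [hε]; exact lt_min (by linarith) hs1
    have hεε : ε < ε0 := by
      have : ε ≤ ε0 / 2 := by rw [hε]; exact min_le_left _ _
      linarith
    have hεs : ε ≤ s1 := by rw [hε]; exact min_le_right _ _
    obtain ⟨τ, hτ, hτs, hPr⟩ := htwo ε hεp hεε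
    have h1 := ha2 (0 - δ) s y' M hcl' (0 - ε) τ (by linarith) (by linarith) (by linarith) hτs
      hPr
    linarith
  · -- the opposite sign
    obtain ⟨hd1, hd2, hd3, hd4, hd5, hd6, hd7⟩ := h_idn p k K n g φ R ι s0 hctx
    have hclι := hL.icl 0 s y' M hclp
    have hsgι : SG (Br k g) ((fun t f => y' t (ι f)) 0) := by
      show SG (Br k g) (fun f => y' 0 (ι f))
      rw [(hd2 (y' 0)).2.1, hy0]
      exact hsg
    have hpaι : ∀ t, 0 < t → t ≤ s → InP k p φ g R s0 (-σ) ((fun t f => y' t (ι f)) t) := by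
      intro t h1 h2
      exact (hinp σ (y' t)).2.2.2.1 (hpa t h1 h2)
    have hdesι : ∀ t, 0 < t → t < s → DesL (Br k g) (fun f => M (ι f)) t := by
      intro t h1 h2
      obtain ⟨u, hu, hu2⟩ := hbot.des t h1 h2
      refine ⟨u, ?_, hu2⟩
      rw [(hd5 M t).2]
      exact hu
    have hmm := h_tws p k K n g φ R ι s0 hctx (-σ) s1 s (fun τ => y' (0 - τ))
      (fun t f => y' t (ι f)) (rsh 0 M) (fun f => M (ι f)) hY1 hclι
      (by rw [hY0]; exact hsg) hsgι hP hpaι hdes1 hdesι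
    have hmm' : Pr (y' (0 - 0)) (fun f => y' 0 (ι f)) := hmm
    rw [hY0, hy0] at hmm'
    have hfix := (h_ile p k K n g φ R ι s0 hctx (y 0) hi0 hai).2 hmm'
    obtain ⟨δ', hδ', hnear⟩ := h_ifix p k K n g φ R ι s0 hctx (0 - δ) s y' M hcl' 0
      (by linarith) hs.le (by rw [hy0]; exact hdv) (by rw [hy0]; exact hfix)
    obtain ⟨t, ht⟩ : ∃ t, t = min (δ' / 2) s := ⟨_, rfl⟩
    have htp : 0 < t := by rw [ht]; exact lt_min (by linarith) hs
    have htδ : t < δ' := by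
      have : t ≤ δ' / 2 := by rw [ht]; exact min_le_left _ _
      linarith
    have hts : t ≤ s := by rw [ht]; exact min_le_right _ _
    have heq : (fun f => y' t (ι f)) = y' t := funext fun f =>
      hnear t (by linarith) hts (by rw [sub_zero, abs_of_pos htp]; exact htδ) f
    have h1 := hpaι t htp hts
    have h2 : InP k p φ g R s0 (-σ) (y' t) := by
      have h3 : InP k p φ g R s0 (-σ) (fun f => y' t (ι f)) := h1
      rw [heq] at h3
      exact h3
    exact h_afin p k K n g φ R ι s0 hctx σ (y' t) (hpa t htp hts) h2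

end Pool.Agent.CZP
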