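import Pool.Agent.Lib.MP_305fdd_al.CZ.P.Stm

/-!
# MP_305fdd_al, [CZP cflag]: from a flag to a line
-/

set_option autoImplicit false

namespace Pool.Agent.CZP

open MvPolynomial Pool.Agent.F2Ch Pool.Agent.F2PF Filter Topology

/-- the weights of a lexicographic weight -/
private theorem cflag_wt (v : Fin 2 → ℝ ×ₗ ℝ) (d e : Fin 2 → ℝ)
    (h : ∀ i, v i = toLex (d i, e i)) (m : Fin 2 → ℤ) :
    wt v m = toLex (wt d m, wt e m) := by
  unfold wt
  rw [Fin.sum_univ_two, Fin.sum_univ_two, Fin.sum_univ_two, h, h]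
  rfl

private theorem cflag_wt2 (d e : Fin 2 → ℝ) (t : ℝ) (m : Fin 2 → ℤ) :
    wt (fun i => d i + t * e i) m = wt d m + t * wt e m := by
  unfold wt
  rw [Fin.sum_univ_two, Fin.sum_univ_two, Fin.sum_univ_two]
  simp only [zsmul_eq_mul]
  ring

/-- lexicographically positive pairs are positive near `0` -/
private theorem cflag_ev (a b : ℝ) (h : 0 < a ∨ (0 = a ∧ 0 < b)) :
    ∀ᶠ t in 𝓝[>] (0 : ℝ), 0 < a + t * b := by
  rcases h with h | ⟨h, h'⟩
  · have hc : Tendsto (fun t : ℝ => a + t * b) (𝓝 0) (𝓝 (a + 0 * b)) :=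
      (continuous_const.add (continuous_id.mul continuous_const)).tendsto 0
    rw [zero_mul, add_zero] at hc
    exact (hc.mono_left nhdsWithin_le_nhds).eventually (lt_mem_nhds h)
  · filter_upwards [self_mem_nhdsWithin] with t ht
    rw [← h, zero_add]
    exact mul_pos ht h'

private theorem cflag_ev2 (a b : ℝ) (h : 0 < a ∨ (0 = a ∧ 0 ≤ b)) :
    ∀ᶠ t in 𝓝[>] (0 : ℝ), 0 ≤ a + t * b := by
  rcases h with h | ⟨h, h'⟩
  · filter_upwards [cflag_ev a b (Or.inl h)] with t ht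
    exact ht.le
  · filter_upwards [self_mem_nhdsWithin] with t ht
    rw [← h, zero_add]
    exact mul_nonneg (le_of_lt ht) h'

private theorem cflag_ex {P : ℝ → Prop} (h : ∀ᶠ t in 𝓝[>] (0 : ℝ), P t) :
    ∃ δ > 0, ∀ t, 0 < t → t < δ → P t := by
  obtain ⟨δ, hδ, h1⟩ := mem_nhdsGT_iff_exists_Ioo_subset.1 h
  exact ⟨δ, hδ, fun t h2 h3 => h1 ⟨h2, h3⟩⟩

private theorem cflag_fst {a b : ℝ ×ₗ ℝ} (h : a ≤ b) : (ofLex a).1 ≤ (ofLex b).1 := by
  rcases Prod.Lex.le_iff.1 h with h | ⟨h, -⟩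
  · exact h.le
  · exact h.le

/-- [CZP cflag] -/
theorem p_cflag (hrk : S_rk2) : S_cflag := by
  intro p _ k K _ _ _ _ _ n g φ R ι s00 hctx w V hw hV
  obtain ⟨⟨b0, ρ0, hbase⟩, hloc⟩ := id hctx
  obtain ⟨x1, hx1⟩ := hw
  obtain ⟨x2, hx2, hwx2, hcx2⟩ := hV.nt
  have hVisv := hV.inz.isv
  have hw0 : w 0 = 0 := by rw [← hV.fst 0, hVisv.zero]; rfl
  have hx1' : x1 ≠ 0 := by rintro rfl; exact hx1 hw0
  have hnd : w x1 * c2 V x2 - w x2 * c2 V x1 ≠ 0 := by
    rw [hwx2, zero_mul, sub_zero]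
    exact mul_ne_zero hx1 hcx2
  obtain ⟨⟨κ, i1, i2, x, ex, ac, φb, N, L, hch⟩, -, -⟩ :=
    hrk p k K n g φ R ι s00 hctx w V hV.inz hV.fst ⟨x1, x2, hx1', hx2, hnd⟩
  obtain ⟨d, hd⟩ : ∃ d : Fin 2 → ℝ, d = fun i => w (x i) := ⟨_, rfl⟩
  obtain ⟨e, he⟩ : ∃ e : Fin 2 → ℝ, e = fun i => c2 V (x i) := ⟨_, rfl⟩
  have hVx : ∀ i, V (x i) = toLex (d i, e i) := by
    intro i
    apply ofLex.injective
    ext
    · rw [hV.fst, hd]; rfl
    · rw [he]; rfl
  have hwt : ∀ m, wt (fun i => V (x i)) m = toLex (wt d m, wt e m) := fun m =>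
    cflag_wt _ d e hVx m
  have hVf : ∀ f, V f = toLex (w f, c2 V f) := by
    intro f
    apply ofLex.injective
    ext
    · rw [hV.fst]; rfl
    · rfl
  -- the determinant
  have hdet : d 0 * e 1 - d 1 * e 0 ≠ 0 := by
    intro hcon
    apply hnd
    have h1 : ∀ f, f ≠ 0 → w f = wt d (ex f) ∧ c2 V f = wt e (ex f) := by
      intro f hf
      have h2 := hch.vb.gen f hf
      rw [hwt, hVf] at h2
      have h3 := congrArg ofLex h2
      exact ⟨congrArg Prod.fst h3, congrArg Prod.snd h3⟩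
    rw [(h1 x1 hx1').1, (h1 x1 hx1').2, (h1 x2 hx2).1, (h1 x2 hx2).2]
    unfold wt
    rw [Fin.sum_univ_two, Fin.sum_univ_two, Fin.sum_univ_two, Fin.sum_univ_two]
    simp only [zsmul_eq_mul]
    linear_combination ((ex x1 0 : ℝ) * (ex x2 1 : ℝ) - (ex x1 1 : ℝ) * (ex x2 0 : ℝ)) * hcon
  -- the neighbourhood
  have hEv1 : ∀ᶠ t in 𝓝[>] (0 : ℝ), ∀ m ∈ N, 0 < wt d m + t * wt e m := by
    rw [eventually_all_finite hch.fin]
    intro m hm
    apply cflag_ev
    have h1 := hch.good m hm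
    rw [hwt, Prod.Lex.lt_iff] at h1
    exact h1
  obtain ⟨s0, hs0, hs0'⟩ := cflag_ex hEv1
  -- the points
  have hex : ∀ t : ℝ, ∃ y : K → ℝ, (t = 0 → y = w) ∧ (0 < t → t < s0 →
      OnCh k p φ g L (fun i => d i + t * e i) y ∧ ∀ i, y (x i) = d i + t * e i) := by
    intro t
    by_cases ht : 0 < t ∧ t < s0
    · have hG : Good N (fun i => d i + t * e i) := by
        intro m hm
        rw [cflag_wt2]
        exact hs0' t ht.1 ht.2 m hm
      obtain ⟨y, hy1, hy2⟩ := hch.cell ℝ (fun i => d i + t * e i) hG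
      exact ⟨y, fun h => absurd ht.1 (by rw [h]; exact lt_irrefl _), fun _ _ => ⟨hy1, hy2⟩⟩
    · exact ⟨w, fun _ => rfl, fun h1 h2 => absurd ⟨h1, h2⟩ ht⟩
  choose y hy using hex
  have hy0 : y 0 = w := (hy 0).1 rfl
  have hwinz : InZ k p φ w := by
    refine ⟨⟨hw0, ?_, ?_⟩, ?_, ?_⟩
    · intro a b ha hb
      rw [← hV.fst, ← hV.fst, ← hV.fst, hVisv.mul a b ha hb]
      rfl
    · intro a b ha hb hab
      have h1 := hVisv.add a b ha hb hab
      rw [min_le_iff] at h1 ⊢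
      rw [← hV.fst, ← hV.fst, ← hV.fst]
      rcases h1 with h1 | h1
      · exact Or.inl (cflag_fst h1)
      · exact Or.inr (cflag_fst h1)
    · intro c
      rw [← hV.fst, hV.inz.triv c]
      rfl
    · intro f hf
      have h1 := cflag_fst (hV.inz.compat f hf)
      rw [hV.fst] at h1
      have h2 : (ofLex (p • V (φ f))).1 = p • w (φ f) := by rw [← hV.fst]; rfl
      rw [h2] at h1
      exact h1
  have hmin : ∀ f ∈ Br k g, f ≠ 0 → (∀ m, (L f).coeff m ≠ 0 →
      (toLex (w f, c2 V f) : ℝ ×ₗ ℝ) ≤ toLex (wt d m, wt e m)) ∧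
      ∃ m, (L f).coeff m ≠ 0 ∧ w f = wt d m ∧ c2 V f = wt e m := by
    rintro f ⟨q, hq⟩ hf
    have h1 := hch.onch.min q (by rwa [hq])
    rw [hq, hVf] at h1
    obtain ⟨h2, m, hm, h3⟩ := h1
    rw [hwt] at h3
    refine ⟨fun m' hm' => ?_, m, hm, ?_⟩
    · have h4 := h2 m' hm'
      rwa [hwt] at h4
    · have h4 := congrArg ofLex h3
      exact ⟨congrArg Prod.fst h4, congrArg Prod.snd h4⟩
  have hon0 : OnCh k p φ g L (fun i => d i + 0 * e i) w := by
    refine ⟨hwinz, ?_⟩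
    intro q hq
    obtain ⟨h1, m, hm, h2, -⟩ := hmin _ ⟨q, rfl⟩ hq
    refine ⟨fun m' hm' => ?_, m, hm, ?_⟩
    · rw [cflag_wt2, zero_mul, add_zero]
      exact cflag_fst (h1 m' hm')
    · rw [cflag_wt2, zero_mul, add_zero]
      exact h2
  have hon : ∀ t, 0 ≤ t → t ≤ s0 / 2 → OnCh k p φ g L (fun i => d i + t * e i) (y t) ∧
      ∀ i, y t (x i) = d i + t * e i := by
    intro t ht1 ht2
    rcases ht1.lt_or_eq with h | h
    · exact (hy t).2 h (by linarith)
    · rw [← h, hy0]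
      refine ⟨hon0, fun i => ?_⟩
      rw [zero_mul, add_zero, hd]
  -- the values near `0`
  have hnearB : ∀ f ∈ Br k g, f ≠ 0 → ∀ᶠ t in 𝓝[>] (0 : ℝ), y t f = w f + t * c2 V f := by
    intro f hf hf0
    obtain ⟨h1, m, hm, h2, h3⟩ := hmin f hf hf0
    have hEv3 : ∀ᶠ t in 𝓝[>] (0 : ℝ), ∀ m' ∈ (L f).coeff.support,
        0 ≤ (wt d m' - wt d m) + t * (wt e m' - wt e m) := by
      rw [eventually_all_finset]
      intro m' hm'
      apply cflag_ev2
      have h4 := h1 m' (Finsupp.mem_support_iff.1 hm')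
      rw [h2, h3, Prod.Lex.le_iff] at h4
      simp only [ofLex_toLex] at h4
      rcases h4 with h4 | ⟨h4, h5⟩
      · exact Or.inl (sub_pos.2 h4)
      · exact Or.inr ⟨by rw [h4, sub_self], sub_nonneg.2 h5⟩
    have hEv4 : ∀ᶠ t in 𝓝[>] (0 : ℝ), t < s0 :=
      (eventually_lt_nhds hs0).filter_mono nhdsWithin_le_nhds
    filter_upwards [hEv3, hEv4, self_mem_nhdsWithin] with t ht1 ht2 ht3
    obtain ⟨q, rfl⟩ := hf
    have h6 := ((hy t).2 ht3 ht2).1.min q hf0
    obtain ⟨h7, m', hm', h8⟩ := h6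
    have h9 := h7 m hm
    rw [cflag_wt2] at h8 h9
    have h10 := ht1 m' (Finsupp.mem_support_iff.2 hm')
    rw [h2, h3]
    apply le_antisymm h9
    rw [h8]
    linarith
  have hIsR : ∀ f ∈ Br k g, f ≠ 0 → ∀ m : ℝ × ℝ,
      IsR ((L f).coeff.support.image fun m => (wt d m, wt e m)) 0 m ↔ m = (w f, c2 V f) := by
    intro f hf hf0 m
    obtain ⟨h1, μ, hμ, h2, h3⟩ := hmin f hf hf0
    have hmem : (wt d μ, wt e μ) ∈ (L f).coeff.support.image fun m => (wt d m, wt e m) :=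
      Finset.mem_image_of_mem _ (Finsupp.mem_support_iff.2 hμ)
    constructor
    · intro hm
      obtain ⟨ν, hν, rfl⟩ := Finset.mem_image.1 hm.mem
      have h4 := h1 ν (Finsupp.mem_support_iff.1 hν)
      have h5 := hm.min _ hmem
      have h6 := hm.tie _ hmem
      rw [Prod.Lex.le_iff] at h4
      simp only [ofLex_toLex, zero_mul, add_zero] at h4 h5 h6
      rw [h2, h3] at h4 ⊢
      rcases h4 with h4 | ⟨h4, h4'⟩
      · exact absurd h5 (not_le.2 h4)
      · rw [h4, le_antisymm h4' (h6 h4)]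
    · rintro rfl
      refine ⟨?_, ?_, ?_⟩
      · rw [h2, h3]; exact hmem
      · intro m' hm'
        obtain ⟨ν, hν, rfl⟩ := Finset.mem_image.1 hm'
        have h4 := cflag_fst (h1 ν (Finsupp.mem_support_iff.1 hν))
        simp only [ofLex_toLex] at h4
        simp only [zero_mul, add_zero]
        exact h4
      · intro m' hm' h5
        obtain ⟨ν, hν, rfl⟩ := Finset.mem_image.1 hm'
        have h4 := h1 ν (Finsupp.mem_support_iff.1 hν)
        rw [Prod.Lex.le_iff] at h4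
        simp only [ofLex_toLex, zero_mul, add_zero] at h4 h5
        rcases h4 with h4 | ⟨-, h4⟩
        · rw [h5] at h4; exact absurd h4 (lt_irrefl _)
        · exact h4
  refine ⟨s0 / 2, y, fun f => (L f).coeff.support.image fun m => (wt d m, wt e m), ?_, hy0, ?_⟩
  · refine ⟨by linarith, κ, ℝ ×ₗ ℝ, i1, i2, inferInstance, inferInstance, inferInstance, V, x, ex,
      ac, φb, N, L, d, e, hch, hdet, ?_, hon, ?_⟩
    · intro t ht1 ht2 m hm
      rw [cflag_wt2]
      exact hs0' t ht1 (by linarith) m hm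
    · intro f m'
      rw [Finset.mem_image]
      constructor
      · rintro ⟨m, hm, h⟩
        exact ⟨m, Finsupp.mem_support_iff.1 hm, h.symm⟩
      · rintro ⟨m, hm, h⟩
        exact ⟨m, Finsupp.mem_support_iff.2 hm, h.symm⟩
  · refine ⟨hV.inz, ?_, ?_, ?_, ?_⟩
    · intro f; rw [hy0]; exact hV.fst f
    · intro f hf
      obtain ⟨a, b, hb0, hab⟩ := hbase.gen f
      have ha0 : aeval g a ≠ 0 := by rw [← hab]; exact mul_ne_zero hf hb0
      obtain ⟨δ, hδ, h⟩ := cflag_ex ((hnearB _ ⟨a, rfl⟩ ha0).and (hnearB _ ⟨b, rfl⟩ hb0))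
      refine ⟨min δ (s0 / 2), lt_min hδ (by linarith), ?_⟩
      intro ε he1 he2
      obtain ⟨h1, h2⟩ := h ε he1 (lt_of_lt_of_le he2 (min_le_left _ _))
      have h3 := (hon ε he1.le (le_of_lt (lt_of_lt_of_le he2 (min_le_right _ _)))).1.inz.isv.mul
        f _ hf hb0
      have h4 := hwinz.isv.mul f _ hf hb0
      have h5 : c2 V (f * aeval g b) = c2 V f + c2 V (aeval g b) := by
        unfold c2
        rw [hVisv.mul f _ hf hb0]
        rfl
      rw [hab] at h3 h4 h5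
      rw [h3, h4, h5] at h1
      rw [zero_add, hy0]
      linear_combination h1 - h2
    · exact ⟨x1, x2, hx1', hx2, by rw [hy0]; exact hnd⟩
    · intro u
      rw [hy0]
      unfold DR DV
      simp only [Set.mem_ofPred_eq]
      have hdot : ∀ f, dot (u.1, sd 0 u) (w f, c2 V f) = dot u (w f, c2 V f) := by
        intro f
        unfold dot sd
        simp only
        ring
      constructor
      · intro h f hf hf0
        rw [hdot]
        exact h f hf hf0 _ ((hIsR f hf hf0 _).2 rfl)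
      · intro h f hf hf0 m hm
        rw [(hIsR f hf hf0 m).1 hm, ← hdot]
        exact h f hf hf0

end Pool.Agent.CZP
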