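import Pool.Agent.Lib.MP_305fdd_al.CZ.P.Stm
import Pool.Agent.Lib.MP_305fdd_al.F2.ChMain

/-!
# MP_305fdd_al, [CZP cirr]: from an irrational point to a two-sided line
-/

set_option autoImplicit false

namespace Pool.Agent.CZP

open MvPolynomial Pool.Agent.F2Ch Pool.Agent.F2PF Filter Topology

private theorem cirr_wt2 (d e : Fin 2 → ℝ) (t : ℝ) (m : Fin 2 → ℤ) :
    wt (fun i => d i + t * e i) m = wt d m + t * wt e m := by
  unfold wt
  rw [Fin.sum_univ_two, Fin.sum_univ_two, Fin.sum_univ_two]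
  simp only [zsmul_eq_mul]
  ring

private theorem cirr_ev (a b : ℝ) (h : 0 < a) : ∀ᶠ t in 𝓝 (0 : ℝ), 0 < a + t * b := by
  have hc : Tendsto (fun t : ℝ => a + t * b) (𝓝 0) (𝓝 (a + 0 * b)) :=
    (continuous_const.add (continuous_id.mul continuous_const)).tendsto 0
  rw [zero_mul, add_zero] at hc
  exact hc.eventually (lt_mem_nhds h)

/-- [CZP cirr] -/
theorem p_cirr : S_cirr := by
  intro p _ k K _ _ _ _ _ n g φ R ι s00 hctx V hV hnD
  obtain ⟨⟨b0, ρ0, hbase⟩, hloc⟩ := hctx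
  obtain ⟨r, s, κ, i1, i2, x, ex, ac, φb, N, L, hch, hrs, -, -, b', ρ', hpb⟩ :=
    t_X2 p k K ℝ n g hbase.gen 2 b0 ρ0 hbase.pb φ hbase.pinv hbase.one V hV
  have hr : r = 2 := by
    have hr3 : r ≤ 2 := by omega
    interval_cases r
    · exfalso
      apply hnD
      refine ⟨1, one_pos, fun f hf => ⟨0, ?_⟩⟩
      rw [hch.vb.gen f hf]
      unfold wt
      simp
    · exfalso
      apply hnD
      refine ⟨V (x 0), hch.vb.pos 0, fun f hf => ⟨ex f 0, ?_⟩⟩
      rw [hch.vb.gen f hf]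
      unfold wt
      rw [Fin.sum_univ_one]
    · rfl
  subst hr
  obtain ⟨d, hd⟩ : ∃ d : Fin 2 → ℝ, d = fun i => V (x i) := ⟨_, rfl⟩
  obtain ⟨e, he⟩ : ∃ e : Fin 2 → ℝ, e = ![-d 1, d 0] := ⟨_, rfl⟩
  have hVx : (fun i => V (x i)) = d := hd.symm
  have hpos : ∀ i, 0 < d i := fun i => by rw [hd]; exact hch.vb.pos i
  have hdet : d 0 * e 1 - d 1 * e 0 ≠ 0 := by
    have h1 : d 0 * e 1 - d 1 * e 0 = d 0 * d 0 + d 1 * d 1 := by
      rw [he]
      simp
    rw [h1]
    have := mul_pos (hpos 0) (hpos 0)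
    have := mul_pos (hpos 1) (hpos 1)
    linarith
  have hgood := hch.good
  have honch := hch.onch
  have hindep := hch.vb.indep
  rw [hVx] at hgood honch hindep
  have hEv1 : ∀ᶠ t in 𝓝 (0 : ℝ), ∀ m ∈ N, 0 < wt d m + t * wt e m := by
    rw [eventually_all_finite hch.fin]
    intro m hm
    exact cirr_ev _ _ (hgood m hm)
  obtain ⟨s0, hs0, hs0'⟩ := Metric.eventually_nhds_iff.1 hEv1
  have hs1 : ∀ t : ℝ, |t| < s0 → (∀ m ∈ N, 0 < wt d m + t * wt e m) := fun t ht =>
    hs0' (by rwa [Real.dist_0_eq_abs])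
  have hex : ∀ t : ℝ, ∃ y : K → ℝ, |t| < s0 →
      OnCh k p φ g L (fun i => d i + t * e i) y ∧ ∀ i, y (x i) = d i + t * e i := by
    intro t
    by_cases ht : |t| < s0
    · have hG : Good N (fun i => d i + t * e i) := by
        intro m hm
        rw [cirr_wt2]
        exact hs1 t ht m hm
      obtain ⟨y, hy1, hy2⟩ := hch.cell ℝ (fun i => d i + t * e i) hG
      exact ⟨y, fun _ => ⟨hy1, hy2⟩⟩
    · exact ⟨V, fun h => absurd h ht⟩
  choose y hy using hex
  have hy0 : y 0 = V := by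
    have h1 := (hy 0 (by rw [abs_zero]; exact hs0)).1
    have h2 : (fun i => d i + 0 * e i) = d := by
      funext i
      rw [zero_mul, add_zero]
    rw [h2] at h1
    exact hch.uniq ℝ d (y 0) V h1 honch
  have habs : ∀ t : ℝ, -(s0 / 2) ≤ t → t ≤ s0 / 2 → |t| < s0 := by
    intro t h1 h2
    rw [abs_lt]
    constructor <;> linarith
  refine ⟨s0 / 2, y, fun f => (L f).coeff.support.image fun m => (wt d m, wt e m), by linarith, ?_,
    hy0⟩
  · refine ⟨by linarith, κ, ℝ, i1, i2, inferInstance, inferInstance, inferInstance, V, x, ex,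
      ac, φb, N, L, d, e, hch, hdet, ?_, fun t h1 h2 => hy t (habs t h1 h2), ?_⟩
    · intro t ht1 ht2 m hm
      rw [cirr_wt2]
      exact hs1 t (habs t ht1.le ht2.le) m hm
    · intro f m'
      rw [Finset.mem_image]
      constructor
      · rintro ⟨m, hm, h⟩
        exact ⟨m, Finsupp.mem_support_iff.1 hm, h.symm⟩
      · rintro ⟨m, hm, h⟩
        exact ⟨m, Finsupp.mem_support_iff.2 hm, h.symm⟩

end Pool.Agent.CZP
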