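import Pool.Agent.Lib.MP_305fdd_al.CZ.P.StmB
import Pool.Agent.Lib.MP_305fdd_al.F2.PF.Main

/-!
# MP_305fdd_al, `C_m * Z`, piece [CZP close] (closedness of `P_σ`)
-/

set_option autoImplicit false

namespace Pool.Agent.CZP

open MvPolynomial Pool.Agent.F2Ch Pool.Agent.F2PF

private theorem close_seq (s1 : ℝ) (hs1 : 0 < s1) (i : ℕ) :
    0 < s1 / ((i : ℝ) + 1) ∧ s1 / ((i : ℝ) + 1) ≤ s1 := by
  have h : (0 : ℝ) < (i : ℝ) + 1 := by positivity
  refine ⟨div_pos hs1 h, ?_⟩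
  rw [div_le_iff₀ h]
  have h2 : (0 : ℝ) ≤ s1 * (i : ℝ) := by positivity
  linarith

private theorem close_tendsto (s1 : ℝ) (hs1 : 0 < s1) :
    Filter.Tendsto (fun i : ℕ => s1 / ((i : ℝ) + 1)) Filter.atTop
      (nhdsWithin 0 (Set.Icc 0 s1)) := by
  rw [tendsto_nhdsWithin_iff]
  refine ⟨?_, Filter.Eventually.of_forall fun i =>
    ⟨(close_seq s1 hs1 i).1.le, (close_seq s1 hs1 i).2⟩⟩
  have h := (tendsto_one_div_add_atTop_nhds_zero_nat (𝕜 := ℝ)).const_mul s1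
  rw [mul_zero] at h
  refine h.congr fun i => ?_
  rw [mul_one_div]

theorem p_close (hcls : S_cls) (hinp : S_inp) (hdnl : S_dnl) (hrch : S_rch) (hanti : S_anti) :
    S_close := by
  intro p _ k K _ _ _ _ _ n g φ R ι s0 hC σ s y M hD hP
  have hs : 0 < s := hD.cl.1
  obtain ⟨s1, Y, N, e1, hG, he1, he1s, hr1⟩ := hP s hs le_rfl
  have hs1 : 0 < s1 := hG.cl.1
  obtain ⟨D1, -, -, -, D5⟩ := hdnl p k K n g φ R ι s0 hC s y M hD
  obtain ⟨-, rch2⟩ := hrch p k K n g φ R ι s0 hC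
  obtain ⟨-, -, -, -, hRns⟩ := hanti p k K n g φ R ι s0 hC
  have hL : LocZ k p φ g R ι s0 := hC.2
  have hgen : FracGen k g := by
    obtain ⟨⟨b0, ρ0, hb⟩, -⟩ := hC
    exact hb.gen
  have hYP : ∀ e, 0 < e → e ≤ s1 → InP k p φ g R s0 σ (Y e) := fun e he hes =>
    (hinp p k K n g φ R ι s0 hC σ (Y e)).2.2.2.2.2.2.2 s1 Y N hG e he hes
  have claim : ∃ e, 0 < e ∧ e ≤ s1 ∧ ∀ t, 0 < t → t ≤ s → Rch k p φ g (Y e) (y t) := by
    by_contra hcon
    push Not at hcon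
    have hle : ∀ e, 0 < e → e ≤ s1 → Le (Br k g) (Y e) (y 0) := by
      intro e he hes
      obtain ⟨t, ht0, hts, hnr⟩ := hcon e he hes
      have hr : Rch k p φ g (y t) (Y e) := by
        rcases (hinp p k K n g φ R ι s0 hC σ (y t)).2.2.2.2.2.2.1 (hP t ht0 hts) (Y e)
          (hYP e he hes) with h | h
        · exact h
        · exact absurd h hnr
      have hr0 : Rch k p φ g (y 0) (Y e) :=
        Relation.ReflTransGen.head (D5 0 t le_rfl ht0.le hts) hr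
      exact (rch2 (y 0) (Y e) (D1 0 le_rfl hs.le) hr0).2.1
    have htend : ∀ f ∈ Br k g, f ≠ 0 →
        Filter.Tendsto (fun i : ℕ => Y (s1 / ((i : ℝ) + 1)) f) Filter.atTop (nhds (R f)) := by
      intro f hf hf0
      have hcont := (t_dense p k K n g φ hgen 0 s1 Y N hG.cl).2.1 f hf hf0 0
        ⟨le_rfl, hs1.le⟩
      have h := hcont.tendsto.comp (close_tendsto s1 hs1)
      rw [hG.zero] at h
      exact h
    have hRle : Le (Br k g) R (y 0) :=
      (t_lim K (Br k g) ℕ Filter.atTop (fun i => Y (s1 / ((i : ℝ) + 1))) R (y 0) htend).2.1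
        (fun i => hle _ (close_seq s1 hs1 i).1 (close_seq s1 hs1 i).2)
        (hD.ai 0 le_rfl hs.le) hRns
    obtain ⟨c, hc, hcle⟩ := hRle
    obtain ⟨f, hf, hf0, hneg⟩ := hD.ai 0 le_rfl hs.le
    have h1 := hcle f hf hf0
    have h2 := hL.Rnn f hf hf0
    have h3 : c * y 0 f < 0 := mul_neg_of_pos_of_neg hc hneg
    linarith
  obtain ⟨e, he, hes, hall⟩ := claim
  have hPZ : PZ k p φ g (Y e) := (hinp p k K n g φ R ι s0 hC σ (Y e)).1 (hYP e he hes)
  exact ⟨s1, Y, N, e, hG, he, hes, hcls p k K n g φ R ι s0 hC s y M hD (Y e) hPZ hall⟩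

end Pool.Agent.CZP
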