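import Pool.Agent.Lib.MP_305fdd_al.CZ.P.StmB
import Pool.Agent.Lib.MP_305fdd_al.F2.PF.StmB

/-!
# MP_305fdd_al, `C_m * Z`, section CZ/P: the piece `S_cls`
-/

set_option autoImplicit false

namespace Pool.Agent.CZP

open MvPolynomial Pool.Agent.F2Ch Pool.Agent.F2PF Filter Topology

private theorem cls_ext {K : Type} [Field K] {B : Set K} (hB : Bs B) {v v' : K → ℝ} (hv : IsV v)
    (hv' : IsV v') {c : ℝ} (hc : 0 < c) (h : ∀ f ∈ B, f ≠ 0 → v' f = c * v f) : Pr v v' := by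
  refine ⟨c, hc, fun f => ?_⟩
  by_cases hf : f = 0
  · subst hf
    rw [hv.zero, hv'.zero, mul_zero]
  · obtain ⟨a, ha, b, hb, hb0, hab⟩ := hB.frac f
    have ha0 : a ≠ 0 := by
      rw [← hab]
      exact mul_ne_zero hf hb0
    have h1 := hv.mul f b hf hb0
    have h2 := hv'.mul f b hf hb0
    rw [hab] at h1 h2
    have h3 := h a ha ha0
    have h4 := h b hb hb0
    rw [h1] at h3
    rw [h2, h4] at h3
    linarith

private theorem cls_nz {K : Type} [Field K] {B : Set K} (hB : Bs B) {v : K → ℝ} (hv : IsV v)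
    (h : ∃ f, v f ≠ 0) : ∃ f ∈ B, f ≠ 0 ∧ v f ≠ 0 := by
  by_contra hcon
  push Not at hcon
  obtain ⟨f, hf⟩ := h
  have hf0 : f ≠ 0 := by
    rintro rfl
    exact hf hv.zero
  obtain ⟨a, ha, b, hb, hb0, hab⟩ := hB.frac f
  have ha0 : a ≠ 0 := by
    rw [← hab]
    exact mul_ne_zero hf0 hb0
  have h1 := hv.mul f b hf0 hb0
  rw [hab, hcon a ha ha0, hcon b hb hb0] at h1
  apply hf
  linarith

/-- the compactness step -/
private theorem cls_lim {K : Type} [Field K] {B : Set K} (hB : Bs B) {y y' : ℝ → K → ℝ}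
    {s s' : ℝ} (hs : 0 < s)
    (hy : ∀ t, 0 ≤ t → t ≤ s → IsV (y t) ∧ ∃ f, y t f ≠ 0)
    (hy' : ∀ t, 0 ≤ t → t ≤ s' → IsV (y' t) ∧ ∃ f, y' t f ≠ 0)
    (hcy : ∀ f ∈ B, f ≠ 0 → ContinuousOn (fun t => y t f) (Set.Icc 0 s))
    (hcy' : ∀ f ∈ B, f ≠ 0 → ContinuousOn (fun t => y' t f) (Set.Icc 0 s'))
    {t0 : ℝ} (ht0 : 0 < t0) (ht0s : t0 ≤ s)
    (h : ∀ t, 0 < t → t ≤ t0 → ∃ t', 0 ≤ t' ∧ t' ≤ s' ∧ Pr (y' t') (y t)) :
    ∃ b, 0 ≤ b ∧ b ≤ s' ∧ Pr (y' b) (y 0) := by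
  set x : ℕ → ℝ := fun m => t0 / ((m : ℝ) + 1) with hx
  have hx0 : ∀ m, 0 < x m := fun m => by positivity
  have hx1 : ∀ m, x m ≤ t0 := fun m => by
    rw [hx]
    apply div_le_self ht0.le
    have : (0 : ℝ) ≤ m := Nat.cast_nonneg m
    linarith
  choose τ hτ0 hτs hτ using fun m => h (x m) (hx0 m) (hx1 m)
  have hxa : Tendsto x atTop (𝓝 0) := by
    have h1 := (tendsto_one_div_add_atTop_nhds_zero_nat (𝕜 := ℝ)).const_mul t0
    rw [mul_zero] at h1
    refine h1.congr fun m => ?_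
    rw [hx]
    ring
  obtain ⟨b, hb, ψ, hψ, hψb⟩ := isCompact_Icc.tendsto_subseq
    (fun m => (⟨hτ0 m, hτs m⟩ : τ m ∈ Set.Icc 0 s'))
  have h0I : (0 : ℝ) ∈ Set.Icc 0 s := ⟨le_rfl, hs.le⟩
  have hxa' : Tendsto (x ∘ ψ) atTop (𝓝 0) := hxa.comp hψ.tendsto_atTop
  have hya : ∀ f ∈ B, f ≠ 0 → Tendsto (fun m => y (x (ψ m)) f) atTop (𝓝 (y 0 f)) := by
    intro f hf hf0
    have h3 := (hcy f hf hf0 0 h0I).tendsto
    exact h3.comp (tendsto_nhdsWithin_iff.mpr ⟨hxa', Filter.Eventually.of_forall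
      fun m => ⟨(hx0 (ψ m)).le, (hx1 (ψ m)).trans ht0s⟩⟩)
  have hyb : ∀ f ∈ B, f ≠ 0 → Tendsto (fun m => y' (τ (ψ m)) f) atTop (𝓝 (y' b f)) := by
    intro f hf hf0
    have h3 := (hcy' f hf hf0 b hb).tendsto
    exact h3.comp (tendsto_nhdsWithin_iff.mpr ⟨hψb, Filter.Eventually.of_forall
      fun m => ⟨hτ0 (ψ m), hτs (ψ m)⟩⟩)
  obtain ⟨hvb, hnb⟩ := hy' b hb.1 hb.2
  obtain ⟨hva, hna⟩ := hy 0 le_rfl hs.le
  obtain ⟨f0, hf0B, hf0, hf0v⟩ := cls_nz hB hvb hnb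
  have key : ∀ f ∈ B, f ≠ 0 → y' b f0 * y 0 f = y 0 f0 * y' b f := by
    intro f hf hfne
    have h3 : Tendsto (fun m => y' (τ (ψ m)) f0 * y (x (ψ m)) f) atTop
        (𝓝 (y' b f0 * y 0 f)) := (hyb f0 hf0B hf0).mul (hya f hf hfne)
    have h4 : Tendsto (fun m => y (x (ψ m)) f0 * y' (τ (ψ m)) f) atTop
        (𝓝 (y 0 f0 * y' b f)) := (hya f0 hf0B hf0).mul (hyb f hf hfne)
    have h5 : (fun m => y' (τ (ψ m)) f0 * y (x (ψ m)) f) =
        fun m => y (x (ψ m)) f0 * y' (τ (ψ m)) f := by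
      funext m
      obtain ⟨c, hc, hcf⟩ := hτ (ψ m)
      rw [hcf f, hcf f0]
      ring
    rw [h5] at h3
    exact tendsto_nhds_unique h3 h4
  have hnn : 0 ≤ y 0 f0 * y' b f0 := by
    have h4 : Tendsto (fun m => y (x (ψ m)) f0 * y' (τ (ψ m)) f0) atTop
        (𝓝 (y 0 f0 * y' b f0)) := (hya f0 hf0B hf0).mul (hyb f0 hf0B hf0)
    refine ge_of_tendsto' h4 fun m => ?_
    obtain ⟨c, hc, hcf⟩ := hτ (ψ m)
    rw [hcf f0]
    have := mul_self_nonneg (y' (τ (ψ m)) f0)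
    nlinarith
  have hceq : ∀ f ∈ B, f ≠ 0 → y 0 f = y 0 f0 / y' b f0 * y' b f := by
    intro f hf hfne
    have := key f hf hfne
    field_simp
    linarith
  have hc0 : y 0 f0 ≠ 0 := by
    intro h3
    obtain ⟨f1, hf1B, hf1, hf1v⟩ := cls_nz hB hva hna
    apply hf1v
    rw [hceq f1 hf1B hf1, h3]
    simp
  have hcpos : 0 < y 0 f0 / y' b f0 := by
    have h3 : 0 < y 0 f0 * y' b f0 := lt_of_le_of_ne hnn (by
      intro h4
      rcases mul_eq_zero.mp h4.symm with h5 | h5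
      · exact hc0 h5
      · exact hf0v h5)
    have h4 : y 0 f0 / y' b f0 = y 0 f0 * y' b f0 / (y' b f0) ^ 2 := by
      field_simp
    rw [h4]
    positivity
  exact ⟨b, hb.1, hb.2, cls_ext hB hvb hva hcpos hceq⟩

theorem p_cls (hdnl : S_dnl) (hrch : S_rch) (htot : S_tot) (hbtw : S_btw) (hanti : S_anti)
    (hline : Pool.Agent.F2PF.S_line) (hdense : Pool.Agent.F2PF.S_dense) : S_cls := by
  intro p _ k K _ _ _ _ _ n g φ R ι s0 hC s y M hy x hx hxt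
  obtain ⟨⟨b0, ρ0, hbase⟩, hL⟩ := id hC
  obtain ⟨hBs', hln⟩ := hline p k K n g φ
  have hBs : Bs (Br k g) := hBs' hbase.gen
  have hs : 0 < s := hy.cl.1
  obtain ⟨-, hzy, -⟩ := hln 0 s y M hy.cl
  have hcy := (hdense p k K n g φ hbase.gen 0 s y M hy.cl).2.1
  obtain ⟨hpz, -, -, -, hdn⟩ := hdnl p k K n g φ R ι s0 hC s y M hy
  obtain ⟨hr1, hr2⟩ := hrch p k K n g φ R ι s0 hC
  have hRs : Rch k p φ g x (y s) := hxt s hs le_rfl
  revert hx hxt
  induction hRs using Relation.ReflTransGen.head_induction_on with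
  | refl =>
    intro _ hall
    exfalso
    have h1 : Rch k p φ g (y s) (y (s / 2)) := hall (s / 2) (by linarith) (by linarith)
    have h2 : Rch k p φ g (y (s / 2)) (y s) :=
      Relation.ReflTransGen.single (hdn (s / 2) s (by linarith) (by linarith) le_rfl)
    have h3 := (hr2 (y s) (y (s / 2)) (hpz s hs.le le_rfl) h1).2.2 h2
    have h4 := (hanti p k K n g φ R ι s0 hC).2.1 0 s y M hy.cl s (s / 2) hs.le le_rfl
      (by linarith) (by linarith) h3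
    linarith
  | head haa' hra' ih =>
    rename_i a a'
    intro ha hall
    have haa : Rch k p φ g a a' := Relation.ReflTransGen.single haa'
    have ha' : PZ k p φ g a' := (hr2 a a' ha haa).1
    by_cases hall' : ∀ t, 0 < t → t ≤ s → Rch k p φ g a' (y t)
    · exact haa.trans (ih ha' hall')
    · push Not at hall'
      obtain ⟨t0, ht0, ht0s, hn⟩ := hall'
      have hno : ∀ t, 0 < t → t ≤ t0 → ¬ Rch k p φ g a' (y t) := by
        intro t ht htt h1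
        exact hn (h1.trans (Relation.ReflTransGen.single (hdn t t0 ht.le htt ht0s)))
      have hyes : ∀ t, 0 < t → t ≤ t0 → Rch k p φ g (y t) a' := by
        intro t ht htt
        rcases htot p k K n g φ R ι s0 hC a a' (y t) haa (hall t ht (htt.trans ht0s)) with h1 | h1
        · exact absurd h1 (hno t ht htt)
        · exact h1
      rcases haa' with ⟨-, h1⟩ | ⟨s1, y1, M1, hD1, h1, h2⟩
      · exfalso
        have h2 : Pr a' a := by
          obtain ⟨c, hc, hcf⟩ := h1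
          refine ⟨c⁻¹, inv_pos.2 hc, fun f => ?_⟩
          rw [hcf f, inv_mul_cancel_left₀ hc.ne']
        exact hn ((hr1 a' a ha' h2).2.trans (hall t0 ht0 ht0s))
      · obtain ⟨-, hzy1, -⟩ := hln 0 s1 y1 M1 hD1.cl
        have hcy1 := (hdense p k K n g φ hbase.gen 0 s1 y1 M1 hD1.cl).2.1
        obtain ⟨b, hb0, hbs, hb⟩ := cls_lim hBs hs
          (fun t ht hts => ⟨(hzy t ht hts).1.isv, (hzy t ht hts).2⟩)
          (fun t ht hts => ⟨(hzy1 t ht hts).1.isv, (hzy1 t ht hts).2⟩) hcy hcy1 ht0 ht0s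
          (fun t ht htt => hbtw p k K n g φ R ι s0 hC s1 y1 M1 hD1 a (y t) a' h1 h2
            (hall t ht (htt.trans ht0s)) (hyes t ht htt))
        obtain ⟨hpz1, -, -, -, hdn1⟩ := hdnl p k K n g φ R ι s0 hC s1 y1 M1 hD1
        have h3 : Rch k p φ g a (y1 0) := (hr1 a (y1 0) ha h1).2
        have h4 : Rch k p φ g (y1 0) (y1 b) :=
          Relation.ReflTransGen.single (hdn1 0 b le_rfl hb0 hbs)
        have h5 : Rch k p φ g (y1 b) (y 0) := (hr1 (y1 b) (y 0) (hpz1 b hb0 hbs) hb).2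
        exact (h3.trans h4).trans h5

end Pool.Agent.CZP
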