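import Pool.Agent.Lib.MP_305fdd_al.CZ.P.Stm
import Pool.Agent.Lib.MP_305fdd_al.F2.ChMain

/-!
# MP_305fdd_al, section CZ/P: local coincidence of two lines
-/

set_option autoImplicit false

namespace Pool.Agent.CZP

open MvPolynomial Pool.Agent.F2Ch Pool.Agent.F2PF Filter Topology

theorem coin_ev (P : ℝ → Prop) :
    (∀ᶠ ε in 𝓝[>] (0 : ℝ), P ε) ↔ ∃ δ > 0, ∀ ε, 0 < ε → ε < δ → P ε := by
  constructor
  · intro h
    obtain ⟨u, hu, hs⟩ := mem_nhdsGT_iff_exists_Ioo_subset.1 h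
    exact ⟨u, hu, fun ε h1 h2 => hs ⟨h1, h2⟩⟩
  · rintro ⟨δ, hδ, h⟩
    exact mem_nhdsGT_iff_exists_Ioo_subset.2 ⟨δ, hδ, fun ε hε => h ε hε.1 hε.2⟩

theorem coin_wt {r : ℕ} (u : Fin r → ℝ) (c : ℝ) (m : Fin r → ℤ) :
    wt (fun i => c * u i) m = c * wt u m := by
  unfold wt
  rw [Finset.mul_sum]
  refine Finset.sum_congr rfl fun j _ => ?_
  rw [zsmul_eq_mul, zsmul_eq_mul]
  ring

theorem coin_inz {k K : Type} [Field k] [Field K] [Algebra k K] {p : ℕ} {φ : K → K} {w : K → ℝ}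
    (h : InZ k p φ w) {c : ℝ} (hc : 0 < c) : InZ k p φ (fun f => c * w f) := by
  refine ⟨⟨?_, ?_, ?_⟩, ?_, ?_⟩
  · show c * w 0 = 0
    rw [h.isv.zero, mul_zero]
  · intro x y hx hy
    show c * w (x * y) = c * w x + c * w y
    rw [h.isv.mul x y hx hy, mul_add]
  · intro x y hx hy hxy
    show min (c * w x) (c * w y) ≤ c * w (x + y)
    rw [← mul_min_of_nonneg _ _ hc.le]
    exact mul_le_mul_of_nonneg_left (h.isv.add x y hx hy hxy) hc.le
  · intro a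
    show c * w (algebraMap k K a) = 0
    rw [h.triv a, mul_zero]
  · intro f hf
    show c * w f ≤ p • (c * w (φ f))
    have h1 := h.compat f hf
    rw [nsmul_eq_mul] at h1 ⊢
    have h2 := mul_le_mul_of_nonneg_left h1 hc.le
    calc c * w f ≤ c * ((p : ℝ) * w (φ f)) := h2
      _ = (p : ℝ) * (c * w (φ f)) := by ring

theorem coin_onch {k K κ : Type} [Field k] [Field K] [Algebra k K] [Field κ] {p n r : ℕ}
    {φ : K → K} {g : Fin n → K} {L : K → AddMonoidAlgebra κ (Fin r → ℤ)} {u : Fin r → ℝ}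
    {w : K → ℝ} (h : OnCh k p φ g L u w) {c : ℝ} (hc : 0 < c) :
    OnCh k p φ g L (fun i => c * u i) (fun f => c * w f) := by
  refine ⟨coin_inz h.inz hc, ?_⟩
  intro q hq
  obtain ⟨h1, m, hm, h2⟩ := h.min q hq
  refine ⟨?_, m, hm, ?_⟩
  · intro m' hm'
    rw [coin_wt]
    exact mul_le_mul_of_nonneg_left (h1 m' hm') hc.le
  · rw [coin_wt, h2]

theorem coin_inzy {k K : Type} [Field k] [Field K] [Algebra k K] {p : ℕ} {φ : K → K} {n : ℕ}
    {g : Fin n → K} {s1 s2 : ℝ} {y : ℝ → K → ℝ} {M : K → Finset (ℝ × ℝ)}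
    (h : CL k p φ g s1 s2 y M) (t : ℝ) (h1 : s1 ≤ t) (h2 : t ≤ s2) : InZ k p φ (y t) := by
  obtain ⟨_, κ, Γ, _, _, _, _, _, V, x, ex, ac, φb, N, L, d, e, _, _, _, h3, _⟩ := h
  exact (h3 t h1 h2).1.inz

theorem p_coin : CZP.S_coin := by
  intro p _ k K _ _ _ _ _ n g φ R ι s0 hctx s s' y y' M M' hcl hcl' hpr V V' hV hV' hab
  obtain ⟨⟨b0, ρ0, hb⟩, _⟩ := hctx
  obtain ⟨α, β, hβ, hc2⟩ := hab
  obtain ⟨c, hc, hpc⟩ := hpr
  have hs : 0 < s := hcl.1
  have hs' : 0 < s' := hcl'.1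
  obtain ⟨r, _, κ, _, _, x, ex, ac, φb, N, L, hch, _⟩ :=
    t_X2 p k K (ℝ ×ₗ ℝ) n g hb.gen 2 b0 ρ0 hb.pb φ hb.pinv hb.one V hV.inz
  obtain ⟨G0, G1, hG0, hG1, h0, h1, huni⟩ := hch.unif
  -- near
  have hnear : ∀ f, f ≠ 0 → ∀ᶠ ε in 𝓝[>] (0 : ℝ), y ε f = y 0 f + ε * c2 V f := by
    intro f hf
    obtain ⟨δ, hδ, h⟩ := hV.near f hf
    refine (coin_ev _).2 ⟨δ, hδ, fun ε h1 h2 => ?_⟩
    have := h ε h1 h2
    rwa [zero_add] at this
  have hnear' : ∀ f, f ≠ 0 → ∀ᶠ ε in 𝓝[>] (0 : ℝ), y' ε f = y' 0 f + ε * c2 V' f := by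
    intro f hf
    obtain ⟨δ, hδ, h⟩ := hV'.near f hf
    refine (coin_ev _).2 ⟨δ, hδ, fun ε h1 h2 => ?_⟩
    have := h ε h1 h2
    rwa [zero_add] at this
  have hVf : ∀ f, V f = toLex (y 0 f, c2 V f) := by
    intro f
    rw [← hV.fst f]
    rfl
  have hzero : ∀ f, V f = 0 → y 0 f = 0 ∧ c2 V f = 0 := by
    intro f hf
    constructor
    · rw [← hV.fst f, hf]
      rfl
    · unfold c2
      rw [hf]
      rfl
  have hposV : ∀ f, 0 < V f → 0 < y 0 f ∨ (y 0 f = 0 ∧ 0 < c2 V f) := by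
    intro f hf
    rw [hVf f] at hf
    rcases Prod.Lex.toLex_lt_toLex.1 (show toLex ((0 : ℝ), (0 : ℝ)) < _ from hf) with h | ⟨h, h'⟩
    · exact Or.inl h
    · exact Or.inr ⟨h.symm, h'⟩
  -- eventually positive
  have hpos : ∀ a b : ℝ, (0 < a ∨ (a = 0 ∧ 0 < b)) → ∀ᶠ ε in 𝓝[>] (0 : ℝ), 0 < a + ε * b := by
    intro a b hab
    rcases hab with h | ⟨h, h'⟩
    · have h2 : Tendsto (fun ε : ℝ => a + ε * b) (𝓝[>] 0) (𝓝 (a + 0 * b)) :=
        (Continuous.tendsto (by fun_prop) 0).mono_left nhdsWithin_le_nhds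
      rw [zero_mul, add_zero] at h2
      exact h2.eventually (lt_mem_nhds h)
    · filter_upwards [self_mem_nhdsWithin] with ε hε
      rw [h, zero_add]
      exact mul_pos hε h'
  -- on the chart
  have hon : ∀ᶠ ε in 𝓝[>] (0 : ℝ), OnCh k p φ g L (fun i => y ε (x i)) (y ε) ∧
      ∀ i, y ε (x i) = y 0 (x i) + ε * c2 V (x i) := by
    have e0 : ∀ᶠ ε in 𝓝[>] (0 : ℝ), ∀ f ∈ G0, y ε f = 0 := by
      refine (eventually_all_finite hG0).2 fun f hf => ?_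
      filter_upwards [hnear f (h0 f hf).1] with ε hε
      obtain ⟨e1, e2⟩ := hzero f (h0 f hf).2
      rw [hε, e1, e2, mul_zero, add_zero]
    have e1 : ∀ᶠ ε in 𝓝[>] (0 : ℝ), ∀ f ∈ G1, 0 < y ε f := by
      refine (eventually_all_finite hG1).2 fun f hf => ?_
      filter_upwards [hnear f (h1 f hf).1, hpos _ _ (hposV f (h1 f hf).2)] with ε hε hε'
      rwa [hε]
    have e2 : ∀ᶠ ε in 𝓝[>] (0 : ℝ), ∀ i, y ε (x i) = y 0 (x i) + ε * c2 V (x i) :=
      eventually_all.2 fun i => hnear (x i) (hch.vb.ne i)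
    have e3 : ∀ᶠ ε in 𝓝[>] (0 : ℝ), ε < s :=
      (coin_ev _).2 ⟨s, hs, fun ε _ h => h⟩
    filter_upwards [e0, e1, e2, e3, self_mem_nhdsWithin] with ε a0 a1 a2 a3 a4
    exact ⟨(huni ℝ (y ε) (coin_inzy hcl ε (le_of_lt a4) a3.le) a0 a1).2, a2⟩
  have hon' : ∀ᶠ ε in 𝓝[>] (0 : ℝ), OnCh k p φ g L (fun i => y' ε (x i)) (y' ε) ∧
      (∀ i, y' ε (x i) = y' 0 (x i) + ε * c2 V' (x i)) ∧ ε ≤ s' := by
    have e0 : ∀ᶠ ε in 𝓝[>] (0 : ℝ), ∀ f ∈ G0, y' ε f = 0 := by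
      refine (eventually_all_finite hG0).2 fun f hf => ?_
      filter_upwards [hnear' f (h0 f hf).1] with ε hε
      obtain ⟨e1, e2⟩ := hzero f (h0 f hf).2
      rw [hε, hpc, e1, hc2, e1, e2]
      ring
    have e1 : ∀ᶠ ε in 𝓝[>] (0 : ℝ), ∀ f ∈ G1, 0 < y' ε f := by
      refine (eventually_all_finite hG1).2 fun f hf => ?_
      have hf' : 0 < y' 0 f ∨ (y' 0 f = 0 ∧ 0 < c2 V' f) := by
        rcases hposV f (h1 f hf).2 with h | ⟨h, h'⟩
        · left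
          rw [hpc]
          exact mul_pos hc h
        · right
          rw [hpc, h, hc2, h, mul_zero, mul_zero, zero_add]
          exact ⟨rfl, mul_pos hβ h'⟩
      filter_upwards [hnear' f (h1 f hf).1, hpos _ _ hf'] with ε hε hε'
      rwa [hε]
    have e2 : ∀ᶠ ε in 𝓝[>] (0 : ℝ), ∀ i, y' ε (x i) = y' 0 (x i) + ε * c2 V' (x i) :=
      eventually_all.2 fun i => hnear' (x i) (hch.vb.ne i)
    have e3 : ∀ᶠ ε in 𝓝[>] (0 : ℝ), ε < s' :=
      (coin_ev _).2 ⟨s', hs', fun ε _ h => h⟩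
    filter_upwards [e0, e1, e2, e3, self_mem_nhdsWithin] with ε a0 a1 a2 a3 a4
    exact ⟨(huni ℝ (y' ε) (coin_inzy hcl' ε (le_of_lt a4) a3.le) a0 a1).2, a2, a3.le⟩
  -- the change of the parameter
  have htend : Tendsto (fun t : ℝ => c * t / (β - t * α)) (𝓝[>] 0) (𝓝[>] 0) := by
    rw [tendsto_nhdsWithin_iff]
    constructor
    · have h2 : Tendsto (fun t : ℝ => c * t / (β - t * α)) (𝓝 0) (𝓝 (c * 0 / (β - 0 * α))) := by
        apply Tendsto.div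
        · exact Continuous.tendsto (by fun_prop) 0
        · exact Continuous.tendsto (by fun_prop) 0
        · rw [zero_mul, sub_zero]
          exact hβ.ne'
      rw [mul_zero, zero_div] at h2
      exact h2.mono_left nhdsWithin_le_nhds
    · have h2 := hpos β (-α) (Or.inl hβ)
      filter_upwards [h2, self_mem_nhdsWithin] with t ht ht0
      have h3 : 0 < β - t * α := by linarith
      exact div_pos (mul_pos hc ht0) h3
  have hfin := (htend.eventually hon').and (hon.and ((hpos β (-α) (Or.inl hβ)).and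
    (self_mem_nhdsWithin : Set.Ioi (0 : ℝ) ∈ 𝓝[>] (0 : ℝ))))
  obtain ⟨δ, hδ, hfin'⟩ := (coin_ev _).1 hfin
  refine ⟨δ, hδ, fun t ht0 htδ => ?_⟩
  obtain ⟨⟨a1, a2, a3⟩, ⟨b1, b2⟩, hb3, _⟩ := hfin' t ht0 htδ
  have hd : 0 < β - t * α := by linarith
  have ht' : 0 < c * t / (β - t * α) := div_pos (mul_pos hc ht0) hd
  refine ⟨c * t / (β - t * α), ht', a3, ?_⟩
  set t' := c * t / (β - t * α) with ht'def
  have e1 : t' * (β - t * α) = c * t := div_mul_cancel₀ _ hd.ne'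
  have e2 : t' * β = t * (c + t' * α) := by linarith
  have hlam : 0 < c + t' * α := by
    have : 0 < t * (c + t' * α) := by
      rw [← e2]
      exact mul_pos ht' hβ
    exact (pos_iff_pos_of_mul_pos this).1 ht0
  refine ⟨c + t' * α, hlam, ?_⟩
  have e3 : ∀ i, y' t' (x i) = (c + t' * α) * y t (x i) := by
    intro i
    rw [a2 i, b2 i, hpc, hc2]
    linear_combination (c2 V (x i)) * e2
  have e4 := coin_onch b1 hlam
  have e5 : OnCh k p φ g L (fun i => (c + t' * α) * y t (x i)) (y' t') := by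
    have e6 : (fun i => (c + t' * α) * y t (x i)) = fun i => y' t' (x i) := by
      funext i
      exact (e3 i).symm
    rw [e6]
    exact a1
  have e7 := hch.uniq ℝ _ _ _ e5 e4
  intro f
  exact congrFun e7 f

end Pool.Agent.CZP
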