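import Pool.Agent.Lib.MP_305fdd_al.CZ.P.Stm
import Pool.Agent.Lib.MP_305fdd_al.F2.PF.StmB

/-!
# MP_305fdd_al, `C_m * Z`, section CZ/P: piece dne
-/

set_option autoImplicit false

namespace Pool.Agent.CZP

open MvPolynomial Pool.Agent.F2Ch Pool.Agent.F2PF

private def dneF1 : (ℝ ×ₗ ℝ) →+ ℝ where
  toFun v := (ofLex v).1
  map_zero' := rfl
  map_add' _ _ := rfl

private def dneF2 : (ℝ ×ₗ ℝ) →+ ℝ where
  toFun v := (ofLex v).2
  map_zero' := rfl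
  map_add' _ _ := rfl

/-- the components are weights -/
private theorem dne_wt {K : Type} [Field K] (V : K → ℝ ×ₗ ℝ) (w : K → ℝ)
    (hw : ∀ f, (ofLex (V f)).1 = w f) (x : Fin 2 → K) (ex : K → Fin 2 → ℤ) (h : IsVB V x ex)
    (f : K) (hf : f ≠ 0) : w f = (ex f 0 : ℝ) * w (x 0) + (ex f 1 : ℝ) * w (x 1) ∧
      c2 V f = (ex f 0 : ℝ) * c2 V (x 0) + (ex f 1 : ℝ) * c2 V (x 1) := by
  have h1 : V f = ex f 0 • V (x 0) + ex f 1 • V (x 1) := by
    have h1 := h.gen f hf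
    unfold wt at h1
    rw [Fin.sum_univ_two] at h1
    exact h1
  constructor
  · have h2 := congrArg dneF1 h1
    rw [map_add, map_zsmul, map_zsmul, zsmul_eq_mul, zsmul_eq_mul] at h2
    rw [← hw f, ← hw (x 0), ← hw (x 1)]
    exact h2
  · have h2 := congrArg dneF2 h1
    rw [map_add, map_zsmul, map_zsmul, zsmul_eq_mul, zsmul_eq_mul] at h2
    exact h2

private theorem dne_main (hrk : S_rk2) {p : ℕ} [Fact p.Prime] {k K : Type} [Field k] [CharP k p]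
    [PerfectRing k p] [Field K] [Algebra k K] {n : ℕ} {g : Fin n → K} {φ : K → K}
    {R : K → ℝ} {ι : K ≃+* K} {s0 : K} (hctx : CtxZ k p φ g R ι s0) (w : K → ℝ) (V : K → ℝ ×ₗ ℝ) (hV : InZ k p φ V)
    (hw : ∀ f, (ofLex (V f)).1 = w f)
    (hnd : ∃ x1 x2, x1 ≠ 0 ∧ x2 ≠ 0 ∧ w x1 * c2 V x2 - w x2 * c2 V x1 ≠ 0) : ∃ u ∈ DV (Br k g) w (c2 V), u ≠ 0 := by
  obtain ⟨⟨κ, i1, i2, x, ex, ac, φb, N, L, hC⟩, -, -⟩ :=
    hrk p k K n g φ R ι s0 hctx w V hV hw hnd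
  obtain ⟨u, hu, hle⟩ := hctx.2.ld (ℝ ×ₗ ℝ) V x ex hV hC.vb
  obtain ⟨x1, x2, hx1, hx2, hdet0⟩ := hnd
  have hwt := dne_wt V w hw x ex hC.vb
  obtain ⟨e1, e2⟩ := hwt x1 hx1
  obtain ⟨e3, e4⟩ := hwt x2 hx2
  -- the determinant of the basis
  have hdet : w (x 0) * c2 V (x 1) - w (x 1) * c2 V (x 0) ≠ 0 := by
    intro h
    apply hdet0
    rw [e1, e2, e3, e4]
    linear_combination ((ex x1 0 : ℝ) * (ex x2 1 : ℝ) - (ex x1 1 : ℝ) * (ex x2 0 : ℝ)) * h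
  set D := w (x 0) * c2 V (x 1) - w (x 1) * c2 V (x 0) with hD
  -- solve for the functional
  refine ⟨((u.1 * c2 V (x 1) - u.2 * c2 V (x 0)) / D,
    (u.2 * w (x 0) - u.1 * w (x 1)) / D), ?_, ?_⟩
  · intro f hf hf0
    obtain ⟨e5, e6⟩ := hwt f hf0
    have h1 := hle f hf hf0
    unfold dot
    show (u.1 * c2 V (x 1) - u.2 * c2 V (x 0)) / D * w f +
      (u.2 * w (x 0) - u.1 * w (x 1)) / D * c2 V f ≤ 0
    have h2 : (u.1 * c2 V (x 1) - u.2 * c2 V (x 0)) / D * w f +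
      (u.2 * w (x 0) - u.1 * w (x 1)) / D * c2 V f =
      u.1 * (ex f 0 : ℝ) + u.2 * (ex f 1 : ℝ) := by
      rw [e5, e6]
      field_simp
      rw [hD]
      ring
    rw [h2]
    exact h1
  · intro h
    apply hu
    have h1 : (u.1 * c2 V (x 1) - u.2 * c2 V (x 0)) / D = 0 := congrArg Prod.fst h
    have h2 : (u.2 * w (x 0) - u.1 * w (x 1)) / D = 0 := congrArg Prod.snd h
    rw [div_eq_zero_iff, or_iff_left hdet] at h1 h2
    have h3 : D * u.1 = 0 := by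
      rw [hD]
      linear_combination w (x 0) * h1 + c2 V (x 0) * h2
    have h4 : D * u.2 = 0 := by
      rw [hD]
      linear_combination w (x 1) * h1 + c2 V (x 1) * h2
    exact Prod.ext ((mul_eq_zero.1 h3).resolve_left hdet) ((mul_eq_zero.1 h4).resolve_left hdet)

theorem p_dne (hrk : S_rk2) (hrfl : F2PF.S_rfl) (hlfl : F2PF.S_lfl) : S_dne := by
  intro p _ k K _ _ _ _ _ n g φ R ι s0 hctx s1 s2 y M hCL
  have hgen : FracGen k g := by
    obtain ⟨b0, ρ0, hb⟩ := hctx.1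
    exact hb.gen
  refine ⟨fun t h1 h2 => ?_, fun t h1 h2 => ?_⟩
  · obtain ⟨⟨V, hV⟩, -⟩ := hrfl p k K n g φ hgen s1 s2 y M hCL t h1 h2
    obtain ⟨u, hu, hu0⟩ := dne_main hrk hctx (y t) V hV.inz hV.fst hV.nd
    refine ⟨(u.1, u.2 + t * u.1), (hV.dr _).2 ?_, ?_⟩
    · have h3 : (((u.1, u.2 + t * u.1) : ℝ × ℝ).1, sd t (u.1, u.2 + t * u.1)) = u := by
        unfold sd
        exact Prod.ext rfl (by show u.2 + t * u.1 - t * u.1 = u.2; ring)
      rw [h3]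
      exact hu
    · intro h
      have h3 : u.1 = 0 := congrArg Prod.fst h
      have h4 : u.2 + t * u.1 = 0 := congrArg Prod.snd h
      rw [h3, mul_zero, add_zero] at h4
      exact hu0 (Prod.ext h3 h4)
  · obtain ⟨⟨V, hV⟩, -⟩ := hlfl p k K n g φ hgen s1 s2 y M hCL t h1 h2
    obtain ⟨u, hu, hu0⟩ := dne_main hrk hctx (y t) V hV.inz hV.fst hV.nd
    refine ⟨(u.1, -u.2 + t * u.1), (hV.dl _).2 ?_, ?_⟩
    · have h3 : (((u.1, -u.2 + t * u.1) : ℝ × ℝ).1, -sd t (u.1, -u.2 + t * u.1)) = u := by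
        unfold sd
        exact Prod.ext rfl (by show -(-u.2 + t * u.1 - t * u.1) = u.2; ring)
      rw [h3]
      exact hu
    · intro h
      have h3 : u.1 = 0 := congrArg Prod.fst h
      have h4 : -u.2 + t * u.1 = 0 := congrArg Prod.snd h
      rw [h3, mul_zero, add_zero, neg_eq_zero] at h4
      exact hu0 (Prod.ext h3 h4)

end Pool.Agent.CZP
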