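import Pool.Agent.Lib.MP_305fdd_al.CZ.P.StmB

/-!
# MP_305fdd_al, `C_m * Z`, piece [CZP fin]: the local facts are contradictory
-/

set_option autoImplicit false

namespace Pool.Agent.CZP

open MvPolynomial Pool.Agent.F2Ch Pool.Agent.F2PF

theorem p_fin (hbot : S_bot) (hbmin : S_bmin) (hbnd : S_bnd) (hbsi : S_bsi) (hbsd : S_bsd) :
    S_fin := by
  intro p _ k K _ _ _ _ _ n g φ R ι s0 hctx
  rcases hbot p k K n g φ R ι s0 hctx 1 one_ne_zero with ⟨m, hm, hw⟩ | ⟨s, y, M, hb⟩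
  · exact hbmin p k K n g φ R ι s0 hctx 1 m hm hw
  · by_cases hsg : SG (Br k g) (y 0)
    · by_cases hdv : Dv (y 0)
      · exact hbsd p k K n g φ R ι s0 hctx 1 s y M hb hsg hdv
      · exact hbsi p k K n g φ R ι s0 hctx 1 s y M hb hsg hdv
    · obtain ⟨m, hm, hw⟩ := hbnd p k K n g φ R ι s0 hctx 1 s y M hb hsg
      exact hbmin p k K n g φ R ι s0 hctx 1 m hm hw

end Pool.Agent.CZP
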