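import Pool.Agent.Lib.MP_305fdd_al.CZ.P.StmB
import Pool.Agent.Lib.MP_305fdd_al.F2.PF.Main

set_option autoImplicit false

namespace Pool.Agent.CZP

open MvPolynomial Pool.Agent.F2Ch Pool.Agent.F2PF

private theorem fpb_scale {K : Type} [Field K] {B : Set K} {w c : K → ℝ} {u : ℝ × ℝ}
    (hu : u ∈ DV B w c) (a : ℝ) (ha : 0 < a) : (a * u.1, a * u.2) ∈ DV B w c := by
  intro f hf hf0
  have h := hu f hf hf0
  unfold dot at h ⊢
  show a * u.1 * w f + a * u.2 * c f ≤ 0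
  have : a * u.1 * w f + a * u.2 * c f = a * (u.1 * w f + u.2 * c f) := by ring
  rw [this]
  exact mul_nonpos_of_nonneg_of_nonpos ha.le h

private theorem fpb_sh0 {K : Type} (M : K → Finset (ℝ × ℝ)) : sh 0 M = M := by
  funext f
  unfold sh
  ext m
  simp

theorem p_fpb (h1 : Pool.Agent.CZP.S_cflag) (h2 : Pool.Agent.CZP.S_mono)
    (h3 : Pool.Agent.CZP.S_segd) : S_fpb := by
  intro p _ k K _ _ _ _ _ n g φ R ι s0 hctx w V hV hSG hAI
  have hctx' : CtxZ k p φ g R ι s0 := hctx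
  obtain ⟨⟨b0, ρ0, hbase⟩, -⟩ := hctx
  have hg : FracGen k g := hbase.gen
  obtain ⟨hBs, hline⟩ := F2PF.t_line p k K n g φ
  have hB := hBs hg
  have hnt : ∃ f, w f ≠ 0 := by
    obtain ⟨f, -, -, hf⟩ := hAI
    exact ⟨f, hf.ne⟩
  obtain ⟨s', y, M, hCL', hy0, hR⟩ := h1 p k K n g φ R ι s0 hctx' w V hnt hV
  have hs' : 0 < s' := hCL'.1
  obtain ⟨-, -, hc, hd⟩ := F2PF.t_dense p k K n g φ hg 0 s' y M hCL'
  obtain ⟨δ1, hδ1, hc1⟩ := hc 0 le_rfl hs'.le (by rw [hy0]; exact hSG)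
  obtain ⟨δ2, hδ2, hd1⟩ := hd 0 le_rfl hs'.le (by rw [hy0]; exact hAI)
  have hpos : 0 < min (min δ1 δ2) s' := lt_min (lt_min hδ1 hδ2) hs'
  set s := min (min δ1 δ2) s' / 2 with hs
  have hs0 : 0 < s := by linarith
  have m1 : min (min δ1 δ2) s' ≤ δ1 := le_trans (min_le_left _ _) (min_le_left _ _)
  have m2 : min (min δ1 δ2) s' ≤ δ2 := le_trans (min_le_left _ _) (min_le_right _ _)
  have m3 : min (min δ1 δ2) s' ≤ s' := min_le_right _ _
  have hCL : CL k p φ g 0 s y M := (hline 0 s' y M hCL').2.2 0 s le_rfl hs0 (by linarith)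
  have hall : ∀ t, 0 ≤ t → t ≤ s → ¬ SG (Br k g) (y t) ∧ AtInf (Br k g) (y t) := by
    intro t ht1 ht2
    have habs : |t - 0| = t := by rw [sub_zero, abs_of_nonneg ht1]
    exact ⟨hc1 t ht1 (by linarith) (by rw [habs]; linarith),
      hd1 t ht1 (by linarith) (by rw [habs]; linarith)⟩
  obtain ⟨hL, -, -⟩ := hline 0 s y M hCL
  have h0mem : (0 : ℝ) ∈ Set.Icc 0 s := ⟨le_rfl, hs0.le⟩
  have hN := F2PF.t_nsg K (Br k g) hB (Set.Icc 0 s) y M hL 0 h0mem
    (by rw [hy0]; exact hAI) (by rw [hy0]; exact hSG)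
  have hsd : ∀ u : ℝ × ℝ, sd 0 u = u.2 := by
    intro u
    unfold sd
    ring
  have hdr : ∀ u : ℝ × ℝ, u ∈ DR (Br k g) M 0 ↔ u ∈ DV (Br k g) w (c2 V) := by
    intro u
    rw [hR.dr u, hsd, hy0]
  refine ⟨s, y, M, hCL, hy0, hR, hall, ?_⟩
  rcases h2 p k K n g φ R ι s0 hctx' 0 s y M hCL
    (fun t ht1 ht2 => hall t ht1.le ht2.le) with hm | hm
  · left
    have hDn := h3 p k K n g φ R ι s0 hctx' 0 s y M hCL hall (fun t ht1 ht2 => (hm t ht1 ht2).1)
      0 s le_rfl hs0 le_rfl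
    have hdes : DesR (Br k g) M 0 := by
      have := hDn.des
      rw [fpb_sh0] at this
      exact this
    have hDnL : DnL k p φ g s y M :=
      ⟨hCL, fun t ht1 ht2 => (hall t ht1 ht2).1, fun t ht1 ht2 => (hall t ht1 ht2).2, hdes⟩
    obtain ⟨u, hu, hu0⟩ := hdes
    refine ⟨?_, ?_, hDnL⟩
    · rw [hsd] at hu0
      refine ⟨u.2⁻¹ * u.1, ?_⟩
      have := fpb_scale ((hdr u).1 hu) u.2⁻¹ (inv_pos.2 hu0)
      rw [inv_mul_cancel₀ hu0.ne'] at this
      exact this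
    · rintro ⟨μ, hμ⟩
      have h4 := hN.2.1 s hs0 (le_refl _) u hu (μ, -1) ((hdr _).2 hμ) hu0
      rw [hsd] at h4
      have h5 : ((μ, -1) : ℝ × ℝ).2 = -1 := rfl
      rw [h5] at h4
      linarith
  · right
    obtain ⟨u, hu, hune, hu0⟩ := F2PF.t_clo K (Br k g) hB (Set.Icc 0 s) y M hL 0 h0mem s hs0
      (le_refl _) (-1) (by
        intro δ hδ
        refine ⟨min δ s / 2, ?_, ?_, ?_⟩
        · have : 0 < min δ s := lt_min hδ hs0
          linarith
        · have : 0 < min δ s := lt_min hδ hs0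
          have h6 : min δ s ≤ δ := min_le_left _ _
          linarith
        · have h5 : 0 < min δ s := lt_min hδ hs0
          have h6 : min δ s ≤ s := min_le_right _ _
          obtain ⟨-, u, hu, hu0⟩ := hm (min δ s / 2) (by linarith) (by linarith)
          refine ⟨u, Or.inl hu, ?_, by linarith⟩
          rintro rfl
          unfold sd at hu0
          simp at hu0)
    have hu1 : sd 0 u < 0 := by
      have h4 := hN.1 u (Or.inl hu) hune
      rcases lt_trichotomy (sd 0 u) 0 with h | h | h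
      · exact h
      · exact absurd h h4
      · linarith
    refine ⟨?_, ?_, fun t ht1 ht2 => (hm t ht1 ht2).1⟩
    · rw [hsd] at hu1
      refine ⟨(-u.2)⁻¹ * u.1, ?_⟩
      have := fpb_scale ((hdr u).1 hu) (-u.2)⁻¹ (inv_pos.2 (by linarith))
      have h5 : (-u.2)⁻¹ * u.2 = -1 := by
        have : u.2 ≠ 0 := hu1.ne
        field_simp
      rw [h5] at this
      exact this
    · rintro ⟨μ, hμ⟩
      have h4 := hN.2.1 s hs0 (le_refl _) (μ, 1) ((hdr _).2 hμ) u hu (by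
        rw [hsd]
        exact one_pos)
      linarith

end Pool.Agent.CZP
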