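import Pool.Agent.Lib.MP_305fdd_al.CZ.P.StmB

/-!
# MP_305fdd_al, `C_m * Z`, section CZ/P: the piece fv2
-/

set_option autoImplicit false

namespace Pool.Agent.CZP

open MvPolynomial Pool.Agent.F2Ch Pool.Agent.F2PF

private theorem fv2_mem {K : Type} [Field K] (B : Set K) (hB : Bs B) (f : K) (hf : f ∈ B)
    (n : ℕ) : f ^ n ∈ B := by
  induction n with
  | zero => rw [pow_zero]; exact hB.one
  | succ n ih => rw [pow_succ]; exact hB.mul _ ih _ hf

private theorem fv2_pow {K : Type} [Field K] (c : K → ℝ)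
    (hc : ∀ f h, f ≠ 0 → h ≠ 0 → c (f * h) = c f + c h) (f : K) (hf : f ≠ 0) (n : ℕ) :
    c (f ^ n) = n * c f := by
  induction n with
  | zero =>
    have := hc 1 1 one_ne_zero one_ne_zero
    rw [mul_one] at this
    rw [pow_zero, Nat.cast_zero, zero_mul]
    linarith
  | succ n ih =>
    rw [pow_succ, hc _ _ (pow_ne_zero n hf) hf, ih]
    push_cast
    ring

/-- Piece fv2 -/
theorem p_fv2 : S_fv2 := by
  intro K _ B hB w G hw hG ⟨f0, hf0B, hf0, hf0w⟩ ⟨g0, hg0B, hg0, hg0w⟩ hh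
  have hwc : ∀ f h, f ≠ 0 → h ≠ 0 → ((w (f * h) : ℤ) : ℝ) = w f + w h := by
    intro f h hf hh'
    rw [hw.mul f h hf hh']
    push_cast
    rfl
  have key : ∀ f ∈ B, f ≠ 0 → 0 < w f → ∀ h ∈ B, h ≠ 0 → w h < 0 →
      (-(w h : ℝ)) * G f + (w f : ℝ) * G h ≤ 0 := by
    intro f hfB hf hfw g hgB hg hgw
    obtain ⟨a, ha⟩ := Int.eq_ofNat_of_zero_le hfw.le
    obtain ⟨b, hb⟩ := Int.eq_ofNat_of_zero_le (show 0 ≤ -w g by omega)
    have hgb : w g = -(b : ℤ) := by omega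
    have h1 : f ^ b * g ^ a ∈ B := hB.mul _ (fv2_mem B hB f hfB b) _ (fv2_mem B hB g hgB a)
    have n1 : f ^ b ≠ 0 := pow_ne_zero _ hf
    have n2 : g ^ a ≠ 0 := pow_ne_zero _ hg
    have h2 : w (f ^ b * g ^ a) = 0 := by
      have e1 := hwc (f ^ b) (g ^ a) n1 n2
      rw [fv2_pow (fun x => (w x : ℝ)) hwc f hf b, fv2_pow (fun x => (w x : ℝ)) hwc g hg a] at e1
      rw [ha, hgb] at e1
      have : ((w (f ^ b * g ^ a) : ℤ) : ℝ) = 0 := by
        rw [e1]; push_cast; ring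
      exact_mod_cast this
    have h3 := hh _ h1 (mul_ne_zero n1 n2) h2
    rw [hG _ _ n1 n2, fv2_pow G hG f hf, fv2_pow G hG g hg] at h3
    rw [ha, hgb]
    push_cast
    linarith
  set S : Set ℝ := {z | ∃ f ∈ B, f ≠ 0 ∧ 0 < w f ∧ z = G f / (w f : ℝ)} with hS
  have hub : ∀ g ∈ B, g ≠ 0 → w g < 0 → ∀ z ∈ S, z ≤ G g / (w g : ℝ) := by
    rintro g hgB hg hgw z ⟨f, hfB, hf, hfw, rfl⟩
    have h1 := key f hfB hf hfw g hgB hg hgw
    have h2 : (0 : ℝ) < w f := by exact_mod_cast hfw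
    have h3 : (w g : ℝ) < 0 := by exact_mod_cast hgw
    rw [div_le_iff₀ h2, div_mul_eq_mul_div, le_div_iff_of_neg h3]
    linarith
  have hSne : S.Nonempty := ⟨_, f0, hf0B, hf0, hf0w, rfl⟩
  have hSbd : BddAbove S := ⟨_, fun z hz => hub g0 hg0B hg0 hg0w z hz⟩
  refine ⟨sSup S, ?_⟩
  intro f hfB hf
  rcases lt_trichotomy (w f) 0 with h | h | h
  · have h1 : sSup S ≤ G f / (w f : ℝ) := csSup_le hSne fun z hz => hub f hfB hf h z hz
    have h2 : (w f : ℝ) < 0 := by exact_mod_cast h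
    rwa [le_div_iff_of_neg h2] at h1
  · rw [h]
    have := hh f hfB hf h
    push_cast
    linarith
  · have h1 : G f / (w f : ℝ) ≤ sSup S := le_csSup hSbd ⟨f, hfB, hf, h, rfl⟩
    have h2 : (0 : ℝ) < w f := by exact_mod_cast h
    rwa [div_le_iff₀ h2] at h1

end Pool.Agent.CZP
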