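import Pool.Agent.Lib.MP_305fdd_al.CZ.P.StmB
import Pool.Agent.Lib.MP_305fdd_al.F2.PF.StmB

/-!
# MP_305fdd_al, `C_m * Z`, piece [CZP gex]
-/

set_option autoImplicit false

namespace Pool.Agent.CZP

open MvPolynomial Pool.Agent.F2Ch Pool.Agent.F2PF

theorem p_gex (hline : F2PF.S_line) (hdense : F2PF.S_dense) (hcflag : S_cflag) (hanti : S_anti)
    (hidn : S_idn) : S_gex := by
  intro p _ k K _ _ _ _ _ n g φ R ι s0 hC σ hσ
  obtain ⟨b0, ρ0, hbase⟩ := hC.1
  have hL := hC.2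
  have hF : FracGen k g := hbase.gen
  obtain ⟨-, hA2, -, hA4, hA5⟩ := hanti p k K n g φ R ι s0 hC
  obtain ⟨hI1, -, -, hI4, -⟩ := hidn p k K n g φ R ι s0 hC
  refine ⟨?_, ?_⟩
  · obtain ⟨V, hV, hVs⟩ : ∃ V, Flag k p φ R V ∧ 0 < σ * c2 V s0 := by
      obtain ⟨V, hV, hVs⟩ := hL.sex
      rcases lt_or_gt_of_ne hσ with h | h
      · refine ⟨fun f => V (ι f), ?_, ?_⟩
        · have h1 := (hI4 R V V).1 hV
          rw [hI1] at h1
          exact h1
        · have h2 : c2 (fun f => V (ι f)) s0 < 0 := (hL.sio V hV).1 hVs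
          exact mul_pos_of_neg_of_neg h h2
      · exact ⟨V, hV, mul_pos h hVs⟩
    obtain ⟨j, hj⟩ := hL.Rpos
    obtain ⟨s, y, M, hCL, hy0, hrfl⟩ := hcflag p k K n g φ R ι s0 hC R V ⟨g j, hj.ne'⟩ hV
    have hs : 0 < s := hCL.1
    obtain ⟨-, hInz, hrestr⟩ := (hline p k K n g φ).2 0 s y M hCL
    obtain ⟨δ1, hδ1, hnear⟩ := hrfl.near s0 hL.sB.2.1
    obtain ⟨δ2, hδ2, hns⟩ := (hdense p k K n g φ hF 0 s y M hCL).2.2.1 0 le_rfl hs.le
      (by rw [hy0]; exact hA5)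
    have ht0 : 0 < min s (min (δ1 / 2) (δ2 / 2)) :=
      lt_min hs (lt_min (by linarith) (by linarith))
    have hts : min s (min (δ1 / 2) (δ2 / 2)) ≤ s := min_le_left _ _
    have ht1 : min s (min (δ1 / 2) (δ2 / 2)) ≤ δ1 / 2 :=
      (min_le_right _ _).trans (min_le_left _ _)
    have ht2 : min s (min (δ1 / 2) (δ2 / 2)) ≤ δ2 / 2 :=
      (min_le_right _ _).trans (min_le_right _ _)
    refine ⟨min s (min (δ1 / 2) (δ2 / 2)), y, M, ⟨hrestr 0 _ le_rfl ht0 hts, hy0, ?_, ?_, ?_⟩⟩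
    · intro t ht htt
      refine hns t ht.le (htt.trans hts) ?_
      rw [sub_zero, abs_of_pos ht]
      linarith
    · intro t ht htt
      obtain ⟨h1, h2⟩ := hInz t ht.le (htt.trans hts)
      rw [hA4 (y t) h1 h2]
      intro hP
      rw [← hy0] at hP
      have h3 := hA2 0 s y M hCL 0 t le_rfl hs.le ht.le (htt.trans hts) hP
      linarith
    · intro t ht htt
      have h1 := hnear t ht (by linarith)
      rw [zero_add, hy0, hL.sB.2.2, zero_add] at h1
      rw [h1]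
      have h2 : σ * (t * c2 V s0) = t * (σ * c2 V s0) := by ring
      rw [h2]
      exact mul_pos ht hVs
  · intro s y M hG s' hs' hss
    exact ⟨((hline p k K n g φ).2 0 s y M hG.cl).2.2 0 s' le_rfl hs' hss, hG.zero,
      fun t ht htt => hG.ns t ht (htt.trans hss), fun t ht htt => hG.ai t ht (htt.trans hss),
      fun t ht htt => hG.sg t ht (htt.trans hss)⟩

end Pool.Agent.CZP
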