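import Pool.Agent.Lib.MP_305fdd_al.CZ.P.StmB
import Pool.Agent.Lib.MP_305fdd_al.F2.PF.Main

/-!
# MP_305fdd_al, `C_m * Z`, section CZ/P, piece [CZP gio]: `ι` exchanges the signs of the germs
-/

set_option autoImplicit false

namespace Pool.Agent.CZP

open MvPolynomial Pool.Agent.F2Ch Pool.Agent.F2PF

theorem p_gio (hgpr : S_gpr) (hidn : S_idn) (hgex : S_gex) : S_gio := by
  intro p _ k K _ _ _ _ _ n g φ R ι s0 hC σ s Y M hG
  have hL := hC.2
  obtain ⟨b0, ρ0, hB⟩ := hC.1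
  have hs0 : 0 < s := hG.cl.1
  have hσ : σ ≠ 0 := by
    intro h
    have := hG.sg s hs0 le_rfl
    rw [h, zero_mul] at this
    exact lt_irrefl _ this
  obtain ⟨hi1, hi2, -, hi4, -, -, -⟩ := hidn p k K n g φ R ι s0 hC
  obtain ⟨V, hV⟩ := (t_rfl p k K n g φ hB.gen 0 s Y M hG.cl 0 le_rfl hs0).1
  obtain ⟨hF, hsgn⟩ := (hgpr p k K n g φ R ι s0 hC σ s Y M hG).2.2.2 V hV
  have hF' : Flag k p φ R (fun f => V (ι f)) := by
    have h := (hi4 R V V).1 hF
    rwa [hi1] at h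
  have hne : c2 V (ι s0) ≠ 0 := hL.sne _ hF'
  have hio := hL.sio V hF
  have hpos : 0 < -σ * c2 V (ι s0) := by
    rcases lt_or_gt_of_ne hσ with h | h
    · have h1 : c2 V s0 < 0 := by
        by_contra h2
        push Not at h2
        have := mul_nonpos_of_nonpos_of_nonneg h.le h2
        linarith
      have h2 : ¬ c2 V (ι s0) < 0 := fun h3 => by
        have := hio.2 h3
        linarith
      have h3 : 0 < c2 V (ι s0) := lt_of_le_of_ne (not_lt.1 h2) (Ne.symm hne)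
      exact mul_pos (by linarith) h3
    · have h1 : 0 < c2 V s0 := (mul_pos_iff_of_pos_left h).1 hsgn
      have h2 := hio.1 h1
      exact mul_pos_of_neg_of_neg (by linarith) h2
  have hι0 : ι s0 ≠ 0 := fun h => hL.sB.2.1 ((map_eq_zero_iff ι ι.injective).1 h)
  obtain ⟨δ, hδ, hnear⟩ := hV.near (ι s0) hι0
  have hY0 : Y 0 (ι s0) = 0 := by
    rw [hG.zero, hL.iR, hL.sB.2.2]
  refine ⟨min s (δ / 2), lt_min hs0 (by linarith), min_le_left _ _, ?_⟩
  have hG' := (hgex p k K n g φ R ι s0 hC σ hσ).2 s Y M hG (min s (δ / 2))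
    (lt_min hs0 (by linarith)) (min_le_left _ _)
  refine ⟨hL.icl _ _ _ _ hG'.cl, ?_, ?_, ?_, ?_⟩
  · show (fun f => Y 0 (ι f)) = R
    rw [hG.zero]
    exact hi1
  · intro t h0 h1 h2
    exact hG'.ns t h0 h1 ((hi2 (Y t)).2.1.1 h2)
  · intro t h0 h1
    exact (hi2 (Y t)).2.2.1.2 (hG'.ai t h0 h1)
  · intro t h0 h1
    have h2 : t < δ := lt_of_le_of_lt (h1.trans (min_le_right _ _)) (by linarith)
    have h3 := hnear t h0 h2
    rw [zero_add, hY0, zero_add] at h3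
    show 0 < -σ * Y t (ι s0)
    rw [h3]
    have h4 : -σ * (t * c2 V (ι s0)) = t * (-σ * c2 V (ι s0)) := by ring
    rw [h4]
    exact mul_pos h0 hpos

end Pool.Agent.CZP
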