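import Pool.Agent.Lib.MP_305fdd_al.CZ.P.StmB
import Pool.Agent.Lib.MP_305fdd_al.F2.PF.Main

/-!
# MP_305fdd_al, `C_m * Z`, section CZ/P: piece gpr (properties of germs)
-/

set_option autoImplicit false

namespace Pool.Agent.CZP

open MvPolynomial Pool.Agent.F2Ch Pool.Agent.F2PF

theorem p_gpr (h1 : S_pal) (h2 : S_segd) (h3 : S_dnl) : S_gpr := by
  intro p _ k K _ _ _ _ _ n g φ R ι s0 hC σ s y M G
  have hloc := hC.2
  obtain ⟨-, hline⟩ := t_line p k K n g φ
  obtain ⟨hL, -, hres⟩ := hline 0 s y M G.cl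
  have hs : 0 < s := G.cl.1
  -- the exponents
  have hM : ∀ f ∈ Br k g, f ≠ 0 → ∀ m ∈ M f, R f ≤ m.1 := by
    intro f hf hf0 m hm
    have h := hL.le f hf hf0 0 ⟨le_rfl, hs.le⟩ m hm
    rw [G.zero, zero_mul, add_zero] at h
    exact h
  have hDR : ∀ t, ((-1 : ℝ), (0 : ℝ)) ∈ DR (Br k g) M t := by
    intro t f hf hf0 m hm
    have h5 := hM f hf hf0 m hm.mem
    have h6 := hloc.Rnn f hf hf0
    show (-1 : ℝ) * m.1 + 0 * m.2 ≤ 0
    linarith
  have hDesR : ∀ t, 0 < t → DesR (Br k g) M t := by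
    intro t ht
    refine ⟨(-1, 0), hDR t, ?_⟩
    show (0 : ℝ) < 0 - t * (-1)
    linarith
  have hPZ : ∀ t, 0 < t → t ≤ s → PZ k p φ g (y t) := by
    intro t ht hts
    exact (h1 p k K n g φ R ι s0 hC 0 s y M G.cl).2.2 t ht.le hts (G.ns t ht hts) (G.ai t ht hts)
  have hDnL : ∀ a b, 0 < a → a < b → b ≤ s →
      DnL k p φ g (b - a) (fun τ => y (a + τ)) (sh a M) := by
    intro a b ha hab hb
    refine h2 p k K n g φ R ι s0 hC a b y M (hres a b ha.le hab hb) ?_ ?_ a b le_rfl hab le_rfl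
    · intro t hat htb
      exact ⟨G.ns t (lt_of_lt_of_le ha hat) (htb.trans hb),
        G.ai t (lt_of_lt_of_le ha hat) (htb.trans hb)⟩
    · intro t hat _
      exact hDesR t (ha.trans hat)
  refine ⟨?_, hDnL, ?_, ?_⟩
  · intro t ht hts
    refine ⟨hPZ t ht hts, ?_⟩
    have ht2 : 0 < t / 2 := by linarith
    refine ⟨t - t / 2, fun τ => y (t / 2 + τ), sh (t / 2) M,
      hDnL (t / 2) t ht2 (by linarith) hts, ?_, ?_⟩
    · refine ⟨1, one_pos, fun f => ?_⟩
      have : t / 2 + (t - t / 2) = t := by ring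
      simp only [this, one_mul]
    · have hk : ∀ f ∈ Br k g, f ≠ 0 → ∀ m ∈ sh (t / 2) M f,
          dot ((-1 : ℝ), t / 2) m ≤ - R f := by
        intro f hf hf0 m hm
        obtain ⟨m', hm', rfl⟩ := Finset.mem_image.1 hm
        have h5 := hM f hf hf0 m' hm'
        show (-1 : ℝ) * (m'.1 + t / 2 * m'.2) + t / 2 * m'.2 ≤ - R f
        linarith
      refine ⟨((-1 : ℝ), t / 2), ?_, ?_, ?_⟩
      · intro f hf hf0 m hm
        have h5 := hk f hf hf0 m hm.mem
        have h6 := hloc.Rnn f hf hf0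
        linarith
      · show (0 : ℝ) < t / 2 - (t - t / 2) * (-1)
        linarith
      · intro f hf hf0 hR m hm
        have h5 := hk f hf hf0 m hm.mem
        linarith
  · intro a b ha hab hb
    rcases hab.lt_or_eq with hab | rfl
    · have h4 := (h3 p k K n g φ R ι s0 hC (b - a) _ _ (hDnL a b ha hab hb)).2.2.2.2 0 (b - a)
        le_rfl (by linarith) le_rfl
      have e1 : a + (0 : ℝ) = a := add_zero a
      have e2 : a + (b - a) = b := by ring
      simp only [e1, e2] at h4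
      exact Relation.ReflTransGen.single h4
    · exact Relation.ReflTransGen.refl
  · intro V hV
    have hF := (h1 p k K n g φ R ι s0 hC 0 s y M G.cl).1 0 le_rfl hs V hV
    rw [G.zero] at hF
    refine ⟨hF hloc.Rdv, ?_⟩
    obtain ⟨-, hs0, hRs0⟩ := hloc.sB
    obtain ⟨δ, hδ, hnear⟩ := hV.near s0 hs0
    have he : 0 < min (δ / 2) s := lt_min (by linarith) hs
    have h5 := hnear (min (δ / 2) s) he (lt_of_le_of_lt (min_le_left _ _) (by linarith))
    rw [G.zero, hRs0, zero_add, zero_add] at h5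
    have h6 := G.sg (min (δ / 2) s) he (min_le_right _ _)
    rw [h5, mul_left_comm] at h6
    exact (pos_iff_pos_of_mul_pos h6).1 he

end Pool.Agent.CZP
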