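import Pool.Agent.Lib.MP_305fdd_al.CZ.P.StmB

/-!
# MP_305fdd_al, piece [CZP idn]: transport by `ι`
-/

set_option autoImplicit false

namespace Pool.Agent.CZP

open Pool.Agent.F2Ch Pool.Agent.F2PF

section
variable {K : Type} [Field K] {B : Set K} {ι : K ≃+* K}

private theorem idn_all (hB : ∀ f, f ∈ B ↔ ι f ∈ B) (P : K → Prop) :
    (∀ f ∈ B, f ≠ 0 → P (ι f)) ↔ ∀ f ∈ B, f ≠ 0 → P f := by
  constructor
  · intro h f hf hf0
    have h1 := h (ι.symm f) ((hB _).2 (by rw [RingEquiv.apply_symm_apply]; exact hf))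
      (by
        intro h0
        apply hf0
        rw [← RingEquiv.apply_symm_apply ι f, h0, map_zero])
    rwa [RingEquiv.apply_symm_apply] at h1
  · intro h f hf hf0
    exact h (ι f) ((hB f).1 hf) (by
      intro h0
      exact hf0 ((map_eq_zero_iff ι ι.injective).1 h0))

private theorem idn_ex (hB : ∀ f, f ∈ B ↔ ι f ∈ B) (P : K → Prop) :
    (∃ f ∈ B, f ≠ 0 ∧ P (ι f)) ↔ ∃ f ∈ B, f ≠ 0 ∧ P f := by
  constructor
  · rintro ⟨f, hf, hf0, h⟩
    exact ⟨ι f, (hB f).1 hf, fun h0 => hf0 ((map_eq_zero_iff ι ι.injective).1 h0), h⟩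
  · rintro ⟨f, hf, hf0, h⟩
    refine ⟨ι.symm f, (hB _).2 (by rw [RingEquiv.apply_symm_apply]; exact hf), ?_, ?_⟩
    · intro h0
      apply hf0
      rw [← RingEquiv.apply_symm_apply ι f, h0, map_zero]
    · rw [RingEquiv.apply_symm_apply]
      exact h

private theorem idn_univ (ι : K ≃+* K) (P : K → Prop) : (∀ f, P (ι f)) ↔ ∀ f, P f :=
  ι.surjective.forall.symm

private theorem idn_ne (ι : K ≃+* K) (P : K → Prop) :
    (∀ f, f ≠ 0 → P (ι f)) ↔ ∀ f, f ≠ 0 → P f := by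
  have h := idn_all (B := (Set.univ : Set K)) (ι := ι) (fun f => by simp) P
  simpa using h

private theorem idn_DV (hB : ∀ f, f ∈ B ↔ ι f ∈ B) (w c : K → ℝ) :
    DV B (fun f => w (ι f)) (fun f => c (ι f)) = DV B w c := by
  ext u
  exact idn_all hB (fun f => dot u (w f, c f) ≤ 0)

private theorem idn_DR (hB : ∀ f, f ∈ B ↔ ι f ∈ B) (M : K → Finset (ℝ × ℝ)) (t : ℝ) :
    DR B (fun f => M (ι f)) t = DR B M t := by
  ext u
  exact idn_all hB (fun f => ∀ m, IsR (M f) t m → dot u m ≤ 0)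

private theorem idn_DL (hB : ∀ f, f ∈ B ↔ ι f ∈ B) (M : K → Finset (ℝ × ℝ)) (t : ℝ) :
    DL B (fun f => M (ι f)) t = DL B M t := by
  ext u
  exact idn_all hB (fun f => ∀ m, IsL (M f) t m → dot u m ≤ 0)

end

section
variable {k : Type} {p : ℕ} {K : Type} [Field k] [Field K] [Algebra k K] {n : ℕ} {φ : K → K}
  {g : Fin n → K} {R : K → ℝ} {ι : K ≃+* K} {s0 : K}

private theorem idn_Dv (ι : K ≃+* K) (v : K → ℝ) : Dv (fun f => v (ι f)) ↔ Dv v := by
  unfold Dv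
  refine exists_congr fun γ => and_congr_right fun _ => ?_
  exact idn_ne ι (fun f => ∃ n : ℤ, v f = n • γ)

private theorem idn_SG (h : LocZ k p φ g R ι s0) (v : K → ℝ) :
    SG (Br k g) (fun f => v (ι f)) ↔ SG (Br k g) v :=
  idn_all h.iB (fun f => v f ≤ 0)

private theorem idn_AtInf (h : LocZ k p φ g R ι s0) (v : K → ℝ) :
    AtInf (Br k g) (fun f => v (ι f)) ↔ AtInf (Br k g) v :=
  idn_ex h.iB (fun f => v f < 0)

private theorem idn_Flag (h : LocZ k p φ g R ι s0) (w : K → ℝ) (V : K → ℝ ×ₗ ℝ)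
    (hV : Flag k p φ w V) : Flag k p φ (fun f => w (ι f)) (fun f => V (ι f)) where
  inz := h.iinz _ V hV.inz
  fst := fun f => hV.fst (ι f)
  nt := by
    obtain ⟨f, hf0, h1, h2⟩ := hV.nt
    refine ⟨ι.symm f, ?_, ?_, ?_⟩
    · intro h0
      apply hf0
      rw [← RingEquiv.apply_symm_apply ι f, h0, map_zero]
    · show w (ι (ι.symm f)) = 0
      rw [RingEquiv.apply_symm_apply]
      exact h1
    · show c2 V (ι (ι.symm f)) ≠ 0
      rw [RingEquiv.apply_symm_apply]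
      exact h2

private theorem idn_PZ (h : LocZ k p φ g R ι s0) (v : K → ℝ) (hv : PZ k p φ g v) :
    PZ k p φ g (fun f => v (ι f)) := by
  obtain ⟨h1, h2, h3, h4⟩ := hv
  refine ⟨h.iinz _ v h1, fun h5 => h2 ((idn_SG h v).1 h5), (idn_AtInf h v).2 h3, fun h5 => ?_⟩
  obtain ⟨V, hV⟩ := h4 ((idn_Dv ι v).1 h5)
  exact ⟨_, idn_Flag h v V hV⟩

private theorem idn_Pr (ι : K ≃+* K) (v v' : K → ℝ) :
    Pr (fun f => v (ι f)) (fun f => v' (ι f)) ↔ Pr v v' := by
  unfold Pr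
  refine exists_congr fun c => and_congr_right fun _ => ?_
  exact idn_univ ι (fun f => v' f = c * v f)

private theorem idn_DnL (h : LocZ k p φ g R ι s0) (s : ℝ) (y : ℝ → K → ℝ)
    (M : K → Finset (ℝ × ℝ)) (hd : DnL k p φ g s y M) :
    DnL k p φ g s (fun t f => y t (ι f)) (fun f => M (ι f)) where
  cl := h.icl 0 s y M hd.cl
  ns := fun t h0 h1 h2 => hd.ns t h0 h1 ((idn_SG h (y t)).1 h2)
  ai := fun t h0 h1 => (idn_AtInf h (y t)).2 (hd.ai t h0 h1)
  des := by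
    obtain ⟨u, hu, hu2⟩ := hd.des
    exact ⟨u, by rw [idn_DR h.iB]; exact hu, hu2⟩

private theorem idn_Dn (h : LocZ k p φ g R ι s0) (v v' : K → ℝ) (hd : Dn k p φ g v v') :
    Dn k p φ g (fun f => v (ι f)) (fun f => v' (ι f)) := by
  rcases hd with ⟨h1, h2⟩ | ⟨s, y, M, h1, h2, h3⟩
  · exact Or.inl ⟨idn_PZ h v h1, (idn_Pr ι v v').2 h2⟩
  · exact Or.inr ⟨s, fun t f => y t (ι f), fun f => M (ι f), idn_DnL h s y M h1,
      (idn_Pr ι v (y 0)).2 h2, (idn_Pr ι (y s) v').2 h3⟩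

end

theorem p_idn : S_idn := by
  intro p _ k K _ _ _ _ _ n g φ R ι s0 hctx
  have h := hctx.2
  refine ⟨funext h.iR, fun v => ⟨idn_Dv ι v, idn_SG h v, idn_AtInf h v, idn_PZ h v⟩,
    fun v v' => ⟨?_, idn_Pr ι v v', ?_⟩, fun w V V' => ⟨idn_Flag h w V, ?_, ?_, ?_⟩,
    fun M t => ⟨idn_DR h.iB M t, idn_DL h.iB M t⟩, idn_DnL h, ?_⟩
  · unfold Le
    refine exists_congr fun c => and_congr_right fun _ => ?_
    exact idn_all h.iB (fun f => v f ≤ c * v' f)
  · intro hr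
    exact Relation.ReflTransGen.lift (fun (v : K → ℝ) => fun f => v (ι f))
      (fun a b hab => idn_Dn h a b hab) v v' hr
  · unfold PT
    refine exists_congr fun μ => ?_
    exact idn_all h.iB (fun f => dot (μ, 1) (w f, c2 V f) ≤ 0)
  · unfold BT
    refine exists_congr fun μ => ?_
    exact idn_all h.iB (fun f => dot (μ, -1) (w f, c2 V f) ≤ 0)
  · exact idn_univ ι (fun f => 0 < V f ↔ 0 < V' f)
  · intro y M t V hV
    refine ⟨h.iinz _ V hV.inz, fun f => hV.fst (ι f), ?_, ?_, ?_⟩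
    · intro f hf
      exact hV.near (ι f) (fun h0 => hf ((map_eq_zero_iff ι ι.injective).1 h0))
    · obtain ⟨x1, x2, h1, h2, h3⟩ := hV.nd
      refine ⟨ι.symm x1, ι.symm x2, ?_, ?_, ?_⟩
      · intro h0
        apply h1
        rw [← RingEquiv.apply_symm_apply ι x1, h0, map_zero]
      · intro h0
        apply h2
        rw [← RingEquiv.apply_symm_apply ι x2, h0, map_zero]
      · show y t (ι (ι.symm x1)) * c2 V (ι (ι.symm x2)) -
          y t (ι (ι.symm x2)) * c2 V (ι (ι.symm x1)) ≠ 0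
        rw [RingEquiv.apply_symm_apply, RingEquiv.apply_symm_apply]
        exact h3
    · intro u
      rw [idn_DR h.iB]
      refine (hV.dr u).trans ?_
      exact (idn_all h.iB (fun f => dot (u.1, sd t u) (y t f, c2 V f) ≤ 0)).symm

end Pool.Agent.CZP
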