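import Pool.Agent.Lib.MP_305fdd_al.CZ.P.StmB
import Pool.Agent.Lib.MP_305fdd_al.F2.PF.Main

/-!
# MP_305fdd_al, [CZP ifix]: the symmetry fixes the points of a line near an irrational fixed point
-/

set_option autoImplicit false

namespace Pool.Agent.CZP

open MvPolynomial Pool.Agent.F2Ch Pool.Agent.F2PF Filter Topology

/-- small multiples do not change the sign of a positive number -/
private theorem ifix_pos {a : ℝ} (b : ℝ) (ha : 0 < a) :
    ∃ δ > 0, ∀ ε, 0 < ε → ε < δ → 0 < a + ε * b := by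
  refine ⟨a / (|b| + 1), by positivity, fun ε h1 h2 => ?_⟩
  have h3 : 0 < |b| + 1 := by positivity
  have h4 : ε * (|b| + 1) < a := (lt_div_iff₀ h3).1 h2
  have h5 : -(ε * |b|) ≤ ε * b := by
    have := mul_le_mul_of_nonneg_left (neg_abs_le b) h1.le
    linarith
  nlinarith

/-- [CZP ifix] -/
theorem p_ifix (hrk2 : CZP.S_rk2) : S_ifix := by
  intro p _ k K _ _ _ _ _ n g φ R ι s0 hctx s1 s2 y M hcl t0 ht1 ht2 hnD hfix
  have hctx' := hctx
  obtain ⟨⟨b0, ρ0, hb⟩, hloc⟩ := hctx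
  have hline := (t_line p k K n g φ).2 s1 s2 y M hcl
  have hinz : ∀ t, s1 ≤ t → t ≤ s2 → InZ k p φ (y t) := fun t h1 h2 => (hline.2.1 t h1 h2).1
  -- the two local statements
  have hnear : ∀ h : K, h ≠ 0 → ∀ᶠ t in 𝓝 t0, s1 ≤ t → t ≤ s2 →
      (y t0 h = 0 → y t h = 0) ∧ (0 < y t0 h → 0 < y t h) := by
    intro h hh
    -- right
    have hright : ∃ δ > 0, ∀ t, t0 < t → t < t0 + δ → t ≤ s2 →
        (y t0 h = 0 → y t h = 0) ∧ (0 < y t0 h → 0 < y t h) := by
      by_cases hlt : t0 < s2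
      · obtain ⟨V, hV⟩ := (t_rfl p k K n g φ hb.gen s1 s2 y M hcl t0 ht1 hlt).1
        obtain ⟨δ, hδ, hn⟩ := hV.near h hh
        have hz := (hrk2 p k K n g φ R ι s0 hctx' (y t0) V hV.inz hV.fst hV.nd).2.1 hnD
        by_cases hp : 0 < y t0 h
        · obtain ⟨δ', hδ', hn'⟩ := ifix_pos (c2 V h) hp
          refine ⟨min δ δ', lt_min hδ hδ', fun t h1 h2 _ => ?_⟩
          have e1 : t - t0 < min δ δ' := by linarith
          have e2 := hn (t - t0) (by linarith) (lt_of_lt_of_le e1 (min_le_left _ _))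
          have e3 := hn' (t - t0) (by linarith) (lt_of_lt_of_le e1 (min_le_right _ _))
          rw [show t0 + (t - t0) = t by ring] at e2
          exact ⟨fun h0 => absurd h0 hp.ne', fun _ => by rw [e2]; exact e3⟩
        · refine ⟨δ, hδ, fun t h1 h2 _ => ⟨fun h0 => ?_, fun h0 => absurd h0 hp⟩⟩
          have e2 := hn (t - t0) (by linarith) (by linarith)
          rw [show t0 + (t - t0) = t by ring] at e2
          have e4 : c2 V h = 0 := by
            unfold c2
            rw [hz h h0]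
            rfl
          rw [e2, h0, e4, mul_zero, add_zero]
      · refine ⟨1, one_pos, fun t h1 _ h3 => absurd (lt_of_lt_of_le h1 h3) hlt⟩
    -- left
    have hleft : ∃ δ > 0, ∀ t, t < t0 → t0 - δ < t → s1 ≤ t →
        (y t0 h = 0 → y t h = 0) ∧ (0 < y t0 h → 0 < y t h) := by
      by_cases hlt : s1 < t0
      · obtain ⟨V, hV⟩ := (t_lfl p k K n g φ hb.gen s1 s2 y M hcl t0 hlt ht2).1
        obtain ⟨δ, hδ, hn⟩ := hV.near h hh
        have hz := (hrk2 p k K n g φ R ι s0 hctx' (y t0) V hV.inz hV.fst hV.nd).2.1 hnD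
        by_cases hp : 0 < y t0 h
        · obtain ⟨δ', hδ', hn'⟩ := ifix_pos (c2 V h) hp
          refine ⟨min δ δ', lt_min hδ hδ', fun t h1 h2 _ => ?_⟩
          have e1 : t0 - t < min δ δ' := by linarith
          have e2 := hn (t0 - t) (by linarith) (lt_of_lt_of_le e1 (min_le_left _ _))
          have e3 := hn' (t0 - t) (by linarith) (lt_of_lt_of_le e1 (min_le_right _ _))
          rw [show t0 - (t0 - t) = t by ring] at e2
          exact ⟨fun h0 => absurd h0 hp.ne', fun _ => by rw [e2]; exact e3⟩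
        · refine ⟨δ, hδ, fun t h1 h2 _ => ⟨fun h0 => ?_, fun h0 => absurd h0 hp⟩⟩
          have e2 := hn (t0 - t) (by linarith) (by linarith)
          rw [show t0 - (t0 - t) = t by ring] at e2
          have e4 : c2 V h = 0 := by
            unfold c2
            rw [hz h h0]
            rfl
          rw [e2, h0, e4, mul_zero, add_zero]
      · refine ⟨1, one_pos, fun t h1 _ h3 => absurd (lt_of_le_of_lt h3 h1) hlt⟩
    obtain ⟨δ1, hδ1, hr⟩ := hright
    obtain ⟨δ2, hδ2, hl⟩ := hleft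
    refine Metric.eventually_nhds_iff.2 ⟨min δ1 δ2, lt_min hδ1 hδ2, fun t ht h1 h2 => ?_⟩
    rw [Real.dist_eq] at ht
    obtain ⟨e1, e2⟩ := abs_lt.1 ht
    have e3 := min_le_left δ1 δ2
    have e4 := min_le_right δ1 δ2
    rcases lt_trichotomy t t0 with h3 | h3 | h3
    · exact hl t h3 (by linarith) h1
    · rw [h3]
      exact ⟨id, id⟩
    · exact hr t h3 (by linarith) h2
  obtain ⟨r, _, κ, _, _, x, ex, ac, φb, N, L, hch, _⟩ :=
    t_X2 p k K ℝ n g hb.gen 2 b0 ρ0 hb.pb φ hb.pinv hb.one (y t0) (hinz t0 ht1 ht2)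
  obtain ⟨G0, G1, hG0, hG1, h0, h1, huni⟩ := hch.unif
  have hι0 : ∀ f : K, f ≠ 0 → ι f ≠ 0 := fun f hf h => hf ((map_eq_zero_iff ι ι.injective).1 h)
  have e0 : ∀ᶠ t in 𝓝 t0, ∀ f ∈ G0, s1 ≤ t → t ≤ s2 → y t f = 0 := by
    refine (eventually_all_finite hG0).2 fun f hf => ?_
    filter_upwards [hnear f (h0 f hf).1] with t ht a1 a2
    exact (ht a1 a2).1 (h0 f hf).2
  have e0' : ∀ᶠ t in 𝓝 t0, ∀ f ∈ G0, s1 ≤ t → t ≤ s2 → y t (ι f) = 0 := by
    refine (eventually_all_finite hG0).2 fun f hf => ?_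
    filter_upwards [hnear (ι f) (hι0 f (h0 f hf).1)] with t ht a1 a2
    exact (ht a1 a2).1 (by rw [hfix]; exact (h0 f hf).2)
  have e1 : ∀ᶠ t in 𝓝 t0, ∀ f ∈ G1, s1 ≤ t → t ≤ s2 → 0 < y t f := by
    refine (eventually_all_finite hG1).2 fun f hf => ?_
    filter_upwards [hnear f (h1 f hf).1] with t ht a1 a2
    exact (ht a1 a2).2 (h1 f hf).2
  have e1' : ∀ᶠ t in 𝓝 t0, ∀ f ∈ G1, s1 ≤ t → t ≤ s2 → 0 < y t (ι f) := by
    refine (eventually_all_finite hG1).2 fun f hf => ?_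
    filter_upwards [hnear (ι f) (hι0 f (h1 f hf).1)] with t ht a1 a2
    exact (ht a1 a2).2 (by rw [hfix]; exact (h1 f hf).2)
  have ex1 : ∀ᶠ t in 𝓝 t0, ∀ i, s1 ≤ t → t ≤ s2 → y t (ι (x i)) = y t (x i) := by
    refine eventually_all.2 fun i => ?_
    have hxi := hch.vb.ne i
    have hne : ι (x i) / x i ≠ 0 := div_ne_zero (hι0 _ hxi) hxi
    have hmul : ι (x i) / x i * x i = ι (x i) := div_mul_cancel₀ _ hxi
    have hw : y t0 (ι (x i) / x i) = 0 := by
      have := (hinz t0 ht1 ht2).isv.mul (ι (x i) / x i) (x i) hne hxi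
      rw [hmul, hfix] at this
      linarith
    filter_upwards [hnear _ hne] with t ht a1 a2
    have b1 := (ht a1 a2).1 hw
    have b2 := (hinz t a1 a2).isv.mul (ι (x i) / x i) (x i) hne hxi
    rw [hmul, b1, zero_add] at b2
    exact b2
  obtain ⟨δ, hδ, hfin⟩ := Metric.eventually_nhds_iff.1
    (e0.and (e0'.and (e1.and (e1'.and ex1))))
  refine ⟨δ, hδ, fun t a1 a2 a3 => ?_⟩
  obtain ⟨c0, c0', c1, c1', cx⟩ := hfin (y := t) (by rw [Real.dist_eq]; exact a3)
  have d1 := (huni ℝ (y t) (hinz t a1 a2) (fun f hf => c0 f hf a1 a2)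
    (fun f hf => c1 f hf a1 a2)).2
  have d2 := (huni ℝ (fun f => y t (ι f)) (hloc.iinz ℝ (y t) (hinz t a1 a2))
    (fun f hf => c0' f hf a1 a2) (fun f hf => c1' f hf a1 a2)).2
  have d3 : (fun i => y t (ι (x i))) = fun i => y t (x i) := by
    funext i
    exact cx i a1 a2
  have d4 : OnCh k p φ g L (fun i => y t (x i)) (fun f => y t (ι f)) := by
    rw [← d3]
    exact d2
  have d5 := hch.uniq ℝ _ _ _ d4 d1
  intro f
  exact congrFun d5 f

end Pool.Agent.CZP
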