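import Pool.Agent.Lib.MP_305fdd_al.CZ.P.StmB
import Pool.Agent.Lib.MP_305fdd_al.F2.PF.Main

/-!
# MP_305fdd_al, [CZP ile]: fixed points of the symmetry
-/

set_option autoImplicit false

namespace Pool.Agent.CZP

open MvPolynomial Pool.Agent.F2Ch Pool.Agent.F2PF

/-- [CZP ile] -/
theorem p_ile : S_ile := by
  intro p _ k K _ _ _ _ _ n g φ R ι s0 hctx v hv hai
  obtain ⟨⟨b0, ρ0, hb⟩, hloc⟩ := hctx
  obtain ⟨z, hzB, hz0, hzι, hzv⟩ := hloc.ineg v hv hai
  have hiter : ∀ (j : ℕ) (f : K), f ∈ Br k g → f ≠ 0 → (ι^[j] f) ∈ Br k g ∧ (ι^[j] f) ≠ 0 := by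
    intro j
    induction j with
    | zero => intro f hf hf0; exact ⟨hf, hf0⟩
    | succ j ih =>
      intro f hf hf0
      rw [Function.iterate_succ_apply]
      exact ih (ι f) ((hloc.iB f).1 hf) (fun h => hf0 ((map_eq_zero_iff ι ι.injective).1 h))
  constructor
  · rintro hns ⟨c, hc, hle⟩
    have h1 : v z ≤ c * v z := by
      have := hle z hzB hz0
      simpa only [hzι] using this
    have hc1 : c ≤ 1 := by nlinarith
    have hpow : ∀ (j : ℕ) (f : K), f ∈ Br k g → f ≠ 0 → v (ι^[j] f) ≤ c ^ j * v f := by
      intro j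
      induction j with
      | zero => intro f _ _; simp
      | succ j ih =>
        intro f hf hf0
        rw [Function.iterate_succ_apply']
        obtain ⟨e1, e2⟩ := hiter j f hf hf0
        have e3 : v (ι (ι^[j] f)) ≤ c * v (ι^[j] f) := hle _ e1 e2
        have e4 := mul_le_mul_of_nonneg_left (ih f hf hf0) hc.le
        calc v (ι (ι^[j] f)) ≤ c * v (ι^[j] f) := e3
          _ ≤ c * (c ^ j * v f) := e4
          _ = c ^ (j + 1) * v f := by ring
    have hc2 : c = 1 := by
      unfold SG at hns
      push Not at hns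
      obtain ⟨f, hf, hf0, hfv⟩ := hns
      obtain ⟨N, hN, hNf⟩ := hloc.iper f
      have e1 := hpow N f hf hf0
      rw [hNf] at e1
      have e2 : 1 ≤ c ^ N := by
        by_contra h
        push Not at h
        nlinarith
      by_contra hne
      have hlt : c < 1 := lt_of_le_of_ne hc1 hne
      have e3 : c ^ N < 1 := pow_lt_one₀ hc.le hlt (by omega)
      linarith
    subst hc2
    have hle' : ∀ f, f ∈ Br k g → f ≠ 0 → v (ι f) = v f := by
      intro f hf hf0
      apply le_antisymm
      · have := hle f hf hf0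
        simpa using this
      · obtain ⟨N, hN, hNf⟩ := hloc.iper f
        obtain ⟨N', rfl⟩ : ∃ N', N = N' + 1 := ⟨N - 1, by omega⟩
        have e1 := hpow N' (ι f) ((hloc.iB f).1 hf)
          (fun h => hf0 ((map_eq_zero_iff ι ι.injective).1 h))
        rw [← Function.iterate_succ_apply, hNf, one_pow, one_mul] at e1
        exact e1
    intro x
    by_cases hx : x = 0
    · rw [hx, map_zero]
    · obtain ⟨a, ha, b, hbB, hb0, hab⟩ := ((t_line p k K n g φ).1 hb.gen).frac x
      have ha0 : a ≠ 0 := by
        rw [← hab]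
        exact mul_ne_zero hx hb0
      have e1 : v x + v b = v a := by
        rw [← hab]
        exact (hv.isv.mul x b hx hb0).symm
      have e2 : v (ι x) + v (ι b) = v (ι a) := by
        rw [← hab, map_mul]
        exact (hv.isv.mul (ι x) (ι b) (fun h => hx ((map_eq_zero_iff ι ι.injective).1 h))
          (fun h => hb0 ((map_eq_zero_iff ι ι.injective).1 h))).symm
      rw [hle' a ha ha0, hle' b hbB hb0] at e2
      linarith
  · rintro ⟨c, hc, hcv⟩
    have h1 : v z = c * v z := by
      have := hcv z
      simpa only [hzι] using this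
    have hc1 : c = 1 := by
      have e1 : (c - 1) * v z = 0 := by linarith
      rcases mul_eq_zero.1 e1 with h | h
      · linarith
      · exact absurd h hzv.ne
    intro f
    have := hcv f
    rw [hc1, one_mul] at this
    exact this

end Pool.Agent.CZP
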