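import Pool.Agent.Lib.MP_305fdd_al.CZ.P.StmB
import Pool.Agent.Lib.MP_305fdd_al.F2.PF.Main

/-!
# MP_305fdd_al, [CZP inp]: basic properties of `P_σ`
-/

set_option autoImplicit false

namespace Pool.Agent.CZP

open MvPolynomial Pool.Agent.F2Ch Pool.Agent.F2PF

/-- [CZP inp] -/
theorem p_inp (hgpr : S_gpr) (hrco : S_rco) (hgio : S_gio) (hrch : S_rch) (htot : S_tot)
    (hidn : S_idn) (hgex : S_gex) : S_inp := by
  intro p _ k K _ _ _ _ _ n g φ R ι s0 hC σ x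
  have gpr := hgpr p k K n g φ R ι s0 hC
  have rco := hrco p k K n g φ R ι s0 hC
  have gio := hgio p k K n g φ R ι s0 hC
  have rch := hrch p k K n g φ R ι s0 hC
  have tot := htot p k K n g φ R ι s0 hC
  have idn := hidn p k K n g φ R ι s0 hC
  have gex := hgex p k K n g φ R ι s0 hC
  obtain ⟨⟨b0, ρ0, hbase⟩, -⟩ := hC
  have trans : ∀ a b c : K → ℝ, Rch k p φ g a b → Rch k p φ g b c → Rch k p φ g a c :=
    fun a b c h1 h2 => Relation.ReflTransGen.trans h1 h2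
  have ha : ∀ x, InP k p φ g R s0 σ x → PZ k p φ g x := by
    rintro x ⟨s, Y, M, e, hG, he, hes, hr⟩
    exact (rch.2 (Y e) x ((gpr σ s Y M hG).1 e he hes).1 hr).1
  have hb : ∀ x, InP k p φ g R s0 σ x → ∀ x', Rch k p φ g x x' → InP k p φ g R s0 σ x' := by
    rintro x ⟨s, Y, M, e, hG, he, hes, hr⟩ x' hx'
    exact ⟨s, Y, M, e, hG, he, hes, trans _ _ _ hr hx'⟩
  have hf : ∀ x, InP k p φ g R s0 σ x → ∀ s Y M, Germ k p φ g R s0 σ s Y M →
      ∃ e0 > 0, e0 ≤ s ∧ ∀ e, 0 < e → e ≤ e0 → Rch k p φ g (Y e) x := by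
    rintro x ⟨s1, Y1, M1, e1, hG1, he1, hes1, hr⟩ s Y M hG
    have hσ : σ ≠ 0 := by
      rintro rfl
      have h1 := hG1.sg e1 he1 hes1
      rw [zero_mul] at h1
      exact lt_irrefl _ h1
    have hG1' := (gex σ hσ).2 s1 Y1 M1 hG1 e1 he1 hes1
    have hs : 0 < s := hG.cl.1
    obtain ⟨V, hV⟩ := (t_rfl p k K n g φ hbase.gen 0 s Y M hG.cl 0 le_rfl hs).1
    obtain ⟨-, hsg⟩ := (gpr σ s Y M hG).2.2.2 V hV
    have hRR : Pr R (Y 0) := by
      rw [hG.zero]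
      exact ((t_pr p k K n g φ).1 R R R).1
    obtain ⟨-, h2⟩ := rco s Y M hG.cl hRR V hV
    obtain ⟨δ, hδ, h3⟩ := h2 σ e1 Y1 M1 hG1' hsg
    refine ⟨min s (δ / 2), lt_min hs (by linarith), min_le_left _ _, fun e he hee => ?_⟩
    have hle1 : e ≤ s := hee.trans (min_le_left _ _)
    have hle2 : e ≤ δ / 2 := hee.trans (min_le_right _ _)
    obtain ⟨t', ht', ht'1, hpr⟩ := h3 e he (by linarith)
    have h4 := (rch.1 (Y e) (Y1 t') ((gpr σ s Y M hG).1 e he hle1).1 hpr).2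
    have h5 := (gpr σ s1 Y1 M1 hG1).2.2.1 t' e1 ht' ht'1 hes1
    exact trans _ _ _ (trans _ _ _ h4 h5) hr
  refine ⟨ha x, hb x, fun h x' hp => hb x h x' (rch.1 x x' (ha x h) hp).2, ?_, ?_, hf x, ?_,
    fun s Y M hG e he hes => ⟨s, Y, M, e, hG, he, hes, Relation.ReflTransGen.refl⟩⟩
  · rintro ⟨s, Y, M, e, hG, he, hes, hr⟩
    obtain ⟨s', hs', hs's, hG'⟩ := gio σ s Y M hG
    refine ⟨s', _, _, min e s', hG', lt_min he hs', min_le_right _ _, ?_⟩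
    have h1 := (gpr σ s Y M hG).2.2.1 (min e s') e (lt_min he hs') (min_le_left _ _) hes
    exact (idn.2.2.1 (Y (min e s')) x).2.2 (trans _ _ _ h1 hr)
  · rintro ⟨s, Y, M, e, hG, he, hes, hr⟩ σ' hσ
    refine ⟨s, Y, M, e, ⟨hG.cl, hG.zero, hG.ns, hG.ai, fun t h1 h2 => ?_⟩, he, hes, hr⟩
    have h3 := mul_pos hσ (hG.sg t h1 h2)
    have h4 : σ * σ' * (σ * Y t s0) = σ ^ 2 * (σ' * Y t s0) := by ring
    rw [h4] at h3
    exact pos_of_mul_pos_right h3 (sq_nonneg σ)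
  · intro hx x' hx'
    obtain ⟨s, Y, M, e, hG, he, hes, hr⟩ := id hx
    obtain ⟨e1, he1, -, h1⟩ := hf x hx s Y M hG
    obtain ⟨e2, he2, -, h2⟩ := hf x' hx' s Y M hG
    exact tot (Y (min e1 e2)) x x' (h1 _ (lt_min he1 he2) (min_le_left _ _))
      (h2 _ (lt_min he1 he2) (min_le_right _ _))

end Pool.Agent.CZP
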