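import Pool.Agent.Lib.MP_305fdd_al.CZ.P.Stm
import Pool.Agent.Lib.MP_305fdd_al.F2.PF.Main

/-!
# MP_305fdd_al, C_m * Z, [CZP loc]: local uniqueness of the descent
-/

set_option autoImplicit false

namespace Pool.Agent.CZP

open MvPolynomial Pool.Agent.F2Ch Pool.Agent.F2PF

private theorem loc_sd0 (u : ℝ × ℝ) : sd 0 u = u.2 := by
  unfold sd
  ring

private theorem loc_pt {K : Type} [Field K] {B : Set K} {w w' : K → ℝ} {V V' : K → ℝ ×ₗ ℝ} {c : ℝ}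
    (hw : ∀ f, w' f = c * w f) (hc2 : ∀ f, c2 V' f = c2 V f) {a b : ℝ} (hb : 0 < b)
    (h : (a, b) ∈ DV B w' (c2 V')) : PT B w V := by
  refine ⟨a * c / b, fun f hf hf0 => ?_⟩
  have h1 := h f hf hf0
  unfold dot at h1 ⊢
  simp only at h1 ⊢
  rw [hw, hc2] at h1
  have h2 : a * c / b * w f + 1 * c2 V f = (a * (c * w f) + b * c2 V f) / b := by
    field_simp
  rw [h2]
  exact div_nonpos_of_nonpos_of_nonneg h1 hb.le

theorem p_loc (hpal : S_pal) (hfeq : S_feq) (hfun : S_fun) (hcoin : S_coin) : S_loc := by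
  intro p _ k K _ _ _ _ _ n g φ R ι s0 hctx s s' y y' M M' hd hd' hpr0
  obtain ⟨⟨b0, ρ0, hb⟩, hloc⟩ := id hctx
  have hs : 0 < s := hd.cl.1
  have hs' : 0 < s' := hd'.cl.1
  obtain ⟨pr1, pr2, pr3⟩ := t_pr p k K n g φ
  obtain ⟨hBs, hli⟩ := t_line p k K n g φ
  obtain ⟨hL, hL2, _⟩ := hli 0 s y M hd.cl
  obtain ⟨hin0, hnt0⟩ := hL2 0 le_rfl hs.le
  obtain ⟨⟨V, hV⟩, _⟩ := t_rfl p k K n g φ hb.gen 0 s y M hd.cl 0 le_rfl hs
  obtain ⟨⟨V', hV'⟩, _⟩ := t_rfl p k K n g φ hb.gen 0 s' y' M' hd'.cl 0 le_rfl hs'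
  obtain ⟨pa1, _, _⟩ := hpal p k K n g φ R ι s0 hctx 0 s y M hd.cl
  obtain ⟨pa1', _, _⟩ := hpal p k K n g φ R ι s0 hctx 0 s' y' M' hd'.cl
  have hVfl := pa1 0 le_rfl hs V hV
  have hVfl' := pa1' 0 le_rfl hs' V' hV'
  obtain ⟨c, hc, hcy⟩ := id hpr0
  have hpr0' : Pr (y' 0) (y 0) := (pr1 (y 0) (y' 0) (y 0)).2.1 hpr0
  obtain ⟨u, hu, hus⟩ := hd.des
  obtain ⟨u', hu', hus'⟩ := hd'.des
  have hsg0 : ¬ SG (Br k g) (y 0) := hd.ns 0 le_rfl hs.le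
  have hinf : AtInf (Br k g) (y 0) := hd.ai 0 le_rfl hs.le
  have key : ∃ α β : ℝ, 0 < β ∧ ∀ f, c2 V' f = α * y 0 f + β * c2 V f := by
    by_cases hdv : Dv (y 0)
    · have hdv' : Dv (y' 0) := (pr2 (y 0) (y' 0) hpr0).2.2.2.1 hdv
      obtain ⟨V'', h1, h2, h3, h4, h5⟩ := pr3 V' (y' 0) (y 0) hV'.inz hV'.fst hpr0'
      have hfl : Flag k p φ (y 0) V'' := by
        refine ⟨h1, h2, ?_⟩
        obtain ⟨f, hf, hf1, hf2⟩ := (hVfl' hdv').nt
        refine ⟨f, hf, ?_, ?_⟩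
        · rw [hcy] at hf1
          exact (mul_eq_zero.1 hf1).resolve_left hc.ne'
        · rw [h3]
          exact hf2
      have hPT : PT (Br k g) (y 0) V :=
        loc_pt (c := 1) (fun f => (one_mul _).symm) (fun f => rfl) hus ((hV.dr u).1 hu)
      have hPT' : PT (Br k g) (y 0) V'' :=
        loc_pt hcy (fun f => (h3 f).symm) hus' ((hV'.dr u').1 hu')
      have heq : Eqv V V'' := hloc.l3 (y 0) hin0 hdv hinf hsg0 V V'' (hVfl hdv) hPT hfl hPT'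
      obtain ⟨α, β, hβ, h6⟩ := hfeq p k K n g φ R ι s0 hctx (y 0) (y 0) V V'' hV.inz h1 hV.fst h2
        hV.nd ((pr1 (y 0) (y 0) (y 0)).1) hdv heq
      exact ⟨α, β, hβ, fun f => by rw [← h3, h6]⟩
    · obtain ⟨α, β, hβ, h6⟩ := hfun p k K n g φ R ι s0 hctx (y 0) (y' 0) V V' hV.inz hV'.inz
        hV.fst hV'.fst hV.nd hV'.nd hpr0 hdv
      refine ⟨α, β, ?_, h6⟩
      have hv : (c * u'.1 + α * sd 0 u', β * sd 0 u') ∈ DR (Br k g) M 0 := by
        rw [hV.dr]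
        intro f hf hf0
        have h7 := (hV'.dr u').1 hu' f hf hf0
        unfold dot at h7 ⊢
        simp only [loc_sd0] at h7 ⊢
        rw [hcy, h6] at h7
        linarith
      have h8 := (t_nsg K (Br k g) (hBs hb.gen) (Set.Icc 0 s) y M hL 0 ⟨le_rfl, hs.le⟩ hinf hsg0).2.1
        s hs subset_rfl u hu _ hv hus
      rw [loc_sd0] at h8
      simp only at h8
      have h9 : 0 ≤ β := by
        by_contra h
        rw [not_le] at h
        have : β * sd 0 u' < 0 := mul_neg_of_neg_of_pos h hus'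
        linarith
      exact lt_of_le_of_ne h9 (Ne.symm hβ)
  exact hcoin p k K n g φ R ι s0 hctx s s' y y' M M' hd.cl hd'.cl hpr0 V V' hV hV' key

end Pool.Agent.CZP
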