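import Pool.Agent.Lib.MP_305fdd_al.CZ.P.StmB
import Pool.Agent.Lib.MP_305fdd_al.F2.PF.Main

set_option autoImplicit false

namespace Pool.Agent.CZP

open MvPolynomial Pool.Agent.F2Ch Pool.Agent.F2PF

theorem p_lrf : S_lrf := by
  intro p _ k K _ _ _ _ _ n g φ hg s y M hCL V hV
  obtain ⟨-, -, h3⟩ := F2PF.t_rsh p k K n g φ hg 0 s y M hCL
  have hs0 : s - 0 = s := sub_zero s
  refine ⟨hV.inz, ?_, ?_, ?_, ?_⟩
  · intro f
    show _ = y (s - 0) f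
    rw [hs0]
    exact hV.fst f
  · intro f hf
    obtain ⟨δ, hδ, h⟩ := hV.near f hf
    refine ⟨δ, hδ, fun ε h1 h2 => ?_⟩
    show y (s - (0 + ε)) f = y (s - 0) f + ε * c2 V f
    rw [hs0, zero_add]
    exact h ε h1 h2
  · obtain ⟨x1, x2, h1, h2, h⟩ := hV.nd
    refine ⟨x1, x2, h1, h2, ?_⟩
    show y (s - 0) x1 * c2 V x2 - y (s - 0) x2 * c2 V x1 ≠ 0
    rw [hs0]
    exact h
  · intro u
    show u ∈ DR (Br k g) (rsh s M) 0 ↔ (u.1, sd 0 u) ∈ DV (Br k g) (y (s - 0)) (c2 V)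
    rw [hs0]
    have h4 := (h3 s 0 (u.1, s * u.1 - u.2)).1
    rw [hs0] at h4
    have e1 : ((u.1, s * u.1 - u.2) : ℝ × ℝ).1 = u.1 := rfl
    have e2 : s * ((u.1, s * u.1 - u.2) : ℝ × ℝ).1 - ((u.1, s * u.1 - u.2) : ℝ × ℝ).2 = u.2 := by
      show s * u.1 - (s * u.1 - u.2) = u.2
      ring
    rw [e2, e1] at h4
    have e3 : ((u.1, u.2) : ℝ × ℝ) = u := rfl
    rw [e3] at h4
    rw [← h4, hV.dl]
    have e4 : -sd s (u.1, s * u.1 - u.2) = sd 0 u := by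
      unfold sd
      show -((s * u.1 - u.2) - s * u.1) = u.2 - 0 * u.1
      ring
    rw [e4]

end Pool.Agent.CZP
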