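import Pool.Agent.Lib.MP_305fdd_al.CZ.P.Stm
import Pool.Agent.Lib.MP_305fdd_al.F2.PF.Main

/-!
# MP_305fdd_al, `C_m * Z`, section CZ/P: the piece [CZP mono]

Monotonicity of a line without semi-good points, all points at infinity (adapted from
`F2/PF/P_mono.lean`).
-/

set_option autoImplicit false

namespace Pool.Agent.CZP

open MvPolynomial Pool.Agent.F2Ch Pool.Agent.F2PF

private theorem mono_restr {K : Type} [Field K] {B : Set K} {s1 s2 : ℝ} {y : ℝ → K → ℝ}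
    {M : K → Finset (ℝ × ℝ)} (h : Line B (Set.Icc s1 s2) y M) : Line B (Set.Ioo s1 s2) y M where
  isv := fun t ht => h.isv t ⟨ht.1.le, ht.2.le⟩
  ne := h.ne
  le := fun f hf hf0 t ht => h.le f hf hf0 t ⟨ht.1.le, ht.2.le⟩
  ex := fun f hf hf0 t ht => h.ex f hf hf0 t ⟨ht.1.le, ht.2.le⟩
  nd := by
    obtain ⟨x1, x2, a, b, h1, h2, h3, h4⟩ := h.nd
    exact ⟨x1, x2, a, b, h1, h2, h3, fun t ht => h4 t ⟨ht.1.le, ht.2.le⟩⟩

private theorem mono_pt {K : Type} [Field K] {B : Set K} {w : K → ℝ} {V : K → ℝ ×ₗ ℝ}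
    {a b : ℝ} (hb : 0 < b) (h : (a, b) ∈ DV B w (c2 V)) : PT B w V := by
  refine ⟨a / b, fun f hf hf0 => ?_⟩
  have h1 := h f hf hf0
  simp only [dot] at h1 ⊢
  have h2 : a / b * w f + 1 * c2 V f = (a * w f + b * c2 V f) / b := by
    field_simp
  rw [h2]
  exact div_nonpos_of_nonpos_of_nonneg h1 hb.le

theorem p_mono (h_dne : S_dne) (h_rk2 : S_rk2) : S_mono := by
  intro p _ k K _ _ _ _ _ n g φ R ι s0 hctx s1 s2 y M hcl hns
  obtain ⟨⟨b0, ρ0, hB⟩, hL⟩ := id hctx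
  obtain ⟨hBs', hline⟩ := t_line p k K n g φ
  have hBs := hBs' hB.gen
  obtain ⟨hLn, hinz, -⟩ := hline s1 s2 y M hcl
  -- the flags
  have hR : ∀ t, s1 < t → t < s2 → ∃ V, RFl k p φ g y M t V := by
    intro t h1 h2
    exact (t_rfl p k K n g φ hB.gen s1 s2 y M hcl t h1.le h2).1
  have hLf : ∀ t, s1 < t → t < s2 → ∃ V, LFl k p φ g y M t V := by
    intro t h1 h2
    exact (t_lfl p k K n g φ hB.gen s1 s2 y M hcl t h1 h2.le).1
  -- the property nt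
  have hnt : ∀ t, s1 < t → t < s2 → Dv (y t) → ∀ V : K → ℝ ×ₗ ℝ, InZ k p φ V →
      (∀ f, (ofLex (V f)).1 = y t f) →
      (∃ x1 x2, x1 ≠ 0 ∧ x2 ≠ 0 ∧ y t x1 * c2 V x2 - y t x2 * c2 V x1 ≠ 0) →
      ∃ f, f ≠ 0 ∧ y t f = 0 ∧ c2 V f ≠ 0 := by
    intro t h1 h2 hdv V hV hfst hnd
    exact (h_rk2 p k K n g φ R ι s0 hctx (y t) V hV hfst hnd).2.2 hdv
  obtain ⟨hd1, hd2⟩ := h_dne p k K n g φ R ι s0 hctx s1 s2 y M hcl
  -- no point descends on both sides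
  have hno : ∀ t, s1 < t → t < s2 → ¬ (DesR (Br k g) M t ∧ DesL (Br k g) M t) := by
    rintro t h1 h2 ⟨⟨u, hu, hu1⟩, ⟨u', hu', hu1'⟩⟩
    have hi := hinz t h1.le h2.le
    by_cases hdv : Dv (y t)
    · obtain ⟨V, hV⟩ := hR t h1 h2
      obtain ⟨V', hV'⟩ := hLf t h1 h2
      have hp1 : PT (Br k g) (y t) V := mono_pt hu1 ((hV.dr u).1 hu)
      have hp2 : PT (Br k g) (y t) V' := mono_pt (by linarith) ((hV'.dl u').1 hu')
      have hF : Flag k p φ (y t) V := ⟨hV.inz, hV.fst, hnt t h1 h2 hdv V hV.inz hV.fst hV.nd⟩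
      have hF' : Flag k p φ (y t) V' :=
        ⟨hV'.inz, hV'.fst, hnt t h1 h2 hdv V' hV'.inz hV'.fst hV'.nd⟩
      have hE := hL.l3 (y t) hi.1 hdv (hns t h1 h2).2 (hns t h1 h2).1 V V' hF hp1 hF' hp2
      exact t_gap p k K n g φ s1 s2 y M hcl t h1 h2 hdv V V' hV hV' hE
    · have heq := (t_irr p k K n g φ hB.gen s1 s2 y M hcl).1 t h1.le h2.le hdv
      have hu2 : u' ∈ DR (Br k g) M t := by rw [heq]; exact hu'
      have h3 := (t_nsg K (Br k g) hBs (Set.Icc s1 s2) y M hLn t ⟨h1.le, h2.le⟩ (hns t h1 h2).2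
        (hns t h1 h2).1).2.1 s2 h2 (Set.Icc_subset_Icc_left h1.le) u hu u' hu2 hu1
      linarith
  exact t_sgn K (Br k g) hBs s1 s2 y M (mono_restr hLn)
    (fun t h1 h2 => ⟨(hns t h1 h2).2, (hns t h1 h2).1⟩) (fun t h1 h2 => hd1 t h1.le h2)
    (fun t h1 h2 => hd2 t h1 h2.le) hno

end Pool.Agent.CZP
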