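import Pool.Agent.Lib.MP_305fdd_al.CZ.P.Stm
import Pool.Agent.Lib.MP_305fdd_al.F2.PF.StmB

/-!
# MP_305fdd_al, `C_m * Z`, piece [CZP pal]
-/

set_option autoImplicit false

namespace Pool.Agent.CZP

open MvPolynomial Pool.Agent.F2Ch Pool.Agent.F2PF

theorem p_pal (hrk : S_rk2) (hrfl : Pool.Agent.F2PF.S_rfl) (hlfl : Pool.Agent.F2PF.S_lfl)
    (hline : Pool.Agent.F2PF.S_line) :
    S_pal := by
  intro p _ k K _ _ _ _ _ n g φ R ι s0 hctx s1 s2 y M hcl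
  obtain ⟨b0, ρ0, hB⟩ := hctx.1
  have hgen : FracGen k g := hB.gen
  have h1 : ∀ t, s1 ≤ t → t < s2 → ∀ V, RFl k p φ g y M t V → Dv (y t) →
      Flag k p φ (y t) V := by
    intro t ht1 ht2 V hV hDv
    exact ⟨hV.inz, hV.fst,
      (hrk p k K n g φ R ι s0 hctx (y t) V hV.inz hV.fst hV.nd).2.2 hDv⟩
  have h2 : ∀ t, s1 < t → t ≤ s2 → ∀ V, LFl k p φ g y M t V → Dv (y t) →
      Flag k p φ (y t) V := by
    intro t ht1 ht2 V hV hDv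
    exact ⟨hV.inz, hV.fst,
      (hrk p k K n g φ R ι s0 hctx (y t) V hV.inz hV.fst hV.nd).2.2 hDv⟩
  refine ⟨h1, h2, ?_⟩
  intro t ht1 ht2 hns hai
  refine ⟨(((hline p k K n g φ).2 s1 s2 y M hcl).2.1 t ht1 ht2).1, hns, hai, ?_⟩
  intro hDv
  by_cases hlt : t < s2
  · obtain ⟨V, hV⟩ := (hrfl p k K n g φ hgen s1 s2 y M hcl t ht1 hlt).1
    exact ⟨V, h1 t ht1 hlt V hV hDv⟩
  · have hts : s1 < t := lt_of_lt_of_le hcl.1 (not_lt.mp hlt)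
    obtain ⟨V, hV⟩ := (hlfl p k K n g φ hgen s1 s2 y M hcl t hts ht2).1
    exact ⟨V, h2 t hts ht2 V hV hDv⟩

end Pool.Agent.CZP
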