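import Pool.Agent.Lib.MP_305fdd_al.CZ.P.Stm
import Pool.Agent.Lib.MP_305fdd_al.F2.PF.StmB

/-!
# MP_305fdd_al, `C_m * Z`, piece [CZP rch]
-/

set_option autoImplicit false

namespace Pool.Agent.CZP

open MvPolynomial Pool.Agent.F2Ch Pool.Agent.F2PF

private theorem rch_le_trans {K : Type} [Field K] {B : Set K} {a b c : K → ℝ} (h1 : Le B a b)
    (h2 : Le B b c) : Le B a c := by
  obtain ⟨r, hr, h1⟩ := h1
  obtain ⟨q, hq, h2⟩ := h2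
  refine ⟨r * q, mul_pos hr hq, fun f hf hf0 => (h1 f hf hf0).trans ?_⟩
  rw [mul_assoc]
  exact mul_le_mul_of_nonneg_left (h2 f hf hf0) hr.le

theorem p_rch (hpr : F2PF.S_pr) (hdnl : S_dnl) (hanti : S_anti) : S_rch := by
  intro p _ k K _ _ _ _ _ n g φ R ι s0 hctx
  obtain ⟨P1, P2, P3⟩ := hpr p k K n g φ
  have ha : ∀ x x' : K → ℝ, PZ k p φ g x → Pr x x' →
      PZ k p φ g x' ∧ Rch k p φ g x x' := by
    intro x x' hx hxx
    have hsym : Pr x' x := (P1 x x' x).2.1 hxx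
    obtain ⟨hin, hns, hai, hdv⟩ := hx
    refine ⟨⟨(P2 x x' hxx).1 hin, fun h => hns ((P2 x' x hsym).2.1 h),
      (P2 x x' hxx).2.2.1 hai, ?_⟩, ?_⟩
    · intro h
      obtain ⟨V, hV⟩ := hdv ((P2 x' x hsym).2.2.2.1 h)
      obtain ⟨V', h1, h2, h3, _, _⟩ := P3 V x x' hV.inz hV.fst hxx
      refine ⟨V', ⟨h1, h2, ?_⟩⟩
      obtain ⟨f, hf0, hf1, hf2⟩ := hV.nt
      exact ⟨f, hf0, (P2 x x' hxx).2.2.2.2.1 f hf1, by rw [h3]; exact hf2⟩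
    · exact Relation.ReflTransGen.single (Or.inl ⟨⟨hin, hns, hai, hdv⟩, hxx⟩)
  have hb : ∀ x x' : K → ℝ, PZ k p φ g x → Rch k p φ g x x' →
      PZ k p φ g x' ∧ Le (Br k g) x' x := by
    intro x x' hx hr
    induction hr with
    | refl => exact ⟨hx, (P2 x x (P1 x x x).1).2.2.2.2.2.2.1⟩
    | tail h1 h2 ih =>
      rename_i b c
      obtain ⟨hPb, hLb⟩ := ih
      rcases h2 with ⟨_, hbc⟩ | ⟨s, y, M, hD, hb0, hsc⟩
      · exact ⟨(ha b c hPb hbc).1, rch_le_trans (P2 b c hbc).2.2.2.2.2.2.2 hLb⟩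
      · obtain ⟨D1, _, _, D4, _⟩ := hdnl p k K n g φ R ι s0 hctx s y M hD
        have hs : 0 < s := hD.cl.1
        have hLs : Le (Br k g) (y s) (y 0) := (D4 0 s le_rfl hs le_rfl).1
        refine ⟨(ha (y s) c (D1 s hs.le le_rfl) hsc).1, ?_⟩
        exact rch_le_trans (P2 (y s) c hsc).2.2.2.2.2.2.2
          (rch_le_trans hLs (rch_le_trans (P2 b (y 0) hb0).2.2.2.2.2.2.2 hLb))
  refine ⟨ha, ?_⟩
  intro x x' hx hr
  obtain ⟨hPx', hL⟩ := hb x x' hx hr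
  refine ⟨hPx', hL, ?_⟩
  intro hr'
  obtain ⟨_, hL'⟩ := hb x' x hPx' hr'
  exact (hanti p k K n g φ R ι s0 hctx).1 x x' hx.1 hPx'.1 hx.2.1 hL hL'

end Pool.Agent.CZP
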