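import Pool.Agent.Lib.MP_305fdd_al.CZ.P.StmB
import Pool.Agent.Lib.MP_305fdd_al.F2.PF.Main

/-!
# MP_305fdd_al, `C_m * Z`, section CZ/P: every line which starts at `R` coincides near `R` with a germ
-/

set_option autoImplicit false

namespace Pool.Agent.CZP

open MvPolynomial Pool.Agent.F2Ch Pool.Agent.F2PF

theorem p_rco (h1 : S_gpr) (h2 : S_pal) (h3 : S_feq) (h4 : S_coin) : S_rco := by
  intro p _ k K _ _ _ _ _ n g φ R ι s0 hC s' y' M' hcl hR V' hV'
  have hC' := hC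
  obtain ⟨⟨b0, ρ0, hB⟩, hL⟩ := hC'
  have hgen : FracGen k g := hB.gen
  have pr := t_pr p k K n g φ
  have hs' : 0 < s' := hcl.1
  have hdv : Dv (y' 0) := (pr.2.1 R (y' 0) hR).2.2.2.1 hL.Rdv
  have hfl : Flag k p φ (y' 0) V' :=
    (h2 p k K n g φ R ι s0 hC 0 s' y' M' hcl).1 0 le_rfl hs' V' hV' hdv
  have hR' : Pr (y' 0) R := (pr.1 R (y' 0) R).2.1 hR
  obtain ⟨V'', hz, hf, hc, he, -⟩ := pr.2.2 V' (y' 0) R hV'.inz hV'.fst hR'
  have hfl'' : Flag k p φ R V'' := by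
    refine ⟨hz, hf, ?_⟩
    obtain ⟨f, hf0, hf1, hf2⟩ := hfl.nt
    exact ⟨f, hf0, (pr.2.1 (y' 0) R hR').2.2.2.2.1 f hf1, by rw [hc]; exact hf2⟩
  refine ⟨by rw [← hc]; exact hL.sne V'' hfl'', ?_⟩
  intro σ s Y M hG hσ
  obtain ⟨V, hV⟩ := (t_rfl p k K n g φ hgen 0 s Y M hG.cl 0 le_rfl hG.cl.1).1
  obtain ⟨hVR, hVs⟩ := (h1 p k K n g φ R ι s0 hC σ s Y M hG).2.2.2 V hV
  have hsg : 0 < c2 V'' s0 ↔ 0 < c2 V s0 := by
    rw [hc]
    constructor
    · intro h
      have hp : 0 < σ := by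
        by_contra hn
        have := mul_nonpos_of_nonpos_of_nonneg (not_lt.1 hn) h.le
        linarith
      by_contra hn
      have := mul_nonpos_of_nonneg_of_nonpos hp.le (not_lt.1 hn)
      linarith
    · intro h
      have hp : 0 < σ := by
        by_contra hn
        have := mul_nonpos_of_nonpos_of_nonneg (not_lt.1 hn) h.le
        linarith
      by_contra hn
      have := mul_nonpos_of_nonneg_of_nonpos hp.le (not_lt.1 hn)
      linarith
  have he2 : Eqv V'' V := hL.sun V'' V hfl'' hVR hsg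
  have he3 : Eqv V' V := fun f => (he f).trans (he2 f)
  have hPr : Pr (y' 0) (Y 0) := by rw [hG.zero]; exact hR'
  have hab := h3 p k K n g φ R ι s0 hC (y' 0) (Y 0) V' V hV'.inz hV.inz hV'.fst hV.fst hV'.nd hPr
    hdv he3
  exact h4 p k K n g φ R ι s0 hC s' s y' Y M' M hcl hG.cl hPr V' V hV' hV hab

end Pool.Agent.CZP
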