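import Pool.Agent.Lib.MP_305fdd_al.CZ.P.Stm
import Pool.Agent.Lib.MP_305fdd_al.F2.ChMain

/-!
# MP_305fdd_al, `C_m * Z`, section CZ/P, piece `rk2`

A flag `V` over a real valuation `w`, with independent components, has a
chart of rank two; `w` is divisorial if and only if there is an element of `w`-value zero and
nonzero `V`-value.
-/

set_option autoImplicit false

namespace Pool.Agent.CZP

open MvPolynomial Pool.Agent.F2Ch Pool.Agent.F2PF

/-- the first component -/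
private def rk2_fst : ℝ ×ₗ ℝ →+ ℝ where
  toFun a := (ofLex a).1
  map_zero' := rfl
  map_add' _ _ := rfl

/-- the second component -/
private def rk2_snd : ℝ ×ₗ ℝ →+ ℝ where
  toFun a := (ofLex a).2
  map_zero' := rfl
  map_add' _ _ := rfl

private theorem rk2_wt_fst {r : ℕ} (u : Fin r → ℝ ×ₗ ℝ) (m : Fin r → ℤ) :
    (ofLex (wt u m)).1 = ∑ i, (m i : ℝ) * (ofLex (u i)).1 := by
  show rk2_fst (wt u m) = _
  unfold wt
  rw [map_sum]
  refine Finset.sum_congr rfl fun i _ => ?_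
  rw [map_zsmul, zsmul_eq_mul]
  rfl

private theorem rk2_wt_snd {r : ℕ} (u : Fin r → ℝ ×ₗ ℝ) (m : Fin r → ℤ) :
    (ofLex (wt u m)).2 = ∑ i, (m i : ℝ) * (ofLex (u i)).2 := by
  show rk2_snd (wt u m) = _
  unfold wt
  rw [map_sum]
  refine Finset.sum_congr rfl fun i _ => ?_
  rw [map_zsmul, zsmul_eq_mul]
  rfl

private theorem rk2_ext {a b : ℝ ×ₗ ℝ} (h1 : (ofLex a).1 = (ofLex b).1)
    (h2 : (ofLex a).2 = (ofLex b).2) : a = b :=
  ofLex.injective (Prod.ext h1 h2)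

section
variable {K Γ : Type} [Field K] [AddCommGroup Γ] [LinearOrder Γ] [IsOrderedAddMonoid Γ]

/-- a valuation as a homomorphism on the units -/
private def rk2_hom {v : K → Γ} (hv : IsV v) : Kˣ →* Multiplicative Γ where
  toFun u := Multiplicative.ofAdd (v (u : K))
  map_one' := by
    have h := hv.mul 1 1 one_ne_zero one_ne_zero
    rw [mul_one] at h
    have h1 : v 1 = 0 := by
      have h2 : v 1 + 0 = v 1 + v 1 := by rw [add_zero]; exact h
      exact (add_left_cancel h2).symm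
    show Multiplicative.ofAdd (v ((1 : Kˣ) : K)) = 1
    rw [Units.val_one, h1]
    rfl
  map_mul' a b := by
    show Multiplicative.ofAdd (v ((a * b : Kˣ) : K)) = _
    rw [Units.val_mul, hv.mul _ _ a.ne_zero b.ne_zero]
    rfl

private theorem rk2_zpow {v : K → Γ} (hv : IsV v) (x : K) (hx : x ≠ 0) (n : ℤ) :
    v (x ^ n) = n • v x := by
  have h := map_zpow (rk2_hom hv) (Units.mk0 x hx) n
  have h2 : (((Units.mk0 x hx) ^ n : Kˣ) : K) = x ^ n := by
    rw [Units.val_zpow_eq_zpow_val, Units.val_mk0]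
  have h3 : Multiplicative.ofAdd (v (((Units.mk0 x hx) ^ n : Kˣ) : K)) =
      (Multiplicative.ofAdd (v ((Units.mk0 x hx : Kˣ) : K))) ^ n := h
  rw [h2, Units.val_mk0] at h3
  exact Multiplicative.ofAdd.injective h3

end

/-- rank at most one: the components are dependent -/
private theorem rk2_le1 {K : Type} [Field K] {V : K → ℝ ×ₗ ℝ} {r : ℕ} (hr : r ≤ 1) {x : Fin r → K}
    {ex : K → Fin r → ℤ} (hvb : IsVB V x ex) (x1 x2 : K) (hx1 : x1 ≠ 0) (hx2 : x2 ≠ 0) :
    (ofLex (V x1)).1 * (ofLex (V x2)).2 - (ofLex (V x2)).1 * (ofLex (V x1)).2 = 0 := by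
  rw [hvb.gen x1 hx1, hvb.gen x2 hx2]
  simp only [rk2_wt_fst, rk2_wt_snd]
  interval_cases r
  · simp
  · simp only [Finset.univ_unique, Finset.sum_singleton]
    ring

/-- RANK TWO -/
theorem p_rk2 : S_rk2 := by
  intro p _ k K _ _ _ _ _ n g φ R ι s00 hctx w V hV hfst hnd
  obtain ⟨⟨b0, ρ0, hb⟩, hl⟩ := hctx
  obtain ⟨x1, x2, hx1, hx2, hdet⟩ := hnd
  obtain ⟨r, s, κ, hκ, hκk, x, ex, ac, φb, N, L, hch, hrs, -, -, b', ρ', hpb'⟩ :=
    t_X2 p k K (ℝ ×ₗ ℝ) n g hb.gen 2 b0 ρ0 hb.pb φ hb.pinv hb.one V hV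
  have hr1 : ¬ r ≤ 1 := by
    intro hr
    apply hdet
    have := rk2_le1 hr hch.vb x1 x2 hx1 hx2
    rw [hfst, hfst] at this
    exact this
  obtain rfl : r = 2 := by omega
  have hwf : ∀ f, f ≠ 0 → w f = (ex f 0 : ℝ) * w (x 0) + (ex f 1 : ℝ) * w (x 1) := by
    intro f hf
    rw [← hfst, hch.vb.gen f hf, rk2_wt_fst, Fin.sum_univ_two, hfst, hfst]
  refine ⟨⟨κ, hκ, hκk, x, ex, ac, φb, N, L, hch⟩, ?_, ?_⟩
  · intro hDv f hwf0
    by_contra hVf
    apply hDv
    have hf : f ≠ 0 := by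
      rintro rfl
      exact hVf hV.isv.zero
    have he := hwf f hf
    rw [hwf0] at he
    have hene : (ex f 0 : ℝ) ≠ 0 ∨ (ex f 1 : ℝ) ≠ 0 := by
      by_contra hcon
      push Not at hcon
      apply hVf
      rw [hch.vb.gen f hf]
      have h0 : ex f 0 = 0 := by exact_mod_cast hcon.1
      have h1 : ex f 1 = 0 := by exact_mod_cast hcon.2
      unfold wt
      rw [Fin.sum_univ_two, h0, h1, zero_smul, zero_smul, add_zero]
    obtain ⟨lam, hl0, hl1⟩ : ∃ lam : ℝ, w (x 0) = lam * (ex f 1 : ℝ) ∧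
        w (x 1) = -(lam * (ex f 0 : ℝ)) := by
      rcases hene with h0 | h1
      · refine ⟨-w (x 1) / (ex f 0 : ℝ), ?_, ?_⟩
        · field_simp
          linarith
        · field_simp
      · refine ⟨w (x 0) / (ex f 1 : ℝ), ?_, ?_⟩
        · field_simp
        · field_simp
          linarith
    have hall : ∀ f', f' ≠ 0 → w f' = lam * ((ex f' 0 * ex f 1 - ex f' 1 * ex f 0 : ℤ) : ℝ) := by
      intro f' hf'
      rw [hwf f' hf', hl0, hl1]
      push_cast
      ring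
    rcases lt_trichotomy lam 0 with h | h | h
    · refine ⟨-lam, by linarith, fun f' hf' => ⟨-(ex f' 0 * ex f 1 - ex f' 1 * ex f 0), ?_⟩⟩
      rw [hall f' hf', zsmul_eq_mul]
      push_cast
      ring
    · refine ⟨1, one_pos, fun f' hf' => ⟨0, ?_⟩⟩
      rw [hall f' hf', h, zero_mul, zero_smul]
    · refine ⟨lam, h, fun f' hf' => ⟨ex f' 0 * ex f 1 - ex f' 1 * ex f 0, ?_⟩⟩
      rw [hall f' hf', zsmul_eq_mul]
      ring
  · rintro ⟨γ, hγ, hval⟩
    have hx0 := hch.vb.ne 0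
    have hx1' := hch.vb.ne 1
    obtain ⟨n0, hn0⟩ := hval (x 0) hx0
    obtain ⟨n1, hn1⟩ := hval (x 1) hx1'
    have hVf : V (x 0 ^ n1 * x 1 ^ (-n0)) = wt (fun i => V (x i)) ![n1, -n0] := by
      rw [hV.isv.mul _ _ (zpow_ne_zero _ hx0) (zpow_ne_zero _ hx1'), rk2_zpow hV.isv _ hx0,
        rk2_zpow hV.isv _ hx1']
      unfold wt
      rw [Fin.sum_univ_two]
      rfl
    have hw0 : w (x 0 ^ n1 * x 1 ^ (-n0)) = 0 := by
      rw [← hfst, hVf, rk2_wt_fst, Fin.sum_univ_two, hfst, hfst, hn0, hn1]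
      simp only [zsmul_eq_mul, Matrix.cons_val_zero, Matrix.cons_val_one]
      push_cast
      ring
    refine ⟨x 0 ^ n1 * x 1 ^ (-n0), mul_ne_zero (zpow_ne_zero _ hx0) (zpow_ne_zero _ hx1'), hw0, ?_⟩
    intro hc2
    have hV0 : V (x 0 ^ n1 * x 1 ^ (-n0)) = 0 := by
      apply rk2_ext
      · rw [hfst, hw0]; rfl
      · exact hc2
    rw [hVf] at hV0
    have hm := hch.vb.indep _ hV0
    have h1 : n1 = 0 := congrFun hm 0
    have h0 : n0 = 0 := by
      have : -n0 = 0 := congrFun hm 1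
      omega
    apply hdet
    rw [h0, zero_smul] at hn0
    rw [h1, zero_smul] at hn1
    rw [hwf x1 hx1, hwf x2 hx2, hn0, hn1]
    ring

end Pool.Agent.CZP
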