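import Pool.Agent.Lib.MP_305fdd_al.CZ.P.Stm
import Pool.Agent.Lib.MP_305fdd_al.F2.PF.StmC

/-!
# MP_305fdd_al, C_m * Z, section CZ/P: from the order to the direction
-/

set_option autoImplicit false

namespace Pool.Agent.CZP

open MvPolynomial Pool.Agent.F2Ch Pool.Agent.F2PF

private theorem sega_pr {K : Type} [Field K] {R v v' : K → ℝ} (h : Pr R v) (h' : Pr R v') :
    Pr v v' := by
  obtain ⟨c, hc, e⟩ := h
  obtain ⟨c', hc', e'⟩ := h'
  refine ⟨c' / c, div_pos hc' hc, fun f => ?_⟩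
  rw [e, e']
  field_simp

private theorem sega_sd0 (t : ℝ) : sd t 0 = 0 := by
  unfold sd
  simp

theorem p_sega (hline : S_line) (hmono : S_mono) (hcloL : S_cloL)
    (hnsg : S_nsg) (hanti : S_anti) (hkeyL : S_keyL) (hpersL : S_persL) : S_sega := by
  intro p _ k K _ _ _ _ _ n g φ R ι s0 ctx0 s1 s2 y M hcl hai hsg hle
  obtain ⟨⟨b0, ρ0, hbase⟩, hloc⟩ := ctx0
  have ctx : CtxZ k p φ g R ι s0 := ⟨⟨b0, ρ0, hbase⟩, hloc⟩
  have hlt : s1 < s2 := hcl.1
  have hBs : Bs (Br k g) := (hline p k K n g φ).1 hbase.gen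
  obtain ⟨hL, hinz, -⟩ := (hline p k K n g φ).2 s1 s2 y M hcl
  have hm1 : s1 ∈ Set.Icc s1 s2 := Set.left_mem_Icc.2 hlt.le
  have hm2 : s2 ∈ Set.Icc s1 s2 := Set.right_mem_Icc.2 hlt.le
  obtain ⟨c, hc, hcf⟩ := hle
  have hNS : ∀ t, s1 ≤ t → t ≤ s2 → ¬ SG (Br k g) (y t) := by
    intro t ht1 ht2 hs
    apply hsg
    intro f hf hf0
    by_contra hpos
    have hp2 : 0 < y s2 f := not_le.1 hpos
    have hp1 : 0 < y s1 f := by
      by_contra hn
      have h3 := hcf f hf hf0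
      have h4 : c * y s1 f ≤ 0 := mul_nonpos_of_nonneg_of_nonpos hc.le (not_lt.1 hn)
      linarith
    obtain ⟨m, hm, e⟩ := hL.ex f hf hf0 t ⟨ht1, ht2⟩
    have l1 := hL.le f hf hf0 s1 hm1 m hm
    have l2 := hL.le f hf hf0 s2 hm2 m hm
    have h5 := hs f hf hf0
    rw [e] at h5
    rcases le_total 0 m.2 with h6 | h6
    · have h7 : s1 * m.2 ≤ t * m.2 := mul_le_mul_of_nonneg_right ht1 h6
      linarith
    · have h7 : s2 * m.2 ≤ t * m.2 := mul_le_mul_of_nonpos_right ht2 h6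
      linarith
  refine ⟨hNS, ?_⟩
  rcases hmono p k K n g φ R ι s0 ctx s1 s2 y M hcl
    (fun t ht1 ht2 => ⟨hNS t ht1.le ht2.le, hai t ht1.le ht2.le⟩) with hD | hD
  · exact fun t ht1 ht2 => (hD t ht1 ht2).1
  · exfalso
    obtain ⟨hA1, hA2, -, -, -⟩ := hanti p k K n g φ R ι s0 ctx
    have hAt : AtInf (Br k g) (y s2) := hai s2 hlt.le le_rfl
    obtain ⟨u, hu, hu0, hus⟩ := hcloL K (Br k g) hBs (Set.Icc s1 s2) y M hL s2 hm2 s1 hlt
      subset_rfl (-1) (by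
        intro δ hδ
        have h3 : max s1 (s2 - δ) < s2 := max_lt hlt (by linarith)
        have h4 : s1 ≤ max s1 (s2 - δ) := le_max_left _ _
        have h5 : s2 - δ ≤ max s1 (s2 - δ) := le_max_right _ _
        obtain ⟨⟨u, hu, hus⟩, -⟩ := hD ((max s1 (s2 - δ) + s2) / 2) (by linarith)
          (by linarith)
        refine ⟨(max s1 (s2 - δ) + s2) / 2, by linarith, by linarith, u, Or.inr hu, ?_,
          by linarith⟩
        rintro rfl
        rw [sega_sd0] at hus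
        exact lt_irrefl _ hus)
    have hne := (hnsg K (Br k g) hBs (Set.Icc s1 s2) y M hL s2 hm2 hAt hsg).1 u (Or.inr hu) hu0
    have hneg : sd s2 u < 0 := lt_of_le_of_ne (by linarith) hne
    have hneg1 : sd s1 u < 0 := hkeyL K (Br k g) (Set.Icc s1 s2) y M hL s2 hm2 u (Or.inr hu)
      s1 hlt subset_rfl (fun r h3 h4 => hNS r h3 h4.le) hneg
    have hper := (hpersL K (Br k g) (Set.Icc s1 s2) y M hL s2 hm2 s1 hm1 hlt u (Or.inr hu)
      hneg hneg1.le).2.2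
    have hle1 : Le (Br k g) (y s1) (y s2) :=
      ⟨sd s1 u / sd s2 u, div_pos_of_neg_of_neg hneg1 hneg, hper⟩
    have hPr := hA1 (y s2) (y s1) (hinz s2 hlt.le le_rfl).1 (hinz s1 le_rfl hlt.le).1 hsg hle1
      ⟨c, hc, hcf⟩
    exact hlt.ne' (hA2 s1 s2 y M hcl s2 s1 hlt.le le_rfl le_rfl hlt.le hPr)

end Pool.Agent.CZP
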