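import Pool.Agent.Lib.MP_305fdd_al.CZ.P.Stm
import Pool.Agent.Lib.MP_305fdd_al.F2.PF.StmC

/-!
# MP_305fdd_al, `C_m * Z`, section CZ/P: the piece segd (adapted from `F2/PF/P_segd.lean`)
-/

set_option autoImplicit false

namespace Pool.Agent.CZP

open MvPolynomial Pool.Agent.F2Ch Pool.Agent.F2PF

/-- The line descends to the right at its left end point. -/
private theorem segd_des (hclo : F2PF.S_clo) (hnsg : F2PF.S_nsg) (hline : F2PF.S_line)
    (p : ℕ) [Fact p.Prime] (k K : Type) [Field k] [CharP k p] [PerfectRing k p] [Field K]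
    [Algebra k K] (n : ℕ) (g : Fin n → K) (φ : K → K) (hgen : FracGen k g)
    (s1 s2 : ℝ) (y : ℝ → K → ℝ) (M : K → Finset (ℝ × ℝ)) (hCL : CL k p φ g s1 s2 y M)
    (hns : ∀ t, s1 ≤ t → t ≤ s2 → ¬ SG (Br k g) (y t) ∧ AtInf (Br k g) (y t))
    (hdes : ∀ t, s1 < t → t < s2 → DesR (Br k g) M t) :
    DesR (Br k g) M s1 := by
  have hs : s1 < s2 := hCL.1
  have hBs : Bs (Br k g) := (hline p k K n g φ).1 hgen
  obtain ⟨hLine, -, -⟩ := (hline p k K n g φ).2 s1 s2 y M hCL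
  have hs1 : s1 ∈ Set.Icc s1 s2 := ⟨le_refl _, hs.le⟩
  obtain ⟨hN, hA⟩ := hns s1 (le_refl _) hs.le
  obtain ⟨u, hu, hu0, hus⟩ := hclo K (Br k g) hBs (Set.Icc s1 s2) y M hLine s1 hs1 s2 hs
    (le_refl _) 1 (by
      intro δ hδ
      refine ⟨min (s1 + δ / 2) ((s1 + s2) / 2), ?_, ?_, ?_⟩
      · exact lt_min (by linarith) (by linarith)
      · exact lt_of_le_of_lt (min_le_left _ _) (by linarith)
      · obtain ⟨u, hu, hus⟩ := hdes (min (s1 + δ / 2) ((s1 + s2) / 2))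
          (lt_min (by linarith) (by linarith))
          (lt_of_le_of_lt (min_le_right _ _) (by linarith))
        refine ⟨u, Or.inl hu, ?_, ?_⟩
        · rintro rfl
          simp [sd] at hus
        · rw [one_mul]
          exact hus.le)
  have h1 := (hnsg K (Br k g) hBs (Set.Icc s1 s2) y M hLine s1 hs1 hA hN).1 u (Or.inl hu) hu0
  rw [one_mul] at hus
  exact ⟨u, hu, lt_of_le_of_ne hus (Ne.symm h1)⟩

/-- The piece segd -/
theorem p_segd (hrsh : F2PF.S_rsh) (hclo : F2PF.S_clo) (hnsg : F2PF.S_nsg)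
    (hline : F2PF.S_line) : S_segd := by
  intro p _ k K _ _ _ _ _ n g φ R ι s0 hC s1 s2 y M hCL hns hdes t t' ht htt' ht'
  have hgen : FracGen k g := by
    obtain ⟨⟨b0, ρ0, hB⟩, -⟩ := hC
    exact hB.gen
  obtain ⟨h1, h2, -⟩ := hrsh p k K n g φ hgen s1 s2 y M hCL
  have hD : DesR (Br k g) M t := by
    rcases ht.eq_or_lt with h | h
    · subst h
      exact segd_des hclo hnsg hline p k K n g φ hgen _ s2 y M hCL hns hdes
    · exact hdes t h (by linarith)
  refine ⟨(h1 t t' ht htt' ht').1, ?_, ?_, ?_⟩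
  · intro τ h0 hτ
    exact (hns (t + τ) (by linarith) (by linarith)).1
  · intro τ h0 hτ
    exact (hns (t + τ) (by linarith) (by linarith)).2
  · obtain ⟨u, hu, hus⟩ := hD
    obtain ⟨h3, -, h4⟩ := h2 t 0 u
    rw [add_zero] at h3 h4
    refine ⟨(u.1, u.2 - t * u.1), h3.1 hu, ?_⟩
    rw [h4]
    exact hus

end Pool.Agent.CZP
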