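import Pool.Agent.Lib.MP_305fdd_al.CZ.P.Stm
import Pool.Agent.Lib.MP_305fdd_al.F2.PF.Main

/-!
# MP_305fdd_al, `C_m * Z`, section CZ/P: descending lines to the left
-/

set_option autoImplicit false

namespace Pool.Agent.CZP

open MvPolynomial Pool.Agent.F2Ch Pool.Agent.F2PF

private theorem segl_sh_rsh {K : Type} [Field K] (M : K → Finset (ℝ × ℝ)) (s t' : ℝ) :
    sh (s - t') (rsh s M) = rsh t' M := by
  funext f
  unfold sh rsh
  rw [Finset.image_image]
  congr 1
  funext m
  simp only [Function.comp_apply, Prod.mk.injEq, and_true]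
  ring

theorem p_segl (hsegd : S_segd) : S_segl := by
  intro p _ k K _ _ _ _ _ n g φ R ι s0 hctx s1 s2 y M hCL hns hdes t t' h1 h2 h3
  have hFG : FracGen k g := by
    obtain ⟨⟨b0, ρ0, hb⟩, _⟩ := hctx
    exact hb.gen
  obtain ⟨r1, _, r3⟩ := t_rsh p k K n g φ hFG s1 s2 y M hCL
  have hCL' := (r1 s1 s2 le_rfl (by linarith) le_rfl).2
  have hD := hsegd p k K n g φ R ι s0 hctx 0 (s2 - s1) _ _ hCL'
    (fun τ ha hb => hns (s2 - τ) (by linarith) (by linarith))
    (fun τ ha hb => by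
      obtain ⟨u, hu, hsd⟩ := hdes (s2 - τ) (by linarith) (by linarith)
      obtain ⟨e1, _, e3⟩ := r3 s2 τ u
      refine ⟨(u.1, s2 * u.1 - u.2), e1.1 hu, ?_⟩
      rw [e3]
      linarith)
    (s2 - t') (s2 - t) (by linarith) (by linarith) (by linarith)
  rw [segl_sh_rsh, show s2 - t - (s2 - t') = t' - t by ring] at hD
  have e : (fun τ => (fun τ => y (s2 - τ)) (s2 - t' + τ)) = fun τ => y (t' - τ) := by
    funext τ
    change y (s2 - (s2 - t' + τ)) = y (t' - τ)
    congr 1
    ring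
  rw [e] at hD
  exact hD

end Pool.Agent.CZP
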