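import Pool.Agent.Lib.MP_305fdd_al.CZ.P.StmB
import Pool.Agent.Lib.MP_305fdd_al.F2.PF.StmB

/-!
# MP_305fdd_al, `C_m * Z`, piece [CZP sep]
-/

set_option autoImplicit false

namespace Pool.Agent.CZP

open MvPolynomial Pool.Agent.F2Ch Pool.Agent.F2PF

theorem sep_tend (s : ℝ) (hs : 0 < s) :
    Filter.Tendsto (fun i : ℕ => s / ((i : ℝ) + 2)) Filter.atTop
      (nhdsWithin 0 (Set.Icc 0 s)) := by
  rw [tendsto_nhdsWithin_iff]
  constructor
  · have h1 : Filter.Tendsto (fun i : ℕ => (i : ℝ) + 2) Filter.atTop Filter.atTop :=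
      Filter.tendsto_atTop_add_const_right _ _ tendsto_natCast_atTop_atTop
    exact Filter.Tendsto.div_atTop tendsto_const_nhds h1
  · refine Filter.Eventually.of_forall fun i => ⟨by positivity, ?_⟩
    apply div_le_self hs.le
    have : (0 : ℝ) ≤ (i : ℝ) := Nat.cast_nonneg i
    linarith

theorem p_sep (hgpr : S_gpr) (hinp : S_inp) (hrch : S_rch) (hbtw : S_btw) (hanti : S_anti)
    (hdense : Pool.Agent.F2PF.S_dense) (hlim : Pool.Agent.F2PF.S_lim) : S_sep := by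
  intro p _ k K _ _ _ _ _ n g φ R ι s0 hctx σ s Y M G
  obtain ⟨b0, ρ0, hB⟩ := hctx.1
  have hloc := hctx.2
  have hs : 0 < s := G.cl.1
  obtain ⟨g1, g2, g3, -⟩ := hgpr p k K n g φ R ι s0 hctx σ s Y M G
  by_contra hcon
  push Not at hcon
  have hinp' := fun x => hinp p k K n g φ R ι s0 hctx (-σ) x
  have hall : ∀ e, 0 < e → e ≤ s → InP k p φ g R s0 (-σ) (Y e) := by
    intro e he1 he2
    obtain ⟨e', h1, h2, h3⟩ := hcon e he1 he2
    exact (hinp' (Y e')).2.1 h3 _ (g3 e' e h1 h2 he2)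
  obtain ⟨s', Y', M', d, G', hd0, hd1, hR⟩ := hall s hs le_rfl
  obtain ⟨g1', -⟩ := hgpr p k K n g φ R ι s0 hctx (-σ) s' Y' M' G'
  have hPZ' : PZ k p φ g (Y' d) := (g1' d hd0 hd1).1
  have hInP' : InP k p φ g R s0 (-σ) (Y' d) :=
    (hinp' (Y' d)).2.2.2.2.2.2.2 s' Y' M' G' d hd0 hd1
  have hai : AtInf (Br k g) (Y' d) := G'.ai d hd0 hd1
  have hex : ∃ e, 0 < e ∧ e < s ∧ ¬ Rch k p φ g (Y' d) (Y e) := by
    by_contra hcon2
    push Not at hcon2
    have hLe : ∀ i : ℕ, Le (Br k g) (Y (s / ((i : ℝ) + 2))) (Y' d) := by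
      intro i
      have h1 : (0 : ℝ) ≤ (i : ℝ) := Nat.cast_nonneg i
      have h2 : 0 < s / ((i : ℝ) + 2) := by positivity
      have h3 : s / ((i : ℝ) + 2) < s := by
        apply div_lt_self hs
        linarith
      exact ((hrch p k K n g φ R ι s0 hctx).2 _ _ hPZ' (hcon2 _ h2 h3)).2.1
    have htend : ∀ f ∈ Br k g, f ≠ 0 →
        Filter.Tendsto (fun i : ℕ => Y (s / ((i : ℝ) + 2)) f) Filter.atTop (nhds (R f)) := by
      intro f hf hf0
      have hc := (hdense p k K n g φ hB.gen 0 s Y M G.cl).2.1 f hf hf0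
      have hc0 : ContinuousWithinAt (fun t => Y t f) (Set.Icc 0 s) 0 := hc 0 ⟨le_rfl, hs.le⟩
      have h4 := Filter.Tendsto.comp hc0 (sep_tend s hs)
      have h5 : (fun t => Y t f) 0 = R f := by
        show Y 0 f = R f
        rw [G.zero]
      rw [h5] at h4
      exact h4
    have hLeR := (hlim K (Br k g) ℕ Filter.atTop (fun i => Y (s / ((i : ℝ) + 2))) R (Y' d)
      htend).2.1 hLe hai (hanti p k K n g φ R ι s0 hctx).2.2.2.2
    obtain ⟨c, hc, hle⟩ := hLeR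
    obtain ⟨f, hf, hf0, hneg⟩ := hai
    have h5 := hle f hf hf0
    have h6 := hloc.Rnn f hf hf0
    have h7 : c * Y' d f < 0 := mul_neg_of_pos_of_neg hc hneg
    linarith
  obtain ⟨e, he0, he1, hnR⟩ := hex
  have hRe : Rch k p φ g (Y e) (Y' d) :=
    ((hinp' (Y' d)).2.2.2.2.2.2.1 hInP' (Y e) (hall e he0 he1.le)).resolve_left hnR
  have hrefl : ∀ v : K → ℝ, Pr v v := fun v => ⟨1, one_pos, fun f => (one_mul _).symm⟩
  obtain ⟨t, ht0, ht1, c, hc, hPr⟩ := hbtw p k K n g φ R ι s0 hctx (s - e)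
    (fun τ => Y (e + τ)) (sh e M) (g2 e s he0 he1 le_rfl) (Y e) (Y' d) (Y s)
    (by
      show Pr (Y e) (Y (e + 0))
      rw [add_zero]; exact hrefl _)
    (by
      show Pr (Y (e + (s - e))) (Y s)
      rw [add_sub_cancel]; exact hrefl _) hRe hR
  have h8 := G.sg (e + t) (by linarith) (by linarith)
  have h9 := G'.sg d hd0 hd1
  rw [hPr s0] at h9
  have h10 : -σ * (c * Y (e + t) s0) = -(c * (σ * Y (e + t) s0)) := by ring
  rw [h10] at h9
  have h11 : 0 < c * (σ * Y (e + t) s0) := mul_pos hc h8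
  linarith

end Pool.Agent.CZP
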