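import Pool.Agent.Lib.MP_305fdd_al.CZ.P.StmB
import Pool.Agent.Lib.MP_305fdd_al.F2.PF.StmC

/-!
# MP_305fdd_al, `C_m * Z`, piece [CZP two]: two ascending lines from the same point are equivalent
-/

set_option autoImplicit false

namespace Pool.Agent.CZP

open MvPolynomial Pool.Agent.F2Ch Pool.Agent.F2PF Filter Topology

private theorem two_ev (P : ℝ → Prop) :
    (∀ᶠ ε in 𝓝[>] (0 : ℝ), P ε) ↔ ∃ δ > 0, ∀ ε, 0 < ε → ε < δ → P ε := by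
  constructor
  · intro h
    obtain ⟨u, hu, hs⟩ := mem_nhdsGT_iff_exists_Ioo_subset.1 h
    exact ⟨u, hu, fun ε h1 h2 => hs ⟨h1, h2⟩⟩
  · rintro ⟨δ, hδ, h⟩
    exact mem_nhdsGT_iff_exists_Ioo_subset.2 ⟨δ, hδ, fun ε hε => h ε hε.1 hε.2⟩

private theorem two_pos (a b : ℝ) (hab : 0 < a ∨ (a = 0 ∧ 0 < b)) :
    ∀ᶠ ε in 𝓝[>] (0 : ℝ), 0 < a + ε * b := by
  rcases hab with h | ⟨h, h'⟩
  · have h2 : Tendsto (fun ε : ℝ => a + ε * b) (𝓝[>] 0) (𝓝 (a + 0 * b)) :=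
      (Continuous.tendsto (by fun_prop) 0).mono_left nhdsWithin_le_nhds
    rw [zero_mul, add_zero] at h2
    exact h2.eventually (lt_mem_nhds h)
  · filter_upwards [self_mem_nhdsWithin] with ε hε
    rw [h, zero_add]
    exact mul_pos hε h'

private theorem two_npos (a b : ℝ) (hab : a < 0 ∨ (a = 0 ∧ b ≤ 0)) :
    ∀ᶠ ε in 𝓝[>] (0 : ℝ), a + ε * b ≤ 0 := by
  rcases hab with h | ⟨h, h'⟩
  · have h2 := two_pos (-a) (-b) (Or.inl (neg_pos.2 h))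
    filter_upwards [h2] with ε hε
    linarith
  · filter_upwards [self_mem_nhdsWithin] with ε hε
    rw [h, zero_add]
    exact mul_nonpos_of_nonneg_of_nonpos (le_of_lt hε) h'

section
variable {k K : Type} [Field k] [Field K] [Algebra k K] {p : ℕ} {φ : K → K} {n : ℕ}
  {g : Fin n → K}

private theorem two_near {y : ℝ → K → ℝ} {M : K → Finset (ℝ × ℝ)} {V : K → ℝ ×ₗ ℝ}
    (h : RFl k p φ g y M 0 V) {f : K} (hf : f ≠ 0) :
    ∀ᶠ ε in 𝓝[>] (0 : ℝ), y ε f = y 0 f + ε * c2 V f := by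
  obtain ⟨δ, hδ, h⟩ := h.near f hf
  refine (two_ev _).2 ⟨δ, hδ, fun ε h1 h2 => ?_⟩
  have := h ε h1 h2
  rwa [zero_add] at this

private theorem two_V {y : ℝ → K → ℝ} {M : K → Finset (ℝ × ℝ)} {V : K → ℝ ×ₗ ℝ}
    (h : RFl k p φ g y M 0 V) (f : K) : V f = toLex (y 0 f, c2 V f) := by
  rw [← h.fst f]
  rfl

private theorem two_sp {y : ℝ → K → ℝ} {M : K → Finset (ℝ × ℝ)} {V : K → ℝ ×ₗ ℝ}
    (h : RFl k p φ g y M 0 V) {f : K} (hf : f ≠ 0) (hp : 0 < V f) :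
    ∃ δ > 0, ∀ ε, 0 < ε → ε < δ → 0 < y ε f := by
  apply (two_ev _).1
  rw [two_V h f] at hp
  have h1 : 0 < y 0 f ∨ (y 0 f = 0 ∧ 0 < c2 V f) := by
    rcases Prod.Lex.toLex_lt_toLex.1 (show toLex ((0 : ℝ), (0 : ℝ)) < _ from hp) with h | ⟨h, h'⟩
    · exact Or.inl h
    · exact Or.inr ⟨h.symm, h'⟩
  filter_upwards [two_near h hf, two_pos _ _ h1] with ε h2 h3
  rwa [h2]

private theorem two_sn {y : ℝ → K → ℝ} {M : K → Finset (ℝ × ℝ)} {V : K → ℝ ×ₗ ℝ}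
    (h : RFl k p φ g y M 0 V) {f : K} (hf : f ≠ 0) (hp : ¬ 0 < V f) :
    ∃ δ > 0, ∀ ε, 0 < ε → ε < δ → y ε f ≤ 0 := by
  apply (two_ev _).1
  rw [not_lt, two_V h f] at hp
  have h1 : y 0 f < 0 ∨ (y 0 f = 0 ∧ c2 V f ≤ 0) := by
    rcases Prod.Lex.toLex_le_toLex.1 (show _ ≤ toLex ((0 : ℝ), (0 : ℝ)) from hp) with h | ⟨h, h'⟩
    · exact Or.inl h
    · exact Or.inr ⟨h, h'⟩
  filter_upwards [two_near h hf, two_npos _ _ h1] with ε h2 h3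
  rwa [h2]

end

private theorem two_claim (hinp : S_inp) (hrch : S_rch) (hsegl : S_segl) (hdnl : S_dnl)
    (hanti : S_anti) (hlim : F2PF.S_lim) (hdense : F2PF.S_dense) (hline : F2PF.S_line)
    (hpr : F2PF.S_pr)
    (p : ℕ) [Fact p.Prime] (k K : Type) [Field k] [CharP k p] [PerfectRing k p] [Field K]
    [Algebra k K] (n : ℕ) (g : Fin n → K) (φ : K → K) (R : K → ℝ) (ι : K ≃+* K) (s0 : K)
    (hctx : CtxZ k p φ g R ι s0) (σ s s' : ℝ) (y y' : ℝ → K → ℝ) (M M' : K → Finset (ℝ × ℝ))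
    (hcl : CL k p φ g 0 s y M) (hcl' : CL k p φ g 0 s' y' M') (hpr0 : Pr (y 0) (y' 0))
    (hinf : AtInf (Br k g) (y 0))
    (hP : ∀ t, 0 < t → t ≤ s → InP k p φ g R s0 σ (y t))
    (hP' : ∀ t, 0 < t → t ≤ s' → InP k p φ g R s0 σ (y' t))
    (hdes : ∀ t, 0 < t → t < s → DesL (Br k g) M t) (t : ℝ) (ht0 : 0 < t) (hts : t < s) :
    ∃ ε0 > 0, ∀ ε, 0 < ε → ε < ε0 → ε ≤ s' → Rch k p φ g (y t) (y' ε) := by
  obtain ⟨⟨b0, ρ0, hb⟩, hloc⟩ := id hctx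
  have hs' : 0 < s' := hcl'.1
  obtain ⟨_, pr2, _⟩ := hpr p k K n g φ
  obtain ⟨an1, an2, _, _, _⟩ := hanti p k K n g φ R ι s0 hctx
  obtain ⟨_, hrc⟩ := hrch p k K n g φ R ι s0 hctx
  obtain ⟨_, hli⟩ := hline p k K n g φ
  obtain ⟨_, hL2, hL3⟩ := hli 0 s y M hcl
  obtain ⟨_, hL2', _⟩ := hli 0 s' y' M' hcl'
  have hPZ : ∀ t, 0 < t → t ≤ s → PZ k p φ g (y t) := fun t h1 h2 =>
    (hinp p k K n g φ R ι s0 hctx σ (y t)).1 (hP t h1 h2)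
  have hPZ' : ∀ t, 0 < t → t ≤ s' → PZ k p φ g (y' t) := fun t h1 h2 =>
    (hinp p k K n g φ R ι s0 hctx σ (y' t)).1 (hP' t h1 h2)
  by_contra hcon
  push Not at hcon
  -- a sequence
  have hseq : ∀ i : ℕ, ∃ ε, 0 < ε ∧ ε < 1 / ((i : ℝ) + 1) ∧ ε ≤ s' ∧
      Le (Br k g) (y t) (y' ε) := by
    intro i
    obtain ⟨ε, h1, h2, h3, h4⟩ := hcon (1 / ((i : ℝ) + 1)) (by positivity)
    refine ⟨ε, h1, h2, h3, ?_⟩
    rcases (hinp p k K n g φ R ι s0 hctx σ (y t)).2.2.2.2.2.2.1 (hP t ht0 hts.le) (y' ε)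
      (hP' ε h1 h3) with h5 | h5
    · exact absurd h5 h4
    · exact (hrc (y' ε) (y t) (hPZ' ε h1 h3) h5).2.1
  choose e he0 he1 he2 he3 using hseq
  have hetend : Tendsto e atTop (𝓝 0) := by
    refine squeeze_zero (fun i => (he0 i).le) (fun i => (he1 i).le) ?_
    exact tendsto_one_div_add_atTop_nhds_zero_nat
  have htd : ∀ f ∈ Br k g, f ≠ 0 → Tendsto (fun i => y' (e i) f) atTop (𝓝 (y' 0 f)) := by
    intro f hf hf0
    have h1 := (hdense p k K n g φ hb.gen 0 s' y' M' hcl').2.1 f hf hf0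
    have h2 : ContinuousWithinAt (fun t => y' t f) (Set.Icc 0 s') 0 := h1 0 ⟨le_rfl, hs'.le⟩
    refine h2.tendsto.comp ?_
    rw [tendsto_nhdsWithin_iff]
    exact ⟨hetend, Eventually.of_forall fun i => ⟨(he0 i).le, he2 i⟩⟩
  have hinf' : AtInf (Br k g) (y' 0) := (pr2 (y 0) (y' 0) hpr0).2.2.1 hinf
  have hnst : ¬ SG (Br k g) (y t) := (hPZ t ht0 hts.le).2.1
  have hle : Le (Br k g) (y t) (y' 0) :=
    (hlim K (Br k g) ℕ atTop (fun i => y' (e i)) (y' 0) (y t) htd).1 he3 hinf' hnst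
  have hle0 : Le (Br k g) (y t) (y 0) := by
    obtain ⟨c, hc, h1⟩ := hle
    obtain ⟨c', hc', h2⟩ := hpr0
    refine ⟨c * c', mul_pos hc hc', fun f hf hf0 => ?_⟩
    have h3 := h1 f hf hf0
    rw [h2] at h3
    calc y t f ≤ c * (c' * y 0 f) := h3
      _ = c * c' * y 0 f := by ring
  by_cases hsg : SG (Br k g) (y 0)
  · apply hnst
    intro f hf hf0
    obtain ⟨c, hc, h1⟩ := hle0
    exact (h1 f hf hf0).trans (mul_nonpos_of_nonneg_of_nonpos hc.le (hsg f hf hf0))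
  · have hcl0 : CL k p φ g 0 t y M := hL3 0 t le_rfl ht0 hts.le
    have hD := hsegl p k K n g φ R ι s0 hctx 0 t y M hcl0
      (fun a h1 h2 => by
        rcases eq_or_lt_of_le h1 with h3 | h3
        · rw [← h3]
          exact ⟨hsg, hinf⟩
        · exact ⟨(hPZ a h3 (h2.trans hts.le)).2.1, (hPZ a h3 (h2.trans hts.le)).2.2.1⟩)
      (fun a h1 h2 => hdes a h1 (h2.trans hts)) 0 t le_rfl ht0 le_rfl
    rw [sub_zero] at hD
    have h1 := ((hdnl p k K n g φ R ι s0 hctx t _ _ hD).2.2.2.1 0 t le_rfl ht0 le_rfl).1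
    simp only [sub_self, sub_zero] at h1
    have h2 := an1 (y 0) (y t) (hL2 0 le_rfl (ht0.le.trans hts.le)).1 (hL2 t ht0.le hts.le).1 hsg
      hle0 h1
    have h3 := an2 0 s y M hcl 0 t le_rfl (ht0.le.trans hts.le) ht0.le hts.le h2
    exact ht0.ne h3

theorem p_two (hinp : S_inp) (hsegl : S_segl) (hdnl : S_dnl) (hbtw : S_btw) (hrch : S_rch)
    (hanti : S_anti) (hlim : F2PF.S_lim) (hdense : F2PF.S_dense) (hline : F2PF.S_line)
    (hpr : F2PF.S_pr) : S_two := by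
  intro p _ k K _ _ _ _ _ n g φ R ι s0 hctx σ s s' y y' M M' hcl hcl' hpr0 hinf hP hP'
    hdes hdes'
  obtain ⟨⟨b0, ρ0, hb⟩, hloc⟩ := id hctx
  have hs : 0 < s := hcl.1
  have hs' : 0 < s' := hcl'.1
  obtain ⟨pr1, pr2, _⟩ := hpr p k K n g φ
  obtain ⟨_, hli⟩ := hline p k K n g φ
  obtain ⟨_, _, hL3⟩ := hli 0 s y M hcl
  have hpr0' : Pr (y' 0) (y 0) := (pr1 (y 0) (y' 0) (y 0)).2.1 hpr0
  have hinf' : AtInf (Br k g) (y' 0) := (pr2 (y 0) (y' 0) hpr0).2.2.1 hinf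
  have hPZ : ∀ t, 0 < t → t ≤ s → PZ k p φ g (y t) := fun t h1 h2 =>
    (hinp p k K n g φ R ι s0 hctx σ (y t)).1 (hP t h1 h2)
  have c1 := two_claim hinp hrch hsegl hdnl hanti hlim hdense hline hpr p k K n g φ R ι s0
    hctx σ s s' y y' M M' hcl hcl' hpr0 hinf hP hP' hdes
  have c2' := two_claim hinp hrch hsegl hdnl hanti hlim hdense hline hpr p k K n g φ R ι s0
    hctx σ s' s y' y M' M hcl' hcl hpr0' hinf' hP' hP hdes'
  -- (4)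
  have h4 : ∀ t1, 0 < t1 → t1 < s → ∃ ε0 > 0, ∀ ε, 0 < ε → ε < ε0 →
      ∃ τ, 0 < τ ∧ τ ≤ t1 ∧ Pr (y τ) (y' ε) := by
    intro t1 ht1 ht1s
    obtain ⟨ε0, hε0, h1⟩ := c1 t1 ht1 ht1s
    refine ⟨min ε0 s', lt_min hε0 hs', fun ε hε hε' => ?_⟩
    have hεs' : ε < s' := hε'.trans_le (min_le_right _ _)
    have h2 := h1 ε hε (hε'.trans_le (min_le_left _ _)) hεs'.le
    obtain ⟨t0, ht0, h3⟩ := c2' ε hε hεs'
    obtain ⟨t2, ht2, ht2'⟩ := exists_between (lt_min ht0 ht1)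
    have ht21 : t2 < t1 := ht2'.trans_le (min_le_right _ _)
    have h5 := h3 t2 ht2 (ht2'.trans_le (min_le_left _ _)) (ht21.le.trans ht1s.le)
    have hD := hsegl p k K n g φ R ι s0 hctx t2 t1 y M (hL3 t2 t1 ht2.le ht21 ht1s.le)
      (fun a h6 h7 => ⟨(hPZ a (ht2.trans_le h6) (h7.trans ht1s.le)).2.1,
        (hPZ a (ht2.trans_le h6) (h7.trans ht1s.le)).2.2.1⟩)
      (fun a h6 h7 => hdes a (ht2.trans h6) (h7.trans ht1s)) t2 t1 le_rfl ht21 le_rfl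
    obtain ⟨τ, hτ0, hτ1, hτ⟩ := hbtw p k K n g φ R ι s0 hctx (t1 - t2) _ _ hD (y t1) (y' ε)
      (y t2)
      (by
        simp only [sub_zero]
        exact (pr1 (y t1) (y t1) (y t1)).1)
      (by
        simp only [sub_sub_cancel]
        exact (pr1 (y t2) (y t2) (y t2)).1) h2 h5
    exact ⟨t1 - τ, by linarith, by linarith, hτ⟩
  refine ⟨?_, ?_⟩
  · obtain ⟨ε0, hε0, h1⟩ := h4 (s / 2) (by linarith) (by linarith)
    refine ⟨ε0, hε0, fun ε hε hε' => ?_⟩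
    obtain ⟨τ, hτ0, hτ1, hτ⟩ := h1 ε hε hε'
    exact ⟨τ, hτ0, by linarith, (pr1 (y τ) (y' ε) (y τ)).2.1 hτ⟩
  intro V V' hV hV'
  have hVz : V 0 = 0 := hV.inz.isv.zero
  have hVz' : V' 0 = 0 := hV'.inz.isv.zero
  intro f
  constructor
  · intro hf
    have hf0 : f ≠ 0 := by
      intro h
      rw [h, hVz] at hf
      exact lt_irrefl _ hf
    by_contra hcon
    obtain ⟨δ, hδ, h5⟩ := two_sp hV hf0 hf
    obtain ⟨δ', hδ', h6⟩ := two_sn hV' hf0 hcon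
    obtain ⟨t1, ht1, ht1'⟩ := exists_between (lt_min hδ hs)
    obtain ⟨ε0, hε0, h7⟩ := h4 t1 ht1 (ht1'.trans_le (min_le_right _ _))
    obtain ⟨ε, hε, hε'⟩ := exists_between (lt_min hε0 hδ')
    obtain ⟨τ, hτ, hτ1, c, hc, h8⟩ := h7 ε hε (hε'.trans_le (min_le_left _ _))
    have h9 := h6 ε hε (hε'.trans_le (min_le_right _ _))
    rw [h8] at h9
    have h10 := h5 τ hτ (hτ1.trans_lt (ht1'.trans_le (min_le_left _ _)))
    exact absurd (mul_pos hc h10) (not_lt.2 h9)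
  · intro hf
    have hf0 : f ≠ 0 := by
      intro h
      rw [h, hVz'] at hf
      exact lt_irrefl _ hf
    by_contra hcon
    obtain ⟨δ, hδ, h5⟩ := two_sn hV hf0 hcon
    obtain ⟨δ', hδ', h6⟩ := two_sp hV' hf0 hf
    obtain ⟨t1, ht1, ht1'⟩ := exists_between (lt_min hδ hs)
    obtain ⟨ε0, hε0, h7⟩ := h4 t1 ht1 (ht1'.trans_le (min_le_right _ _))
    obtain ⟨ε, hε, hε'⟩ := exists_between (lt_min hε0 hδ')
    obtain ⟨τ, hτ, hτ1, c, hc, h8⟩ := h7 ε hε (hε'.trans_le (min_le_left _ _))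
    have h9 := h6 ε hε (hε'.trans_le (min_le_right _ _))
    rw [h8] at h9
    have h10 := h5 τ hτ (hτ1.trans_lt (ht1'.trans_le (min_le_left _ _)))
    exact absurd h9 (not_lt.2 (mul_nonpos_of_nonneg_of_nonpos hc.le h10))

end Pool.Agent.CZP
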