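import Pool.Agent.Lib.MP_305fdd_al.CZ.P.StmB
import Pool.Agent.Lib.MP_305fdd_al.F2.PF.Main

/-!
# MP_305fdd_al, `C_m * Z`, section CZ/P: the piece [CZP tws]

Two ascending lines in `P_σ` which start at semi-good points start at the same point.
-/

set_option autoImplicit false

namespace Pool.Agent.CZP

open MvPolynomial Pool.Agent.F2Ch Pool.Agent.F2PF Filter Topology

private theorem tws_ext {K : Type} [Field K] {B : Set K} (hB : Bs B) {v v' : K → ℝ} (hv : IsV v)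
    (hv' : IsV v') {c : ℝ} (hc : 0 < c) (h : ∀ f ∈ B, f ≠ 0 → v' f = c * v f) : Pr v v' := by
  refine ⟨c, hc, fun f => ?_⟩
  by_cases hf : f = 0
  · subst hf
    rw [hv.zero, hv'.zero, mul_zero]
  · obtain ⟨a, ha, b, hb, hb0, hab⟩ := hB.frac f
    have ha0 : a ≠ 0 := by
      rw [← hab]
      exact mul_ne_zero hf hb0
    have h1 := hv.mul f b hf hb0
    have h2 := hv'.mul f b hf hb0
    rw [hab] at h1 h2
    have h3 := h a ha ha0
    have h4 := h b hb hb0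
    rw [h1] at h3
    rw [h2, h4] at h3
    linarith

private theorem tws_nz {K : Type} [Field K] {B : Set K} (hB : Bs B) {v : K → ℝ} (hv : IsV v)
    (h : ∃ f, v f ≠ 0) : ∃ f ∈ B, f ≠ 0 ∧ v f ≠ 0 := by
  by_contra hcon
  push Not at hcon
  obtain ⟨f, hf⟩ := h
  have hf0 : f ≠ 0 := by
    rintro rfl
    exact hf hv.zero
  obtain ⟨a, ha, b, hb, hb0, hab⟩ := hB.frac f
  have ha0 : a ≠ 0 := by
    rw [← hab]
    exact mul_ne_zero hf0 hb0
  have h1 := hv.mul f b hf0 hb0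
  rw [hab, hcon a ha ha0, hcon b hb hb0] at h1
  apply hf
  linarith

/-- a sequence in `(0, s]` tending to `0`: the values on `B` converge -/
private theorem tws_tend {k K : Type} [Field k] [Field K] [Algebra k K] {p : ℕ} [Fact p.Prime]
    [CharP k p] [PerfectRing k p] {φ : K → K} {n : ℕ} {g : Fin n → K} (hgen : FracGen k g)
    {s : ℝ} {y : ℝ → K → ℝ} {M : K → Finset (ℝ × ℝ)} (hcl : CL k p φ g 0 s y M) {e : ℕ → ℝ}
    (he0 : ∀ i, 0 < e i) (he1 : ∀ i, e i ≤ 1 / ((i : ℝ) + 1)) (he2 : ∀ i, e i ≤ s) :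
    ∀ f ∈ Br k g, f ≠ 0 → Tendsto (fun i => y (e i) f) atTop (𝓝 (y 0 f)) := by
  have hs : 0 < s := hcl.1
  have hetend : Tendsto e atTop (𝓝 0) := by
    refine squeeze_zero (fun i => (he0 i).le) he1 ?_
    exact tendsto_one_div_add_atTop_nhds_zero_nat
  intro f hf hf0
  have h1 := (t_dense p k K n g φ hgen 0 s y M hcl).2.1 f hf hf0
  have h2 : ContinuousWithinAt (fun t => y t f) (Set.Icc 0 s) 0 := h1 0 ⟨le_rfl, hs.le⟩
  refine h2.tendsto.comp ?_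
  rw [tendsto_nhdsWithin_iff]
  exact ⟨hetend, Eventually.of_forall fun i => ⟨(he0 i).le, he2 i⟩⟩

private theorem tws_claim (hinp : S_inp) (hrch : S_rch)
    (p : ℕ) [Fact p.Prime] (k K : Type) [Field k] [CharP k p] [PerfectRing k p] [Field K]
    [Algebra k K] (n : ℕ) (g : Fin n → K) (φ : K → K) (R : K → ℝ) (ι : K ≃+* K) (s0 : K)
    (hctx : CtxZ k p φ g R ι s0) (σ s s' : ℝ) (y y' : ℝ → K → ℝ) (M' : K → Finset (ℝ × ℝ))
    (hcl' : CL k p φ g 0 s' y' M') (hsg' : SG (Br k g) (y' 0)) (hinf' : AtInf (Br k g) (y' 0))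
    (hP : ∀ t, 0 < t → t ≤ s → InP k p φ g R s0 σ (y t))
    (hP' : ∀ t, 0 < t → t ≤ s' → InP k p φ g R s0 σ (y' t)) (t : ℝ) (ht0 : 0 < t) (hts : t ≤ s) :
    ∃ ε0 > 0, ∀ ε, 0 < ε → ε < ε0 → ε ≤ s' → Rch k p φ g (y t) (y' ε) := by
  obtain ⟨⟨b0, ρ0, hb⟩, hloc⟩ := id hctx
  obtain ⟨_, hrc⟩ := hrch p k K n g φ R ι s0 hctx
  have hPZ : PZ k p φ g (y t) := (hinp p k K n g φ R ι s0 hctx σ (y t)).1 (hP t ht0 hts)
  by_contra hcon
  push Not at hcon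
  have hseq : ∀ i : ℕ, ∃ ε, 0 < ε ∧ ε ≤ 1 / ((i : ℝ) + 1) ∧ ε ≤ s' ∧
      Le (Br k g) (y t) (y' ε) := by
    intro i
    obtain ⟨ε, h1, h2, h3, h4⟩ := hcon (1 / ((i : ℝ) + 1)) (by positivity)
    refine ⟨ε, h1, h2.le, h3, ?_⟩
    rcases (hinp p k K n g φ R ι s0 hctx σ (y t)).2.2.2.2.2.2.1 (hP t ht0 hts) (y' ε)
      (hP' ε h1 h3) with h5 | h5
    · exact absurd h5 h4
    · exact (hrc (y' ε) (y t) ((hinp p k K n g φ R ι s0 hctx σ (y' ε)).1 (hP' ε h1 h3)) h5).2.1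
  choose e he0 he1 he2 he3 using hseq
  have htd := tws_tend hb.gen hcl' he0 he1 he2
  have hle : Le (Br k g) (y t) (y' 0) :=
    (t_lim K (Br k g) ℕ atTop (fun i => y' (e i)) (y' 0) (y t) htd).1 he3 hinf' hPZ.2.1
  apply hPZ.2.1
  intro f hf hf0
  obtain ⟨c, hc, h1⟩ := hle
  exact (h1 f hf hf0).trans (mul_nonpos_of_nonneg_of_nonpos hc.le (hsg' f hf hf0))

theorem p_tws (hinp : S_inp) (hsegl : S_segl) (hbtw : S_btw) (hrch : S_rch) (hanti : S_anti) :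
    S_tws := by
  intro p _ k K _ _ _ _ _ n g φ R ι s0 hctx σ s s' y y' M M' hcl hcl' hsg hsg' hP hP' hdes hdes'
  obtain ⟨⟨b0, ρ0, hb⟩, hloc⟩ := id hctx
  have hs : 0 < s := hcl.1
  have hs' : 0 < s' := hcl'.1
  obtain ⟨pr1, pr2, _⟩ := t_pr p k K n g φ
  obtain ⟨hBs', hli⟩ := t_line p k K n g φ
  have hBs : Bs (Br k g) := hBs' hb.gen
  obtain ⟨_, hz, hL3⟩ := hli 0 s y M hcl
  obtain ⟨_, hz', _⟩ := hli 0 s' y' M' hcl'
  obtain ⟨_, _, an3, _, _⟩ := hanti p k K n g φ R ι s0 hctx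
  have hinf : AtInf (Br k g) (y 0) :=
    an3 (y 0) (hz 0 le_rfl hs.le).1 (hz 0 le_rfl hs.le).2 hsg
  have hinf' : AtInf (Br k g) (y' 0) :=
    an3 (y' 0) (hz' 0 le_rfl hs'.le).1 (hz' 0 le_rfl hs'.le).2 hsg'
  have hPZ : ∀ t, 0 < t → t ≤ s → PZ k p φ g (y t) := fun t h1 h2 =>
    (hinp p k K n g φ R ι s0 hctx σ (y t)).1 (hP t h1 h2)
  have c1 := tws_claim hinp hrch p k K n g φ R ι s0 hctx σ s s' y y' M' hcl' hsg' hinf' hP hP'
  have c2 := tws_claim hinp hrch p k K n g φ R ι s0 hctx σ s' s y' y M hcl hsg hinf hP' hP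
  -- (4)
  have h4 : ∀ t1, 0 < t1 → t1 < s → ∃ ε0 > 0, ∀ ε, 0 < ε → ε < ε0 →
      ∃ τ, 0 < τ ∧ τ ≤ t1 ∧ Pr (y τ) (y' ε) := by
    intro t1 ht1 ht1s
    obtain ⟨ε0, hε0, h1⟩ := c1 t1 ht1 ht1s.le
    refine ⟨min ε0 s', lt_min hε0 hs', fun ε hε hε' => ?_⟩
    have hεs' : ε < s' := hε'.trans_le (min_le_right _ _)
    have h2 := h1 ε hε (hε'.trans_le (min_le_left _ _)) hεs'.le
    obtain ⟨t0, ht0, h3⟩ := c2 ε hε hεs'.le
    obtain ⟨t2, ht2, ht2'⟩ := exists_between (lt_min ht0 ht1)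
    have ht21 : t2 < t1 := ht2'.trans_le (min_le_right _ _)
    have h5 := h3 t2 ht2 (ht2'.trans_le (min_le_left _ _)) (ht21.le.trans ht1s.le)
    have hD := hsegl p k K n g φ R ι s0 hctx t2 t1 y M (hL3 t2 t1 ht2.le ht21 ht1s.le)
      (fun a h6 h7 => ⟨(hPZ a (ht2.trans_le h6) (h7.trans ht1s.le)).2.1,
        (hPZ a (ht2.trans_le h6) (h7.trans ht1s.le)).2.2.1⟩)
      (fun a h6 h7 => hdes a (ht2.trans h6) (h7.trans ht1s)) t2 t1 le_rfl ht21 le_rfl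
    obtain ⟨τ, hτ0, hτ1, hτ⟩ := hbtw p k K n g φ R ι s0 hctx (t1 - t2) _ _ hD (y t1) (y' ε) (y t2)
      (by
        simp only [sub_zero]
        exact (pr1 (y t1) (y t1) (y t1)).1)
      (by
        simp only [sub_sub_cancel]
        exact (pr1 (y t2) (y t2) (y t2)).1) h2 h5
    exact ⟨t1 - τ, by linarith, by linarith, hτ⟩
  -- (5)
  have hseq : ∀ i : ℕ, ∃ τ ε, 0 < τ ∧ τ ≤ 1 / ((i : ℝ) + 1) ∧ τ ≤ s ∧
      0 < ε ∧ ε ≤ 1 / ((i : ℝ) + 1) ∧ ε ≤ s' ∧ Pr (y τ) (y' ε) := by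
    intro i
    have hi : (0 : ℝ) < 1 / ((i : ℝ) + 1) := by positivity
    obtain ⟨t1, ht1, ht1'⟩ := exists_between (lt_min hi hs)
    obtain ⟨ε0, hε0, h1⟩ := h4 t1 ht1 (ht1'.trans_le (min_le_right _ _))
    obtain ⟨ε, hε, hε'⟩ := exists_between (lt_min hε0 (lt_min hi hs'))
    obtain ⟨τ, h2, h3, h5⟩ := h1 ε hε (hε'.trans_le (min_le_left _ _))
    refine ⟨τ, ε, h2, h3.trans (ht1'.trans_le (min_le_left _ _)).le,
      h3.trans (ht1'.trans_le (min_le_right _ _)).le, hε,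
      (hε'.trans_le ((min_le_right _ _).trans (min_le_left _ _))).le,
      (hε'.trans_le ((min_le_right _ _).trans (min_le_right _ _))).le, h5⟩
  choose τ e hτ0 hτ1 hτ2 he0 he1 he2 hpr using hseq
  have hya := tws_tend hb.gen hcl hτ0 hτ1 hτ2
  have hyb := tws_tend hb.gen hcl' he0 he1 he2
  obtain ⟨f0, hf0B, hf0, hf0v⟩ := tws_nz hBs (hz 0 le_rfl hs.le).1.isv (hz 0 le_rfl hs.le).2
  have key : ∀ f ∈ Br k g, f ≠ 0 → y 0 f0 * y' 0 f = y' 0 f0 * y 0 f := by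
    intro f hf hfne
    have h3 : Tendsto (fun m => y (τ m) f0 * y' (e m) f) atTop
        (𝓝 (y 0 f0 * y' 0 f)) := (hya f0 hf0B hf0).mul (hyb f hf hfne)
    have h4 : Tendsto (fun m => y' (e m) f0 * y (τ m) f) atTop
        (𝓝 (y' 0 f0 * y 0 f)) := (hyb f0 hf0B hf0).mul (hya f hf hfne)
    have h5 : (fun m => y (τ m) f0 * y' (e m) f) = fun m => y' (e m) f0 * y (τ m) f := by
      funext m
      obtain ⟨c, hc, hcf⟩ := hpr m
      rw [hcf f, hcf f0]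
      ring
    rw [h5] at h3
    exact tendsto_nhds_unique h3 h4
  have hnn : 0 ≤ y' 0 f0 * y 0 f0 := by
    have h4 : Tendsto (fun m => y' (e m) f0 * y (τ m) f0) atTop
        (𝓝 (y' 0 f0 * y 0 f0)) := (hyb f0 hf0B hf0).mul (hya f0 hf0B hf0)
    refine ge_of_tendsto' h4 fun m => ?_
    obtain ⟨c, hc, hcf⟩ := hpr m
    rw [hcf f0]
    have := mul_self_nonneg (y (τ m) f0)
    nlinarith
  have hceq : ∀ f ∈ Br k g, f ≠ 0 → y' 0 f = y' 0 f0 / y 0 f0 * y 0 f := by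
    intro f hf hfne
    have := key f hf hfne
    field_simp
    linarith
  have hc0 : y' 0 f0 ≠ 0 := by
    intro h3
    obtain ⟨f1, hf1B, hf1, hf1v⟩ := tws_nz hBs (hz' 0 le_rfl hs'.le).1.isv
      (hz' 0 le_rfl hs'.le).2
    apply hf1v
    rw [hceq f1 hf1B hf1, h3]
    simp
  have hcpos : 0 < y' 0 f0 / y 0 f0 := by
    have h3 : 0 < y' 0 f0 * y 0 f0 := lt_of_le_of_ne hnn (by
      intro h4
      rcases mul_eq_zero.mp h4.symm with h5 | h5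
      · exact hc0 h5
      · exact hf0v h5)
    have h4 : y' 0 f0 / y 0 f0 = y' 0 f0 * y 0 f0 / (y 0 f0) ^ 2 := by
      field_simp
    rw [h4]
    positivity
  exact tws_ext hBs (hz 0 le_rfl hs.le).1.isv (hz' 0 le_rfl hs'.le).1.isv hcpos hceq

end Pool.Agent.CZP
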