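import Pool.Agent.Lib.MP_305fdd_al.CZ.P.StmB
import Pool.Agent.Lib.MP_305fdd_al.F2.PF.Main

/-!
# MP_305fdd_al, `C_m * Z`, section CZ/P: piece up (every point is in `P_σ` or in `P_(-σ)`)
-/

set_option autoImplicit false

namespace Pool.Agent.CZP

open MvPolynomial Pool.Agent.F2Ch Pool.Agent.F2PF Filter Topology

theorem up_le_trans {K : Type} [Field K] {B : Set K} {a b c : K → ℝ} (h1 : Le B a b)
    (h2 : Le B b c) : Le B a c := by
  obtain ⟨c1, hc1, h1⟩ := h1
  obtain ⟨c2, hc2, h2⟩ := h2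
  refine ⟨c1 * c2, mul_pos hc1 hc2, fun f hf hf0 => (h1 f hf hf0).trans ?_⟩
  rw [mul_assoc]
  exact mul_le_mul_of_nonneg_left (h2 f hf hf0) hc1.le

/-- the upper bound in the second alternative of the ultralimit -/
theorem up_line (h_sega : S_sega) (h_segd : S_segd) (h_dnl : S_dnl)
    (p : ℕ) [Fact p.Prime] (k K : Type) [Field k] [CharP k p] [PerfectRing k p]
    [Field K] [Algebra k K] (n : ℕ) (g : Fin n → K) (φ : K → K) (R : K → ℝ) (ι : K ≃+* K)
    (s0 : K) (hC : CtxZ k p φ g R ι s0) (s : ℝ) (y : ℝ → K → ℝ) (M : K → Finset (ℝ × ℝ))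
    (hcl : CL k p φ g 0 s y M) (s1 : ℝ) (hs1 : 0 < s1) (hs1s : s1 < s)
    (hai : ∀ t, 0 < t → t ≤ s1 → AtInf (Br k g) (y t)) (hns : ¬ SG (Br k g) (y s1))
    (hst : ∀ t1, 0 < t1 → t1 ≤ s1 → ∃ t', 0 < t' ∧ t' < t1 ∧ Le (Br k g) (y s1) (y t'))
    (hinf : AtInf (Br k g) (y 0)) :
    ∀ t, 0 < t → t ≤ s1 → DnL k p φ g t (fun τ => y (0 + τ)) (sh 0 M) := by
  obtain ⟨-, hcut⟩ := t_line p k K n g φ
  obtain ⟨b0, ρ0, hbase⟩ := hC.1
  obtain ⟨hlineB, hnt, hres⟩ := hcut 0 s y M hcl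
  obtain ⟨hd1, hd2, hd3, hd4⟩ := t_dense p k K n g φ hbase.gen 0 s y M hcl
  have key : ∀ t1, 0 < t1 → t1 ≤ s1 → ∃ t', 0 < t' ∧ t' < t1 ∧
      (∀ t, t' ≤ t → t ≤ s1 → ¬ SG (Br k g) (y t)) ∧
      ∀ t, t' < t → t < s1 → DesR (Br k g) M t := by
    intro t1 ht1 ht1'
    obtain ⟨t', ht', htt, hle⟩ := hst t1 ht1 ht1'
    have hc : CL k p φ g t' s1 y M := hres t' s1 ht'.le (htt.trans_le ht1') hs1s.le
    obtain ⟨h1, h2⟩ := h_sega p k K n g φ R ι s0 hC t' s1 y M hc
      (fun t h h' => hai t (ht'.trans_le h) h') hns hle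
    exact ⟨t', ht', htt, h1, h2⟩
  have hel : ∀ t, 0 < t → t ≤ s1 → ¬ SG (Br k g) (y t) := by
    intro t ht hts
    obtain ⟨t', ht', htt, h1, -⟩ := key t ht hts
    exact h1 t htt.le hts
  have hdes : ∀ t, 0 < t → t < s1 → DesR (Br k g) M t := by
    intro t ht hts
    obtain ⟨t', ht', htt, -, h1⟩ := key t ht hts.le
    exact h1 t htt hts
  -- the sequence
  have hseq : ∀ m : ℕ, 0 < s1 / (m + 2) ∧ s1 / (m + 2) < s1 := by
    intro m
    have hm : (0 : ℝ) < m + 2 := by positivity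
    refine ⟨div_pos hs1 hm, ?_⟩
    rw [div_lt_iff₀ hm]
    nlinarith [(Nat.cast_nonneg m : (0 : ℝ) ≤ m)]
  have hseqlim : Tendsto (fun m : ℕ => s1 / ((m : ℝ) + 2)) atTop (𝓝[Set.Icc 0 s] 0) := by
    rw [tendsto_nhdsWithin_iff]
    constructor
    · have h1 : Tendsto (fun m : ℕ => (m : ℝ) + 2) atTop atTop :=
        tendsto_atTop_add_const_right _ _ tendsto_natCast_atTop_atTop
      exact h1.const_div_atTop s1
    · exact Eventually.of_forall fun m => ⟨(hseq m).1.le, ((hseq m).2.trans hs1s).le⟩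
  have hlimf : ∀ f ∈ Br k g, f ≠ 0 →
      Tendsto (fun m : ℕ => y (s1 / ((m : ℝ) + 2)) f) atTop (𝓝 (y 0 f)) := by
    intro f hf hf0
    have h1 : ContinuousWithinAt (fun t => y t f) (Set.Icc 0 s) 0 :=
      hd2 f hf hf0 0 ⟨le_rfl, (hs1.trans hs1s).le⟩
    exact h1.tendsto.comp hseqlim
  have hns0 : ¬ SG (Br k g) (y 0) := by
    have hle : ∀ m : ℕ, Le (Br k g) (y s1) (y (s1 / ((m : ℝ) + 2))) := by
      intro m
      set t := s1 / ((m : ℝ) + 2) with ht
      have ht0 : 0 < t := (hseq m).1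
      have hts : t < s1 := (hseq m).2
      have hc : CL k p φ g t s1 y M := hres t s1 ht0.le hts hs1s.le
      have h1 := h_segd p k K n g φ R ι s0 hC t s1 y M hc
        (fun r hr hr' => ⟨hel r (ht0.trans_le hr) hr', hai r (ht0.trans_le hr) hr'⟩)
        (fun r hr hr' => hdes r (ht0.trans hr) hr') t s1 le_rfl hts le_rfl
      obtain ⟨-, -, -, h5, -⟩ := h_dnl p k K n g φ R ι s0 hC _ _ _ h1
      have h6 := (h5 0 (s1 - t) le_rfl (sub_pos.2 hts) le_rfl).1
      simpa using h6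
    have h7 := (t_lim K (Br k g) ℕ atTop (fun m => y (s1 / ((m : ℝ) + 2))) (y 0) (y s1)
      hlimf).1 hle hinf hns
    intro hsg
    obtain ⟨c, hc, h8⟩ := h7
    exact hns fun f hf hf0 => (h8 f hf hf0).trans
      (mul_nonpos_of_nonneg_of_nonpos hc.le (hsg f hf hf0))
  have hall : ∀ t, 0 ≤ t → t ≤ s1 → ¬ SG (Br k g) (y t) ∧ AtInf (Br k g) (y t) := by
    intro t ht hts
    rcases ht.eq_or_lt with rfl | ht
    · exact ⟨hns0, hinf⟩
    · exact ⟨hel t ht hts, hai t ht hts⟩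
  have hc0 : CL k p φ g 0 s1 y M := hres 0 s1 le_rfl hs1 hs1s.le
  intro t ht hts
  have h1 := h_segd p k K n g φ R ι s0 hC 0 s1 y M hc0 hall hdes 0 t le_rfl ht hts
  rwa [sub_zero] at h1

theorem p_up (h_asc : S_asc) (h_ult : S_ult) (h_rch : S_rch) (h_sega : S_sega)
    (h_segd : S_segd) (h_dnl : S_dnl) (h_anti : S_anti) (h_rco : S_rco) (h_gex : S_gex)
    (h_inp : S_inp) : S_up := by
  intro p _ k K _ _ _ _ _ n g φ R ι s0 hC σ hσ x hx
  by_contra hcon
  push Not at hcon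
  obtain ⟨hr1, hr2⟩ := h_rch p k K n g φ R ι s0 hC
  obtain ⟨ha1, ha2, ha3, ha4, ha5⟩ := h_anti p k K n g φ R ι s0 hC
  obtain ⟨hp1, hp2, hp3⟩ := t_pr p k K n g φ
  have hno : ∀ v, Rch k p φ g v x → ∀ σ' : ℝ, σ' ≠ 0 → ¬ InP k p φ g R s0 σ' v := by
    intro v hv σ' hσ' hin
    obtain ⟨-, hb, -⟩ := h_inp p k K n g φ R ι s0 hC σ' v
    have h1 := hb hin x hv
    obtain ⟨-, -, -, -, he, -⟩ := h_inp p k K n g φ R ι s0 hC σ' x
    rcases lt_or_gt_of_ne (mul_ne_zero hσ' hσ) with h | h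
    · exact hcon.2 (he h1 (-σ) (by rw [mul_neg]; exact neg_pos.2 h))
    · exact hcon.1 (he h1 σ h)
  let X : Type := {v : K → ℝ // PZ k p φ g v ∧ Rch k p φ g v x}
  have hne : Nonempty X := ⟨⟨x, hx, Relation.ReflTransGen.refl⟩⟩
  have hzorn : ∃ m : X, ∀ a : X, Rch k p φ g a.1 m.1 → Rch k p φ g m.1 a.1 := by
    refine exists_maximal_of_nonempty_chains_bounded
      (r := fun v v' : X => Rch k p φ g v'.1 v.1) ?_ ?_
    · intro c hc hcne
      let I : Type := {v : X // v ∈ c}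
      have : Nonempty I := ⟨⟨hcne.some, hcne.some_mem⟩⟩
      let F : Filter I := ⨅ i : I, 𝓟 {j : I | Rch k p φ g j.1.1 i.1.1}
      have hF : F.NeBot := by
        refine iInf_neBot_of_directed' ?_ fun i => ?_
        · intro i j
          have hij : Rch k p φ g i.1.1 j.1.1 ∨ Rch k p φ g j.1.1 i.1.1 := by
            by_cases h : i.1 = j.1
            · left
              rw [h]
              exact Relation.ReflTransGen.refl
            · rcases hc i.2 j.2 h with h | h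
              · right; exact h
              · left; exact h
          rcases hij with h | h
          · refine ⟨i, le_rfl, ?_⟩
            refine principal_mono.2 fun l hl => ?_
            exact Relation.ReflTransGen.trans hl h
          · refine ⟨j, ?_, le_rfl⟩
            refine principal_mono.2 fun l hl => ?_
            exact Relation.ReflTransGen.trans hl h
        · exact principal_neBot_iff.2 ⟨i, Relation.ReflTransGen.refl⟩
      let U : Ultrafilter I := Ultrafilter.of F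
      have hU : ∀ i : I, ∀ᶠ j in (U : Filter I), Rch k p φ g j.1.1 i.1.1 := by
        intro i
        have h1 : (U : Filter I) ≤ F := Ultrafilter.of_le F
        exact h1 (mem_iInf_of_mem i (mem_principal_self _))
      have hnb : (U : Filter I).NeBot := U.neBot
      rcases h_ult p k K n g φ R ι s0 hC I U (fun i => i.1.1) (fun i => by
          obtain ⟨f, -, -, hf⟩ := i.1.2.1.2.2.1
          exact ⟨i.1.2.1.1, f, hf.ne⟩) with ⟨i0, hi0⟩ | ⟨s, y, M, hcl, hrun⟩
      · refine ⟨i0.1, fun a ha => ?_⟩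
        obtain ⟨i, h1, h2⟩ := (hi0.and (hU ⟨a, ha⟩)).exists
        exact Relation.ReflTransGen.trans (hr1 _ _ i0.1.2.1 h1).2 h2
      · have hs : 0 < s := hcl.1
        obtain ⟨-, hcut⟩ := t_line p k K n g φ
        obtain ⟨-, hnt, hres⟩ := hcut 0 s y M hcl
        obtain ⟨b0, ρ0, hbase⟩ := hC.1
        -- all points near `0` are at infinity
        obtain ⟨s', hs', hs's, hai⟩ : ∃ s', 0 < s' ∧ s' < s ∧
            ∀ t, 0 < t → t ≤ s' → AtInf (Br k g) (y t) := by
          by_cases h : ∃ ts, 0 < ts ∧ ts ≤ s ∧ Pr R (y ts)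
          · obtain ⟨ts, h1, h2, h3⟩ := h
            refine ⟨ts / 2, by linarith, by linarith, fun t ht hts => ?_⟩
            have hy := hnt t ht.le (by linarith)
            refine (ha4 (y t) hy.1 hy.2).2 fun hR => ?_
            have h4 : Pr (y t) (y ts) := (hp1 (y t) R (y ts)).2.2 ((hp1 R (y t) R).2.1 hR) h3
            have h5 := ha2 0 s y M hcl t ts ht.le (by linarith) h1.le h2 h4
            linarith
          · refine ⟨s / 2, by linarith, by linarith, fun t ht hts => ?_⟩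
            have hy := hnt t ht.le (by linarith)
            exact (ha4 (y t) hy.1 hy.2).2 fun hR => h ⟨t, ht, by linarith, hR⟩
        obtain ⟨i0, s1, hs1, hs1', hs1s, hpr0⟩ := (hrun s' hs').exists
        have hns : ¬ SG (Br k g) (y s1) := fun h => i0.1.2.1.2.1 ((hp2 _ _ hpr0).2.1 h)
        by_cases hinf : AtInf (Br k g) (y 0)
        · have hD := up_line h_sega h_segd h_dnl p k K n g φ R ι s0 hC s y M hcl s1 hs1 hs1s
            (fun t ht hts => hai t ht (hts.trans hs1'.le)) hns (by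
              intro t1 ht1 ht1'
              obtain ⟨i, ⟨t', ht', htt, hts, hpr⟩, hri⟩ := ((hrun t1 ht1).and (hU i0)).exists
              have h1 : Pr i.1.1 (y t') := (hp1 (y t') i.1.1 R).2.1 hpr
              refine ⟨t', ht', htt, ?_⟩
              have h2 : Le (Br k g) (y s1) i0.1.1 := (hp2 _ _ hpr0).2.2.2.2.2.2.1
              have h3 : Le (Br k g) i0.1.1 i.1.1 := (hr2 _ _ i.1.2.1 hri).2.1
              have h4 : Le (Br k g) i.1.1 (y t') := (hp2 _ _ h1).2.2.2.2.2.2.1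
              exact up_le_trans h2 (up_le_trans h3 h4)) hinf
          have hPZ0 : PZ k p φ g (y 0) := by
            obtain ⟨h1, -⟩ := h_dnl p k K n g φ R ι s0 hC _ _ _ (hD s1 hs1 le_rfl)
            have h2 := h1 0 le_rfl hs1.le
            simpa using h2
          have hstep : ∀ t, 0 < t → t ≤ s1 → ∀ v : K → ℝ, Pr (y t) v → Rch k p φ g (y 0) v := by
            intro t ht hts v hv
            refine Relation.ReflTransGen.single (Or.inr ⟨t, _, _, hD t ht hts, ?_, ?_⟩)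
            · simpa using (hp1 (y 0) (y 0) (y 0)).1
            · simpa using hv
          refine ⟨⟨y 0, hPZ0, Relation.ReflTransGen.trans (hstep s1 hs1 le_rfl _ hpr0) i0.1.2.2⟩,
            fun a ha => ?_⟩
          obtain ⟨i, ⟨t, ht, htt, -, hpr⟩, hri⟩ := ((hrun s1 hs1).and (hU ⟨a, ha⟩)).exists
          exact Relation.ReflTransGen.trans (hstep t ht htt.le _ hpr) hri
        · exfalso
          have hy0 := hnt 0 le_rfl hs.le
          have hR0 : Pr R (y 0) := by
            by_contra h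
            exact hinf ((ha4 (y 0) hy0.1 hy0.2).2 h)
          obtain ⟨⟨V', hV'⟩, -⟩ := t_rfl p k K n g φ hbase.gen 0 s y M hcl 0 le_rfl hs
          obtain ⟨hne0, hco⟩ := h_rco p k K n g φ R ι s0 hC s y M hcl hR0 V' hV'
          obtain ⟨⟨sY, Y, MY, hY⟩, -⟩ := h_gex p k K n g φ R ι s0 hC (c2 V' s0) hne0
          obtain ⟨δ, hδ, hδ'⟩ := hco (c2 V' s0) sY Y MY hY (mul_self_pos.2 hne0)
          obtain ⟨i, t, ht, htδ, -, hpr⟩ := (hrun δ hδ).exists
          obtain ⟨t', ht', htt', hpr'⟩ := hδ' t ht htδ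
          have h1 : Pr (Y t') i.1.1 :=
            (hp1 (Y t') (y t) i.1.1).2.2 ((hp1 (y t) (Y t') R).2.1 hpr') hpr
          have h2 : InP k p φ g R s0 (c2 V' s0) (Y t') :=
            (h_inp p k K n g φ R ι s0 hC (c2 V' s0) R).2.2.2.2.2.2.2 sY Y MY hY t' ht' htt'
          have h3 : InP k p φ g R s0 (c2 V' s0) i.1.1 :=
            (h_inp p k K n g φ R ι s0 hC (c2 V' s0) (Y t')).2.2.1 h2 _ h1
          exact hno i.1.1 i.1.2.2 _ hne0 h3
    · intro a b c hab hbc
      exact Relation.ReflTransGen.trans hbc hab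
  obtain ⟨m, hm⟩ := hzorn
  obtain ⟨v, hv, hdn, hnpr⟩ := h_asc p k K n g φ R ι s0 hC m.1 m.2.1
  have h1 : Rch k p φ g v m.1 := Relation.ReflTransGen.single hdn
  have h2 := hm ⟨v, hv, Relation.ReflTransGen.trans h1 m.2.2⟩ h1
  exact hnpr ((hr2 v m.1 hv h1).2.2 h2)

end Pool.Agent.CZP
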