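import Pool.Agent.Lib.MP_305fdd_al.CZ.P.StmB
import Pool.Agent.Lib.MP_305fdd_al.F2.PF.Main

/-!
# MP_305fdd_al, section CZ/P: all points have property Z
-/

set_option autoImplicit false

namespace Pool.Agent.CZP

open MvPolynomial Pool.Agent.F2Ch Pool.Agent.F2PF

theorem p_zall (hgpr : S_gpr) (hzdep : S_zdep) (hzper : S_zper) : S_zall := by
  intro p _ k K _ _ _ _ _ n g φ R ι s0 hC σ x hx
  have hP := (t_pr p k K n g φ).1
  obtain ⟨s, y, M, e, hG, he, hes, hR⟩ := hx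
  have h0 : ZA k p φ g R (y e) := ((hgpr p k K n g φ R ι s0 hC σ s y M hG).1 e he hes).2
  unfold Rch at hR
  induction hR with
  | refl => exact h0
  | tail _ hbc ih =>
    rename_i b c _
    rcases hbc with ⟨_, hbc⟩ | ⟨s', y', M', hD, hb, hc⟩
    · obtain ⟨s1, y1, M1, hD1, hp1, hz1⟩ := ih
      exact ⟨s1, y1, M1, hD1, (hP (y1 s1) b c).2.2 hp1 hbc, hz1⟩
    · have h1 := hzdep p k K n g φ R ι s0 hC b s' y' M' ih hD hb
      exact ⟨s', y', M', hD, hc, hzper p k K n g φ R ι s0 hC s' y' M' hD h1 s' hD.cl.1 le_rfl⟩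

end Pool.Agent.CZP
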