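import Pool.Agent.Lib.MP_305fdd_al.CZ.P.StmB
import Pool.Agent.Lib.MP_305fdd_al.F2.PF.Main

/-!
# MP_305fdd_al, section CZ/P: property Z on a line which descends to the left
-/

set_option autoImplicit false

namespace Pool.Agent.CZP

open MvPolynomial Pool.Agent.F2Ch Pool.Agent.F2PF

theorem p_zbot (hzall : S_zall) (hzdep : S_zdep) (hsegl : CZP.S_segl) (hinp : S_inp) : S_zbot := by
  intro p _ k K _ _ _ _ _ n g φ R ι s0 hC σ s y M hcl hpa hdes t ht hts
  have hgen : FracGen k g := by
    obtain ⟨⟨b0, ρ0, hb⟩, -⟩ := hC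
    exact hb.gen
  have ht2 : 0 < t / 2 := by linarith
  have hcl' : CL k p φ g (t / 2) t y M :=
    ((t_line p k K n g φ).2 0 s y M hcl).2.2 (t / 2) t ht2.le (by linarith) hts.le
  have hdn : DnL k p φ g (t - t / 2) (fun τ => y (t - τ)) (rsh t M) := by
    refine hsegl p k K n g φ R ι s0 hC (t / 2) t y M hcl' ?_ ?_ (t / 2) t le_rfl (by linarith) le_rfl
    · intro r hr hrt
      have h := (hinp p k K n g φ R ι s0 hC σ (y r)).1 (hpa r (by linarith) (by linarith))
      exact ⟨h.2.1, h.2.2.1⟩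
    · intro r hr hrt
      exact hdes r (by linarith) (by linarith)
  have hpr : Pr (y t) ((fun τ => y (t - τ)) 0) := by
    refine ⟨1, one_pos, fun f => ?_⟩
    simp
  obtain ⟨v, hv, hv0, hstrict⟩ := hzdep p k K n g φ R ι s0 hC (y t) (t - t / 2)
    (fun τ => y (t - τ)) (rsh t M)
    (hzall p k K n g φ R ι s0 hC σ (y t) (hpa t ht hts.le)) hdn hpr
  have hR := (t_rsh p k K n g φ hgen 0 s y M hcl).2.2 t 0 (v.1, t * v.1 - v.2)
  have e : ((v.1, t * (v.1, t * v.1 - v.2).1 - (v.1, t * v.1 - v.2).2) : ℝ × ℝ) = v := by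
    ext
    · rfl
    · simp
  rw [sub_zero] at hR
  have hR1 : ((v.1, t * v.1 - v.2) : ℝ × ℝ) ∈ DL (Br k g) M t := by
    apply hR.1.2
    rw [e]
    exact hv
  refine ⟨(v.1, t * v.1 - v.2), hR1, ?_, ?_⟩
  · have h := hR.2.2
    rw [e] at h
    linarith
  · intro f hf hf0 hRf m hm
    have hm' : IsR (rsh t M f) 0 (m.1 + t * m.2, -m.2) := by
      refine ⟨?_, ?_, ?_⟩
      · unfold rsh
        exact Finset.mem_image.2 ⟨m, hm.mem, rfl⟩
      · intro m' hm'
        unfold rsh at hm'
        obtain ⟨q, hq, rfl⟩ := Finset.mem_image.1 hm'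
        have := hm.min q hq
        simp only [zero_mul, add_zero]
        exact this
      · intro m' hm' htie
        unfold rsh at hm'
        obtain ⟨q, hq, rfl⟩ := Finset.mem_image.1 hm'
        simp only [zero_mul, add_zero] at htie
        have := hm.tie q hq htie
        simp only
        linarith
    have h := hstrict f hf hf0 hRf _ hm'
    unfold dot at h ⊢
    simp only at h ⊢
    linarith

end Pool.Agent.CZP
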