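import Pool.Agent.Lib.MP_305fdd_al.CZ.P.StmB
import Pool.Agent.Lib.MP_305fdd_al.F2.PF.StmC

/-!
# MP_305fdd_al, `C_m * Z`, section CZ/P: [CZP zdep] property Z at the departure
-/

set_option autoImplicit false

namespace Pool.Agent.CZP

open MvPolynomial Pool.Agent.F2Ch Pool.Agent.F2PF

private theorem zdep_sd (u : ℝ × ℝ) : sd 0 u = u.2 := by
  unfold sd
  ring

private theorem zdep_c2 {K : Type} [Field K] {V : K → ℝ ×ₗ ℝ} (hV : IsV V) (f g : K)
    (hf : f ≠ 0) (hg : g ≠ 0) : c2 V (f * g) = c2 V f + c2 V g := by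
  unfold c2
  rw [hV.mul f g hf hg]
  rfl

private theorem zdep_exL (hin : F2PF.S_in) (S : Finset (ℝ × ℝ)) (t : ℝ) (hS : S.Nonempty) :
    ∃ m, IsL S t m := by
  obtain ⟨h1, -, -, h4, -⟩ := hin
  obtain ⟨m', hm'⟩ := h1 (S.image rf) (-t) (hS.image rf)
  obtain ⟨m, -, hm⟩ := Finset.mem_image.1 hm'.mem
  exact ⟨m, (h4 S t m).2 (by rw [hm]; exact hm')⟩

/-- the case of a divisorial vertex -/
private theorem zdep_vert (h_fv2 : CZP.S_fv2) {K : Type} [Field K] {B : Set K} (hB : Bs B)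
    {w : K → ℝ} (hw : IsV w) (hdv : Dv w) (hinf : AtInf B w) (hns : ¬ SG B w) (G : K → ℝ)
    (hG : ∀ f g, f ≠ 0 → g ≠ 0 → G (f * g) = G f + G g)
    (h6 : ∀ h ∈ B, h ≠ 0 → w h = 0 → G h ≤ 0) :
    ∃ lam : ℝ, ∀ f ∈ B, f ≠ 0 → G f ≤ lam * w f := by
  classical
  obtain ⟨γ, hγ, hn⟩ := hdv
  have hex : ∃ w0 : K → ℤ, w0 0 = 0 ∧ ∀ f, w f = w0 f * γ := by
    choose! N hN using hn
    refine ⟨fun f => if f = 0 then 0 else N f, if_pos rfl, fun f => ?_⟩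
    show w f = ((if f = 0 then 0 else N f : ℤ) : ℝ) * γ
    by_cases hf : f = 0
    · rw [if_pos hf, hf, hw.zero]
      simp
    · rw [if_neg hf, hN f hf, zsmul_eq_mul]
  obtain ⟨w0, hw00, hw0⟩ := hex
  have hinj : ∀ m m' : ℤ, (m : ℝ) * γ = m' * γ → m = m' := by
    intro m m' h
    exact_mod_cast mul_right_cancel₀ hγ.ne' h
  have hle : ∀ m m' : ℤ, (m : ℝ) * γ ≤ m' * γ → m ≤ m' := by
    intro m m' h
    exact_mod_cast le_of_mul_le_mul_right h hγ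
  have hV0 : IsV w0 := by
    refine ⟨hw00, fun x y hx hy => ?_, fun x y hx hy hxy => ?_⟩
    · apply hinj
      have h1 := hw.mul x y hx hy
      rw [hw0, hw0, hw0] at h1
      push_cast
      linarith
    · have h1 := hw.add x y hx hy hxy
      rw [min_le_iff] at h1 ⊢
      rw [hw0, hw0, hw0] at h1
      rcases h1 with h1 | h1
      · exact Or.inl (hle _ _ h1)
      · exact Or.inr (hle _ _ h1)
  have hposf : ∃ f ∈ B, f ≠ 0 ∧ 0 < w0 f := by
    by_contra hcon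
    push Not at hcon
    apply hns
    intro f hf hf0
    rw [hw0]
    exact mul_nonpos_of_nonpos_of_nonneg (by exact_mod_cast hcon f hf hf0) hγ.le
  have hnegf : ∃ f ∈ B, f ≠ 0 ∧ w0 f < 0 := by
    obtain ⟨f, hf, hf0, hneg⟩ := hinf
    refine ⟨f, hf, hf0, ?_⟩
    by_contra hcon
    push Not at hcon
    rw [hw0] at hneg
    have : (0 : ℝ) ≤ w0 f * γ := mul_nonneg (by exact_mod_cast hcon) hγ.le
    linarith
  obtain ⟨lam, hlam⟩ := h_fv2 K B hB w0 G hV0 hG hposf hnegf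
    (fun h hh hh0 hwh => h6 h hh hh0 (by rw [hw0, hwh]; simp))
  refine ⟨lam / γ, fun f hf hf0 => ?_⟩
  have h1 := hlam f hf hf0
  rw [hw0 f]
  have h2 : lam / γ * (w0 f * γ) = lam * w0 f := by field_simp
  rw [h2]
  exact h1

theorem p_zdep (h_fv2 : CZP.S_fv2) (h_lex : CZP.S_lex) (h_fun : CZP.S_fun) (h_pal : CZP.S_pal)
    (h_in : F2PF.S_in) (h_nsg : F2PF.S_nsg) (h_rfl : F2PF.S_rfl) (h_lfl : F2PF.S_lfl)
    (h_pr : F2PF.S_pr) (h_line : F2PF.S_line) : CZP.S_zdep := by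
  intro p _ k K _ _ _ _ _ n g φ R ι s0 hC x s y M hx hD hxy
  obtain ⟨b0, ρ0, hbase⟩ := hC.1
  obtain ⟨hBs, hcut⟩ := h_line p k K n g φ
  have hB := hBs hbase.gen
  obtain ⟨hL, hnt, -⟩ := hcut 0 s y M hD.cl
  have hs : 0 < s := hD.cl.1
  obtain ⟨hp1, hp2, hp3⟩ := h_pr p k K n g φ
  have hns : ¬ SG (Br k g) (y 0) := hD.ns 0 le_rfl hs.le
  have hinf : AtInf (Br k g) (y 0) := hD.ai 0 le_rfl hs.le
  obtain ⟨V, hV⟩ := (h_rfl p k K n g φ hbase.gen 0 s y M hD.cl 0 le_rfl hs).1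
  obtain ⟨hVfl, -, -⟩ := h_pal p k K n g φ R ι s0 hC 0 s y M hD.cl
  obtain ⟨s1, y1, M1, hD1, hpr1, u, hu, hsu, hstr⟩ := hx
  have hs1 : 0 < s1 := hD1.cl.1
  obtain ⟨hL1, -, -⟩ := hcut 0 s1 y1 M1 hD1.cl
  have hpr : Pr (y1 s1) (y 0) := (hp1 (y1 s1) x (y 0)).2.2 hpr1 hxy
  have hpr' : Pr (y 0) (y1 s1) := (hp1 (y1 s1) (y 0) R).2.1 hpr
  obtain ⟨V1, hV1⟩ := (h_lfl p k K n g φ hbase.gen 0 s1 y1 M1 hD1.cl s1 hs1 le_rfl).1
  obtain ⟨-, hV1fl, -⟩ := h_pal p k K n g φ R ι s0 hC 0 s1 y1 M1 hD1.cl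
  obtain ⟨V', hV'1, hV'2, hV'3, hV'4, hV'5⟩ := hp3 V1 (y1 s1) (y 0) hV1.inz hV1.fst hpr
  obtain ⟨c, hc, hcy⟩ := hpr'
  obtain ⟨-, hlexL⟩ := h_lex p k K n g φ hbase.gen 0 s1 y1 M1 hD1.cl
  obtain ⟨hlexR, -⟩ := h_lex p k K n g φ hbase.gen 0 s y M hD.cl
  -- step (0)
  have key : ∀ f ∈ Br k g, f ≠ 0 → u.1 * c / sd s1 u * y 0 f ≤ c2 V' f ∧
      (0 < R f → u.1 * c / sd s1 u * y 0 f < c2 V' f) := by
    intro f hf hf0
    obtain ⟨m, hm⟩ := zdep_exL h_in (M1 f) s1 (hL1.ne f hf hf0)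
    obtain ⟨e1, e2⟩ := hlexL s1 hs1 le_rfl V1 hV1 f hf hf0 m hm
    have e3 : dot u m = u.1 * c * y 0 f - sd s1 u * c2 V' f := by
      rw [hV'3 f, e2]
      rw [hcy f] at e1
      unfold dot sd
      linear_combination (-u.1) * e1
    have e4 : u.1 * c / sd s1 u * y 0 f = u.1 * c * y 0 f / sd s1 u := by ring
    refine ⟨?_, fun hR => ?_⟩
    · have h1 := hu f hf hf0 m hm
      rw [e4, div_le_iff₀ hsu]
      rw [e3] at h1
      linarith
    · have h1 := hstr f hf hf0 hR m hm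
      rw [e4, div_lt_iff₀ hsu]
      rw [e3] at h1
      linarith
  set a : ℝ := u.1 * c / sd s1 u with ha
  -- step (1)
  suffices hlam : ∃ lam : ℝ, ∀ f ∈ Br k g, f ≠ 0 → c2 V f ≤ lam * y 0 f ∧
      (0 < R f → c2 V f < lam * y 0 f) by
    obtain ⟨lam, hlam⟩ := hlam
    refine ⟨(-lam, 1), ?_, ?_, ?_⟩
    · rw [hV.dr]
      intro f hf hf0
      have h1 := (hlam f hf hf0).1
      show dot (-lam, sd 0 (-lam, 1)) (y 0 f, c2 V f) ≤ 0
      rw [zdep_sd]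
      unfold dot
      show -lam * y 0 f + 1 * c2 V f ≤ 0
      linarith
    · rw [zdep_sd]
      exact one_pos
    · intro f hf hf0 hR m hm
      obtain ⟨e1, e2⟩ := hlexR 0 le_rfl hs V hV f hf hf0 m hm
      have h1 := (hlam f hf hf0).2 hR
      rw [e1, e2] at h1
      unfold dot
      show -lam * m.1 + 1 * m.2 < 0
      have e3 : lam * (m.1 + 0 * m.2) = lam * m.1 := by ring
      rw [e3] at h1
      linarith
  by_cases hdv : Dv (y 0)
  · -- step (2)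
    have hfl := hVfl 0 le_rfl hs V hV hdv
    have hdv1 : Dv (y1 s1) := (hp2 _ _ ⟨c, hc, hcy⟩).2.2.2.1 hdv
    have hfl1 := hV1fl s1 hs1 le_rfl V1 hV1 hdv1
    have hfl' : Flag k p φ (y 0) V' := by
      refine ⟨hV'1, hV'2, ?_⟩
      obtain ⟨f, hf0, hf1, hf2⟩ := hfl1.nt
      refine ⟨f, hf0, (hp2 _ _ hpr).2.2.2.2.1 f hf1, ?_⟩
      rw [hV'3]
      exact hf2
    have hPT : PT (Br k g) (y 0) V := by
      obtain ⟨u0, hu0, hu0p⟩ := hD.des
      have h1 := (hV.dr u0).1 hu0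
      rw [zdep_sd] at hu0p h1
      refine ⟨u0.1 / u0.2, ?_⟩
      intro f hf hf0
      have h2 := h1 f hf hf0
      unfold dot at h2 ⊢
      simp only at h2 ⊢
      have h3 : u0.1 / u0.2 * y 0 f + 1 * c2 V f = (u0.1 * y 0 f + u0.2 * c2 V f) / u0.2 := by
        field_simp
      rw [h3]
      exact div_nonpos_of_nonpos_of_nonneg h2 hu0p.le
    have hBT : BT (Br k g) (y 0) V' := by
      refine ⟨a, ?_⟩
      intro f hf hf0
      have h1 := (key f hf hf0).1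
      unfold dot
      show a * y 0 f + -1 * c2 V' f ≤ 0
      linarith
    obtain ⟨ρ, hρ, h6⟩ := hC.2.l6 (y 0) (hnt 0 le_rfl hs.le).1 hdv hinf hns V V' hfl hPT hfl' hBT
    obtain ⟨lam0, hlam0⟩ := zdep_vert h_fv2 hB (hnt 0 le_rfl hs.le).1.isv hdv hinf hns
      (fun f => c2 V f + ρ * c2 V' f)
      (fun f g' hf hg => by
        show c2 V (f * g') + ρ * c2 V' (f * g') = _
        rw [zdep_c2 hV.inz.isv f g' hf hg, zdep_c2 hV'1.isv f g' hf hg]
        ring)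
      h6
    refine ⟨lam0 - ρ * a, fun f hf hf0 => ?_⟩
    have h1 : c2 V f + ρ * c2 V' f ≤ lam0 * y 0 f := hlam0 f hf hf0
    obtain ⟨h2, h3⟩ := key f hf hf0
    refine ⟨?_, fun hR => ?_⟩
    · have h4 := mul_le_mul_of_nonneg_left h2 hρ.le
      linarith
    · have h4 := mul_lt_mul_of_pos_left (h3 hR) hρ
      linarith
  · -- step (3)
    obtain ⟨α, β, hβ, hαβ⟩ := h_fun p k K n g φ R ι s0 hC (y 0) (y 0) V V' hV.inz hV'1 hV.fst hV'2
      hV.nd (by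
        obtain ⟨x1, x2, hx1, hx2, h⟩ := hV1.nd
        refine ⟨x1, x2, hx1, hx2, ?_⟩
        rw [hcy, hcy] at h
        rw [hV'3, hV'3]
        intro h0
        apply h
        linear_combination c * h0)
      (hp1 (y 0) R R).1 hdv
    have hβneg : β < 0 := by
      by_contra hcon
      have hβpos : 0 < β := lt_of_le_of_ne (not_lt.1 hcon) (Ne.symm hβ)
      obtain ⟨-, h2, -⟩ := h_nsg K (Br k g) hB (Set.Icc 0 s) y M hL 0 ⟨le_rfl, hs.le⟩ hinf hns
      obtain ⟨u0, hu0, hu0p⟩ := hD.des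
      have hmem : ((a - α) / β, (-1 : ℝ)) ∈ DR (Br k g) M 0 := by
        rw [hV.dr, zdep_sd]
        intro f hf hf0
        have h1 := (key f hf hf0).1
        rw [hαβ f] at h1
        unfold dot
        show (a - α) / β * y 0 f + -1 * c2 V f ≤ 0
        have h3 : (a - α) / β * y 0 f + -1 * c2 V f = ((a - α) * y 0 f - β * c2 V f) / β := by
          field_simp
          ring
        rw [h3]
        exact div_nonpos_of_nonpos_of_nonneg (by linarith) hβpos.le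
      have h4 := h2 s hs subset_rfl u0 hu0 _ hmem hu0p
      rw [zdep_sd] at h4
      simp only at h4
      linarith
    refine ⟨(a - α) / β, fun f hf hf0 => ?_⟩
    obtain ⟨h2, h3⟩ := key f hf hf0
    have e1 : (a - α) / β * y 0 f = (a - α) * y 0 f / β := by ring
    rw [hαβ f] at h2 h3
    refine ⟨?_, fun hR => ?_⟩
    · rw [e1, le_div_iff_of_neg hβneg]
      linarith
    · rw [e1, lt_div_iff_of_neg hβneg]
      have := h3 hR
      linarith

end Pool.Agent.CZP
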