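import Pool.Agent.Lib.MP_305fdd_al.CZ.P.StmB
import Pool.Agent.Lib.MP_305fdd_al.F2.PF.Main

/-!
# MP_305fdd_al, section CZ/P: property Z persists along a descending segment
-/

set_option autoImplicit false

namespace Pool.Agent.CZP

open MvPolynomial Pool.Agent.F2Ch Pool.Agent.F2PF

theorem p_zper (hzpr : S_zpr) : S_zper := by
  intro p _ k K _ _ _ _ _ n g φ R ι s0 hctx s y M hD hZ t ht hts
  obtain ⟨u, hu, hs, hstrict⟩ := hZ
  have hs0 : 0 < s := hD.cl.1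
  have hL : Line (Br k g) (Set.Icc 0 s) y M := ((t_line p k K n g φ).2 0 s y M hD.cl).1
  have hsub : Set.Icc 0 t ⊆ Set.Icc 0 s := Set.Icc_subset_Icc le_rfl hts
  have h0 : (0 : ℝ) ∈ Set.Icc 0 s := ⟨le_rfl, hs0.le⟩
  have ht' : t ∈ Set.Icc 0 s := ⟨ht.le, hts⟩
  have hpos : 0 < sd t u :=
    (t_key K (Br k g) (Set.Icc 0 s) y M hL 0 h0 u (Or.inl hu)).2 t ht hsub
      (fun r hr hrt => hD.ns r hr.le (hrt.trans hts)) hs
  obtain ⟨-, b, -⟩ := t_pers K (Br k g) (Set.Icc 0 s) y M hL 0 h0 t ht' ht u (Or.inl hu) hs hpos.le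
  refine ⟨u, b, hpos, ?_⟩
  intro f hf hf0 hRf m' hm'
  obtain ⟨m, hm⟩ := t_in.1 (M f) 0 (hL.ne f hf hf0)
  exact lt_of_le_of_lt (hzpr (M f) 0 t u m m' ht hs hpos.le (Or.inl hm) (Or.inr hm'))
    (hstrict f hf hf0 hRf m hm)

end Pool.Agent.CZP
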