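import Pool.Agent.Lib.MP_305fdd_al.CZ.P.StmB

/-!
# MP_305fdd_al, `C_m * Z`, section CZ/P, piece zpr: persistence of functionals, pointwise
-/

set_option autoImplicit false

namespace Pool.Agent.CZP

open Pool.Agent.F2Ch Pool.Agent.F2PF

theorem p_zpr : S_zpr := by
  intro S t t' u m m' htt hs hs' hm hm'
  have h1 : m.1 + t * m.2 ≤ m'.1 + t * m'.2 := by
    rcases hm' with h | h <;> rcases hm with g | g <;> exact g.min _ h.mem
  have h2 : m'.1 + t' * m'.2 ≤ m.1 + t' * m.2 := by
    rcases hm with h | h <;> rcases hm' with g | g <;> exact g.min _ h.mem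
  have hd : 0 < t' - t := by linarith
  have h3 : (t' - t) * (dot u m' - dot u m) =
      sd t u * ((m'.1 + t' * m'.2) - (m.1 + t' * m.2)) -
        sd t' u * ((m'.1 + t * m'.2) - (m.1 + t * m.2)) := by
    unfold dot sd; ring
  have h4 : sd t u * ((m'.1 + t' * m'.2) - (m.1 + t' * m.2)) ≤ 0 :=
    mul_nonpos_of_nonneg_of_nonpos hs.le (by linarith)
  have h5 : 0 ≤ sd t' u * ((m'.1 + t * m'.2) - (m.1 + t * m.2)) :=
    mul_nonneg hs' (by linarith)
  have h7 : dot u m' - dot u m ≤ 0 := by
    by_contra hc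
    push Not at hc
    have := mul_pos hd hc
    linarith
  linarith

end Pool.Agent.CZP
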