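import Pool.Agent.Lib.MP_305fdd_al.F2.ChMain
import Pool.Agent.Lib.MP_305fdd_al.F2.PF.Main
import Pool.Agent.Lib.MP_305fdd_al.CZ.P.Bridge
import Pool.Agent.Lib.MP_305fdd_al.CZ.P.P_anti
import Pool.Agent.Lib.MP_305fdd_al.CZ.P.P_cirr
import Pool.Agent.Lib.MP_305fdd_al.CZ.P.P_coin
import Pool.Agent.Lib.MP_305fdd_al.CZ.P.P_fv2
import Pool.Agent.Lib.MP_305fdd_al.CZ.P.P_idn
import Pool.Agent.Lib.MP_305fdd_al.CZ.P.P_ile
import Pool.Agent.Lib.MP_305fdd_al.CZ.P.P_lex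
import Pool.Agent.Lib.MP_305fdd_al.CZ.P.P_lrf
import Pool.Agent.Lib.MP_305fdd_al.CZ.P.P_rk2
import Pool.Agent.Lib.MP_305fdd_al.CZ.P.P_segd
import Pool.Agent.Lib.MP_305fdd_al.CZ.P.P_segl
import Pool.Agent.Lib.MP_305fdd_al.CZ.P.P_ult
import Pool.Agent.Lib.MP_305fdd_al.CZ.P.P_zpr
import Pool.Agent.Lib.MP_305fdd_al.CZ.P.P_cflag
import Pool.Agent.Lib.MP_305fdd_al.CZ.P.P_dne
import Pool.Agent.Lib.MP_305fdd_al.CZ.P.P_feq
import Pool.Agent.Lib.MP_305fdd_al.CZ.P.P_fun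
import Pool.Agent.Lib.MP_305fdd_al.CZ.P.P_gex
import Pool.Agent.Lib.MP_305fdd_al.CZ.P.P_ifix
import Pool.Agent.Lib.MP_305fdd_al.CZ.P.P_mono
import Pool.Agent.Lib.MP_305fdd_al.CZ.P.P_nsn
import Pool.Agent.Lib.MP_305fdd_al.CZ.P.P_pal
import Pool.Agent.Lib.MP_305fdd_al.CZ.P.P_sega
import Pool.Agent.Lib.MP_305fdd_al.CZ.P.P_segb
import Pool.Agent.Lib.MP_305fdd_al.CZ.P.P_zdep
import Pool.Agent.Lib.MP_305fdd_al.CZ.P.P_zper
import Pool.Agent.Lib.MP_305fdd_al.CZ.P.P_dnl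
import Pool.Agent.Lib.MP_305fdd_al.CZ.P.P_fpb
import Pool.Agent.Lib.MP_305fdd_al.CZ.P.P_gpr
import Pool.Agent.Lib.MP_305fdd_al.CZ.P.P_loc
import Pool.Agent.Lib.MP_305fdd_al.CZ.P.P_rch
import Pool.Agent.Lib.MP_305fdd_al.CZ.P.P_rco
import Pool.Agent.Lib.MP_305fdd_al.CZ.P.P_zall
import Pool.Agent.Lib.MP_305fdd_al.CZ.P.P_asc
import Pool.Agent.Lib.MP_305fdd_al.CZ.P.P_det
import Pool.Agent.Lib.MP_305fdd_al.CZ.P.P_gio
import Pool.Agent.Lib.MP_305fdd_al.CZ.P.P_tot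
import Pool.Agent.Lib.MP_305fdd_al.CZ.P.P_btw
import Pool.Agent.Lib.MP_305fdd_al.CZ.P.P_cls
import Pool.Agent.Lib.MP_305fdd_al.CZ.P.P_inp
import Pool.Agent.Lib.MP_305fdd_al.CZ.P.P_sep
import Pool.Agent.Lib.MP_305fdd_al.CZ.P.P_two
import Pool.Agent.Lib.MP_305fdd_al.CZ.P.P_tws
import Pool.Agent.Lib.MP_305fdd_al.CZ.P.P_up
import Pool.Agent.Lib.MP_305fdd_al.CZ.P.P_zbot
import Pool.Agent.Lib.MP_305fdd_al.CZ.P.P_afix
import Pool.Agent.Lib.MP_305fdd_al.CZ.P.P_afl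
import Pool.Agent.Lib.MP_305fdd_al.CZ.P.P_asd
import Pool.Agent.Lib.MP_305fdd_al.CZ.P.P_bai
import Pool.Agent.Lib.MP_305fdd_al.CZ.P.P_bnd
import Pool.Agent.Lib.MP_305fdd_al.CZ.P.P_bot
import Pool.Agent.Lib.MP_305fdd_al.CZ.P.P_bsf
import Pool.Agent.Lib.MP_305fdd_al.CZ.P.P_close
import Pool.Agent.Lib.MP_305fdd_al.CZ.P.P_atop
import Pool.Agent.Lib.MP_305fdd_al.CZ.P.P_bsd
import Pool.Agent.Lib.MP_305fdd_al.CZ.P.P_afin
import Pool.Agent.Lib.MP_305fdd_al.CZ.P.P_bmin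
import Pool.Agent.Lib.MP_305fdd_al.CZ.P.P_bsi
import Pool.Agent.Lib.MP_305fdd_al.CZ.P.P_fin

/-!
# MP_305fdd_al, `C_m * Z`, section CZ/P: all statements without hypotheses, and the conclusion
-/

set_option autoImplicit false

namespace Pool.Agent.CZP

open Pool.Agent Pool.Agent.F2Ch Pool.Agent.F2PF Pool.Agent.CZ

theorem t_anti : CZP.S_anti := p_anti F2PF.t_strict F2PF.t_line F2PF.t_pr
theorem t_cirr : CZP.S_cirr := p_cirr
theorem t_coin : CZP.S_coin := p_coin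
theorem t_fv2 : CZP.S_fv2 := p_fv2
theorem t_idn : CZP.S_idn := p_idn
theorem t_ile : CZP.S_ile := p_ile
theorem t_lex : CZP.S_lex := p_lex
theorem t_lrf : CZP.S_lrf := p_lrf
theorem t_rk2 : CZP.S_rk2 := p_rk2
theorem t_segd : CZP.S_segd := p_segd F2PF.t_rsh F2PF.t_clo F2PF.t_nsg F2PF.t_line
theorem t_segl : CZP.S_segl := p_segl t_segd
theorem t_ult : CZP.S_ult := p_ult
theorem t_zpr : CZP.S_zpr := p_zpr
theorem t_cflag : CZP.S_cflag := p_cflag t_rk2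
theorem t_dne : CZP.S_dne := p_dne t_rk2 F2PF.t_rfl F2PF.t_lfl
theorem t_feq : CZP.S_feq := p_feq t_rk2
theorem t_fun : CZP.S_fun := p_fun t_rk2
theorem t_gex : CZP.S_gex := p_gex F2PF.t_line F2PF.t_dense t_cflag t_anti t_idn
theorem t_ifix : CZP.S_ifix := p_ifix t_rk2
theorem t_mono : CZP.S_mono := p_mono t_dne t_rk2
theorem t_nsn : CZP.S_nsn := p_nsn F2PF.t_dense F2PF.t_inter F2PF.t_rsh F2PF.t_line t_mono t_anti
theorem t_pal : CZP.S_pal := p_pal t_rk2 F2PF.t_rfl F2PF.t_lfl F2PF.t_line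
theorem t_sega : CZP.S_sega := p_sega F2PF.t_line t_mono F2PF.t_cloL F2PF.t_nsg t_anti F2PF.t_keyL F2PF.t_persL
theorem t_segb : CZP.S_segb := p_segb t_sega F2PF.t_rsh
theorem t_zdep : CZP.S_zdep := p_zdep t_fv2 t_lex t_fun t_pal F2PF.t_in F2PF.t_nsg F2PF.t_rfl F2PF.t_lfl F2PF.t_pr F2PF.t_line
theorem t_zper : CZP.S_zper := p_zper t_zpr
theorem t_dnl : CZP.S_dnl := p_dnl F2PF.t_line F2PF.t_rsh F2PF.t_key F2PF.t_pers F2PF.t_pr t_pal
theorem t_fpb : CZP.S_fpb := p_fpb t_cflag t_mono t_segd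
theorem t_gpr : CZP.S_gpr := p_gpr t_pal t_segd t_dnl
theorem t_loc : CZP.S_loc := p_loc t_pal t_feq t_fun t_coin
theorem t_rch : CZP.S_rch := p_rch F2PF.t_pr t_dnl t_anti
theorem t_rco : CZP.S_rco := p_rco t_gpr t_pal t_feq t_coin
theorem t_zall : CZP.S_zall := p_zall t_gpr t_zdep t_zper
theorem t_asc : CZP.S_asc := p_asc t_anti t_cflag t_cirr t_mono t_segd t_segl t_dnl
theorem t_det : CZP.S_det := p_det t_loc t_dnl
theorem t_gio : CZP.S_gio := p_gio t_gpr t_idn t_gex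
theorem t_tot : CZP.S_tot := p_tot t_det t_dnl t_rch
theorem t_btw : CZP.S_btw := p_btw t_det t_dnl t_rch
theorem t_cls : CZP.S_cls := p_cls t_dnl t_rch t_tot t_btw t_anti F2PF.t_line F2PF.t_dense
theorem t_inp : CZP.S_inp := p_inp t_gpr t_rco t_gio t_rch t_tot t_idn t_gex
theorem t_sep : CZP.S_sep := p_sep t_gpr t_inp t_rch t_btw t_anti F2PF.t_dense F2PF.t_lim
theorem t_two : CZP.S_two := p_two t_inp t_segl t_dnl t_btw t_rch t_anti F2PF.t_lim F2PF.t_dense F2PF.t_line F2PF.t_pr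
theorem t_tws : CZP.S_tws := p_tws t_inp t_segl t_btw t_rch t_anti
theorem t_up : CZP.S_up := p_up t_asc t_ult t_rch t_sega t_segd t_dnl t_anti t_rco t_gex t_inp
theorem t_zbot : CZP.S_zbot := p_zbot t_zall t_zdep t_segl t_inp
theorem t_afix : CZP.S_afix := p_afix t_inp t_rch t_ile t_ifix
theorem t_afl : CZP.S_afl := p_afl t_afix t_pal t_dnl t_fpb t_up t_inp t_two t_lrf t_segl t_idn
theorem t_asd : CZP.S_asd := p_asd F2PF.t_line F2PF.t_dense t_nsn t_pal t_up t_segl t_dnl t_inp t_anti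
theorem t_bai : CZP.S_bai := p_bai t_anti t_inp t_segl t_dnl F2PF.t_line F2PF.t_pr F2PF.t_dense F2PF.t_lim
theorem t_bnd : CZP.S_bnd := p_bnd F2PF.t_line t_bai t_segl t_dnl t_inp
theorem t_bot : CZP.S_bot := p_bot t_ult t_inp t_gex t_rch t_segb t_segl t_anti
theorem t_bsf : CZP.S_bsf := p_bsf t_asd t_cflag t_pal t_two t_tws t_ile t_inp t_idn t_anti
theorem t_close : CZP.S_close := p_close t_cls t_inp t_dnl t_rch t_anti
theorem t_atop : CZP.S_atop := p_atop t_sep t_inp t_close t_dnl t_btw t_rch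
theorem t_bsd : CZP.S_bsd := p_bsd t_bsf t_zbot t_inp t_anti F2PF.t_line F2PF.t_rfl F2PF.t_key F2PF.t_persL F2PF.t_in
theorem t_afin : CZP.S_afin := p_afin t_atop t_afix t_afl t_fpb F2PF.t_line F2PF.t_lfl
theorem t_bmin : CZP.S_bmin := p_bmin t_afin t_cirr t_mono t_segd t_segl t_dnl t_rch t_anti t_fpb t_pal t_up t_inp t_two
theorem t_bsi : CZP.S_bsi := p_bsi t_afin t_asd t_two t_tws t_ile t_ifix t_inp t_idn t_anti F2PF.t_line F2PF.t_pr F2PF.t_irr F2PF.t_rsh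
theorem t_fin : CZP.S_fin := p_fin t_bot t_bmin t_bnd t_bsi t_bsd

/-- Section P: the core data, the local facts of section W and E1 .. E4 show that `G` maps onto `C_m * Z`. -/
theorem onto_of {p m : ℕ} [Fact p.Prime] {k K G : Type} [Field k] [CharP k p] [IsAlgClosed k]
    [Field K] [Algebra k K] [Group G] (C : Core p m k K G) (hW : CZW.Loc C) (h1 : I_E1)
    (h2 : I_E2) (h3 : I_E3) (h4 : I_E4) : Onto m G C.c := by
  by_contra hno
  obtain ⟨s0, h⟩ := ctxOf C hW h1 h2 h3 h4 hno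
  exact t_fin p k K C.n C.t C.φ C.RR C.ι s0 h

end Pool.Agent.CZP
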