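import Pool.Agent.Lib.MP_305fdd_al.CZ.P.Defs

/-!
# MP_305fdd_al, `C_m * Z`, section CZ/P, part B: germs at `R`, the sets `P_σ`, the bottom: definitions

`x ∘ ι` is always written `fun f => x (ι f)`.  `P_σ` (`InP .. σ`) depends only on the sign of the real number `σ ≠ 0`; `P_(-σ) = P_σ ∘ ι`.
-/

set_option autoImplicit false

namespace Pool.Agent.CZP

open MvPolynomial Pool.Agent.F2Ch Pool.Agent.F2PF

section
variable {K : Type} [Field K]

/-- there is a functional at the right side of `t`, on the right side of the point, strict on `I = {0 < R}` -/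
def ZR (R : K → ℝ) (B : Set K) (M : K → Finset (ℝ × ℝ)) (t : ℝ) : Prop :=
  ∃ u ∈ DR B M t, 0 < sd t u ∧ ∀ f ∈ B, f ≠ 0 → 0 < R f → ∀ m, IsR (M f) t m → dot u m < 0

/-- there is a functional at the left side of `t`, on the right side of the point, strict on `I = {0 < R}` -/
def ZL (R : K → ℝ) (B : Set K) (M : K → Finset (ℝ × ℝ)) (t : ℝ) : Prop :=
  ∃ u ∈ DL B M t, 0 < sd t u ∧ ∀ f ∈ B, f ≠ 0 → 0 < R f → ∀ m, IsL (M f) t m → dot u m < 0

/-- there is a functional at the left side of `t`, on the left side of the point, strict on `I = {0 < R}` -/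
def ZD (R : K → ℝ) (B : Set K) (M : K → Finset (ℝ × ℝ)) (t : ℝ) : Prop :=
  ∃ u ∈ DL B M t, sd t u < 0 ∧ ∀ f ∈ B, f ≠ 0 → 0 < R f → ∀ m, IsL (M f) t m → dot u m < 0

end

section
variable (k : Type) (p : ℕ) {K : Type} [Field k] [Field K] [Algebra k K] {n : ℕ} (φ : K → K)
  (g : Fin n → K)

/-- `x` is the bottom of a descending segment whose last flag has a functional which is strict on `I` -/
def ZA (R : K → ℝ) (x : K → ℝ) : Prop :=
  ∃ (s : ℝ) (y : ℝ → K → ℝ) (M : K → Finset (ℝ × ℝ)), DnL k p φ g s y M ∧ Pr (y s) x ∧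
    ZL R (Br k g) M s

/-- A germ at `R` of sign `σ`: a line which starts at `R`, all other points are NS and at infinity, and `σ * y t s0` is positive. -/
structure Germ (R : K → ℝ) (s0 : K) (σ s : ℝ) (y : ℝ → K → ℝ) (M : K → Finset (ℝ × ℝ)) :
    Prop where
  cl : CL k p φ g 0 s y M
  zero : y 0 = R
  ns : ∀ t, 0 < t → t ≤ s → ¬ SG (Br k g) (y t)
  ai : ∀ t, 0 < t → t ≤ s → AtInf (Br k g) (y t)
  sg : ∀ t, 0 < t → t ≤ s → 0 < σ * y t s0

/-- `x ∈ P_σ`: `x` is reached from a point of a germ of sign `σ` -/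
def InP (R : K → ℝ) (s0 : K) (σ : ℝ) (x : K → ℝ) : Prop :=
  ∃ (s : ℝ) (y : ℝ → K → ℝ) (M : K → Finset (ℝ × ℝ)) (e : ℝ), Germ k p φ g R s0 σ s y M ∧
    0 < e ∧ e ≤ s ∧ Rch k p φ g (y e) x

/-- `y s` is the top of `P_σ ∩ P_(-σ)`, reached along a segment in `P_σ`. -/
structure TopZ (R : K → ℝ) (s0 : K) (σ s : ℝ) (y : ℝ → K → ℝ) (M : K → Finset (ℝ × ℝ)) :
    Prop where
  dn : DnL k p φ g s y M
  lo : ∀ t, 0 ≤ t → t < s → InP k p φ g R s0 σ (y t) ∧ ¬ InP k p φ g R s0 (-σ) (y t)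
  hi : InP k p φ g R s0 σ (y s) ∧ InP k p φ g R s0 (-σ) (y s)
  top : ∀ x, InP k p φ g R s0 σ x → InP k p φ g R s0 (-σ) x → Rch k p φ g (y s) x

/-- The bottom of `P_σ` is approached along one line, from the right. -/
structure BotZ (R : K → ℝ) (s0 : K) (σ s : ℝ) (y : ℝ → K → ℝ) (M : K → Finset (ℝ × ℝ)) :
    Prop where
  cl : CL k p φ g 0 s y M
  pa : ∀ t, 0 < t → t ≤ s → InP k p φ g R s0 σ (y t)
  des : ∀ t, 0 < t → t < s → DesL (Br k g) M t
  cof : ∀ w, InP k p φ g R s0 σ w → ∀ δ > 0, ∃ t, 0 < t ∧ t < δ ∧ t ≤ s ∧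
    Rch k p φ g w (y t)

end

end Pool.Agent.CZP
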