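import Pool.Agent.Lib.MP_305fdd_al.CZ.P.StmB
import Pool.Agent.Lib.MP_305fdd_al.F2.PF.Main

/-!
# MP_305fdd_al, `C_m * Z`, section CZ/P: the flags of `b_0` type at the top
-/

set_option autoImplicit false

namespace Pool.Agent.CZP

open MvPolynomial Pool.Agent.F2Ch Pool.Agent.F2PF

/-- the property of being of `b_0` type from a functional with a negative second component -/
private theorem afl_bt {K : Type} [Field K] {B : Set K} {w c : K → ℝ} {u : ℝ × ℝ}
    (hu : (u.1, -u.2) ∈ DV B w c) (h2 : 0 < u.2) : (u.1 / u.2, (-1 : ℝ)) ∈ DV B w c := by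
  intro f hf hf0
  have h := hu f hf hf0
  simp only [dot] at h ⊢
  have e : u.1 / u.2 * w f + -1 * c f = (u.1 * w f + -u.2 * c f) / u.2 := by
    field_simp
  rw [e]
  exact div_nonpos_of_nonpos_of_nonneg h h2.le

theorem p_afl (hafix : S_afix) (hpal : S_pal) (hdnl : S_dnl) (hfpb : S_fpb) (hup : S_up)
    (hinp : S_inp) (htwo : S_two) (hlrf : S_lrf) (hsegl : S_segl) (hidn : S_idn) : S_afl := by
  intro p _ k K _ _ _ _ _ n g φ R ι s0 hctx σ s y M hT V0 hV0
  have hFG : FracGen k g := by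
    obtain ⟨⟨b0, ρ0, hb⟩, _⟩ := hctx
    exact hb.gen
  have hLoc : LocZ k p φ g R ι s0 := hctx.2
  have hs : 0 < s := hT.dn.cl.1
  obtain ⟨hfix, hDv⟩ := hafix p k K n g φ R ι s0 hctx σ s y M hT
  have hwι : (fun f => y s (ι f)) = y s := funext hfix
  have hF0 : Flag k p φ (y s) V0 :=
    (hpal p k K n g φ R ι s0 hctx 0 s y M hT.dn.cl).2.1 s hs le_rfl V0 hV0 hDv
  obtain ⟨_, hd2, hd3, _, _⟩ := hdnl p k K n g φ R ι s0 hctx s y M hT.dn
  have hNSw : ¬ SG (Br k g) (y s) := hT.dn.ns s hs.le le_rfl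
  have hAIw : AtInf (Br k g) (y s) := hT.dn.ai s hs.le le_rfl
  refine ⟨hF0, ?_, ?_⟩
  · obtain ⟨u, hu, hsd⟩ := hd3 s hs le_rfl
    have h1 := (hV0.dl u).1 hu
    exact ⟨u.1 / sd s u, afl_bt (u := (u.1, sd s u)) h1 hsd⟩
  intro V hV hBT
  obtain ⟨s', y', M', hCL', hy0, hRFl', hpts, hor⟩ :=
    hfpb p k K n g φ R ι s0 hctx (y s) V hV hNSw hAIw
  have hs' : 0 < s' := hCL'.1
  have hDesL' : ∀ t, 0 < t → t < s' → DesL (Br k g) M' t := by
    rcases hor with ⟨_, hnBT, _⟩ | ⟨_, _, h⟩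
    · exact absurd hBT hnBT
    · exact h
  have hI := hinp p k K n g φ R ι s0 hctx
  -- `σ ≠ 0`
  have hσ : σ ≠ 0 := by
    rintro rfl
    obtain ⟨s1, Y1, M1, e1, hG, he1, he1', _⟩ := hT.hi.1
    have := hG.sg e1 he1 he1'
    rw [zero_mul] at this
    exact lt_irrefl _ this
  -- the points of the line `y'`
  have hPZs' : PZ k p φ g (y' s') :=
    (hpal p k K n g φ R ι s0 hctx 0 s' y' M' hCL').2.2 s' hs'.le le_rfl
      (hpts s' hs'.le le_rfl).1 (hpts s' hs'.le le_rfl).2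
  have hall : ∀ τ : ℝ, InP k p φ g R s0 τ (y' s') →
      ∀ t, 0 < t → t ≤ s' → InP k p φ g R s0 τ (y' t) := by
    intro τ hτ t ht ht'
    rcases eq_or_lt_of_le ht' with h | h
    · rw [h]
      exact hτ
    · have hD := hsegl p k K n g φ R ι s0 hctx 0 s' y' M' hCL' hpts hDesL' t s' ht.le h le_rfl
      obtain ⟨_, _, _, _, h5⟩ := hdnl p k K n g φ R ι s0 hctx _ _ _ hD
      have hDn := h5 0 (s' - t) le_rfl (by linarith) le_rfl
      have hDn' : Dn k p φ g (y' s') (y' t) := by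
        simpa using hDn
      exact (hI τ (y' s')).2.1 hτ (y' t) (Relation.ReflTransGen.single hDn')
  -- the reversed line
  obtain ⟨r1, _, r3⟩ := t_rsh p k K n g φ hFG 0 s y M hT.dn.cl
  have hCLY : CL k p φ g 0 s (fun τ => y (s - τ)) (rsh s M) := by
    have h := (r1 0 s le_rfl hs le_rfl).2
    rwa [sub_zero] at h
  have hYdes : ∀ t, 0 < t → t < s → DesL (Br k g) (rsh s M) t := by
    intro t ht ht'
    obtain ⟨u, hu, hsd⟩ := hd2 (s - t) (by linarith) (by linarith)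
    obtain ⟨_, e2, e3⟩ := r3 s t u
    refine ⟨(u.1, s * u.1 - u.2), e2.1 hu, ?_⟩
    rw [e3]
    linarith
  have hYin : ∀ t, 0 < t → t ≤ s → InP k p φ g R s0 σ (y (s - t)) := fun t ht ht' =>
    (hT.lo (s - t) (by linarith) (by linarith)).1
  have hYR : RFl k p φ g (fun τ => y (s - τ)) (rsh s M) 0 V0 :=
    hlrf p k K n g φ hFG s y M hT.dn.cl V0 hV0
  have hPrr : ∀ v : K → ℝ, Pr v v := fun v => ⟨1, one_pos, fun f => by ring⟩
  have hPr0 : Pr ((fun τ => y (s - τ)) 0) (y' 0) := by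
    change Pr (y (s - 0)) (y' 0)
    rw [sub_zero, hy0]
    exact hPrr _
  have hAI0 : AtInf (Br k g) ((fun τ => y (s - τ)) 0) := by
    change AtInf (Br k g) (y (s - 0))
    rw [sub_zero]
    exact hAIw
  rcases hup p k K n g φ R ι s0 hctx σ hσ (y' s') hPZs' with hP | hP
  · left
    exact (htwo p k K n g φ R ι s0 hctx σ s s' (fun τ => y (s - τ)) y' (rsh s M) M' hCLY hCL'
      hPr0 hAI0 hYin (hall σ hP) hYdes hDesL').2 V0 V hYR hRFl'
  · right
    have hidn' := hidn p k K n g φ R ι s0 hctx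
    obtain ⟨_, _, _, _, i5, _, i7⟩ := hidn'
    have hCLι : CL k p φ g 0 s (fun t f => (fun τ => y (s - τ)) t (ι f))
        (fun f => rsh s M (ι f)) := hLoc.icl 0 s _ _ hCLY
    have hPrι : Pr ((fun t f => (fun τ => y (s - τ)) t (ι f)) 0) (y' 0) := by
      change Pr (fun f => y (s - 0) (ι f)) (y' 0)
      rw [sub_zero, hwι, hy0]
      exact hPrr _
    have hAIι : AtInf (Br k g) ((fun t f => (fun τ => y (s - τ)) t (ι f)) 0) := by
      change AtInf (Br k g) (fun f => y (s - 0) (ι f))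
      rw [sub_zero, hwι]
      exact hAIw
    have hinι : ∀ t, 0 < t → t ≤ s →
        InP k p φ g R s0 (-σ) ((fun t f => (fun τ => y (s - τ)) t (ι f)) t) := fun t ht ht' =>
      (hI σ (y (s - t))).2.2.2.1 (hYin t ht ht')
    have hdesι : ∀ t, 0 < t → t < s → DesL (Br k g) (fun f => rsh s M (ι f)) t := by
      intro t ht ht'
      obtain ⟨u, hu, hsd⟩ := hYdes t ht ht'
      refine ⟨u, ?_, hsd⟩
      rw [(i5 (rsh s M) t).2]
      exact hu
    exact (htwo p k K n g φ R ι s0 hctx (-σ) s s' (fun t f => (fun τ => y (s - τ)) t (ι f)) y'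
      (fun f => rsh s M (ι f)) M' hCLι hCL' hPrι hAIι hinι (hall (-σ) hP) hdesι hDesL').2
      (fun f => V0 (ι f)) V (i7 _ _ 0 V0 hYR) hRFl'

end Pool.Agent.CZP
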