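import Pool.Agent.Lib.MP_305fdd_al.CZ.P.StmB
import Pool.Agent.Lib.MP_305fdd_al.F2.PF.Main

/-!
# MP_305fdd_al, `C_m * Z`, section CZ/P: [CZP bmin], `P_σ` has no minimum
-/

set_option autoImplicit false

namespace Pool.Agent.CZP

open MvPolynomial Pool.Agent.F2Ch Pool.Agent.F2PF

/-- an ascending line starting at the minimum `m` is in `P_σ` -/
private theorem bmin_aux (hafin : S_afin) (hsegl : S_segl) (hdnl : S_dnl) (hpal : S_pal)
    (hup : S_up) (hinp : S_inp) (p : ℕ) [Fact p.Prime] (k K : Type) [Field k] [CharP k p]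
    [PerfectRing k p] [Field K] [Algebra k K] (n : ℕ) (g : Fin n → K) (φ : K → K) (R : K → ℝ)
    (ι : K ≃+* K) (s0 : K) (ctx : CtxZ k p φ g R ι s0) (σ : ℝ) (hσ : σ ≠ 0) (m : K → ℝ)
    (hm : InP k p φ g R s0 σ m) (s : ℝ) (y : ℝ → K → ℝ) (M : K → Finset (ℝ × ℝ))
    (hCL : CL k p φ g 0 s y M) (hy0 : y 0 = m)
    (hns : ∀ t, 0 ≤ t → t ≤ s → ¬ SG (Br k g) (y t) ∧ AtInf (Br k g) (y t))
    (hD : ∀ t, 0 < t → t < s → DesL (Br k g) M t) :
    ∀ t, 0 < t → t ≤ s → InP k p φ g R s0 σ (y t) := by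
  have hs : 0 < s := hCL.1
  have hseg := hsegl p k K n g φ R ι s0 ctx 0 s y M hCL hns hD
  have hPZ : PZ k p φ g (y s) :=
    (hpal p k K n g φ R ι s0 ctx 0 s y M hCL).2.2 s hs.le le_rfl (hns s hs.le le_rfl).1
      (hns s hs.le le_rfl).2
  have hrch : ∀ t, 0 ≤ t → t < s → Rch k p φ g (y s) (y t) := by
    intro t h0 h1
    have h2 := hseg t s h0 h1 le_rfl
    have h3 := (hdnl p k K n g φ R ι s0 ctx _ _ _ h2).2.2.2.2 0 (s - t) le_rfl (by linarith) le_rfl
    have e1 : s - 0 = s := by ring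
    have e2 : s - (s - t) = t := by ring
    have h4 : Dn k p φ g (y (s - 0)) (y (s - (s - t))) := h3
    rw [e1, e2] at h4
    exact Relation.ReflTransGen.single h4
  have hys : InP k p φ g R s0 σ (y s) := by
    rcases hup p k K n g φ R ι s0 ctx σ hσ (y s) hPZ with h | h
    · exact h
    · exfalso
      have h1 := (hinp p k K n g φ R ι s0 ctx (-σ) (y s)).2.1 h (y 0) (hrch 0 le_rfl hs)
      rw [hy0] at h1
      exact hafin p k K n g φ R ι s0 ctx σ m hm h1
  intro t h0 h1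
  rcases h1.lt_or_eq with h2 | h2
  · exact (hinp p k K n g φ R ι s0 ctx σ (y s)).2.1 hys (y t) (hrch t h0.le h2)
  · rw [h2]; exact hys

theorem p_bmin (hafin : S_afin) (hcirr : S_cirr) (hmono : S_mono) (hsegd : S_segd)
    (hsegl : S_segl) (hdnl : S_dnl) (hrch : S_rch) (hanti : S_anti) (hfpb : S_fpb) (hpal : S_pal)
    (hup : S_up) (hinp : S_inp) (htwo : S_two) : S_bmin := by
  intro p _ k K _ _ _ _ _ n g φ R ι s0 ctx σ m hm hmin
  obtain ⟨⟨b0, ρ0, hBase⟩, hL⟩ := id ctx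
  have hgen := hBase.gen
  have hσ : σ ≠ 0 := by
    obtain ⟨s, y, M, e, hG, he, hes, -⟩ := hm
    rintro rfl
    have := hG.sg e he hes
    rw [zero_mul] at this
    exact lt_irrefl _ this
  have hPZ : PZ k p φ g m := (hinp p k K n g φ R ι s0 ctx σ m).1 hm
  have hrefl : ∀ v : K → ℝ, Pr v v := fun v => ((t_pr p k K n g φ).1 v v v).1
  have star : ∀ v, Dn k p φ g m v → Pr m v := by
    intro v hv
    have h1 : Rch k p φ g m v := Relation.ReflTransGen.single hv
    have h2 := (hinp p k K n g φ R ι s0 ctx σ m).2.1 hm v h1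
    exact ((hrch p k K n g φ R ι s0 ctx).2 m v hPZ h1).2.2 (hmin v h2)
  obtain ⟨hinz, hns, hai, hfl⟩ := id hPZ
  -- no descending line starts at `m`
  have hnd : ∀ (s : ℝ) (y : ℝ → K → ℝ) (M : K → Finset (ℝ × ℝ)), DnL k p φ g s y M → y 0 = m →
      False := by
    intro s y M hD hy0
    have hs : 0 < s := hD.cl.1
    have h1 : Dn k p φ g m (y s) := Or.inr ⟨s, y, M, hD, by rw [hy0]; exact hrefl m, hrefl _⟩
    have h2 := star _ h1
    rw [← hy0] at h2
    have h3 := (hanti p k K n g φ R ι s0 ctx).2.1 0 s y M hD.cl 0 s le_rfl hs.le hs.le le_rfl h2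
    exact hs.ne h3
  by_cases hd : Dv m
  · obtain ⟨V0, hV0⟩ := hfl hd
    obtain ⟨V1, hV1, hne⟩ := hL.l2 m hinz hd hai V0 hV0
    obtain ⟨s, y, M, hCL, hy0, hRF, hN, hor⟩ :=
      hfpb p k K n g φ R ι s0 ctx m V0 hV0 hns hai
    obtain ⟨s', y', M', hCL', hy0', hRF', hN', hor'⟩ :=
      hfpb p k K n g φ R ι s0 ctx m V1 hV1 hns hai
    have hD : ∀ t, 0 < t → t < s → DesL (Br k g) M t := by
      rcases hor with h | h
      · exact (hnd s y M h.2.2 hy0).elim
      · exact h.2.2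
    have hD' : ∀ t, 0 < t → t < s' → DesL (Br k g) M' t := by
      rcases hor' with h | h
      · exact (hnd s' y' M' h.2.2 hy0').elim
      · exact h.2.2
    have h1 := bmin_aux hafin hsegl hdnl hpal hup hinp p k K n g φ R ι s0 ctx σ hσ m hm s y M hCL
      hy0 hN hD
    have h2 := bmin_aux hafin hsegl hdnl hpal hup hinp p k K n g φ R ι s0 ctx σ hσ m hm s' y' M'
      hCL' hy0' hN' hD'
    refine hne ((htwo p k K n g φ R ι s0 ctx σ s s' y y' M M' hCL hCL' ?_ ?_ h1 h2 hD hD').2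
      V0 V1 hRF hRF')
    · rw [hy0, hy0']
      exact hrefl m
    · rw [hy0]
      exact hai
  · obtain ⟨s, y, M, hs, hCL, hy0⟩ := hcirr p k K n g φ R ι s0 ctx m hinz hd
    obtain ⟨_, _, h3, h3'⟩ := t_dense p k K n g φ hgen (-s) s y M hCL
    obtain ⟨δ, hδ, h4⟩ := h3 0 (by linarith) hs.le (by rw [hy0]; exact hns)
    obtain ⟨δ', hδ', h4'⟩ := h3' 0 (by linarith) hs.le (by rw [hy0]; exact hai)
    obtain ⟨r, hr0, hrs, hrδ, hrδ'⟩ : ∃ r, 0 < r ∧ r ≤ s ∧ r ≤ δ / 2 ∧ r ≤ δ' / 2 :=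
      ⟨min s (min (δ / 2) (δ' / 2)), lt_min hs (lt_min (by positivity) (by positivity)),
        min_le_left _ _, (min_le_right _ _).trans (min_le_left _ _),
        (min_le_right _ _).trans (min_le_right _ _)⟩
    have hCL' : CL k p φ g (-r) r y M :=
      ((t_line p k K n g φ).2 (-s) s y M hCL).2.2 (-r) r (by linarith) (by linarith) hrs
    have hNS : ∀ t, -r ≤ t → t ≤ r → ¬ SG (Br k g) (y t) ∧ AtInf (Br k g) (y t) := by
      intro t h0 h1
      constructor
      · apply h4 t (by linarith) (by linarith)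
        rw [sub_zero]
        exact lt_of_le_of_lt (abs_le.2 ⟨h0, h1⟩) (by linarith)
      · apply h4' t (by linarith) (by linarith)
        rw [sub_zero]
        exact lt_of_le_of_lt (abs_le.2 ⟨h0, h1⟩) (by linarith)
    rcases hmono p k K n g φ R ι s0 ctx (-r) r y M hCL'
      (fun t h0 h1 => hNS t h0.le h1.le) with h5 | h5
    · have h6 := hsegd p k K n g φ R ι s0 ctx (-r) r y M hCL' hNS
        (fun t h0 h1 => (h5 t h0 h1).1) 0 r (by linarith) hr0 le_rfl
      refine hnd _ _ _ h6 ?_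
      show y (0 + 0) = m
      rw [add_zero, hy0]
    · have h6 := hsegl p k K n g φ R ι s0 ctx (-r) r y M hCL' hNS
        (fun t h0 h1 => (h5 t h0 h1).1) (-r) 0 le_rfl (by linarith) hr0.le
      refine hnd _ _ _ h6 ?_
      show y (0 - 0) = m
      rw [sub_zero, hy0]

end Pool.Agent.CZP
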