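import Pool.Agent.Lib.MP_305fdd_al.CZ.P.Stm

/-!
# MP_305fdd_al, section CZ/P: piece fun
-/

set_option autoImplicit false

namespace Pool.Agent.CZP

open MvPolynomial Pool.Agent.F2Ch Pool.Agent.F2PF

private noncomputable def fun_hom {K Γ : Type} [Field K] [AddCommGroup Γ] [LinearOrder Γ]
    [IsOrderedAddMonoid Γ] (v : K → Γ) (hv : IsV v) : Kˣ →* Multiplicative Γ where
  toFun u := Multiplicative.ofAdd (v u)
  map_one' := by
    have h := hv.mul 1 1 one_ne_zero one_ne_zero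
    rw [mul_one] at h
    rw [Units.val_one, left_eq_add.mp h, ofAdd_zero]
  map_mul' a b := by
    rw [Units.val_mul, hv.mul _ _ a.ne_zero b.ne_zero, ofAdd_add]

private theorem fun_zpow {K Γ : Type} [Field K] [AddCommGroup Γ] [LinearOrder Γ]
    [IsOrderedAddMonoid Γ] (v : K → Γ) (hv : IsV v) (a : K) (ha : a ≠ 0) (m : ℤ) :
    v (a ^ m) = m • v a := by
  have h := map_zpow (fun_hom v hv) (Units.mk0 a ha) m
  have h2 : v (((Units.mk0 a ha) ^ m : Kˣ) : K) = m • v ((Units.mk0 a ha : Kˣ) : K) := by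
    apply Multiplicative.ofAdd.injective
    rw [ofAdd_zsmul]
    exact h
  rwa [Units.val_zpow_eq_zpow_val, Units.val_mk0] at h2

private theorem fun_val {K Γ : Type} [Field K] [AddCommGroup Γ] [LinearOrder Γ]
    [IsOrderedAddMonoid Γ] (v : K → Γ) (hv : IsV v) (x : Fin 2 → K) (hx : ∀ i, x i ≠ 0) (f : K)
    (hf : f ≠ 0) (m : Fin 2 → ℤ) :
    v (f * (x 0 ^ (-m 0) * x 1 ^ (-m 1))) = v f - (m 0 • v (x 0) + m 1 • v (x 1)) := by
  rw [hv.mul _ _ hf (mul_ne_zero (zpow_ne_zero _ (hx 0)) (zpow_ne_zero _ (hx 1))),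
    hv.mul _ _ (zpow_ne_zero _ (hx 0)) (zpow_ne_zero _ (hx 1)), fun_zpow v hv _ (hx 0),
    fun_zpow v hv _ (hx 1), neg_zsmul, neg_zsmul]
  abel

private def fun_snd : (ℝ ×ₗ ℝ) →+ ℝ where
  toFun a := (ofLex a).2
  map_zero' := rfl
  map_add' _ _ := rfl

private def fun_fst : (ℝ ×ₗ ℝ) →+ ℝ where
  toFun a := (ofLex a).1
  map_zero' := rfl
  map_add' _ _ := rfl

theorem p_fun (hrk2 : CZP.S_rk2) : CZP.S_fun := by
  intro p _ k K _ _ _ _ _ n g φ R ι s0 hctx w w' V V' hV hV' hfst hfst' hnd hnd' hPr hDv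
  obtain ⟨c, hc, hww⟩ := hPr
  obtain ⟨⟨κ, _, _, x, ex, ac, φb, N, L, hch⟩, -, -⟩ :=
    hrk2 p k K n g φ R ι s0 hctx w V hV hfst hnd
  have hDv' : ¬ Dv w' := by
    rintro ⟨γ, hγ, h⟩
    apply hDv
    refine ⟨γ / c, div_pos hγ hc, fun f hf => ?_⟩
    obtain ⟨m, hm⟩ := h f hf
    refine ⟨m, ?_⟩
    rw [hww, zsmul_eq_mul] at hm
    rw [zsmul_eq_mul]
    field_simp
    linarith
  obtain ⟨-, hirr, -⟩ := hrk2 p k K n g φ R ι s0 hctx w' V' hV' hfst' hnd'
  have hx : ∀ i, x i ≠ 0 := hch.vb.ne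
  -- the values of `V` and `V'`
  have h1 : ∀ f, f ≠ 0 → V f = ex f 0 • V (x 0) + ex f 1 • V (x 1) := by
    intro f hf
    have h := hch.vb.gen f hf
    rw [wt, Fin.sum_univ_two] at h
    exact h
  have h2 : ∀ f, f ≠ 0 → V' f = ex f 0 • V' (x 0) + ex f 1 • V' (x 1) := by
    intro f hf
    have h3 := fun_val V hV.isv x hx f hf (ex f)
    rw [h1 f hf, sub_self] at h3
    have h4 : w (f * (x 0 ^ (-ex f 0) * x 1 ^ (-ex f 1))) = 0 := by
      rw [← hfst, h3]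
      rfl
    have h5 : w' (f * (x 0 ^ (-ex f 0) * x 1 ^ (-ex f 1))) = 0 := by
      rw [hww, h4, mul_zero]
    have h6 := hirr hDv' _ h5
    rw [fun_val V' hV'.isv x hx f hf (ex f), sub_eq_zero] at h6
    exact h6
  have hw1 : ∀ f, f ≠ 0 → w f = ex f 0 * w (x 0) + ex f 1 * w (x 1) := by
    intro f hf
    have h := congrArg fun_fst (h1 f hf)
    rw [map_add, map_zsmul, map_zsmul, zsmul_eq_mul, zsmul_eq_mul] at h
    rw [← hfst f, ← hfst (x 0), ← hfst (x 1)]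
    exact h
  have hc1 : ∀ f, f ≠ 0 → c2 V f = ex f 0 * c2 V (x 0) + ex f 1 * c2 V (x 1) := by
    intro f hf
    have h := congrArg fun_snd (h1 f hf)
    rw [map_add, map_zsmul, map_zsmul, zsmul_eq_mul, zsmul_eq_mul] at h
    exact h
  have hc2 : ∀ f, f ≠ 0 → c2 V' f = ex f 0 * c2 V' (x 0) + ex f 1 * c2 V' (x 1) := by
    intro f hf
    have h := congrArg fun_snd (h2 f hf)
    rw [map_add, map_zsmul, map_zsmul, zsmul_eq_mul, zsmul_eq_mul] at h
    exact h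
  have hD : w (x 0) * c2 V (x 1) - w (x 1) * c2 V (x 0) ≠ 0 := by
    intro hD
    obtain ⟨x1, x2, hx1, hx2, hne⟩ := hnd
    apply hne
    rw [hw1 x1 hx1, hw1 x2 hx2, hc1 x1 hx1, hc1 x2 hx2]
    linear_combination ((ex x1 0 : ℝ) * ex x2 1 - ex x1 1 * ex x2 0) * hD
  set D := w (x 0) * c2 V (x 1) - w (x 1) * c2 V (x 0) with hDdef
  have key : ∀ f, c2 V' f = (c2 V' (x 0) * c2 V (x 1) - c2 V' (x 1) * c2 V (x 0)) / D * w f +
      (w (x 0) * c2 V' (x 1) - w (x 1) * c2 V' (x 0)) / D * c2 V f := by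
    intro f
    by_cases hf : f = 0
    · subst hf
      have e1 : w 0 = 0 := by
        rw [← hfst, hV.isv.zero]
        rfl
      have e2 : c2 V 0 = 0 := by
        rw [c2, hV.isv.zero]
        rfl
      have e3 : c2 V' 0 = 0 := by
        rw [c2, hV'.isv.zero]
        rfl
      rw [e1, e2, e3]
      ring
    · rw [hw1 f hf, hc1 f hf, hc2 f hf]
      field_simp
      rw [hDdef]
      ring
  refine ⟨_, _, ?_, key⟩
  intro hβ
  obtain ⟨x1, x2, hx1, hx2, hne⟩ := hnd'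
  apply hne
  rw [key x1, key x2, hβ, hww, hww]
  ring

end Pool.Agent.CZP
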