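import Pool.Agent.Lib.MP_305fdd_al.CZ.P.StmB
import Pool.Agent.Lib.MP_305fdd_al.F2.PF.Main

set_option autoImplicit false

namespace Pool.Agent.CZP

open MvPolynomial Pool.Agent.F2Ch Pool.Agent.F2PF

theorem p_lex : S_lex := by
  intro p _ k K _ _ _ _ _ n g φ hg s1 s2 y M hCL
  have hs12 : s1 < s2 := hCL.1
  obtain ⟨hBs, hline⟩ := F2PF.t_line p k K n g φ
  have hB := hBs hg
  obtain ⟨hL, -, -⟩ := hline s1 s2 y M hCL
  constructor
  · intro t ht1 ht2 V hV f hf hf0 m hm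
    obtain ⟨ha, hb, -⟩ := F2PF.t_germ K (Br k g) hB _ y M hL t ⟨ht1, ht2.le⟩
    have h1 := ha f hf hf0 m (Or.inl hm)
    refine ⟨h1, ?_⟩
    obtain ⟨δ1, hδ1, hb1⟩ := hb f hf hf0 m hm
    obtain ⟨δ2, hδ2, hn⟩ := hV.near f hf0
    have hpos : 0 < min (min δ1 δ2) (s2 - t) := lt_min (lt_min hδ1 hδ2) (by linarith)
    set ε := min (min δ1 δ2) (s2 - t) / 2 with hε
    have hε0 : 0 < ε := by linarith
    have h2 : min (min δ1 δ2) (s2 - t) ≤ δ1 := le_trans (min_le_left _ _) (min_le_left _ _)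
    have h3 : min (min δ1 δ2) (s2 - t) ≤ δ2 := le_trans (min_le_left _ _) (min_le_right _ _)
    have h4 : min (min δ1 δ2) (s2 - t) ≤ s2 - t := min_le_right _ _
    have h5 := (hb1 (t + ε) (by linarith) (by linarith) ⟨by linarith, by linarith⟩).1
    have h6 := hn ε hε0 (by linarith)
    rw [h5, h1] at h6
    have h7 : ε * (c2 V f - m.2) = 0 := by linarith
    rcases mul_eq_zero.1 h7 with h8 | h8
    · exact absurd h8 hε0.ne'
    · linarith
  · intro t ht1 ht2 V hV f hf hf0 m hm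
    obtain ⟨ha, -, -⟩ := F2PF.t_germ K (Br k g) hB _ y M hL t ⟨ht1.le, ht2⟩
    have h1 := ha f hf hf0 m (Or.inr hm)
    refine ⟨h1, ?_⟩
    obtain ⟨hCr, -⟩ := F2PF.t_crev p k K n g φ s1 s2 y M hCL
    obtain ⟨hLr, -, -⟩ := hline _ _ _ _ hCr
    obtain ⟨-, hb, -⟩ := F2PF.t_germ K (Br k g) hB _ _ _ hLr (-t)
      ⟨by linarith, by linarith⟩
    have hmr := (F2PF.t_in.2.2.2.1 (M f) t m).1 hm
    obtain ⟨δ1, hδ1, hb1⟩ := hb f hf hf0 (rf m) hmr
    obtain ⟨δ2, hδ2, hn⟩ := hV.near f hf0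
    have hpos : 0 < min (min δ1 δ2) (t - s1) := lt_min (lt_min hδ1 hδ2) (by linarith)
    set ε := min (min δ1 δ2) (t - s1) / 2 with hε
    have hε0 : 0 < ε := by linarith
    have h2 : min (min δ1 δ2) (t - s1) ≤ δ1 := le_trans (min_le_left _ _) (min_le_left _ _)
    have h3 : min (min δ1 δ2) (t - s1) ≤ δ2 := le_trans (min_le_left _ _) (min_le_right _ _)
    have h4 : min (min δ1 δ2) (t - s1) ≤ t - s1 := min_le_right _ _
    have h5 : y (-(-t + ε)) f = (rf m).1 + (-t + ε) * (rf m).2 :=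
      (hb1 (-t + ε) (by linarith) (by linarith) ⟨by linarith, by linarith⟩).1
    have h5' : y (t - ε) f = m.1 + (-t + ε) * (-m.2) := by
      have e : -(-t + ε) = t - ε := by ring
      rw [e] at h5
      exact h5
    have h6 := hn ε hε0 (by linarith)
    rw [h5', h1] at h6
    have h7 : ε * (c2 V f + m.2) = 0 := by linarith
    rcases mul_eq_zero.1 h7 with h8 | h8
    · exact absurd h8 hε0.ne'
    · linarith

end Pool.Agent.CZP
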