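import Pool.Agent.Lib.MP_305fdd_al.CZ.P.Defs

/-!
# MP_305fdd_al, `C_m * Z`, section CZ/P, part A (adapted pieces of F2/PF): the pieces [CZP ..]

Every `def S_xx : Prop` is one independent piece.  All pieces of this file are the pieces of the same name of `F2/PF/{StmB,StmC}.lean`
WITHOUT elliptic elements (and with `p ^ 2` instead of `p ^ 3`): copy `F2/PF/P_xx.lean` and delete the elliptic parts; the docstring only
says what is different.  The general pieces of section PF (`t_line`, `t_crev`, `t_pr`, `t_rfl`, `t_lfl`, `t_irr`, `t_dense`, `t_gap`, `t_in`, `t_refl`, `t_shift`,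
`t_germ`, `t_pers`, `t_persL`, `t_key`, `t_keyL`, `t_nsg`, `t_val`, `t_clo`, `t_cloL`, `t_sgn`, `t_strict`, `t_lim`, `t_fvert`, `t_inter`, `t_rsh`, .. in `F2/PF/Main.lean`) and
`F2Ch.t_X2` .. (`F2/ChMain.lean`) may be used directly (import `F2/PF/Main.lean`) or taken as hypotheses; the pieces of this file are taken as hypotheses.

`R` (the reducible locus) is not at infinity and not in `PZ`; points of lines are assumed to be at infinity where it matters.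
-/

set_option autoImplicit false

namespace Pool.Agent.CZP

open MvPolynomial Pool.Agent.F2Ch Pool.Agent.F2PF

/-! ## 1. Charts of rank two -/

/-- [CZP anti] (about 60 lines) As `F2PF.S_anti` (same proof; `t_strict`, `t_line`, `t_pr`).  (d): `R9`, `Rnn`; (e): `Rpos`. -/
def S_anti : Prop :=
  ∀ (p : ℕ) [Fact p.Prime] (k K : Type) [Field k] [CharP k p] [PerfectRing k p] [Field K]
    [Algebra k K] (n : ℕ) (g : Fin n → K) (φ : K → K) (R : K → ℝ) (ι : K ≃+* K) (s0 : K),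
    CtxZ k p φ g R ι s0 →
    (∀ v v' : K → ℝ, InZ k p φ v → InZ k p φ v' → ¬ SG (Br k g) v → Le (Br k g) v' v →
      Le (Br k g) v v' → Pr v v') ∧
    (∀ (s1 s2 : ℝ) (y : ℝ → K → ℝ) (M : K → Finset (ℝ × ℝ)), CL k p φ g s1 s2 y M →
      ∀ t t', s1 ≤ t → t ≤ s2 → s1 ≤ t' → t' ≤ s2 → Pr (y t) (y t') → t = t') ∧
    (∀ v : K → ℝ, InZ k p φ v → (∃ f, v f ≠ 0) → SG (Br k g) v → AtInf (Br k g) v) ∧
    (∀ v : K → ℝ, InZ k p φ v → (∃ f, v f ≠ 0) → (AtInf (Br k g) v ↔ ¬ Pr R v)) ∧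
    ¬ SG (Br k g) R

/-- [CZP rk2] (about 150 lines) As `F2PF.S_rk2` without `z`.  `S_X2` with `d = 2`: `r + s = 2`, and `r ≤ 1` is impossible by the
determinant, so `r = 2` (no constant term argument is needed). -/
def S_rk2 : Prop :=
  ∀ (p : ℕ) [Fact p.Prime] (k K : Type) [Field k] [CharP k p] [PerfectRing k p] [Field K]
    [Algebra k K] (n : ℕ) (g : Fin n → K) (φ : K → K) (R : K → ℝ) (ι : K ≃+* K) (s0 : K),
    CtxZ k p φ g R ι s0 → ∀ (w : K → ℝ) (V : K → ℝ ×ₗ ℝ), InZ k p φ V →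
    (∀ f, (ofLex (V f)).1 = w f) →
    (∃ x1 x2, x1 ≠ 0 ∧ x2 ≠ 0 ∧ w x1 * c2 V x2 - w x2 * c2 V x1 ≠ 0) →
    (∃ (κ : Type) (_ : Field κ) (_ : Algebra k κ) (x : Fin 2 → K) (ex : K → Fin 2 → ℤ)
      (ac : K → κ) (φb : κ → κ) (N : Set (Fin 2 → ℤ)) (L : K → AddMonoidAlgebra κ (Fin 2 → ℤ)),
      Chart k p φ g V x ex ac φb N L) ∧
    (¬ Dv w → ∀ f, w f = 0 → V f = 0) ∧
    (Dv w → ∃ f, f ≠ 0 ∧ w f = 0 ∧ c2 V f ≠ 0)

/-- [CZP cflag] (about 200 lines) Uses `S_rk2`. As `F2PF.S_cflag` without `z`. -/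
def S_cflag : Prop :=
  ∀ (p : ℕ) [Fact p.Prime] (k K : Type) [Field k] [CharP k p] [PerfectRing k p] [Field K]
    [Algebra k K] (n : ℕ) (g : Fin n → K) (φ : K → K) (R : K → ℝ) (ι : K ≃+* K) (s0 : K),
    CtxZ k p φ g R ι s0 → ∀ (w : K → ℝ) (V : K → ℝ ×ₗ ℝ), (∃ f, w f ≠ 0) → Flag k p φ w V →
    ∃ (s : ℝ) (y : ℝ → K → ℝ) (M : K → Finset (ℝ × ℝ)), CL k p φ g 0 s y M ∧ y 0 = w ∧
      RFl k p φ g y M 0 V

/-- [CZP cirr] (about 100 lines) As `F2PF.S_cirr` without `z`.  `S_X2` with `d = 2`; `r = 0`, `r = 1` would give `Dv x`. -/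
def S_cirr : Prop :=
  ∀ (p : ℕ) [Fact p.Prime] (k K : Type) [Field k] [CharP k p] [PerfectRing k p] [Field K]
    [Algebra k K] (n : ℕ) (g : Fin n → K) (φ : K → K) (R : K → ℝ) (ι : K ≃+* K) (s0 : K),
    CtxZ k p φ g R ι s0 → ∀ x : K → ℝ, InZ k p φ x → ¬ Dv x →
    ∃ (s : ℝ) (y : ℝ → K → ℝ) (M : K → Finset (ℝ × ℝ)), 0 < s ∧ CL k p φ g (-s) s y M ∧
      y 0 = x

/-- [CZP ult] (about 150 lines) As `F2PF.S_ult` without `z`, for `p ^ 2`.  Instead of `F2UL.S_fin`: `S_X2` for the germ with `d = 2`: `r + s = 2`; `r = 0`: `F2UL.S_zero`, `r = 1`: `F2UL.S_one`, `r = 2`: `F2UL.S_two` (all proved in `F2/UL`). -/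
def S_ult : Prop :=
  ∀ (p : ℕ) [Fact p.Prime] (k K : Type) [Field k] [CharP k p] [PerfectRing k p] [Field K]
    [Algebra k K] (n : ℕ) (g : Fin n → K) (φ : K → K) (R : K → ℝ) (ι : K ≃+* K) (s0 : K),
    CtxZ k p φ g R ι s0 → ∀ (I : Type) (U : Ultrafilter I) (v : I → K → ℝ),
    (∀ i, InZ k p φ (v i) ∧ ∃ f, v i f ≠ 0) →
    (∃ i0, ∀ᶠ i in (U : Filter I), Pr (v i0) (v i)) ∨
    ∃ (s : ℝ) (y : ℝ → K → ℝ) (M : K → Finset (ℝ × ℝ)), CL k p φ g 0 s y M ∧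
      ∀ δ > 0, ∀ᶠ i in (U : Filter I), ∃ t, 0 < t ∧ t < δ ∧ t < s ∧ Pr (y t) (v i)

/-! ## 2. Monotonicity -/

/-- [CZP dne] (about 100 lines) Uses `S_rk2`. As `F2PF.S_dne` without `z` (`LocZ.ld` for the chart of the flag). -/
def S_dne : Prop :=
  ∀ (p : ℕ) [Fact p.Prime] (k K : Type) [Field k] [CharP k p] [PerfectRing k p] [Field K]
    [Algebra k K] (n : ℕ) (g : Fin n → K) (φ : K → K) (R : K → ℝ) (ι : K ≃+* K) (s0 : K),
    CtxZ k p φ g R ι s0 → ∀ (s1 s2 : ℝ)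
    (y : ℝ → K → ℝ) (M : K → Finset (ℝ × ℝ)), CL k p φ g s1 s2 y M →
    (∀ t, s1 ≤ t → t < s2 → ∃ u ∈ DR (Br k g) M t, u ≠ 0) ∧
    ∀ t, s1 < t → t ≤ s2 → ∃ u ∈ DL (Br k g) M t, u ≠ 0

/-- [CZP mono] (about 120 lines) Uses `S_dne`, `S_rk2`. As `F2PF.S_mono`; that the points are at infinity is a hypothesis now (so step (1) of the
proof is not needed; `LocF.R7u` is not available). -/
def S_mono : Prop :=
  ∀ (p : ℕ) [Fact p.Prime] (k K : Type) [Field k] [CharP k p] [PerfectRing k p] [Field K]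
    [Algebra k K] (n : ℕ) (g : Fin n → K) (φ : K → K) (R : K → ℝ) (ι : K ≃+* K) (s0 : K),
    CtxZ k p φ g R ι s0 → ∀ (s1 s2 : ℝ)
    (y : ℝ → K → ℝ) (M : K → Finset (ℝ × ℝ)), CL k p φ g s1 s2 y M →
    (∀ t, s1 < t → t < s2 → ¬ SG (Br k g) (y t) ∧ AtInf (Br k g) (y t)) →
    ((∀ t, s1 < t → t < s2 → DesR (Br k g) M t ∧ ∃ u ∈ DL (Br k g) M t, 0 < sd t u) ∨
      ∀ t, s1 < t → t < s2 → DesL (Br k g) M t ∧ ∃ u ∈ DR (Br k g) M t, sd t u < 0)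

/-! ## 3. Segments -/

/-- [CZP pal] (about 50 lines) Uses `S_rk2`. As `F2PF.S_pal` without `z`. -/
def S_pal : Prop :=
  ∀ (p : ℕ) [Fact p.Prime] (k K : Type) [Field k] [CharP k p] [PerfectRing k p] [Field K]
    [Algebra k K] (n : ℕ) (g : Fin n → K) (φ : K → K) (R : K → ℝ) (ι : K ≃+* K) (s0 : K),
    CtxZ k p φ g R ι s0 → ∀ (s1 s2 : ℝ)
    (y : ℝ → K → ℝ) (M : K → Finset (ℝ × ℝ)), CL k p φ g s1 s2 y M →
    (∀ t, s1 ≤ t → t < s2 → ∀ V, RFl k p φ g y M t V → Dv (y t) → Flag k p φ (y t) V) ∧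
    (∀ t, s1 < t → t ≤ s2 → ∀ V, LFl k p φ g y M t V → Dv (y t) → Flag k p φ (y t) V) ∧
    ∀ t, s1 ≤ t → t ≤ s2 → ¬ SG (Br k g) (y t) → AtInf (Br k g) (y t) → PZ k p φ g (y t)

/-- [CZP segd] (about 80 lines) As `F2PF.S_segd`; all points are at infinity (the case `R` is not needed). -/
def S_segd : Prop :=
  ∀ (p : ℕ) [Fact p.Prime] (k K : Type) [Field k] [CharP k p] [PerfectRing k p] [Field K]
    [Algebra k K] (n : ℕ) (g : Fin n → K) (φ : K → K) (R : K → ℝ) (ι : K ≃+* K) (s0 : K),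
    CtxZ k p φ g R ι s0 → ∀ (s1 s2 : ℝ)
    (y : ℝ → K → ℝ) (M : K → Finset (ℝ × ℝ)), CL k p φ g s1 s2 y M →
    (∀ t, s1 ≤ t → t ≤ s2 → ¬ SG (Br k g) (y t) ∧ AtInf (Br k g) (y t)) →
    (∀ t, s1 < t → t < s2 → DesR (Br k g) M t) →
    ∀ t t', s1 ≤ t → t < t' → t' ≤ s2 →
      DnL k p φ g (t' - t) (fun τ => y (t + τ)) (sh t M)

/-- [CZP segl] (about 60 lines) Uses `S_segd`. As `F2PF.S_segl`. -/
def S_segl : Prop :=
  ∀ (p : ℕ) [Fact p.Prime] (k K : Type) [Field k] [CharP k p] [PerfectRing k p] [Field K]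
    [Algebra k K] (n : ℕ) (g : Fin n → K) (φ : K → K) (R : K → ℝ) (ι : K ≃+* K) (s0 : K),
    CtxZ k p φ g R ι s0 → ∀ (s1 s2 : ℝ)
    (y : ℝ → K → ℝ) (M : K → Finset (ℝ × ℝ)), CL k p φ g s1 s2 y M →
    (∀ t, s1 ≤ t → t ≤ s2 → ¬ SG (Br k g) (y t) ∧ AtInf (Br k g) (y t)) →
    (∀ t, s1 < t → t < s2 → DesL (Br k g) M t) →
    ∀ t t', s1 ≤ t → t < t' → t' ≤ s2 →
      DnL k p φ g (t' - t) (fun τ => y (t' - τ)) (rsh t' M)

/-- [CZP sega] (about 120 lines) Uses `S_mono`, `S_anti`. As `F2PF.S_sega`; all points are at infinity by hypothesis. -/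
def S_sega : Prop :=
  ∀ (p : ℕ) [Fact p.Prime] (k K : Type) [Field k] [CharP k p] [PerfectRing k p] [Field K]
    [Algebra k K] (n : ℕ) (g : Fin n → K) (φ : K → K) (R : K → ℝ) (ι : K ≃+* K) (s0 : K),
    CtxZ k p φ g R ι s0 → ∀ (s1 s2 : ℝ)
    (y : ℝ → K → ℝ) (M : K → Finset (ℝ × ℝ)), CL k p φ g s1 s2 y M →
    (∀ t, s1 ≤ t → t ≤ s2 → AtInf (Br k g) (y t)) →
    ¬ SG (Br k g) (y s2) → Le (Br k g) (y s2) (y s1) →
    (∀ t, s1 ≤ t → t ≤ s2 → ¬ SG (Br k g) (y t)) ∧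
    ∀ t, s1 < t → t < s2 → DesR (Br k g) M t

/-- [CZP segb] (about 60 lines) Uses `S_sega`. As `F2PF.S_segb`. -/
def S_segb : Prop :=
  ∀ (p : ℕ) [Fact p.Prime] (k K : Type) [Field k] [CharP k p] [PerfectRing k p] [Field K]
    [Algebra k K] (n : ℕ) (g : Fin n → K) (φ : K → K) (R : K → ℝ) (ι : K ≃+* K) (s0 : K),
    CtxZ k p φ g R ι s0 → ∀ (s1 s2 : ℝ)
    (y : ℝ → K → ℝ) (M : K → Finset (ℝ × ℝ)), CL k p φ g s1 s2 y M →
    (∀ t, s1 ≤ t → t ≤ s2 → AtInf (Br k g) (y t)) →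
    ¬ SG (Br k g) (y s1) → Le (Br k g) (y s1) (y s2) →
    (∀ t, s1 ≤ t → t ≤ s2 → ¬ SG (Br k g) (y t)) ∧
    ∀ t, s1 < t → t < s2 → DesL (Br k g) M t

/-- [CZP dnl] (about 120 lines) Uses `S_pal`. As `F2PF.S_dnl` (that the points are at infinity is the field `DnL.ai`). -/
def S_dnl : Prop :=
  ∀ (p : ℕ) [Fact p.Prime] (k K : Type) [Field k] [CharP k p] [PerfectRing k p] [Field K]
    [Algebra k K] (n : ℕ) (g : Fin n → K) (φ : K → K) (R : K → ℝ) (ι : K ≃+* K) (s0 : K),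
    CtxZ k p φ g R ι s0 → ∀ (s : ℝ) (y : ℝ → K → ℝ) (M : K → Finset (ℝ × ℝ)),
    DnL k p φ g s y M →
    (∀ t, 0 ≤ t → t ≤ s → PZ k p φ g (y t)) ∧
    (∀ t, 0 ≤ t → t < s → DesR (Br k g) M t) ∧
    (∀ t, 0 < t → t ≤ s → ∃ u ∈ DL (Br k g) M t, 0 < sd t u) ∧
    (∀ t t', 0 ≤ t → t < t' → t' ≤ s → Le (Br k g) (y t') (y t) ∧
      DnL k p φ g (t' - t) (fun τ => y (t + τ)) (sh t M)) ∧
    ∀ t t', 0 ≤ t → t ≤ t' → t' ≤ s → Dn k p φ g (y t) (y t')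

/-- [CZP rch] (about 80 lines) Uses `S_dnl`, `S_anti`. As `F2PF.S_rch` without `z`. -/
def S_rch : Prop :=
  ∀ (p : ℕ) [Fact p.Prime] (k K : Type) [Field k] [CharP k p] [PerfectRing k p] [Field K]
    [Algebra k K] (n : ℕ) (g : Fin n → K) (φ : K → K) (R : K → ℝ) (ι : K ≃+* K) (s0 : K),
    CtxZ k p φ g R ι s0 →
    (∀ x x' : K → ℝ, PZ k p φ g x → Pr x x' → PZ k p φ g x' ∧ Rch k p φ g x x') ∧
    ∀ x x' : K → ℝ, PZ k p φ g x → Rch k p φ g x x' → PZ k p φ g x' ∧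
      Le (Br k g) x' x ∧ (Rch k p φ g x' x → Pr x x')

/-! ## 4. Uniqueness -/

/-- [CZP feq] (about 120 lines) Uses `S_rk2`. As `F2PF.S_feq` without `z`. -/
def S_feq : Prop :=
  ∀ (p : ℕ) [Fact p.Prime] (k K : Type) [Field k] [CharP k p] [PerfectRing k p] [Field K]
    [Algebra k K] (n : ℕ) (g : Fin n → K) (φ : K → K) (R : K → ℝ) (ι : K ≃+* K) (s0 : K),
    CtxZ k p φ g R ι s0 → ∀ (w w' : K → ℝ) (V V' : K → ℝ ×ₗ ℝ), InZ k p φ V → InZ k p φ V' →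
    (∀ f, (ofLex (V f)).1 = w f) → (∀ f, (ofLex (V' f)).1 = w' f) →
    (∃ x1 x2, x1 ≠ 0 ∧ x2 ≠ 0 ∧ w x1 * c2 V x2 - w x2 * c2 V x1 ≠ 0) →
    Pr w w' → Dv w → Eqv V V' →
    ∃ α β : ℝ, 0 < β ∧ ∀ f, c2 V' f = α * w f + β * c2 V f

/-- [CZP fun] (about 100 lines) Uses `S_rk2`. As `F2PF.S_fun` without `z`. -/
def S_fun : Prop :=
  ∀ (p : ℕ) [Fact p.Prime] (k K : Type) [Field k] [CharP k p] [PerfectRing k p] [Field K]
    [Algebra k K] (n : ℕ) (g : Fin n → K) (φ : K → K) (R : K → ℝ) (ι : K ≃+* K) (s0 : K),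
    CtxZ k p φ g R ι s0 → ∀ (w w' : K → ℝ) (V V' : K → ℝ ×ₗ ℝ), InZ k p φ V → InZ k p φ V' →
    (∀ f, (ofLex (V f)).1 = w f) → (∀ f, (ofLex (V' f)).1 = w' f) →
    (∃ x1 x2, x1 ≠ 0 ∧ x2 ≠ 0 ∧ w x1 * c2 V x2 - w x2 * c2 V x1 ≠ 0) →
    (∃ x1 x2, x1 ≠ 0 ∧ x2 ≠ 0 ∧ w' x1 * c2 V' x2 - w' x2 * c2 V' x1 ≠ 0) →
    Pr w w' → ¬ Dv w →
    ∃ α β : ℝ, β ≠ 0 ∧ ∀ f, c2 V' f = α * w f + β * c2 V f

/-- [CZP coin] (about 200 lines) Uses `S_rk2`. As `F2PF.S_coin` without `z`. -/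
def S_coin : Prop :=
  ∀ (p : ℕ) [Fact p.Prime] (k K : Type) [Field k] [CharP k p] [PerfectRing k p] [Field K]
    [Algebra k K] (n : ℕ) (g : Fin n → K) (φ : K → K) (R : K → ℝ) (ι : K ≃+* K) (s0 : K),
    CtxZ k p φ g R ι s0 → ∀ (s s' : ℝ) (y y' : ℝ → K → ℝ) (M M' : K → Finset (ℝ × ℝ)),
    CL k p φ g 0 s y M → CL k p φ g 0 s' y' M' → Pr (y 0) (y' 0) →
    ∀ V V', RFl k p φ g y M 0 V → RFl k p φ g y' M' 0 V' →
    (∃ α β : ℝ, 0 < β ∧ ∀ f, c2 V' f = α * y 0 f + β * c2 V f) →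
    ∃ δ > 0, ∀ t, 0 < t → t < δ → ∃ t', 0 < t' ∧ t' ≤ s' ∧ Pr (y t) (y' t')

/-- [CZP loc] (about 120 lines) Uses `S_pal`, `S_anti`, `S_feq`, `S_fun`, `S_coin`. As `F2PF.S_loc` without `z`, without the case `R` (the points are at infinity: `DnL.ai`). -/
def S_loc : Prop :=
  ∀ (p : ℕ) [Fact p.Prime] (k K : Type) [Field k] [CharP k p] [PerfectRing k p] [Field K]
    [Algebra k K] (n : ℕ) (g : Fin n → K) (φ : K → K) (R : K → ℝ) (ι : K ≃+* K) (s0 : K),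
    CtxZ k p φ g R ι s0 → ∀ (s s' : ℝ) (y y' : ℝ → K → ℝ) (M M' : K → Finset (ℝ × ℝ)),
    DnL k p φ g s y M → DnL k p φ g s' y' M' → Pr (y 0) (y' 0) →
    ∃ δ > 0, ∀ t, 0 < t → t < δ → ∃ t', 0 < t' ∧ t' ≤ s' ∧ Pr (y t) (y' t')

/-- [CZP det] (about 150 lines) Uses `S_loc`, `S_dnl`. As `F2PF.S_det`. -/
def S_det : Prop :=
  ∀ (p : ℕ) [Fact p.Prime] (k K : Type) [Field k] [CharP k p] [PerfectRing k p] [Field K]
    [Algebra k K] (n : ℕ) (g : Fin n → K) (φ : K → K) (R : K → ℝ) (ι : K ≃+* K) (s0 : K),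
    CtxZ k p φ g R ι s0 → ∀ (s s' : ℝ) (y y' : ℝ → K → ℝ) (M M' : K → Finset (ℝ × ℝ)),
    DnL k p φ g s y M → DnL k p φ g s' y' M' → Pr (y 0) (y' 0) →
    (∃ t, 0 ≤ t ∧ t ≤ s ∧ Pr (y t) (y' s')) ∨ ∃ t', 0 ≤ t' ∧ t' ≤ s' ∧ Pr (y s) (y' t')

/-- [CZP tot] (about 100 lines) Uses `S_det`, `S_dnl`, `S_rch`. As `F2PF.S_tot`. -/
def S_tot : Prop :=
  ∀ (p : ℕ) [Fact p.Prime] (k K : Type) [Field k] [CharP k p] [PerfectRing k p] [Field K]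
    [Algebra k K] (n : ℕ) (g : Fin n → K) (φ : K → K) (R : K → ℝ) (ι : K ≃+* K) (s0 : K),
    CtxZ k p φ g R ι s0 → ∀ x a b : K → ℝ, Rch k p φ g x a → Rch k p φ g x b →
    Rch k p φ g a b ∨ Rch k p φ g b a

/-- [CZP btw] (about 120 lines) Uses `S_det`, `S_dnl`, `S_rch`. As `F2PF.S_btw`. -/
def S_btw : Prop :=
  ∀ (p : ℕ) [Fact p.Prime] (k K : Type) [Field k] [CharP k p] [PerfectRing k p] [Field K]
    [Algebra k K] (n : ℕ) (g : Fin n → K) (φ : K → K) (R : K → ℝ) (ι : K ≃+* K) (s0 : K),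
    CtxZ k p φ g R ι s0 → ∀ (s : ℝ) (y : ℝ → K → ℝ) (M : K → Finset (ℝ × ℝ)),
    DnL k p φ g s y M → ∀ x v b : K → ℝ, Pr x (y 0) → Pr (y s) b → Rch k p φ g x v →
    Rch k p φ g v b → ∃ t, 0 ≤ t ∧ t ≤ s ∧ Pr (y t) v

/-- [CZP asc] (about 150 lines) Uses `S_cflag`, `S_cirr`, `S_mono`, `S_segd`, `S_segl`, `S_dnl`, `S_anti`. ASCENT. As `F2PF.S_asc` without `z` (`LocZ.l2`, `LocZ.l3`; shrink the lines such that all
points are NS and at infinity: `t_dense` (c), (d)). -/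
def S_asc : Prop :=
  ∀ (p : ℕ) [Fact p.Prime] (k K : Type) [Field k] [CharP k p] [PerfectRing k p] [Field K]
    [Algebra k K] (n : ℕ) (g : Fin n → K) (φ : K → K) (R : K → ℝ) (ι : K ≃+* K) (s0 : K),
    CtxZ k p φ g R ι s0 → ∀ m : K → ℝ, PZ k p φ g m →
    ∃ v, PZ k p φ g v ∧ Dn k p φ g v m ∧ ¬ Pr v m

/-- [CZP nsn] (about 150 lines) Uses `S_mono`, `S_anti`. Near a semi-good end point of a line (all points at infinity) all points are NS and the line descends towards the end point.  As `F2PF.S_nsn`, with `LocZ.E1` instead of `S_cS`: in step (1) choose `q ∈ (0, ε1)`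
with `y q` NS: it exists by `LocZ.E1` for the line restricted to `[0, ε1]`. -/
def S_nsn : Prop :=
  ∀ (p : ℕ) [Fact p.Prime] (k K : Type) [Field k] [CharP k p] [PerfectRing k p] [Field K]
    [Algebra k K] (n : ℕ) (g : Fin n → K) (φ : K → K) (R : K → ℝ) (ι : K ≃+* K) (s0 : K),
    CtxZ k p φ g R ι s0 → ∀ (s : ℝ) (y : ℝ → K → ℝ) (M : K → Finset (ℝ × ℝ)),
    CL k p φ g 0 s y M → (∀ t, 0 ≤ t → t ≤ s → AtInf (Br k g) (y t)) → SG (Br k g) (y 0) →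
    (∀ t, 0 < t → t < s → ¬ SG (Br k g) (y t)) ∧ ∀ t, 0 < t → t < s → DesL (Br k g) M t

end Pool.Agent.CZP
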