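import Pool.Agent.Lib.MP_305fdd_al.CZ.P.DefsB
import Pool.Agent.Lib.MP_305fdd_al.CZ.P.Stm

/-!
# MP_305fdd_al, `C_m * Z`, section CZ/P, part B (germs, symmetry, property Z, top and bottom): the pieces [CZP ..]

Every `def S_xx : Prop` is one independent piece; its docstring contains the complete proof.  The other statements (of `CZ/P/Stm.lean`
and of this file) may be taken as hypotheses.  The general pieces of section PF of the `F_2` project (`F2PF.t_line`, `t_crev`, `t_pr`, `t_rfl`, `t_lfl`, `t_irr`,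
`t_dense`, `t_in`, `t_refl`, `t_shift`, `t_germ`, `t_pers`, `t_persL`, `t_key`, `t_keyL`, `t_nsg`, `t_val`, `t_clo`, `t_cloL`, `t_sgn`, `t_strict`, `t_lim`, `t_inter`, `t_rsh`, ..) are theorems: import
`F2/PF/Main.lean`.

Conventions.  `B = Br k g`; NS = not semi-good (`¬ SG B v`); `v ~ v'` means `Pr v v'`; `I = {0 ≠ f ∈ B, 0 < R f}`; `v ∘ ι` is `fun f => v (ι f)`.
`InP σ x` (`x ∈ P_σ`), `Germ σ s Y M`, .. abbreviate `InP k p φ g R s0 σ x` etc.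
`S_anti` is cited by its parts (a) antisymmetry, (b) points of a line, (c) semi-good implies at infinity, (d) `AtInf v ↔ ¬ R ~ v`, (e) `R` is NS.
`t_dense`: (a) density, (b) continuity, (c) NS is open, (d) `AtInf` is open.  `S_inp` is cited by its parts (a) .. (h).
A line is nontrivial at every point (`t_line`), so by `S_anti` (b), (d) at most one point of a line is `~ R`, all others are at infinity.
-/

set_option autoImplicit false

namespace Pool.Agent.CZP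

open MvPolynomial Pool.Agent.F2Ch Pool.Agent.F2PF

/-! ## 1. Symmetry -/

/-- [CZP idn] (about 150 lines) TRANSPORT BY `ι`.
Proof. `R ∘ ι = R`: `LocZ.iR`.  `B` is invariant in both directions (`LocZ.iB`) and `ι` is bijective, so all statements with `∀ f ∈ B` or `∃ f ∈ B` are invariant: `SG`, `AtInf`, `Le`, `PT`, `BT`, `DR`, `DL` (the condition for `M ∘ ι` at `f` is the condition for `M` at `ι f`, and `ι f` runs over `B - 0`).
`Dv`, `Pr`, `Eqv` are statements about all `f ∈ K`.  `Flag`: `LocZ.iinz`.  `RFl`: `iinz`; `near` for `f` is `near` for `ι f`; `nd`: `ι⁻¹ x1`, `ι⁻¹ x2`; `dr`: `DR`, `DV` are invariant.  `DnL`: `LocZ.icl` and the invariance of `SG`, `AtInf`, `DesR`.  `PZ`, `Dn`, `Rch` (`Relation.ReflTransGen.lift`). -/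
def S_idn : Prop :=
  ∀ (p : ℕ) [Fact p.Prime] (k K : Type) [Field k] [CharP k p] [PerfectRing k p] [Field K]
    [Algebra k K] (n : ℕ) (g : Fin n → K) (φ : K → K) (R : K → ℝ) (ι : K ≃+* K) (s0 : K),
    CtxZ k p φ g R ι s0 →
    (fun f => R (ι f)) = R ∧
    (∀ v : K → ℝ, (Dv (fun f => v (ι f)) ↔ Dv v) ∧ (SG (Br k g) (fun f => v (ι f)) ↔ SG (Br k g) v) ∧
      (AtInf (Br k g) (fun f => v (ι f)) ↔ AtInf (Br k g) v) ∧
      (PZ k p φ g v → PZ k p φ g (fun f => v (ι f)))) ∧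
    (∀ v v' : K → ℝ, (Le (Br k g) (fun f => v (ι f)) (fun f => v' (ι f)) ↔ Le (Br k g) v v') ∧
      (Pr (fun f => v (ι f)) (fun f => v' (ι f)) ↔ Pr v v') ∧
      (Rch k p φ g v v' → Rch k p φ g (fun f => v (ι f)) (fun f => v' (ι f)))) ∧
    (∀ (w : K → ℝ) (V V' : K → ℝ ×ₗ ℝ),
      (Flag k p φ w V → Flag k p φ (fun f => w (ι f)) (fun f => V (ι f))) ∧
      (PT (Br k g) (fun f => w (ι f)) (fun f => V (ι f)) ↔ PT (Br k g) w V) ∧
      (BT (Br k g) (fun f => w (ι f)) (fun f => V (ι f)) ↔ BT (Br k g) w V) ∧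
      (Eqv (fun f => V (ι f)) (fun f => V' (ι f)) ↔ Eqv V V')) ∧
    (∀ (M : K → Finset (ℝ × ℝ)) (t : ℝ), DR (Br k g) (fun f => M (ι f)) t = DR (Br k g) M t ∧
      DL (Br k g) (fun f => M (ι f)) t = DL (Br k g) M t) ∧
    (∀ (s : ℝ) (y : ℝ → K → ℝ) (M : K → Finset (ℝ × ℝ)), DnL k p φ g s y M →
      DnL k p φ g s (fun t f => y t (ι f)) (fun f => M (ι f))) ∧
    ∀ (y : ℝ → K → ℝ) (M : K → Finset (ℝ × ℝ)) (t : ℝ) (V : K → ℝ ×ₗ ℝ), RFl k p φ g y M t V →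
      RFl k p φ g (fun t f => y t (ι f)) (fun f => M (ι f)) t (fun f => V (ι f))

/-- [CZP ile] (about 80 lines) FIXED POINTS OF `ι`.
Proof. `z ∈ B`, `ι z = z`, `v z < 0` (`LocZ.ineg`); every `f` has `ι^[N] f = f` with `N > 0` (`LocZ.iper`); `ι^[j] f ∈ B - 0` for `0 ≠ f ∈ B` (`LocZ.iB`).
(a) `v (ι f) ≤ c * v f` on `B - 0`, `c > 0`.  `f = z`: `v z ≤ c * v z`, so `c ≤ 1`.  Let `f ∈ B`, `0 < v f` (NS): `v f = v (ι^[N] f) ≤ c ^ N * v f`, so `1 ≤ c ^ N`, `c = 1`.  So `v (ι f) ≤ v f` on `B - 0`, and `v f = v (ι^[N] f) ≤ v (ι f) ≤ v f`: equality on `B - 0`; for `f = 0` both are `v 0`; for `x ∈ K`, `x * b = a` with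
`a, b ∈ B`, `b ≠ 0` (`Bs.frac`, `t_line`, `Base2.gen`), `ι x * ι b = ι a` and `IsV.mul`.
(b) `v (ι f) = c * v f` for all `f`; `f = z`: `v z = c * v z`, so `c = 1`. -/
def S_ile : Prop :=
  ∀ (p : ℕ) [Fact p.Prime] (k K : Type) [Field k] [CharP k p] [PerfectRing k p] [Field K]
    [Algebra k K] (n : ℕ) (g : Fin n → K) (φ : K → K) (R : K → ℝ) (ι : K ≃+* K) (s0 : K),
    CtxZ k p φ g R ι s0 → ∀ v : K → ℝ, InZ k p φ v → AtInf (Br k g) v →
    (¬ SG (Br k g) v → Le (Br k g) (fun f => v (ι f)) v → ∀ f, v (ι f) = v f) ∧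
    (Pr v (fun f => v (ι f)) → ∀ f, v (ι f) = v f)

/-- [CZP ifix] (about 150 lines) Uses `S_rk2`. `ι` fixes the points of a line near an irrational fixed point.
Proof. `w = y t0`.  A chart of rank two at `w`: `F2Ch.t_X2` with `d = 2`, `V = w` (`Base2`): rank `r ≤ 2`; `r = 0`, `r = 1` would give `Dv w` (all values are integer multiples of one number; compare the proof of `S_cirr`), so `r = 2` with `x, ex, N, L` and the finite sets `G0`, `G1` of `Chart.unif`.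
CLAIM: if `h ≠ 0`, `w h = 0` then `y t h = 0` for all `t ∈ [s1, s2]` near `t0`.  If `t0 < s2` let `V` be the right flag at `t0` (`t_rfl`): by `S_rk2` (second part, `RFl.nd`) `V h = 0`, so `c2 V h = 0`, and `near`: `y (t0 + ε) h = 0` for small `ε`.  The same at the left if `s1 < t0` (`t_lfl`).
And if `h ≠ 0`, `0 < w h`, then `0 < y t h` for `t` near `t0` (`near`, right and left).  Apply this to the finitely many elements `g`, `ι g` for `g ∈ G0 ∪ G1` (`w (ι g) = w g`) and `h = ι (x i) / x i` (`w h = 0`): for `t` near `t0` both `y t` and `y t ∘ ι` (`LocZ.iinz`) satisfy the hypotheses of `unif`, so both are on the chart, at the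
weights `y t (x i)` and `y t (ι (x i)) = y t (x i)`: they are equal by `Chart.uniq`. -/
def S_ifix : Prop :=
  ∀ (p : ℕ) [Fact p.Prime] (k K : Type) [Field k] [CharP k p] [PerfectRing k p] [Field K]
    [Algebra k K] (n : ℕ) (g : Fin n → K) (φ : K → K) (R : K → ℝ) (ι : K ≃+* K) (s0 : K),
    CtxZ k p φ g R ι s0 → ∀ (s1 s2 : ℝ) (y : ℝ → K → ℝ) (M : K → Finset (ℝ × ℝ)),
    CL k p φ g s1 s2 y M → ∀ t0, s1 ≤ t0 → t0 ≤ s2 → ¬ Dv (y t0) →
    (∀ f, y t0 (ι f) = y t0 f) →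
    ∃ δ > 0, ∀ t, s1 ≤ t → t ≤ s2 → |t - t0| < δ → ∀ f, y t (ι f) = y t f

/-! ## 2. Flags and exponents -/

/-- [CZP lex] (about 80 lines) The values of the flags of a line are the leading exponents.
Proof. Right side: `t_germ` (a): `y t f = m.1 + t * m.2`; (b): `y t' f = m.1 + t' * m.2` for `t'` slightly larger than `t` (`J = [s1, s2]`, `t < s2`); `RFl.near`: `y (t + ε) f = y t f + ε * c2 V f`; compare for one small `ε > 0`: `c2 V f = m.2`.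
Left side: the same for the reflected line (`t_crev`, `t_refl`, `t_in` (d)), or directly from `Line.le`, `Line.ex`: for `t' < t` near `t` the minimum of `m'.1 + t' * m'.2` is attained at the exponent `m` with `IsL (M f) t m` (finitely many exponents). -/
def S_lex : Prop :=
  ∀ (p : ℕ) [Fact p.Prime] (k K : Type) [Field k] [CharP k p] [PerfectRing k p] [Field K]
    [Algebra k K] (n : ℕ) (g : Fin n → K) (φ : K → K), FracGen k g → ∀ (s1 s2 : ℝ)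
    (y : ℝ → K → ℝ) (M : K → Finset (ℝ × ℝ)), CL k p φ g s1 s2 y M →
    (∀ t, s1 ≤ t → t < s2 → ∀ V, RFl k p φ g y M t V → ∀ f ∈ Br k g, f ≠ 0 → ∀ m,
      IsR (M f) t m → y t f = m.1 + t * m.2 ∧ c2 V f = m.2) ∧
    ∀ t, s1 < t → t ≤ s2 → ∀ V, LFl k p φ g y M t V → ∀ f ∈ Br k g, f ≠ 0 → ∀ m,
      IsL (M f) t m → y t f = m.1 + t * m.2 ∧ c2 V f = -m.2

/-- [CZP lrf] (about 40 lines) The left flag is the right flag of the reversed line.
Proof. `fst`: `y (s - 0) = y s`.  `near`: `y (s - (0 + ε))`.  `dr` at `0`: by `t_rsh` (third part, `t = s`, `τ = 0`) `u' ∈ DR B (rsh s M) 0` iff `u = (u'.1, s * u'.1 - u'.2) ∈ DL B M s`, and `sd 0 u' = - sd s u`; `LFl.dl`: iff `(u.1, - sd s u) = (u'.1, sd 0 u') ∈ DV B (y s) (c2 V)`. -/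
def S_lrf : Prop :=
  ∀ (p : ℕ) [Fact p.Prime] (k K : Type) [Field k] [CharP k p] [PerfectRing k p] [Field K]
    [Algebra k K] (n : ℕ) (g : Fin n → K) (φ : K → K), FracGen k g → ∀ (s : ℝ)
    (y : ℝ → K → ℝ) (M : K → Finset (ℝ × ℝ)), CL k p φ g 0 s y M → ∀ V, LFl k p φ g y M s V →
    RFl k p φ g (fun τ => y (s - τ)) (rsh s M) 0 V

/-- [CZP fpb] (about 150 lines) Uses `S_cflag`, `S_mono`, `S_segd`, `S_anti`. A FLAG AT AN NS POINT AT INFINITY IS OF POLE TYPE OR OF `b_0` TYPE, not both.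
Proof. `w` is nontrivial (`AtInf`).  `S_cflag`: a line `y` on `[0, s]`, `y 0 = w`, right flag `V` at `0`; shrink it (`t_line`) such that all points are NS and at infinity (`t_dense` (c), (d) at `t0 = 0`).  `S_mono` on `[0, s]`.
(i) `DesR` on `(0, s)`: `S_segd` with `t = 0`, `t' = s / 2`: `DnL (s / 2) y M` (`y (0 + τ) = y τ`, `sh 0 M = M`).  `u ∈ DR B M 0`, `0 < sd 0 u = u.2`: `(u.1, u.2) ∈ DV B w (c2 V)` (`RFl.dr`), divide by `u.2`: `PT`.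
(ii) `DesL` on `(0, s)`: `t_clo` at `0` with `σ = -1` (`u ∈ DL B M t'`, `sd t' u < 0`, so `u ≠ 0`): a nonzero `u ∈ DR B M 0` with `sd 0 u ≤ 0`, and `sd 0 u ≠ 0` by `t_nsg` (first part): `u.2 < 0`, `(u.1, u.2) ∈ DV B w (c2 V)`, divide by `-u.2`: `BT`.
Not both: `(μ, 1), (μ', -1) ∈ DV B w (c2 V)` are in `DR B M 0` (`RFl.dr`, `sd 0 u = u.2`), against `t_nsg` (second part). -/
def S_fpb : Prop :=
  ∀ (p : ℕ) [Fact p.Prime] (k K : Type) [Field k] [CharP k p] [PerfectRing k p] [Field K]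
    [Algebra k K] (n : ℕ) (g : Fin n → K) (φ : K → K) (R : K → ℝ) (ι : K ≃+* K) (s0 : K),
    CtxZ k p φ g R ι s0 → ∀ (w : K → ℝ) (V : K → ℝ ×ₗ ℝ), Flag k p φ w V → ¬ SG (Br k g) w →
    AtInf (Br k g) w →
    ∃ (s : ℝ) (y : ℝ → K → ℝ) (M : K → Finset (ℝ × ℝ)), CL k p φ g 0 s y M ∧ y 0 = w ∧
      RFl k p φ g y M 0 V ∧ (∀ t, 0 ≤ t → t ≤ s → ¬ SG (Br k g) (y t) ∧ AtInf (Br k g) (y t)) ∧
      ((PT (Br k g) w V ∧ ¬ BT (Br k g) w V ∧ DnL k p φ g s y M) ∨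
        (BT (Br k g) w V ∧ ¬ PT (Br k g) w V ∧ ∀ t, 0 < t → t < s → DesL (Br k g) M t))

/-! ## 3. Germs -/

/-- [CZP gex] (about 100 lines) Uses `S_cflag`, `S_anti`, `S_idn`. EXISTENCE OF GERMS, restriction.
Proof. `V` from `LocZ.sex` if `0 < σ`, `V ∘ ι` (a flag at `R ∘ ι = R` by `S_idn`; `c2 V (ι s0) < 0` by `LocZ.sio`) if `σ < 0`: a flag `V` at `R` with `0 < σ * c2 V s0`.  `R` is nontrivial (`Rpos`).  `S_cflag`: a line with `y 0 = R` and right flag `V`.  Shrink: NS (`S_anti` (e), `t_dense` (c)); `AtInf (y t)` for `0 < t`: otherwise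
`R ~ y t` (`S_anti` (d)), `y 0 ~ y t`, `t = 0` (`S_anti` (b)); `RFl.near` for `s0`: `y t s0 = R s0 + t * c2 V s0 = t * c2 V s0` for small `t > 0` (`LocZ.sB`).  Restriction: `t_line`. -/
def S_gex : Prop :=
  ∀ (p : ℕ) [Fact p.Prime] (k K : Type) [Field k] [CharP k p] [PerfectRing k p] [Field K]
    [Algebra k K] (n : ℕ) (g : Fin n → K) (φ : K → K) (R : K → ℝ) (ι : K ≃+* K) (s0 : K),
    CtxZ k p φ g R ι s0 → ∀ σ : ℝ, σ ≠ 0 →
    (∃ s y M, Germ k p φ g R s0 σ s y M) ∧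
    ∀ s y M, Germ k p φ g R s0 σ s y M → ∀ s', 0 < s' → s' ≤ s → Germ k p φ g R s0 σ s' y M

/-- [CZP gpr] (about 150 lines) Uses `S_pal`, `S_segd`, `S_dnl`. PROPERTIES OF GERMS.
Proof. `PZ`: `S_pal`.  Exponents: for `0 ≠ f ∈ B` and `m ∈ M f`: `R f = y 0 f ≤ m.1 + 0 * m.2 = m.1` (`Line.le` at `0`).  So `u = (-1, 0)` has `dot u m = - m.1 ≤ - R f ≤ 0` (`Rnn`), and `u ∈ DR B M t`, `u ∈ DL B M t` for all `t`, `sd t u = t`.  For `0 < a < b ≤ s`: `DesR` on `(a, b)`; `S_segd` for the line on `[a, b]` (`t_line`) gives the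
segment, `S_dnl` gives `Dn (y a) (y b)` (`y (a + 0) = y a`, `y (a + (b - a)) = y b`); for `a = b` the chain is empty.  `ZA (y t)`: the segment from `y (t / 2)` to `y t`, exponents `sh (t / 2) M`; by `t_rsh` (second part, `t / 2`, `τ = t / 2`) `u' = (-1, t / 2)` is in `DL B (sh (t / 2) M) (t / 2)` and `sd (t / 2) u' = sd t u = t > 0`;
strict: the elements of `sh (t / 2) M f` are `(m.1 + t / 2 * m.2, m.2)`, `m ∈ M f`, and `dot u'` of it is `- m.1 ≤ - R f < 0` if `0 < R f`.  Flags: `t_rfl`, `S_pal` (`R` is divisorial: `Rdv`), `Germ.zero`: `Flag R V`; `RFl.near` for `s0`: `y ε s0 = ε * c2 V s0` for small `ε`, and `0 < σ * y ε s0`. -/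
def S_gpr : Prop :=
  ∀ (p : ℕ) [Fact p.Prime] (k K : Type) [Field k] [CharP k p] [PerfectRing k p] [Field K]
    [Algebra k K] (n : ℕ) (g : Fin n → K) (φ : K → K) (R : K → ℝ) (ι : K ≃+* K) (s0 : K),
    CtxZ k p φ g R ι s0 → ∀ σ s y M, Germ k p φ g R s0 σ s y M →
    (∀ t, 0 < t → t ≤ s → PZ k p φ g (y t) ∧ ZA k p φ g R (y t)) ∧
    (∀ a b, 0 < a → a < b → b ≤ s → DnL k p φ g (b - a) (fun τ => y (a + τ)) (sh a M)) ∧
    (∀ a b, 0 < a → a ≤ b → b ≤ s → Rch k p φ g (y a) (y b)) ∧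
    ∀ V, RFl k p φ g y M 0 V → Flag k p φ R V ∧ 0 < σ * c2 V s0

/-- [CZP rco] (about 120 lines) Uses `S_gpr`, `S_pal`, `S_feq`, `S_coin`. EVERY LINE WHICH STARTS AT `R` COINCIDES NEAR `R` WITH THE GERMS OF ITS SIGN.
Proof. `R ~ y' 0`, so `y' 0` is divisorial; `V'` is a flag at `y' 0` (`S_pal`); rescale it to a flag `V''` at `R` with `c2 V'' = c2 V'`, `Eqv V' V''` (`t_pr`, third part): `c2 V' s0 ≠ 0` by `LocZ.sne`.  Let `Germ σ s Y M`, `0 < σ * c2 V' s0`, `V` the right flag of `Y` at `0` (`t_rfl`): `Flag R V`, `0 < σ * c2 V s0` (`S_gpr`).  So `0 < c2 V s0 ↔ 0 < c2 V' s0` and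
`LocZ.sun`: `Eqv V'' V`, so `Eqv V' V`.  `S_feq` for `w = y' 0`, `w' = R`, `V'`, `V`: `c2 V = α * y' 0 + β * c2 V'`, `β > 0`.  `S_coin` for `y'`, `Y`. -/
def S_rco : Prop :=
  ∀ (p : ℕ) [Fact p.Prime] (k K : Type) [Field k] [CharP k p] [PerfectRing k p] [Field K]
    [Algebra k K] (n : ℕ) (g : Fin n → K) (φ : K → K) (R : K → ℝ) (ι : K ≃+* K) (s0 : K),
    CtxZ k p φ g R ι s0 → ∀ (s' : ℝ) (y' : ℝ → K → ℝ) (M' : K → Finset (ℝ × ℝ)),
    CL k p φ g 0 s' y' M' → Pr R (y' 0) → ∀ V', RFl k p φ g y' M' 0 V' →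
    c2 V' s0 ≠ 0 ∧ ∀ σ s Y M, Germ k p φ g R s0 σ s Y M → 0 < σ * c2 V' s0 →
      ∃ δ > 0, ∀ t, 0 < t → t < δ → ∃ t', 0 < t' ∧ t' ≤ s ∧ Pr (y' t) (Y t')

/-- [CZP gio] (about 80 lines) Uses `S_gpr`, `S_idn`, `S_gex`. `ι` exchanges the signs of the germs.
Proof. `LocZ.icl`; `Y 0 ∘ ι = R ∘ ι = R`; NS and `AtInf`: `S_idn`.  Sign: `V` = right flag at `0` (`t_rfl`), `Flag R V`, `0 < σ * c2 V s0` (`S_gpr`).  `V ∘ ι` is a flag at `R` (`S_idn`), so `c2 V (ι s0) ≠ 0` (`LocZ.sne`) and `LocZ.sio` (`0 < c2 V s0 ↔ c2 V (ι s0) < 0`): `0 < (-σ) * c2 V (ι s0)`.  `RFl.near` for `ι s0`: `Y t (ι s0) = R (ι s0) + t * c2 V (ι s0) =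
t * c2 V (ι s0)` for small `t > 0` (`iR`, `sB`).  Take `s'` small. -/
def S_gio : Prop :=
  ∀ (p : ℕ) [Fact p.Prime] (k K : Type) [Field k] [CharP k p] [PerfectRing k p] [Field K]
    [Algebra k K] (n : ℕ) (g : Fin n → K) (φ : K → K) (R : K → ℝ) (ι : K ≃+* K) (s0 : K),
    CtxZ k p φ g R ι s0 → ∀ σ s Y M, Germ k p φ g R s0 σ s Y M →
    ∃ s', 0 < s' ∧ s' ≤ s ∧
      Germ k p φ g R s0 (-σ) s' (fun t f => Y t (ι f)) (fun f => M (ι f))

/-- [CZP inp] (about 150 lines) Uses `S_gpr`, `S_rco`, `S_gio`, `S_rch`, `S_tot`, `S_idn`, `S_gex`. BASIC PROPERTIES OF `P_σ`.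
Proof. (a) `S_gpr`, `S_rch`.  (b) transitivity.  (c) (a), `S_rch` (first part), (b).  (h) the empty chain.  (e) a germ of sign `σ` is a germ of sign `σ'`: `0 < σ * a` implies `0 < σ' * a`.
(d) `x ∈ P_σ` via `Germ σ s Y M`, `e`; `S_gio`: `s'`; `e' = min e s'`: `Rch (Y e') (Y e)` (`S_gpr`), so `Rch (Y e') x`, `Rch (Y e' ∘ ι) (x ∘ ι)` (`S_idn`).
(f) `x ∈ P_σ` via `Germ σ s1 Y1 M1`, `e1`; `S_rco` for the line `Y` (`Y 0 = R`; right flag `V` by `t_rfl`, sign `σ` by `S_gpr`) and the germ `Y1` restricted to `[0, e1]` (`S_gex`): for small `e > 0`: `Y e ~ Y1 t'` with `0 < t' ≤ e1`, so `Rch (Y e) (Y1 t')` (`S_rch`, first part, `PZ (Y e)`), `Rch (Y1 t') (Y1 e1)` (`S_gpr`), `Rch (Y1 e1) x`.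
(`σ ≠ 0` since `0 < σ * Y s s0`.)  (g) `x, x' ∈ P_σ`: with one germ `Y` (from `x`) and a small `e`: `Rch (Y e) x` and `Rch (Y e) x'` by (f); `S_tot`. -/
def S_inp : Prop :=
  ∀ (p : ℕ) [Fact p.Prime] (k K : Type) [Field k] [CharP k p] [PerfectRing k p] [Field K]
    [Algebra k K] (n : ℕ) (g : Fin n → K) (φ : K → K) (R : K → ℝ) (ι : K ≃+* K) (s0 : K),
    CtxZ k p φ g R ι s0 → ∀ (σ : ℝ) (x : K → ℝ),
    (InP k p φ g R s0 σ x → PZ k p φ g x) ∧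
    (InP k p φ g R s0 σ x → ∀ x', Rch k p φ g x x' → InP k p φ g R s0 σ x') ∧
    (InP k p φ g R s0 σ x → ∀ x', Pr x x' → InP k p φ g R s0 σ x') ∧
    (InP k p φ g R s0 σ x → InP k p φ g R s0 (-σ) (fun f => x (ι f))) ∧
    (InP k p φ g R s0 σ x → ∀ σ', 0 < σ * σ' → InP k p φ g R s0 σ' x) ∧
    (InP k p φ g R s0 σ x → ∀ s Y M, Germ k p φ g R s0 σ s Y M →
      ∃ e0 > 0, e0 ≤ s ∧ ∀ e, 0 < e → e ≤ e0 → Rch k p φ g (Y e) x) ∧
    (InP k p φ g R s0 σ x → ∀ x', InP k p φ g R s0 σ x' →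
      Rch k p φ g x x' ∨ Rch k p φ g x' x) ∧
    ∀ s Y M, Germ k p φ g R s0 σ s Y M → ∀ e, 0 < e → e ≤ s → InP k p φ g R s0 σ (Y e)

/-- [CZP up] (about 250 lines) Uses `S_asc`, `S_ult`, `S_rch`, `S_sega`, `S_segd`, `S_dnl`, `S_anti`, `S_pal`, `S_rco`, `S_gex`, `S_inp`. EVERY POINT IS IN `P_σ` OR IN `P_(-σ)`.
Proof. (Compare `F2/PF/P_zorn.lean`.)  Suppose that `x` is in neither.  `X = {v // PZ v ∧ Rch v x}`; by `S_inp` (b) no point of `X` is in `P_σ` or `P_(-σ)`, hence (`S_inp` (e)) in no `P_σ'`, `σ' ≠ 0`.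
CHAINS ARE BOUNDED (for `r v v' := Rch v' v`).  Let `C ⊆ X` be a nonempty chain, `U` an ultrafilter on `C` containing all sets `{v ∈ C | Rch v c}`.  `S_ult`:
(a) `v0 ∈ C` with `v0 ~ v` for almost all `v`: then `v0` is an upper bound.
(b) `CL 0 s y M` and for all `δ > 0` almost all `v ∈ C` are `~ y t` with `0 < t < δ`, `t < s`.  Shrink `s` such that all `y t`, `0 < t ≤ s`, are at infinity (at most one point of the line is `~ R`: `S_anti` (b), (d)).  Choose one such `v0 ~ y s1`, `0 < s1 < s`.  For `t1 ∈ (0, s1]` choose `v ∈ C` with `Rch v v0` and `v ~ y t'`, `0 < t' < t1`: `Le B (y s1) (y t')`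
(`S_rch`, scaling), `y s1` NS: by `S_sega` on `[t', s1]` the points of `[t', s1]` are NS and `DesR` holds on `(t', s1)`.  So for all `t ∈ (0, s1]`: `y t` NS, at infinity, and `DesR B M t` for `t < s1`.
If `AtInf (y 0)`: for `0 < t < s1`, `Le B (y s1) (y t)` (`S_segd`, `S_dnl` on `[t, s1]`) and `y t f → y 0 f` (`t_dense` (b)); `t_lim` (first part, `b = y s1`, `x = y 0`): `Le B (y s1) (y 0)`, so `y 0` is NS.  `S_segd` on `[0, s1]`: for `0 < t ≤ s1` the line `τ ↦ y (0 + τ)` on `[0, t]` is descending.  So `PZ (y 0)` (`S_pal`), `Dn (y 0) v` for all `v ~ y t`, `0 < t ≤ s1`; `Rch (y 0) x`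
via `v0`; for `c ∈ C` there is `v ∈ C` with `Rch v c` and `v ~ y t`, `0 < t < s1`: `Rch (y 0) c`.  So `y 0` is an upper bound in `X`.
If not `AtInf (y 0)`: `R ~ y 0` (`S_anti` (d)).  `V'` = right flag at `0` (`t_rfl`); `S_rco`: `c2 V' s0 ≠ 0`; a germ `Y` of sign `σ' = c2 V' s0` (`S_gex`); `δ`; there is `v ∈ C` with `v ~ y t`, `0 < t < δ`, so `v ~ Y t'`; `Y t' ∈ P_σ'` (`S_inp` (h)), so `v ∈ P_σ'` (`S_inp` (c)), a contradiction.
END.  Let `m ∈ X` be maximal.  `S_asc` gives `v` with `PZ v`, `Dn v m`, not `v ~ m`; `v ∈ X`, so `Rch m v`, and `S_rch` gives `v ~ m`, a contradiction. -/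
def S_up : Prop :=
  ∀ (p : ℕ) [Fact p.Prime] (k K : Type) [Field k] [CharP k p] [PerfectRing k p] [Field K]
    [Algebra k K] (n : ℕ) (g : Fin n → K) (φ : K → K) (R : K → ℝ) (ι : K ≃+* K) (s0 : K),
    CtxZ k p φ g R ι s0 → ∀ σ : ℝ, σ ≠ 0 → ∀ x : K → ℝ, PZ k p φ g x →
    InP k p φ g R s0 σ x ∨ InP k p φ g R s0 (-σ) x

/-- [CZP sep] (about 100 lines) Uses `S_gpr`, `S_inp`, `S_rch`, `S_btw`, `S_anti`. THE GERMS ARE SEPARATED.
Proof. Suppose not: for every `e0 ∈ (0, s]` there is `e ≤ e0` with `Y e ∈ P_(-σ)`; by `S_gpr` (`Rch (Y e) (Y e')` for `e ≤ e'`) and `S_inp` (b) all `Y e`, `0 < e ≤ s`, are in `P_(-σ)`.  `Y s ∈ P_(-σ)`: `Germ (-σ) s' Y' M'`, `0 < d ≤ s'`, `Rch (Y' d) (Y s)`; `Y' d ∈ P_(-σ)`.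
There is `e < s` with `¬ Rch (Y' d) (Y e)`: otherwise `Le B (Y e) (Y' d)` for all `e ∈ (0, s)` (`S_rch`), `Y e f → Y 0 f = R f` for `e → 0` (`t_dense` (b)), `AtInf (Y' d)`, `R` NS (`S_anti` (e)): `t_lim` (second part) gives `Le B R (Y' d)`, so `0 ≤ R f ≤ c * Y' d f` on `B - 0`, against `AtInf (Y' d)`.
By `S_inp` (g) (for `-σ`): `Rch (Y e) (Y' d)`.  The line `τ ↦ Y (e + τ)` on `[0, s - e]` is descending (`S_gpr`); `S_btw` (`x = Y e`, `v = Y' d`, `b = Y s`): `Y e' ~ Y' d` with `e ≤ e' ≤ s`.  But `0 < σ * Y e' s0` and `0 < (-σ) * Y' d s0`: contradiction. -/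
def S_sep : Prop :=
  ∀ (p : ℕ) [Fact p.Prime] (k K : Type) [Field k] [CharP k p] [PerfectRing k p] [Field K]
    [Algebra k K] (n : ℕ) (g : Fin n → K) (φ : K → K) (R : K → ℝ) (ι : K ≃+* K) (s0 : K),
    CtxZ k p φ g R ι s0 → ∀ σ s Y M, Germ k p φ g R s0 σ s Y M →
    ∃ e0 > 0, e0 ≤ s ∧ ∀ e, 0 < e → e ≤ e0 → ¬ InP k p φ g R s0 (-σ) (Y e)

/-- [CZP cls] (about 150 lines) Uses `S_dnl`, `S_rch`, `S_tot`, `S_btw`, `S_anti`. CLOSEDNESS of the set below a point.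
Proof. Head induction on the chain `Rch a (y s)` for the statement: `PZ a` and (`Rch a (y t)` for all `t ∈ (0, s]`) implies `Rch a (y 0)`; then take `a = x`.
Start `a = y s`: `Rch (y s) (y (s / 2))` and `Rch (y (s / 2)) (y s)` (`S_dnl`), so `y s ~ y (s / 2)` (`S_rch`), against `S_anti` (b).
Step `Dn a a'`, `Rch a' (y s)` (`PZ a'` by `S_rch`).  If `Rch a' (y t)` for all `t ∈ (0, s]`: induction hypothesis.  Otherwise there is `t0 ∈ (0, s]` with `¬ Rch a' (y t0)`; then `¬ Rch a' (y t)` for `0 < t ≤ t0` (`S_dnl`: `Rch (y t) (y t0)`), so `Rch (y t) a'` by `S_tot` (top `a`).  If `a ~ a'` then `Rch a' a` (`S_rch`, first part), `Rch a' (y t0)`, a contradiction.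
So there is `DnL s1 y1 M1` with `a ~ y1 0`, `y1 s1 ~ a'`; `S_btw` (`x = a`, `v = y t`, `b = a'`): for every `t ∈ (0, t0]` there is `t1 ∈ [0, s1]` with `y1 t1 ~ y t`.  Take `t_n → 0`, a subsequence with `t1_n → t1`, `y t_n = c_n * y1 t1_n`.  There is `f ∈ B - 0` with `y1 t1 f ≠ 0`; by continuity (`t_dense` (b)) `c_n → c := y 0 f / y1 t1 f ≥ 0` and
`y 0 h = c * y1 t1 h` for `h ∈ B - 0`, hence for all `h` (`Bs.frac`), `c ≠ 0` as `y 0` is nontrivial: `y1 t1 ~ y 0` (compare `F2/PF/P_det.lean`, step (1)).  `Rch a (y1 t1)` (`S_rch` first part, `S_dnl`), so `Rch a (y 0)`. -/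
def S_cls : Prop :=
  ∀ (p : ℕ) [Fact p.Prime] (k K : Type) [Field k] [CharP k p] [PerfectRing k p] [Field K]
    [Algebra k K] (n : ℕ) (g : Fin n → K) (φ : K → K) (R : K → ℝ) (ι : K ≃+* K) (s0 : K),
    CtxZ k p φ g R ι s0 → ∀ (s : ℝ) (y : ℝ → K → ℝ) (M : K → Finset (ℝ × ℝ)),
    DnL k p φ g s y M → ∀ x : K → ℝ, PZ k p φ g x → (∀ t, 0 < t → t ≤ s → Rch k p φ g x (y t)) →
    Rch k p φ g x (y 0)

/-- [CZP close] (about 100 lines) Uses `S_cls`, `S_inp`, `S_dnl`, `S_rch`, `S_anti`, `S_gpr`. CLOSEDNESS OF `P_σ`.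
Proof. `y s ∈ P_σ` gives a germ `Germ σ s1 Y M1`.  CLAIM: there is `e ∈ (0, s1]` with `Rch (Y e) (y t)` for all `t ∈ (0, s]`.  Otherwise for every `e` there is `t` with `¬ Rch (Y e) (y t)`, so `Rch (y t) (Y e)` (`S_inp` (g), (h)), and `Rch (y 0) (y t)` (`S_dnl`): `Le B (Y e) (y 0)` for all `e` (`S_rch`; `PZ (y 0)` by `S_dnl`).  `Y e f → R f` for `e → 0`, `AtInf (y 0)` (`DnL.ai`),
`R` NS: `t_lim` (second part): `Le B R (y 0)`: `0 ≤ R f ≤ c * y 0 f` on `B - 0`, against `AtInf (y 0)`.  `S_cls`: `Rch (Y e) (y 0)`. -/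
def S_close : Prop :=
  ∀ (p : ℕ) [Fact p.Prime] (k K : Type) [Field k] [CharP k p] [PerfectRing k p] [Field K]
    [Algebra k K] (n : ℕ) (g : Fin n → K) (φ : K → K) (R : K → ℝ) (ι : K ≃+* K) (s0 : K),
    CtxZ k p φ g R ι s0 → ∀ (σ s : ℝ) (y : ℝ → K → ℝ) (M : K → Finset (ℝ × ℝ)),
    DnL k p φ g s y M → (∀ t, 0 < t → t ≤ s → InP k p φ g R s0 σ (y t)) →
    InP k p φ g R s0 σ (y 0)

/-! ## 4. Property Z -/

/-- [CZP zpr] (about 60 lines) Persistence of functionals, pointwise.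
Proof. As in the proof of `F2PF.S_pers`: `m.1 + t * m.2 ≤ m'.1 + t * m'.2` and `m'.1 + t' * m'.2 ≤ m.1 + t' * m.2` (`IsR.min`, `IsL.min`); for `d = m' - m`, with `α = sd t' u / sd t u ≥ 0` and `β = (t' - t) / sd t u > 0`: `d.1 + t' * d.2 = α * (d.1 + t * d.2) + β * dot u d`, so `dot u d ≤ 0`. -/
def S_zpr : Prop :=
  ∀ (S : Finset (ℝ × ℝ)) (t t' : ℝ) (u m m' : ℝ × ℝ), t < t' → 0 < sd t u → 0 ≤ sd t' u →
    (IsR S t m ∨ IsL S t m) → (IsR S t' m' ∨ IsL S t' m') → dot u m' ≤ dot u m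

/-- [CZP fv2] (about 80 lines) An additive function which is `≤ 0` on the elements of value `0`.
Proof. (As `F2PF.S_fvert`.)  For `f, h ∈ B` with `w f = a > 0`, `w h = -b < 0`: `F = f ^ b * h ^ a ∈ B - 0`, `w F = 0`, so `b * G f + a * G h = G F ≤ 0`: `G f / a ≤ - G h / b`.  Let `lam` be the supremum of the `G f / w f` over the `f ∈ B - 0` with `w f > 0` (nonempty, bounded above).  Then `G f ≤ lam * w f` if `w f > 0`, `lam ≤ - G h / b`, so `G h ≤ lam * w h` if `w h < 0`. -/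
def S_fv2 : Prop :=
  ∀ (K : Type) [Field K] (B : Set K), Bs B → ∀ (w : K → ℤ) (G : K → ℝ), IsV w →
    (∀ f h, f ≠ 0 → h ≠ 0 → G (f * h) = G f + G h) → (∃ f ∈ B, f ≠ 0 ∧ 0 < w f) →
    (∃ f ∈ B, f ≠ 0 ∧ w f < 0) → (∀ h ∈ B, h ≠ 0 → w h = 0 → G h ≤ 0) →
    ∃ lam : ℝ, ∀ f ∈ B, f ≠ 0 → G f ≤ lam * (w f : ℝ)

/-- [CZP zper] (about 60 lines) Uses `S_zpr`. Property Z persists along a descending segment.
Proof. `u ∈ DR B M 0`, `0 < sd 0 u`, strict.  `t_key` (b) (no semi-good points): `0 < sd t u`; `t_pers`: `u ∈ DR B M t ∩ DL B M t`.  Strict: for `f ∈ I`, `m` the right exponent at `0` (`t_in` (a)), `m'` the left exponent at `t`: `dot u m' ≤ dot u m < 0` (`S_zpr`). -/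
def S_zper : Prop :=
  ∀ (p : ℕ) [Fact p.Prime] (k K : Type) [Field k] [CharP k p] [PerfectRing k p] [Field K]
    [Algebra k K] (n : ℕ) (g : Fin n → K) (φ : K → K) (R : K → ℝ) (ι : K ≃+* K) (s0 : K),
    CtxZ k p φ g R ι s0 → ∀ (s : ℝ) (y : ℝ → K → ℝ) (M : K → Finset (ℝ × ℝ)),
    DnL k p φ g s y M → ZR R (Br k g) M 0 → ∀ t, 0 < t → t ≤ s → ZL R (Br k g) M t

/-- [CZP zdep] (about 250 lines) Uses `S_fv2`, `S_lex`, `S_fun`, `S_rk2`, `S_pal`, `S_dnl`. PROPERTY Z AT THE DEPARTURE.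
Proof. `ZA x`: `DnL s1 y1 M1`, `y1 s1 ~ x ~ y 0 =: w`, `y1 s1 = c * w`, `c > 0`; `u ∈ DL B M1 s1`, `0 < sd s1 u`, strict.  `w` is NS and at infinity (`DnL.ns`, `DnL.ai`).  `V` = right flag of `y` at `0`, `V1` = left flag of `y1` at `s1` (`t_rfl`, `t_lfl`); rescale `V1` to `V1'` with first component `w`, `c2 V1' = c2 V1` (`t_pr`).
(0) `S_lex` for `f ∈ B - 0` and the left exponent `m` of `M1 f` at `s1`: `m.1 + s1 * m.2 = c * w f`, `m.2 = - c2 V1 f`, `dot u m = u.1 * (m.1 + s1 * m.2) + sd s1 u * m.2 = u.1 * c * w f - sd s1 u * c2 V1 f`.  So with `a = u.1 * c / sd s1 u`: `a * w f ≤ c2 V1' f` on `B - 0`, with `<` if `0 < R f`.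
(1) It is enough to find `lam` with `c2 V f ≤ lam * w f` on `B - 0`, and `<` if `0 < R f`: then `v = (-lam, 1)` is in `DV B w (c2 V)`, `v ∈ DR B M 0` (`RFl.dr`, `sd 0 v = v.2 = 1`), and `S_lex`: for the right exponent `m` at `0`: `m.1 = w f`, `m.2 = c2 V f`, `dot v m = - lam * w f + c2 V f < 0` for `f ∈ I`.
(2) `Dv w`: `V` and `V1'` are flags at `w` (`S_pal`), `V` is of pole type (`DnL.des`: `u0 ∈ DR B M 0`, `0 < sd 0 u0 = u0.2`; `RFl.dr`, divide), `V1'` of `b_0` type ((0): `(a, -1) ∈ DV B w (c2 V1')`).  `LocZ.l6`: `ρ > 0`, `c2 V h + ρ * c2 V1' h ≤ 0` if `w h = 0`.  `w f = (w0 f) • γ` with `w0 : K → ℤ` (`Dv`, `w0 0 = 0`), `IsV w0`; `S_fv2` with `G = c2 V + ρ * c2 V1'`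
(`w0` takes both signs on `B`): `lam0`; so `c2 V f + ρ * c2 V1' f ≤ (lam0 / γ) * w f` on `B - 0`, and `c2 V f ≤ (lam0 / γ - ρ * a) * w f` with `<` if `0 < R f`.
(3) `¬ Dv w`: `S_fun` for `V`, `V1'` (`RFl.nd`, `LFl.nd`): `c2 V1' = α * w + β * c2 V`, `β ≠ 0`.  `0 < β` is impossible: `a * w ≤ α * w + β * c2 V` gives `(((a - α) / β), -1) ∈ DV B w (c2 V)`, so it is in `DR B M 0` with `sd 0 = -1`, against `t_nsg` (second part) with the element of `DnL.des`.  So `β < 0`, and `β * c2 V f ≥ (a - α) * w f` (`>` for `f ∈ I`) gives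
`c2 V f ≤ ((a - α) / β) * w f` (`<` for `f ∈ I`). -/
def S_zdep : Prop :=
  ∀ (p : ℕ) [Fact p.Prime] (k K : Type) [Field k] [CharP k p] [PerfectRing k p] [Field K]
    [Algebra k K] (n : ℕ) (g : Fin n → K) (φ : K → K) (R : K → ℝ) (ι : K ≃+* K) (s0 : K),
    CtxZ k p φ g R ι s0 → ∀ (x : K → ℝ) (s : ℝ) (y : ℝ → K → ℝ) (M : K → Finset (ℝ × ℝ)),
    ZA k p φ g R x → DnL k p φ g s y M → Pr x (y 0) → ZR R (Br k g) M 0

/-- [CZP zall] (about 60 lines) Uses `S_gpr`, `S_zdep`, `S_zper`. ALL POINTS OF `P_σ` HAVE PROPERTY Z.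
Proof. `InP`: a chain from `Y e` to `x`; `ZA (Y e)` (`S_gpr`).  Induction on the chain: step `Dn x x'`: if `x ~ x'` then `ZA x'` (`t_pr`: `Pr` is transitive).  Otherwise `DnL s y M`, `x ~ y 0`, `y s ~ x'`: `S_zdep`: `ZR .. M 0`; `S_zper` at `t = s`: `ZL .. M s`; so `ZA x'`. -/
def S_zall : Prop :=
  ∀ (p : ℕ) [Fact p.Prime] (k K : Type) [Field k] [CharP k p] [PerfectRing k p] [Field K]
    [Algebra k K] (n : ℕ) (g : Fin n → K) (φ : K → K) (R : K → ℝ) (ι : K ≃+* K) (s0 : K),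
    CtxZ k p φ g R ι s0 → ∀ (σ : ℝ) (x : K → ℝ), InP k p φ g R s0 σ x → ZA k p φ g R x

/-- [CZP zbot] (about 80 lines) Uses `S_zall`, `S_zdep`, `S_segl`, `S_inp`. Property Z on a line which descends to the left.
Proof. `0 < t < s`; `0 < t0 < t`.  All points are NS and at infinity (`S_inp` (a), `PZ`).  `S_segl` on `[t0, t]` (line restricted, `t_line`): `DnL (t - t0) (fun τ => y (t - τ)) (rsh t M)`.  `S_zall`: `ZA (y t)`; `S_zdep`: `v ∈ DR B (rsh t M) 0`, `0 < sd 0 v`, strict.  `u = (v.1, t * v.1 - v.2) ∈ DL B M t`, `sd t u = - sd 0 v < 0` (`t_rsh`, third part, `τ = 0`).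
Strict: for the left exponent `m` of `M f` at `t` the pair `m' = (m.1 + t * m.2, - m.2)` is the right exponent of `rsh t M f` at `0` and `dot v m' = dot u m`. -/
def S_zbot : Prop :=
  ∀ (p : ℕ) [Fact p.Prime] (k K : Type) [Field k] [CharP k p] [PerfectRing k p] [Field K]
    [Algebra k K] (n : ℕ) (g : Fin n → K) (φ : K → K) (R : K → ℝ) (ι : K ≃+* K) (s0 : K),
    CtxZ k p φ g R ι s0 → ∀ (σ s : ℝ) (y : ℝ → K → ℝ) (M : K → Finset (ℝ × ℝ)),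
    CL k p φ g 0 s y M → (∀ t, 0 < t → t ≤ s → InP k p φ g R s0 σ (y t)) →
    (∀ t, 0 < t → t < s → DesL (Br k g) M t) → ∀ t, 0 < t → t < s → ZD R (Br k g) M t

/-! ## 5. Two ascending lines -/

/-- [CZP two] (about 250 lines) Uses `S_inp`, `S_segl`, `S_dnl`, `S_btw`, `S_rch`, `S_anti`. TWO ASCENDING LINES IN `P_σ` FROM THE SAME POINT ARE EQUIVALENT.  (As `F2/PF/P_two.lean`.)
Proof. (0) All points `y t`, `y' t` (`t > 0`) are NS and at infinity, and any two of them are comparable (`S_inp` (a), (g)).  (1) For `0 < t < t' ≤ s` the line `τ ↦ y (t' - τ)` on `[0, t' - t]` is descending (`S_segl` on `[t, t']`), similarly for `y'`.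
(2) CLAIM: for `0 < t < s` there is `ε0 > 0` such that `Rch (y t) (y' ε)` for all `0 < ε < ε0`, `ε ≤ s'`.  Otherwise there are arbitrarily small `ε` with `Rch (y' ε) (y t)`, so `Le B (y t) (y' ε)` (`S_rch`); `t_lim` (first part; `b = y t`, `x = y' 0`, continuity `t_dense` (b), `AtInf (y' 0)` by scaling): `Le B (y t) (y' 0)`, so `Le B (y t) (y 0)`.  If `y 0` is semi-good then
so is `y t`: contradiction.  If `y 0` is NS then `S_segl` on `[0, t]` and `S_dnl` give `Le B (y 0) (y t)`, so `y 0 ~ y t` and `t = 0` (`S_anti` (a), (b)): contradiction.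
(3) In the same way for `0 < ε < s'` there is `t0 > 0` with `Rch (y' ε) (y t)` for all `0 < t < t0`, `t ≤ s`.
(4) Let `0 < t1 < s`, `ε0` from (2) for `t1`, and `0 < ε < ε0`, `ε < s'`.  By (3) there is `0 < t2 < t1` with `Rch (y' ε) (y t2)`.  `S_btw` for the line `τ ↦ y (t1 - τ)` on `[0, t1 - t2]`, `x = y t1`, `v = y' ε`, `b = y t2`: `y' ε ~ y τ'` for some `τ' ∈ [t2, t1]`.  This is the first conclusion.
(5) Let `0 < V f` (so `f ≠ 0`).  By `near`, `0 < y τ f` for all small `τ > 0`, so by (4) `0 < y' ε f` for all small `ε > 0`.  If `V' f ≤ 0` then by `near` `y' ε f ≤ 0` for small `ε`: contradiction.  So `0 < V' f`.  Conversely let `0 < V' f` and suppose `V f ≤ 0`: by `near` `y τ f ≤ 0` for small `τ`, so `y' ε f ≤ 0` for small `ε` by (4), but `near` for `V'` gives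
`0 < y' ε f`: contradiction. -/
def S_two : Prop :=
  ∀ (p : ℕ) [Fact p.Prime] (k K : Type) [Field k] [CharP k p] [PerfectRing k p] [Field K]
    [Algebra k K] (n : ℕ) (g : Fin n → K) (φ : K → K) (R : K → ℝ) (ι : K ≃+* K) (s0 : K),
    CtxZ k p φ g R ι s0 → ∀ (σ s s' : ℝ) (y y' : ℝ → K → ℝ) (M M' : K → Finset (ℝ × ℝ)),
    CL k p φ g 0 s y M → CL k p φ g 0 s' y' M' → Pr (y 0) (y' 0) → AtInf (Br k g) (y 0) →
    (∀ t, 0 < t → t ≤ s → InP k p φ g R s0 σ (y t)) →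
    (∀ t, 0 < t → t ≤ s' → InP k p φ g R s0 σ (y' t)) →
    (∀ t, 0 < t → t < s → DesL (Br k g) M t) → (∀ t, 0 < t → t < s' → DesL (Br k g) M' t) →
    (∃ ε0 > 0, ∀ ε, 0 < ε → ε < ε0 → ∃ τ, 0 < τ ∧ τ ≤ s ∧ Pr (y' ε) (y τ)) ∧
    ∀ V V', RFl k p φ g y M 0 V → RFl k p φ g y' M' 0 V' → Eqv V V'

/-- [CZP tws] (about 200 lines) Uses `S_inp`, `S_segl`, `S_btw`, `S_rch`, `S_anti`. TWO ASCENDING LINES IN `P_σ` WHICH START AT SEMI-GOOD POINTS START AT THE SAME POINT.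
Proof. (0), (1) as in `S_two`.  `y 0`, `y' 0` are nontrivial and semi-good, so at infinity (`S_anti` (c)).  (2) for `0 < t < s` there is `ε0 > 0` with `Rch (y t) (y' ε)` for all `0 < ε < ε0`, `ε ≤ s'`: otherwise (`S_inp` (g)) there are arbitrarily small `ε` with `Rch (y' ε) (y t)`, `Le B (y t) (y' ε)`, and `t_lim` (first part, `b = y t` NS, `x = y' 0`): `Le B (y t) (y' 0)`, so `y t` is
semi-good: contradiction.  (3) the same with `y`, `y'` exchanged.  (4) as in `S_two`: for `0 < t1 < s` there is `ε0 > 0` such that for `0 < ε < ε0` there is `τ ∈ (0, t1]` with `y' ε ~ y τ`.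
(5) Choose `ε_n → 0` and `τ_n → 0` with `y' ε_n = c_n * y τ_n`.  Let `f ∈ B - 0`, `y 0 f < 0`: `c_n = y' ε_n f / y τ_n f → c := y' 0 f / y 0 f ≥ 0` and `y' 0 h = c * y 0 h` for all `h ∈ B - 0` (continuity, `t_dense` (b)), hence for all `h ∈ K` (`Bs.frac`), and `c ≠ 0` because `y' 0` is nontrivial. -/
def S_tws : Prop :=
  ∀ (p : ℕ) [Fact p.Prime] (k K : Type) [Field k] [CharP k p] [PerfectRing k p] [Field K]
    [Algebra k K] (n : ℕ) (g : Fin n → K) (φ : K → K) (R : K → ℝ) (ι : K ≃+* K) (s0 : K),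
    CtxZ k p φ g R ι s0 → ∀ (σ s s' : ℝ) (y y' : ℝ → K → ℝ) (M M' : K → Finset (ℝ × ℝ)),
    CL k p φ g 0 s y M → CL k p φ g 0 s' y' M' → SG (Br k g) (y 0) → SG (Br k g) (y' 0) →
    (∀ t, 0 < t → t ≤ s → InP k p φ g R s0 σ (y t)) →
    (∀ t, 0 < t → t ≤ s' → InP k p φ g R s0 σ (y' t)) →
    (∀ t, 0 < t → t < s → DesL (Br k g) M t) → (∀ t, 0 < t → t < s' → DesL (Br k g) M' t) →
    Pr (y 0) (y' 0)

/-! ## 6. CASE A: `P_σ` and `P_(-σ)` meet -/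

/-- [CZP atop] (about 200 lines) Uses `S_sep`, `S_gpr`, `S_inp`, `S_close`, `S_dnl`, `S_btw`, `S_rch`, `S_anti`. THE TOP OF THE INTERSECTION.
Proof. `x ∈ P_σ`: `Germ σ s1 Y M1`; `S_inp` (f), `S_sep`: there is `e > 0` with `Rch (Y e) x` and `Y e ∉ P_(-σ)`.
(1) Head induction on a chain from `a` to `x` with `a ∈ P_σ`, `a ∉ P_(-σ)`: there is `DnL s1 y M` with `y 0 ∈ P_σ`, `y 0 ∉ P_(-σ)`, `y s1 ∈ P_(-σ)`.  The empty chain is impossible.  Step `Dn a a'`: if `a' ∉ P_(-σ)`: induction hypothesis (`a' ∈ P_σ`, `S_inp` (b)).  If `a' ∈ P_(-σ)`: not `a ~ a'` (`S_inp` (c)), so there is a segment with `a ~ y 0`, `y s1 ~ a'` (`S_inp` (c)).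
(2) `s = inf {t ∈ [0, s1] | y t ∈ P_(-σ)}`.  If `y t ∈ P_(-σ)` and `t ≤ t' ≤ s1` then `y t' ∈ P_(-σ)` (`S_dnl`, `S_inp` (b)).  `y s ∈ P_(-σ)`: clear if `s = s1`; otherwise the line `τ ↦ y (s + τ)` on `[0, s1 - s]` is descending (`S_dnl`) and all its points with `τ > 0` are in `P_(-σ)`: `S_close`.  So `0 < s`; restrict: `DnL s y M` (`S_dnl` with `t = 0`, `t' = s`, `sh 0 M = M`).
(3) `lo`: definition of `s`, and `y t ∈ P_σ` (`S_dnl`, `S_inp` (b)).  (4) `top`: `x' ∈ P_σ ∩ P_(-σ)`.  By `S_inp` (g) (for `σ`) `Rch (y s) x'` (done) or `Rch x' (y s)`.  In the second case, `Rch x' (y 0)` is impossible (`y 0 ∉ P_(-σ)`), so `Rch (y 0) x'`; `S_btw` (line `y`, `x = y 0`, `v = x'`, `b = y s`): `y t ~ x'`, `0 ≤ t ≤ s`; `t < s` is impossible by `lo` and `S_inp` (c); so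
`y s ~ x'` and `Rch (y s) x'` (`S_rch`). -/
def S_atop : Prop :=
  ∀ (p : ℕ) [Fact p.Prime] (k K : Type) [Field k] [CharP k p] [PerfectRing k p] [Field K]
    [Algebra k K] (n : ℕ) (g : Fin n → K) (φ : K → K) (R : K → ℝ) (ι : K ≃+* K) (s0 : K),
    CtxZ k p φ g R ι s0 → ∀ (σ : ℝ) (x : K → ℝ), InP k p φ g R s0 σ x →
    InP k p φ g R s0 (-σ) x → ∃ s y M, TopZ k p φ g R s0 σ s y M

/-- [CZP afix] (about 80 lines) Uses `S_inp`, `S_rch`, `S_ile`, `S_ifix`. THE TOP IS FIXED BY `ι` AND DIVISORIAL.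
Proof. `w = y s`.  `w ∘ ι ∈ P_(-σ)` and `∈ P_(-(-σ)) = P_σ` (`S_inp` (d)).  `TopZ.top`: `Rch w (w ∘ ι)`, `Le B (w ∘ ι) w` (`S_rch`); `w` is NS and at infinity: `S_ile` (first part): `w ∘ ι = w`.  If `w` is not divisorial: `S_ifix` with `t0 = s`: `y t ∘ ι = y t` for some `t ∈ (0, s)`; `y t ∈ P_σ`, so `y t = y t ∘ ι ∈ P_(-σ)`, against `TopZ.lo`. -/
def S_afix : Prop :=
  ∀ (p : ℕ) [Fact p.Prime] (k K : Type) [Field k] [CharP k p] [PerfectRing k p] [Field K]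
    [Algebra k K] (n : ℕ) (g : Fin n → K) (φ : K → K) (R : K → ℝ) (ι : K ≃+* K) (s0 : K),
    CtxZ k p φ g R ι s0 → ∀ σ s y M, TopZ k p φ g R s0 σ s y M →
    (∀ f, y s (ι f) = y s f) ∧ Dv (y s)

/-- [CZP afl] (about 200 lines) Uses `S_afix`, `S_pal`, `S_dnl`, `S_fpb`, `S_up`, `S_inp`, `S_two`, `S_lrf`, `S_segl`, `S_idn`. THE FLAGS OF `b_0` TYPE AT THE TOP.
Proof. `w = y s`, `w ∘ ι = w`, `Dv w` (`S_afix`).  `V0` is a flag (`S_pal`, second part).  `u ∈ DL B M s`, `0 < sd s u` (`S_dnl`, third part): `(u.1, - sd s u) ∈ DV B w (c2 V0)` (`LFl.dl`), divide: `BT`.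
Let `V` be a `b_0` type flag.  `S_fpb`: a line `y'` on `[0, s']`, `y' 0 = w`, right flag `V`, all points NS and at infinity, and (as `V` is of `b_0` type) `DesL` on `(0, s')`.  `y' s' ∈ P` (`S_pal`), so by `S_up` (`σ ≠ 0`: `InP` gives a germ) it is in `P_σ` or in `P_(-σ)`; the same holds for all `y' t`, `0 < t ≤ s'` (`S_segl` on `[t, s']`, `S_dnl`: `Rch (y' s') (y' t)`; `S_inp` (b)).
The line `Y τ = y (s - τ)` on `[0, s]`, exponents `rsh s M` (`t_rsh`): `Y 0 = w`, right flag `V0` (`S_lrf`), `Y τ ∈ P_σ` for `0 < τ ≤ s` (`TopZ.lo`), `DesL` on `(0, s)` (`S_dnl`, second part, and `t_rsh`, third part).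
If `y' t ∈ P_σ`: `S_two` for `Y`, `y'` and `σ`: `Eqv V0 V`.  If `y' t ∈ P_(-σ)`: the line `Y ∘ ι` (`LocZ.icl`) has its points (`τ > 0`) in `P_(-σ)` (`S_inp` (d)), starts at `w ∘ ι = w`, `DesL` (`S_idn`), right flag `V0 ∘ ι` (`S_idn`): `S_two` for `-σ`: `Eqv (V0 ∘ ι) V`. -/
def S_afl : Prop :=
  ∀ (p : ℕ) [Fact p.Prime] (k K : Type) [Field k] [CharP k p] [PerfectRing k p] [Field K]
    [Algebra k K] (n : ℕ) (g : Fin n → K) (φ : K → K) (R : K → ℝ) (ι : K ≃+* K) (s0 : K),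
    CtxZ k p φ g R ι s0 → ∀ σ s y M, TopZ k p φ g R s0 σ s y M → ∀ V0,
    LFl k p φ g y M s V0 → Flag k p φ (y s) V0 ∧ BT (Br k g) (y s) V0 ∧
    ∀ V, Flag k p φ (y s) V → BT (Br k g) (y s) V →
      Eqv V0 V ∨ Eqv (fun f => V0 (ι f)) V

/-- [CZP afin] (about 60 lines) Uses `S_atop`, `S_afix`, `S_afl`, `S_fpb`. CASE A IS IMPOSSIBLE.
Proof. `S_atop`: `TopZ`; `w = y s`; `S_afix`; `V0` = left flag at `s` (`t_lfl`); `w` is NS and at infinity, `InZ w` (`DnL`, `t_line`).  If there is a flag of pole type at `w`: `LocZ.E2`.  Otherwise every flag `V'` at `w` is of `b_0` type (`S_fpb`), so `Eqv V0 V'` or `Eqv (V0 ∘ ι) V'` (`S_afl`); `BT`: `(μ, -1) ∈ DV B w (c2 V0)`, so `0 ≤ c2 V0 f` if `w f = 0`: `LocZ.E3`. -/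
def S_afin : Prop :=
  ∀ (p : ℕ) [Fact p.Prime] (k K : Type) [Field k] [CharP k p] [PerfectRing k p] [Field K]
    [Algebra k K] (n : ℕ) (g : Fin n → K) (φ : K → K) (R : K → ℝ) (ι : K ≃+* K) (s0 : K),
    CtxZ k p φ g R ι s0 → ∀ (σ : ℝ) (x : K → ℝ), InP k p φ g R s0 σ x →
    InP k p φ g R s0 (-σ) x → False

/-! ## 7. CASE B: the bottom -/

/-- [CZP bot] (about 250 lines) Uses `S_ult`, `S_inp`, `S_gex`, `S_rch`, `S_segb`, `S_segl`, `S_dnl`, `S_pal`, `S_anti`. THE BOTTOM OF `P_σ`.  (As `F2/PF/P_bot.lean`.)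
Proof. `I = {w // w ∈ P_σ}` is nonempty (`S_gex`, `S_inp` (h)); any two points are comparable (`S_inp` (g)).  Ultrafilter `U` on `I` containing the sets `{v | Rch w v}`, `w ∈ I`.  `S_ult` (`InZ` and nontrivial: `PZ` is not semi-good).
(a) `m ∈ I` with `m ~ v` for almost all `v`: for `w ∈ I` there is `v` with `Rch w v`, `m ~ v`: `Rch w m` (`S_rch`, first part).  First alternative.
(b) `CL 0 s y M`, and almost all `v ∈ I` are `~ y t` with `t` as small as we like.  Shrink `s` such that all `y t`, `0 < t ≤ s`, are at infinity (`S_anti` (b), (d)).  Choose `v0 ~ y s1`, `0 < s1 < s`, `v0 ∈ I`.  Given `0 < t1 ≤ s1` choose `v ∈ I` with `Rch v0 v` and `v ~ y t'`, `0 < t' < t1`: `Le B (y t') (y s1)`, `y t'` NS.  `S_segb` on `[t', s1]`: all points of `[t', s1]` are NS,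
`DesL` on `(t', s1)`.  So `y t` is NS for `0 < t ≤ s1`, `DesL B M t` for `0 < t < s1`.  `pa`: for `0 < t ≤ s1` the line `τ ↦ y (s1 - τ)` on `[0, s1 - t]` is descending (`S_segl`; nothing to do if `t = s1`), so `Rch (y s1) (y t)` (`S_dnl`), and `y s1 ∈ P_σ` (`S_inp` (c)), so `y t ∈ P_σ` (`S_inp` (b)).
`cof`: for `w ∈ I` and `δ > 0` there is `v` with `Rch w v` and `v ~ y t`, `0 < t < δ`, `t ≤ s1`: `Rch w (y t)`.  So `BotZ σ s1 y M` (restrict `CL`). -/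
def S_bot : Prop :=
  ∀ (p : ℕ) [Fact p.Prime] (k K : Type) [Field k] [CharP k p] [PerfectRing k p] [Field K]
    [Algebra k K] (n : ℕ) (g : Fin n → K) (φ : K → K) (R : K → ℝ) (ι : K ≃+* K) (s0 : K),
    CtxZ k p φ g R ι s0 → ∀ σ : ℝ, σ ≠ 0 →
    (∃ m : K → ℝ, InP k p φ g R s0 σ m ∧ ∀ w, InP k p φ g R s0 σ w → Rch k p φ g w m) ∨
    ∃ s y M, BotZ k p φ g R s0 σ s y M

/-- [CZP bmin] (about 200 lines) Uses `S_afin`, `S_cirr`, `S_mono`, `S_segd`, `S_segl`, `S_dnl`, `S_rch`, `S_anti`, `S_fpb`, `S_pal`, `S_up`, `S_inp`, `S_two`. `P_σ` HAS NO MINIMUM.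
Proof. (*) There is no `v` with `Dn m v` and not `m ~ v`: `v ∈ P_σ` (`S_inp` (b)), so `Rch v m`, and `Rch m v`: `m ~ v` (`S_rch`).  `PZ m` (`S_inp` (a)).
(i) `¬ Dv m`: `S_cirr`; shrink such that all points of the line on `[-s, s]` are NS and at infinity (`t_dense` (c), (d)).  `S_mono`: if `DesR` on `(-s, s)`: `S_segd` with `t = 0`, `t' = s`: `Dn m (y s)`, and not `m ~ y s` (`S_anti` (b)), against (*).  If `DesL`: `S_segl` with `t = -s`, `t' = 0`: a descending line from `y 0 = m` to `y (-s)`, against (*).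
(ii) `Dv m`: a flag `V0` at `m` (`PZ`), and `V1` with `¬ Eqv V0 V1` (`LocZ.l2`).  `S_fpb` for both: if one of them is of pole type there is `DnL s y M` with `y 0 = m`: `Dn m (y s)` and not `m ~ y s` (`S_anti` (b)): against (*).  So both are of `b_0` type: lines `y`, `y'` with `y 0 = m = y' 0`, right flags `V0`, `V1`, `DesL` on the open intervals.
`y s` is in `P_σ` or in `P_(-σ)` (`S_pal`, `S_up`; `σ ≠ 0`); in the second case `m ∈ P_(-σ)` (`S_segl` on `[0, s]`, `S_dnl`: `Rch (y s) m`), against `S_afin`.  So `y s ∈ P_σ`, and all `y t`, `0 < t ≤ s` (`S_segl` on `[t, s]`).  The same for `y'`.  `S_two`: `Eqv V0 V1`, a contradiction. -/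
def S_bmin : Prop :=
  ∀ (p : ℕ) [Fact p.Prime] (k K : Type) [Field k] [CharP k p] [PerfectRing k p] [Field K]
    [Algebra k K] (n : ℕ) (g : Fin n → K) (φ : K → K) (R : K → ℝ) (ι : K ≃+* K) (s0 : K),
    CtxZ k p φ g R ι s0 → ∀ (σ : ℝ) (m : K → ℝ), InP k p φ g R s0 σ m →
    (∀ w, InP k p φ g R s0 σ w → Rch k p φ g w m) → False

/-- [CZP bai] (about 80 lines) Uses `S_anti`, `S_inp`, `S_segl`, `S_dnl`. The limit of the bottom line is at infinity.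
Proof. `y 0` is nontrivial (`t_line`).  Suppose not `AtInf (y 0)`: `R ~ y 0` (`S_anti` (d)), so `y 0` is NS (`S_anti` (e), `t_pr`).  Fix `0 < t < s`.  For `0 < t' < t`: `S_segl` on `[t', t]`, `S_dnl`: `Le B (y t') (y t)`.  `t' → 0`: `t_lim` (second part; `b = y t` at infinity, `x = y 0` NS): `Le B (y 0) (y t)`, so `0 ≤ y 0 f ≤ c * y t f` on `B - 0`, against `AtInf (y t)`. -/
def S_bai : Prop :=
  ∀ (p : ℕ) [Fact p.Prime] (k K : Type) [Field k] [CharP k p] [PerfectRing k p] [Field K]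
    [Algebra k K] (n : ℕ) (g : Fin n → K) (φ : K → K) (R : K → ℝ) (ι : K ≃+* K) (s0 : K),
    CtxZ k p φ g R ι s0 → ∀ σ s y M, BotZ k p φ g R s0 σ s y M → AtInf (Br k g) (y 0)

/-- [CZP bnd] (about 80 lines) Uses `S_bai`, `S_segl`, `S_dnl`, `S_inp`. An NS limit is a minimum of `P_σ`.
Proof. `AtInf (y 0)` (`S_bai`); all points of `[0, s)` are NS and at infinity (`BotZ.pa`, `S_inp` (a)).  For `0 < t < s`: `S_segl` on `[0, t]`, `S_dnl`: `Rch (y t) (y 0)`, so `y 0 ∈ P_σ`.  For `w ∈ P_σ`: `Rch w (y t)` for some `0 < t < s` (`BotZ.cof` with `δ = s`), so `Rch w (y 0)`. -/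
def S_bnd : Prop :=
  ∀ (p : ℕ) [Fact p.Prime] (k K : Type) [Field k] [CharP k p] [PerfectRing k p] [Field K]
    [Algebra k K] (n : ℕ) (g : Fin n → K) (φ : K → K) (R : K → ℝ) (ι : K ≃+* K) (s0 : K),
    CtxZ k p φ g R ι s0 → ∀ σ s y M, BotZ k p φ g R s0 σ s y M → ¬ SG (Br k g) (y 0) →
    ∃ m : K → ℝ, InP k p φ g R s0 σ m ∧ ∀ w, InP k p φ g R s0 σ w → Rch k p φ g w m

/-- [CZP asd] (about 120 lines) Uses `S_nsn`, `S_pal`, `S_up`, `S_segl`, `S_dnl`, `S_inp`, `S_anti`. A LINE WHICH STARTS AT A SEMI-GOOD POINT.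
Proof. `y 0` is nontrivial and semi-good: `AtInf (y 0)` (`S_anti` (c)); shrink `s` such that all points are at infinity (`t_dense` (d), `t_line`).  `S_nsn`: NS and `DesL` on `(0, s)`.  `s1 = s / 2`; `PZ (y s1)` (`S_pal`), `S_up`: `y s1 ∈ P_σ` or `P_(-σ)`; the same for all `y t`, `0 < t ≤ s1` (`S_segl` on `[t, s1]`, `S_dnl`: `Rch (y s1) (y t)`; `S_inp` (b)). -/
def S_asd : Prop :=
  ∀ (p : ℕ) [Fact p.Prime] (k K : Type) [Field k] [CharP k p] [PerfectRing k p] [Field K]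
    [Algebra k K] (n : ℕ) (g : Fin n → K) (φ : K → K) (R : K → ℝ) (ι : K ≃+* K) (s0 : K),
    CtxZ k p φ g R ι s0 → ∀ (s : ℝ) (y : ℝ → K → ℝ) (M : K → Finset (ℝ × ℝ)),
    CL k p φ g 0 s y M → SG (Br k g) (y 0) → ∀ σ : ℝ, σ ≠ 0 →
    ∃ s1, 0 < s1 ∧ s1 ≤ s ∧ (∀ t, 0 < t → t < s1 → DesL (Br k g) M t) ∧
      ((∀ t, 0 < t → t ≤ s1 → InP k p φ g R s0 σ (y t)) ∨
        ∀ t, 0 < t → t ≤ s1 → InP k p φ g R s0 (-σ) (y t))

/-- [CZP bsi] (about 150 lines) Uses `S_afin`, `S_asd`, `S_two`, `S_tws`, `S_ile`, `S_ifix`, `S_inp`, `S_idn`, `S_anti`. The limit is not an irrational semi-good point.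
Proof. `m = y 0`: at infinity (`S_anti` (c)).  `t_irr`: extend the line to `[-δ, s]` (same `M`; write `y` again).  The line `Y τ = y (0 - τ)` on `[0, δ]`, exponents `rsh 0 M` (`t_rsh`), starts at `m`; `S_asd`: `0 < s1 ≤ δ`, `DesL` on `(0, s1)`, and all `Y τ`, `0 < τ ≤ s1`, are in `P_σ` or all are in `P_(-σ)`.
In `P_σ`: `S_two` for `y` on `[0, s]`, `Y` on `[0, s1]`: `Y ε ~ y τ` for some `ε, τ > 0`: `y (-ε) ~ y τ`, against `S_anti` (b) on `[-δ, s]`.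
In `P_(-σ)`: `y ∘ ι` on `[0, s]` (`LocZ.icl`): its points (`t > 0`) are in `P_(-σ)` (`S_inp` (d)), `DesL` (`S_idn`), it starts at the semi-good point `m ∘ ι`.  `S_tws` (for `-σ`; `Y`, `y ∘ ι`): `m ~ m ∘ ι`; `S_ile` (second part): `m ∘ ι = m`.  `S_ifix` at `t0 = 0` on `[-δ, s]`: `y t ∘ ι = y t` for some `t ∈ (0, s)`; so `y t ∈ P_σ ∩ P_(-σ)`, against `S_afin`. -/
def S_bsi : Prop :=
  ∀ (p : ℕ) [Fact p.Prime] (k K : Type) [Field k] [CharP k p] [PerfectRing k p] [Field K]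
    [Algebra k K] (n : ℕ) (g : Fin n → K) (φ : K → K) (R : K → ℝ) (ι : K ≃+* K) (s0 : K),
    CtxZ k p φ g R ι s0 → ∀ σ s y M, BotZ k p φ g R s0 σ s y M → SG (Br k g) (y 0) →
    ¬ Dv (y 0) → False

/-- [CZP bsf] (about 200 lines) Uses `S_asd`, `S_cflag`, `S_pal`, `S_two`, `S_tws`, `S_ile`, `S_inp`, `S_idn`, `S_anti`. A DIVISORIAL SEMI-GOOD LIMIT IS FIXED BY `ι`, its flags are `V`, `V ∘ ι`.
Proof. `m = y 0`: `AtInf m` (`S_anti` (c)), nontrivial.  `V` is a flag (`S_pal`).  CLAIM: let `V1` be a flag at `m`, `¬ Eqv V V1`.  Then `m ∘ ι = m` and `Eqv (V ∘ ι) V1`.  `S_cflag`: a line `y1` on `[0, s1']`, `y1 0 = m`, right flag `V1`; `S_asd` (`σ ≠ 0`: `InP` gives a germ): after shrinking `DesL` and all `y1 t` (`t > 0`) in `P_σ` or all in `P_(-σ)`.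
In `P_σ`: `S_two` for `y`, `y1`: `Eqv V V1`, a contradiction.  In `P_(-σ)`: `y ∘ ι` (`LocZ.icl`) has its points in `P_(-σ)` (`S_inp` (d)), `DesL` (`S_idn`), starts at the semi-good point `m ∘ ι`: `S_tws` (for `-σ`; `y1`, `y ∘ ι`): `m ~ m ∘ ι`, `S_ile` (second part): `m ∘ ι = m`; `S_two` (for `-σ`; `y ∘ ι`, `y1`; right flag `V ∘ ι` by `S_idn`): `Eqv (V ∘ ι) V1`.
`LocZ.l2` gives such a `V1`, so `m ∘ ι = m`. -/
def S_bsf : Prop :=
  ∀ (p : ℕ) [Fact p.Prime] (k K : Type) [Field k] [CharP k p] [PerfectRing k p] [Field K]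
    [Algebra k K] (n : ℕ) (g : Fin n → K) (φ : K → K) (R : K → ℝ) (ι : K ≃+* K) (s0 : K),
    CtxZ k p φ g R ι s0 → ∀ σ s y M, BotZ k p φ g R s0 σ s y M → SG (Br k g) (y 0) →
    Dv (y 0) → (∀ f, y 0 (ι f) = y 0 f) ∧ ∀ V, RFl k p φ g y M 0 V → Flag k p φ (y 0) V ∧
      ∀ V', Flag k p φ (y 0) V' → Eqv V V' ∨ Eqv (fun f => V (ι f)) V'

/-- [CZP bsd] (about 150 lines) Uses `S_bsf`, `S_zbot`, `S_inp`, `S_anti`. The limit is not a divisorial semi-good point.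
Proof. `m = y 0`: `AtInf m` (`S_anti` (c)).  `V` = right flag at `0` (`t_rfl`); `S_bsf`.  Fix `0 < t < s`; `S_zbot`: `u ∈ DL B M t`, `sd t u < 0`, strict on `I`.  `sd 0 u = u.2 ≤ 0`: otherwise `t * u.1 > u.2 > 0`, so `u.1 > 0`, `r = u.2 / u.1 ∈ (0, t)` and `u = (u.1, u.1 * r)`: `t_key` (a) makes `y r` semi-good, against `BotZ.pa`, `S_inp` (a).
(i) `u.2 < 0`: `t_persL` from `t` to `0`: `y 0 f ≤ c * y t f` on `B - 0` with `c = sd 0 u / sd t u > 0`.  Let `0 ≠ f ∈ B`, `y 0 f = 0`: `0 ≤ y t f`; all `m ∈ M f` have `0 ≤ m.1` and `0 ≤ y t f ≤ m.1 + t * m.2`, so `0 ≤ m.1 + ε * m.2` for `0 ≤ ε ≤ t` and `0 ≤ y ε f` (`Line.ex`); `RFl.near`: `y ε f = ε * c2 V f` for small `ε > 0`: `0 ≤ c2 V f`.  `LocZ.E3`.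
(ii) `u.2 = 0`: `u.1 > 0`.  Let `0 ≠ f ∈ B`, `0 < R f`, `m` the left exponent of `M f` at `t`: `dot u m = u.1 * m.1 < 0`, so `m.1 < 0` and `y 0 f ≤ m.1 + 0 * m.2 < 0` (`Line.le`).  `LocZ.E4`. -/
def S_bsd : Prop :=
  ∀ (p : ℕ) [Fact p.Prime] (k K : Type) [Field k] [CharP k p] [PerfectRing k p] [Field K]
    [Algebra k K] (n : ℕ) (g : Fin n → K) (φ : K → K) (R : K → ℝ) (ι : K ≃+* K) (s0 : K),
    CtxZ k p φ g R ι s0 → ∀ σ s y M, BotZ k p φ g R s0 σ s y M → SG (Br k g) (y 0) →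
    Dv (y 0) → False

/-- [CZP fin] (about 30 lines) Uses `S_bot`, `S_bmin`, `S_bnd`, `S_bsi`, `S_bsd`. THE LOCAL FACTS ARE CONTRADICTORY.
Proof. `S_bot` with `σ = 1`.  First alternative: `S_bmin`.  Second alternative: `y 0` NS: `S_bnd`, `S_bmin`; `y 0` semi-good: `S_bsd` or `S_bsi` according to `Dv (y 0)`. -/
def S_fin : Prop :=
  ∀ (p : ℕ) [Fact p.Prime] (k K : Type) [Field k] [CharP k p] [PerfectRing k p] [Field K]
    [Algebra k K] (n : ℕ) (g : Fin n → K) (φ : K → K) (R : K → ℝ) (ι : K ≃+* K) (s0 : K),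
    ¬ CtxZ k p φ g R ι s0

end Pool.Agent.CZP
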